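import Pool.Agent.H750.VdB

set_option autoImplicit false

/-! # The Arf invariant of the quadratic forms of even unitary matrices -/

namespace Pool.Agent.H750.P

open Matrix

variable {n : ℕ}

/-- The sign of an element of `ZMod 2`. -/
def chi (a : ZMod 2) : ℤ := if a = 0 then 1 else -1

theorem chi_add (a b : ZMod 2) : chi (a + b) = chi a * chi b := by
  revert a b
  decide

theorem chi_zero : chi 0 = 1 := rfl

theorem chi_sum {ι : Type*} (s : Finset ι) (h : ι → ZMod 2) :
    chi (∑ i ∈ s, h i) = ∏ i ∈ s, chi (h i) := by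
  classical
  induction s using Finset.induction_on with
  | empty => rw [Finset.sum_empty, Finset.prod_empty, chi_zero]
  | insert i s hi ih => rw [Finset.sum_insert hi, Finset.prod_insert hi, chi_add, ih]

/-- The hyperbolic quadratic form modulo two. -/
def q2 (x : Fin n ⊕ Fin n → ZMod 2) : ZMod 2 := ∑ k, x (Sum.inl k) * x (Sum.inr k)

theorem gauss : ∑ x : Fin n ⊕ Fin n → ZMod 2, chi (q2 x) = 2 ^ n := by
  have h1 : ∑ x : Fin n ⊕ Fin n → ZMod 2, chi (q2 x) =
      ∑ y : Fin n → ZMod 2 × ZMod 2, ∏ k, chi ((y k).1 * (y k).2) := by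
    refine Fintype.sum_bijective
      (fun (x : Fin n ⊕ Fin n → ZMod 2) (k : Fin n) => (x (Sum.inl k), x (Sum.inr k))) ?_ _ _ ?_
    · constructor
      · intro x y h
        funext k
        rcases k with k | k
        · exact congrArg Prod.fst (congrFun h k)
        · exact congrArg Prod.snd (congrFun h k)
      · intro y
        exact ⟨Sum.elim (fun k => (y k).1) (fun k => (y k).2), rfl⟩
    · intro x
      unfold q2
      rw [chi_sum]
  rw [h1]
  have h2 := Finset.prod_univ_sum (fun _ : Fin n => (Finset.univ : Finset (ZMod 2 × ZMod 2)))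
    (fun _ y => chi (y.1 * y.2))
  rw [Fintype.piFinset_univ] at h2
  rw [← h2]
  have h3 : ∑ y : ZMod 2 × ZMod 2, chi (y.1 * y.2) = 2 := by decide
  rw [Finset.prod_congr rfl (fun _ _ => h3)]
  simp

theorem q2_add (x w : Fin n ⊕ Fin n → ZMod 2) : q2 (x + w) = q2 x + q2 w +
    ∑ k, (x (Sum.inl k) * w (Sum.inr k) + x (Sum.inr k) * w (Sum.inl k)) := by
  unfold q2
  rw [← Finset.sum_add_distrib, ← Finset.sum_add_distrib]
  refine Finset.sum_congr rfl fun k _ => ?_
  simp only [Pi.add_apply]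
  ring

/-- If the quadratic form changes by a linear form under a bijective change of variables, the linear
form is given by a singular vector. -/
theorem arf (φ : (Fin n ⊕ Fin n → ZMod 2) ≃ (Fin n ⊕ Fin n → ZMod 2)) (s : Fin n ⊕ Fin n → ZMod 2)
    (h : ∀ x, q2 (φ x) = q2 x + ∑ k, (x (Sum.inl k) * s (Sum.inl k) +
      x (Sum.inr k) * s (Sum.inr k))) : q2 s = 0 := by
  set w : Fin n ⊕ Fin n → ZMod 2 := Sum.elim (fun k => s (Sum.inr k)) (fun k => s (Sum.inl k))
    with hw
  have hqw : q2 w = q2 s := by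
    unfold q2
    refine Finset.sum_congr rfl fun k _ => ?_
    rw [hw]
    simp only [Sum.elim_inl, Sum.elim_inr]
    ring
  have h2 : ∀ r : ZMod 2, r + r = 0 := by decide
  have h3 : ∀ x, q2 (φ x) = q2 (x + w) + q2 w := by
    intro x
    rw [h, q2_add, add_assoc (q2 x), add_comm (q2 w), ← add_assoc, add_assoc _ (q2 w) (q2 w), h2,
      add_zero]
    rfl
  have h4 : ∑ x, chi (q2 (φ x)) = ∑ x, chi (q2 x) :=
    Equiv.sum_comp φ (fun x => chi (q2 x))
  have h5 : ∑ x : Fin n ⊕ Fin n → ZMod 2, chi (q2 (x + w)) = ∑ x, chi (q2 x) :=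
    Equiv.sum_comp (Equiv.addRight w) (fun x => chi (q2 x))
  have h6 : ∑ x, chi (q2 (φ x)) = (∑ x : Fin n ⊕ Fin n → ZMod 2, chi (q2 x)) * chi (q2 w) := by
    rw [← h5, Finset.sum_mul]
    refine Finset.sum_congr rfl fun x _ => ?_
    rw [h3, chi_add]
  rw [h4, gauss] at h6
  have h7 : chi (q2 w) = 1 := by
    have h8 : (2 : ℤ) ^ n ≠ 0 := by positivity
    exact (mul_right_eq_self₀.mp h6.symm).resolve_right h8
  rw [← hqw]
  unfold chi at h7
  by_contra h9
  rw [if_neg h9] at h7
  norm_num at h7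

/-- The diagonal of `g H gᵀ - H` is a singular vector, for matrices `g` such that `g H gᵀ - H` is
symmetric. -/
theorem arf_matrix (g g' : Matrix (Fin n ⊕ Fin n) (Fin n ⊕ Fin n) ℤ) (hg : g * g' = 1)
    (hg' : g' * g = 1) (θ : Matrix (Fin n ⊕ Fin n) (Fin n ⊕ Fin n) ℤ) (hθ : θᵀ = θ)
    (h : g * fromBlocks 0 1 0 0 * gᵀ = fromBlocks 0 1 0 0 + θ) :
    Even (∑ k, θ (Sum.inl k) (Sum.inl k) * θ (Sum.inr k) (Sum.inr k)) := by
  set c : ℤ →+* ZMod 2 := Int.castRingHom (ZMod 2) with hc
  set γ := g.map c with hγ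
  set γ' := g'.map c with hγ'
  have h1 : γ * γ' = 1 := by
    rw [hγ, hγ', ← Matrix.map_mul, hg, Matrix.map_one _ (map_zero _) (map_one _)]
  have h1' : γ' * γ = 1 := by
    rw [hγ, hγ', ← Matrix.map_mul, hg', Matrix.map_one _ (map_zero _) (map_one _)]
  set H : Matrix (Fin n ⊕ Fin n) (Fin n ⊕ Fin n) (ZMod 2) := fromBlocks 0 1 0 0 with hH
  have h2 : γ * H * γᵀ = H + θ.map c := by
    have h3 := congrArg (fun M => Matrix.map M c) h
    simp only [Matrix.map_mul] at h3
    rw [Matrix.map_add _ (fun a b => map_add c a b), Matrix.fromBlocks_map,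
      Matrix.map_zero _ (map_zero _),
      Matrix.map_one _ (map_zero _) (map_one _)] at h3
    exact h3
  have hq : ∀ x : Fin n ⊕ Fin n → ZMod 2, q2 x = x ⬝ᵥ (H *ᵥ x) := by
    intro x
    unfold q2
    rw [hH]
    simp [dotProduct, Matrix.fromBlocks_mulVec, Fintype.sum_sum_type]
  let φ : (Fin n ⊕ Fin n → ZMod 2) ≃ (Fin n ⊕ Fin n → ZMod 2) :=
    { toFun := fun x => x ᵥ* γ
      invFun := fun x => x ᵥ* γ'
      left_inv := fun x => by
        change (x ᵥ* γ) ᵥ* γ' = x
        rw [vecMul_vecMul, h1, vecMul_one]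
      right_inv := fun x => by
        change (x ᵥ* γ') ᵥ* γ = x
        rw [vecMul_vecMul, h1', vecMul_one] }
  have h4 := arf φ (fun k => c (θ k k)) (by
    intro x
    change q2 (x ᵥ* γ) = _
    have h5 : q2 (x ᵥ* γ) = x ⬝ᵥ ((γ * H * γᵀ) *ᵥ x) := by
      rw [hq, ← Matrix.mulVec_mulVec, ← Matrix.mulVec_mulVec, Matrix.mulVec_transpose,
        Matrix.dotProduct_mulVec x γ]
    rw [h5, h2, Matrix.add_mulVec, dotProduct_add, ← hq]
    congr 1
    have h6 : x ⬝ᵥ (θ.map c *ᵥ x) = ∑ k, ∑ l, x k * c (θ k l) * x l := by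
      unfold dotProduct Matrix.mulVec
      refine Finset.sum_congr rfl fun k _ => ?_
      unfold dotProduct
      rw [Finset.mul_sum]
      refine Finset.sum_congr rfl fun l _ => ?_
      exact (mul_assoc (x k) (c (θ k l)) (x l)).symm
    have h7 : ∀ r : ZMod 2, r + r = 0 := by decide
    rw [h6, sum_symm_two h7 (fun k l => x k * c (θ k l) * x l), Fintype.sum_sum_type,
      ← Finset.sum_add_distrib]
    · refine Finset.sum_congr rfl fun k _ => ?_
      have h8 : ∀ a b : ZMod 2, a * b * a = a * b := by decide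
      rw [h8, h8]
    · intro k l
      have h9 : θ k l = θ l k := by
        conv_lhs => rw [← hθ]
        rfl
      rw [h9]
      ring)
  unfold q2 at h4
  rw [← ZMod.intCast_eq_zero_iff_even, ← h4]
  push_cast
  rfl

end Pool.Agent.H750.P
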