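import Pool.Agent.H750.P.OddMap

set_option autoImplicit false

/-! # Eichler transformations -/

namespace Pool.Agent.H750.P

open Matrix

variable {A : Type*} [Ring A] [StarRing A] {e : ℤˣ}

section uq

variable {σ : Type*} [Fintype σ] [DecidableEq σ]

/-- The unitary group of a quadratic form. -/
def UQ (Λ : FormParam A e) (ψ : Matrix σ σ A) : Subgroup (Matrix σ σ A)ˣ where
  carrier := {P | Triv Λ (P.val * ψ * P.valᴴ - ψ)}
  one_mem' := by
    change Triv Λ ((1 : Matrix σ σ A) * ψ * (1 : Matrix σ σ A)ᴴ - ψ)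
    rw [conjTranspose_one, Matrix.one_mul, Matrix.mul_one, sub_self]
    exact triv_zero
  mul_mem' := by
    intro P Q hP hQ
    have hP' : Triv Λ (P.val * ψ * P.valᴴ - ψ) := hP
    have hQ' : Triv Λ (Q.val * ψ * Q.valᴴ - ψ) := hQ
    change Triv Λ ((P.val * Q.val) * ψ * (P.val * Q.val)ᴴ - ψ)
    have h1 := (hQ'.conj P.val).add hP'
    have h2 : (P.val * Q.val) * ψ * (P.val * Q.val)ᴴ - ψ =
        P.val * (Q.val * ψ * Q.valᴴ - ψ) * P.valᴴ + (P.val * ψ * P.valᴴ - ψ) := by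
      rw [conjTranspose_mul, Matrix.mul_sub, Matrix.sub_mul]
      simp only [Matrix.mul_assoc]
      abel
    rw [h2]; exact h1
  inv_mem' := by
    intro P hP
    have hP' : Triv Λ (P.val * ψ * P.valᴴ - ψ) := hP
    change Triv Λ ((P⁻¹).val * ψ * (P⁻¹).valᴴ - ψ)
    have h1 := (hP'.conj (P⁻¹).val).neg
    have h3 : P.valᴴ * (P⁻¹).valᴴ = 1 := by
      rw [← conjTranspose_mul, P.inv_mul, conjTranspose_one]
    have h2 : (P⁻¹).val * ψ * (P⁻¹).valᴴ - ψ =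
        -((P⁻¹).val * (P.val * ψ * P.valᴴ - ψ) * (P⁻¹).valᴴ) := by
      have h4 : (P⁻¹).val * (P.val * ψ * P.valᴴ) * (P⁻¹).valᴴ = ψ := by
        calc (P⁻¹).val * (P.val * ψ * P.valᴴ) * (P⁻¹).valᴴ =
            ((P⁻¹).val * P.val) * ψ * (P.valᴴ * (P⁻¹).valᴴ) := by
              simp only [Matrix.mul_assoc]
          _ = _ := by rw [P.inv_mul, h3, Matrix.one_mul, Matrix.mul_one]
      rw [Matrix.mul_sub, Matrix.sub_mul, h4, neg_sub]
    rw [h2]; exact h1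

theorem mem_UQ {Λ : FormParam A e} {ψ : Matrix σ σ A} {P : (Matrix σ σ A)ˣ} :
    P ∈ UQ Λ ψ ↔ Triv Λ (P.val * ψ * P.valᴴ - ψ) := Iff.rfl

/-- Two unitary matrices with the same effect on the diagonal of the form differ by a unitary matrix
for the smaller form parameter. -/
theorem inv_mul_mem {Λ Λ' : FormParam A e} {ψ : Matrix σ σ A} {P Q : (Matrix σ σ A)ˣ}
    (hP : P ∈ UQ Λ' ψ) (hQ : Q ∈ UQ Λ' ψ)
    (h : ∀ i, (P.val * ψ * P.valᴴ - Q.val * ψ * Q.valᴴ) i i ∈ Λ.carrier) :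
    Q⁻¹ * P ∈ UQ Λ ψ := by
  rw [mem_UQ] at hP hQ ⊢
  have h1 : Triv Λ (P.val * ψ * P.valᴴ - Q.val * ψ * Q.valᴴ) := by
    refine ⟨?_, h⟩
    have h2 := (hP.sub hQ).1
    rw [sub_sub_sub_cancel_right] at h2
    exact h2
  have h3 := h1.conj (Q⁻¹).val
  have h4 : Q.valᴴ * (Q⁻¹).valᴴ = 1 := by
    rw [← conjTranspose_mul, Q.inv_mul, conjTranspose_one]
  have h5 : (Q⁻¹ * P).val * ψ * ((Q⁻¹ * P).val)ᴴ - ψ =
      (Q⁻¹).val * (P.val * ψ * P.valᴴ - Q.val * ψ * Q.valᴴ) * (Q⁻¹).valᴴ := by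
    have h6 : (Q⁻¹).val * (Q.val * ψ * Q.valᴴ) * (Q⁻¹).valᴴ = ψ := by
      calc (Q⁻¹).val * (Q.val * ψ * Q.valᴴ) * (Q⁻¹).valᴴ =
          ((Q⁻¹).val * Q.val) * ψ * (Q.valᴴ * (Q⁻¹).valᴴ) := by
            simp only [Matrix.mul_assoc]
        _ = _ := by rw [Q.inv_mul, h4, Matrix.one_mul, Matrix.mul_one]
    rw [Matrix.mul_sub, Matrix.sub_mul, h6, Units.val_mul, conjTranspose_mul]
    simp only [Matrix.mul_assoc]
  rw [h5]; exact h3

/-- Unitary matrices preserve the hermitian form. -/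
theorem herm_of_mem {Λ : FormParam A e} {ψ : Matrix σ σ A} {P : (Matrix σ σ A)ˣ}
    (hP : P ∈ UQ Λ ψ) : P.val * (ψ + (e : ℤ) • ψᴴ) * P.valᴴ = ψ + (e : ℤ) • ψᴴ := by
  rw [mem_UQ] at hP
  have h5 := triv_herm hP
  rw [← sub_eq_zero, ← h5, conjTranspose_sub, conjTranspose_mul, conjTranspose_mul,
    conjTranspose_conjTranspose, Matrix.mul_add, Matrix.add_mul, Matrix.mul_smul,
    Matrix.smul_mul, smul_sub]
  simp only [Matrix.mul_assoc]
  abel

end uq

/-- The index set for `n + 1` hyperbolic planes, the last one singled out. -/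
abbrev Ci (n : ℕ) := (Fin n ⊕ Fin n) ⊕ (Fin 1 ⊕ Fin 1)

/-- The hyperbolic form with this index set. -/
def psiC (A : Type*) [Ring A] (n : ℕ) : Matrix (Ci n) (Ci n) A :=
  fromBlocks (hyp A (Fin n)) 0 0 (hyp A (Fin 1))

/-- Renumbering. -/
def tauM (A : Type*) [Ring A] {n : ℕ} (f : Fin (n + 1) ≃ Fin n ⊕ Fin 1) :
    Matrix (Ci n) (Ci n) A →* Matrix (Fin (n + 1) ⊕ Fin (n + 1)) (Fin (n + 1) ⊕ Fin (n + 1)) A where
  toFun M := M.submatrix (stEquiv f) (stEquiv f)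
  map_one' := Matrix.submatrix_one_equiv _
  map_mul' M N := by rw [Matrix.submatrix_mul_equiv]

/-- Renumbering of invertible matrices. -/
def tau (A : Type*) [Ring A] {n : ℕ} (f : Fin (n + 1) ≃ Fin n ⊕ Fin 1) :
    (Matrix (Ci n) (Ci n) A)ˣ →*
      (Matrix (Fin (n + 1) ⊕ Fin (n + 1)) (Fin (n + 1) ⊕ Fin (n + 1)) A)ˣ := Units.map (tauM A f)

variable {n : ℕ} {f : Fin (n + 1) ≃ Fin n ⊕ Fin 1} {Λ : FormParam A e}

theorem tau_mem {P : (Matrix (Ci n) (Ci n) A)ˣ} (hP : P ∈ UQ Λ (psiC A n)) :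
    tau A f P ∈ UG Λ (n + 1) := by
  rw [mem_UG]
  have h2 := hP.submatrix (stEquiv f)
  have h3 : (tau A f P).val * hyp A (Fin (n + 1)) * ((tau A f P).val)ᴴ - hyp A (Fin (n + 1)) =
      (P.val * psiC A n * P.valᴴ - psiC A n).submatrix (stEquiv f) (stEquiv f) := by
    change P.val.submatrix (stEquiv f) (stEquiv f) * hyp A (Fin (n + 1)) *
      (P.val.submatrix (stEquiv f) (stEquiv f))ᴴ - hyp A (Fin (n + 1)) = _
    rw [stM_hyp f, conjTranspose_submatrix, Matrix.submatrix_mul_equiv,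
      Matrix.submatrix_mul_equiv]
    rfl
  rw [h3]; exact h2

/-- The stabilisation of matrices. -/
def hatM (A : Type*) [Ring A] (n : ℕ) : Matrix (Fin n ⊕ Fin n) (Fin n ⊕ Fin n) A →*
    Matrix (Ci n) (Ci n) A where
  toFun M := fromBlocks M 0 0 1
  map_one' := Matrix.fromBlocks_one
  map_mul' M N := by
    rw [Matrix.fromBlocks_multiply]
    simp

/-- The stabilisation of invertible matrices. -/
def hat (A : Type*) [Ring A] (n : ℕ) : (Matrix (Fin n ⊕ Fin n) (Fin n ⊕ Fin n) A)ˣ →*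
    (Matrix (Ci n) (Ci n) A)ˣ := Units.map (hatM A n)

theorem hat_val (P : (Matrix (Fin n ⊕ Fin n) (Fin n ⊕ Fin n) A)ˣ) :
    (hat A n P).val = fromBlocks P.val 0 0 1 := rfl

theorem hat_mem {P : (Matrix (Fin n ⊕ Fin n) (Fin n ⊕ Fin n) A)ˣ} (hP : P ∈ UG Λ n) :
    hat A n P ∈ UQ Λ (psiC A n) := by
  rw [mem_UQ, hat_val]
  have h1 : Triv Λ (P.val * hyp A (Fin n) * P.valᴴ - hyp A (Fin n)) := hP
  have h2 := h1.fromBlocks (triv_zero (ι := Fin 1 ⊕ Fin 1) (Λ := Λ))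
  have h3 : fromBlocks P.val 0 0 1 * psiC A n * (fromBlocks P.val 0 0 1)ᴴ - psiC A n =
      fromBlocks (P.val * hyp A (Fin n) * P.valᴴ - hyp A (Fin n)) 0 0 0 := by
    unfold psiC
    rw [fromBlocks_conjTranspose, Matrix.fromBlocks_multiply, Matrix.fromBlocks_multiply,
      sub_eq_add_neg, fromBlocks_neg, fromBlocks_add]
    simp [sub_eq_add_neg]
  rw [h3]; exact h2

open Classical in
/-- The class of an invertible matrix with the index set `Ci n`, zero if the matrix is not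
unitary. -/
noncomputable def cC (Λ : FormParam A e) {n : ℕ} (f : Fin (n + 1) ≃ Fin n ⊕ Fin 1)
    (P : (Matrix (Ci n) (Ci n) A)ˣ) : L1 Λ :=
  if h : P ∈ UQ Λ (psiC A n) then L1.mk ⟨tau A f P, tau_mem h⟩ else 0

theorem cC_eq {P : (Matrix (Ci n) (Ci n) A)ˣ} (h : P ∈ UQ Λ (psiC A n)) :
    cC Λ f P = L1.mk ⟨tau A f P, tau_mem h⟩ := dif_pos h

theorem cC_mul {P Q : (Matrix (Ci n) (Ci n) A)ˣ} (hP : P ∈ UQ Λ (psiC A n))
    (hQ : Q ∈ UQ Λ (psiC A n)) : cC Λ f (P * Q) = cC Λ f P + cC Λ f Q := by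
  rw [cC_eq hP, cC_eq hQ, cC_eq (mul_mem hP hQ), ← L1.mk_mul]
  congr 1
  exact Subtype.ext (map_mul _ _ _)

theorem cC_inv {P : (Matrix (Ci n) (Ci n) A)ˣ} (hP : P ∈ UQ Λ (psiC A n)) :
    cC Λ f P⁻¹ = -cC Λ f P := by
  rw [cC_eq hP, cC_eq (inv_mem hP), ← L1.mk_inv]
  congr 1

theorem cC_conj {u P : (Matrix (Ci n) (Ci n) A)ˣ} (hu : u ∈ UQ Λ (psiC A n))
    (hP : P ∈ UQ Λ (psiC A n)) : cC Λ f (u * P * u⁻¹) = cC Λ f P := by
  rw [cC_mul (mul_mem hu hP) (inv_mem hu), cC_mul hu hP, cC_inv hu]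
  abel

theorem cC_hat {P : (Matrix (Fin n ⊕ Fin n) (Fin n ⊕ Fin n) A)ˣ} (hP : P ∈ UG Λ n) :
    cC Λ f (hat A n P) = L1.mk ⟨P, hP⟩ := by
  rw [cC_eq (hat_mem hP), ← L1.mk_stU f]
  rfl

theorem cC_elem {P : (Matrix (Ci n) (Ci n) A)ˣ} (hP : IsElem Λ (tau A f P).val) :
    cC Λ f P = 0 := by
  by_cases h : P ∈ UQ Λ (psiC A n)
  · rw [cC_eq h]
    exact L1.mk_elem _ hP
  · exact dif_neg h

/-! ### Eichler transformations -/

/-- The hermitian form of the hyperbolic form. -/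
def Jm (A : Type*) [Ring A] [StarRing A] (e : ℤˣ) (n : ℕ) :
    Matrix (Fin n ⊕ Fin n) (Fin n ⊕ Fin n) A := hyp A (Fin n) + (e : ℤ) • (hyp A (Fin n))ᴴ

theorem Jm_conj : (Jm A e n)ᴴ = (e : ℤ) • Jm A e n := by
  unfold Jm
  rw [conjTranspose_add, conjTranspose_zsmul, conjTranspose_conjTranspose, smul_add, ee_smul]
  abel

/-- The Eichler transformation. -/
def Ei (e : ℤˣ) (b : Matrix (Fin 1) (Fin n ⊕ Fin n) A) (m : Matrix (Fin 1) (Fin 1) A) :
    Matrix (Ci n) (Ci n) A :=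
  fromBlocks 1 (fromCols 0 (-((e : ℤ) • (Jm A e n * bᴴ)))) (fromRows b 0) (fromBlocks 1 m 0 1)

theorem Ei_mul (b b' : Matrix (Fin 1) (Fin n ⊕ Fin n) A) (m m' : Matrix (Fin 1) (Fin 1) A) :
    Ei e b m * Ei e b' m' = Ei e (b + b') (m + m' - (e : ℤ) • (b * Jm A e n * b'ᴴ)) := by
  unfold Ei
  rw [Matrix.fromBlocks_multiply]
  congr 1
  · rw [fromCols_mul_fromRows]; simp
  · rw [fromCols_mul_fromBlocks, Matrix.one_mul]
    ext1 i j
    rcases j with j | j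
    · simp
    · rw [Matrix.zero_mul, Matrix.zero_mul, zero_add, Matrix.mul_one, conjTranspose_add,
        Matrix.mul_add, smul_add, neg_add_rev, Matrix.add_apply, fromCols_apply_inr,
        fromCols_apply_inr, fromCols_apply_inr, Matrix.add_apply]
      have h0 : (0 : Matrix (Fin n ⊕ Fin n) (Fin 1) A) i j = 0 := rfl
      rw [h0, zero_add]
      rfl
  · rw [fromBlocks_mul_fromRows, Matrix.mul_one]
    ext1 i j
    rcases i with i | i
    · simp
    · simp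
  · rw [fromRows_mul_fromCols, Matrix.fromBlocks_multiply, fromBlocks_add]
    congr 1
    · simp
    · rw [Matrix.mul_neg, Matrix.mul_smul, ← Matrix.mul_assoc]
      simp only [Matrix.one_mul, Matrix.mul_one]
      abel
    · simp
    · simp

theorem Ei_zero : Ei e (0 : Matrix (Fin 1) (Fin n ⊕ Fin n) A) 0 = 1 := by
  unfold Ei
  rw [conjTranspose_zero, Matrix.mul_zero, smul_zero, neg_zero, fromCols_zero, fromRows_zero,
    Matrix.fromBlocks_one, Matrix.fromBlocks_one]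

/-- The Eichler transformation as an invertible matrix. -/
def EiU (e : ℤˣ) (b : Matrix (Fin 1) (Fin n ⊕ Fin n) A) (m : Matrix (Fin 1) (Fin 1) A) :
    (Matrix (Ci n) (Ci n) A)ˣ where
  val := Ei e b m
  inv := Ei e (-b) (-m - (e : ℤ) • (b * Jm A e n * bᴴ))
  val_inv := by
    rw [Ei_mul, add_neg_cancel, conjTranspose_neg, Matrix.mul_neg, smul_neg, sub_neg_eq_add]
    have h : m + (-m - (e : ℤ) • (b * Jm A e n * bᴴ)) + (e : ℤ) • (b * Jm A e n * bᴴ) = 0 := by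
      abel
    rw [h, Ei_zero]
  inv_val := by
    rw [Ei_mul, neg_add_cancel, Matrix.neg_mul, Matrix.neg_mul, smul_neg, sub_neg_eq_add]
    have h : -m - (e : ℤ) • (b * Jm A e n * bᴴ) + m + (e : ℤ) • (b * Jm A e n * bᴴ) = 0 := by
      abel
    rw [h, Ei_zero]

theorem EiU_mul (b b' : Matrix (Fin 1) (Fin n ⊕ Fin n) A) (m m' : Matrix (Fin 1) (Fin 1) A) :
    EiU e b m * EiU e b' m' = EiU e (b + b') (m + m' - (e : ℤ) • (b * Jm A e n * b'ᴴ)) :=
  Units.ext (Ei_mul b b' m m')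

theorem EiU_inv (b : Matrix (Fin 1) (Fin n ⊕ Fin n) A) (m : Matrix (Fin 1) (Fin 1) A) :
    (EiU e b m)⁻¹ = EiU e (-b) (-m - (e : ℤ) • (b * Jm A e n * bᴴ)) := Units.ext rfl

/-- Conjugation of Eichler transformations. -/
theorem hat_Ei {γ : (Matrix (Fin n ⊕ Fin n) (Fin n ⊕ Fin n) A)ˣ} (hγ : γ ∈ UG Λ n)
    (b : Matrix (Fin 1) (Fin n ⊕ Fin n) A) (m : Matrix (Fin 1) (Fin 1) A) :
    hat A n γ * EiU e b m * (hat A n γ)⁻¹ = EiU e (b * (γ⁻¹).val) m := by
  rw [mul_inv_eq_iff_eq_mul]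
  apply Units.ext
  change fromBlocks γ.val 0 0 1 * Ei e b m = Ei e (b * (γ⁻¹).val) m * fromBlocks γ.val 0 0 1
  have h1 : γ.val * Jm A e n * γ.valᴴ = Jm A e n := herm_of_mem (ψ := hyp A (Fin n)) hγ
  have h2 : γ.val * Jm A e n = Jm A e n * (γ⁻¹).valᴴ := by
    have h3 : γ.valᴴ * (γ⁻¹).valᴴ = 1 := by
      rw [← conjTranspose_mul, γ.inv_mul, conjTranspose_one]
    calc γ.val * Jm A e n = γ.val * Jm A e n * (γ.valᴴ * (γ⁻¹).valᴴ) := by
          rw [h3, Matrix.mul_one]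
      _ = (γ.val * Jm A e n * γ.valᴴ) * (γ⁻¹).valᴴ := by simp only [Matrix.mul_assoc]
      _ = _ := by rw [h1]
  unfold Ei
  rw [Matrix.fromBlocks_multiply, Matrix.fromBlocks_multiply]
  congr 1
  · simp
  · rw [Matrix.zero_mul, add_zero, Matrix.mul_zero, Matrix.mul_one, zero_add]
    ext1 i j
    rcases j with j | j
    · simp [Matrix.mul_apply]
    · rw [fromCols_apply_inr, conjTranspose_mul, ← Matrix.mul_assoc, ← h2]
      have h4 : (γ.val * fromCols (0 : Matrix (Fin n ⊕ Fin n) (Fin 1) A)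
          (-((e : ℤ) • (Jm A e n * bᴴ)))) i (Sum.inr j) =
          (γ.val * (-((e : ℤ) • (Jm A e n * bᴴ)))) i j := rfl
      rw [h4, Matrix.mul_neg, Matrix.mul_smul, ← Matrix.mul_assoc]
  · rw [Matrix.zero_mul, zero_add, Matrix.one_mul, Matrix.mul_zero, add_zero]
    ext1 i j
    rcases i with i | i
    · have h4 : (fromRows (b * (γ⁻¹).val) (0 : Matrix (Fin 1) (Fin n ⊕ Fin n) A) * γ.val)
          (Sum.inl i) j = (b * (γ⁻¹).val * γ.val) i j := rfl
      rw [h4, Matrix.mul_assoc, γ.inv_mul, Matrix.mul_one]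
      rfl
    · simp [Matrix.mul_apply]
  · simp

section rc

variable {α β γ δ ε : Type*} [Fintype α] [Fintype β]

theorem mul_fc (M : Matrix δ α A) (B : Matrix α β A) (C : Matrix α γ A) :
    M * fromCols B C = fromCols (M * B) (M * C) := by
  ext1 i j
  rcases j with j | j <;> rfl

theorem fr_mul (B : Matrix β α A) (C : Matrix γ α A) (M : Matrix α δ A) :
    fromRows B C * M = fromRows (B * M) (C * M) := by
  ext1 i j
  rcases i with i | i <;> rfl

theorem fr_add (B B' : Matrix β δ A) (C C' : Matrix γ δ A) :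
    fromRows B C + fromRows B' C' = fromRows (B + B') (C + C') := by
  ext1 i j
  rcases i with i | i <;> rfl

theorem fc_add (B B' : Matrix δ β A) (C C' : Matrix δ γ A) :
    fromCols B C + fromCols B' C' = fromCols (B + B') (C + C') := by
  ext1 i j
  rcases j with j | j <;> rfl

theorem fc_conj (B : Matrix δ β A) (C : Matrix δ γ A) :
    (fromCols B C)ᴴ = fromRows Bᴴ Cᴴ := by
  ext1 i j
  rcases i with i | i <;> rfl

theorem fr_conj (B : Matrix β δ A) (C : Matrix γ δ A) :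
    (fromRows B C)ᴴ = fromCols Bᴴ Cᴴ := by
  ext1 i j
  rcases j with j | j <;> rfl

end rc

theorem Ei_conj (b : Matrix (Fin 1) (Fin n ⊕ Fin n) A) (m : Matrix (Fin 1) (Fin 1) A) :
    (Ei e b m)ᴴ = fromBlocks 1 (fromCols bᴴ 0) (fromRows 0 (-(b * Jm A e n)))
      (fromBlocks 1 0 mᴴ 1) := by
  unfold Ei
  rw [fromBlocks_conjTranspose, fc_conj, fr_conj, fromBlocks_conjTranspose]
  rw [conjTranspose_neg, conjTranspose_zsmul, conjTranspose_mul, conjTranspose_conjTranspose,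
    Jm_conj, Matrix.mul_smul, ee_smul]
  simp

/-- The effect of an Eichler transformation on the form. -/
theorem Ei_form (b : Matrix (Fin 1) (Fin n ⊕ Fin n) A) (m : Matrix (Fin 1) (Fin 1) A) :
    Ei e b m * psiC A n * (Ei e b m)ᴴ - psiC A n =
      (fromBlocks 0 (fromCols (hyp A (Fin n) * bᴴ) 0) 0 0 - (e : ℤ) •
        (fromBlocks 0 (fromCols (hyp A (Fin n) * bᴴ) 0) 0 0 : Matrix (Ci n) (Ci n) A)ᴴ) +
        fromBlocks 0 0 0 (fromBlocks (b * hyp A (Fin n) * bᴴ + mᴴ) 0 0 0) := by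
  have h1 : Ei e b m * psiC A n = fromBlocks (hyp A (Fin n)) 0
      (fromRows (b * hyp A (Fin n)) 0) (fromBlocks 0 1 0 0) := by
    unfold Ei psiC hyp
    rw [Matrix.fromBlocks_multiply]
    congr 1
    · simp
    · rw [fromCols_mul_fromBlocks]; simp
    · rw [fr_mul]; simp
    · rw [Matrix.fromBlocks_multiply]; simp
  rw [h1, Ei_conj, Matrix.fromBlocks_multiply, mul_fc, fr_mul, fr_mul, mul_fc,
    fromBlocks_mul_fromRows, Matrix.fromBlocks_multiply, fromBlocks_conjTranspose, fc_conj,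
    conjTranspose_mul, conjTranspose_conjTranspose]
  unfold psiC
  have h2 : -(b * Jm A e n) = -(b * hyp A (Fin n)) + -((e : ℤ) • (b * (hyp A (Fin n))ᴴ)) := by
    unfold Jm
    rw [Matrix.mul_add, Matrix.mul_smul]; abel
  rw [h2, fromBlocks_smul, sub_eq_add_neg, sub_eq_add_neg, fromBlocks_neg, fromBlocks_neg,
    fromBlocks_add, fromBlocks_add, fromBlocks_add]
  congr 1
  · simp
  · rw [Matrix.zero_mul, Matrix.mul_zero]; simp
  · have h3 : (e : ℤ) • fromRows (b * (hyp A (Fin n))ᴴ) (0 : Matrix (Fin n ⊕ Fin n) (Fin 1) A)ᴴ =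
        fromRows ((e : ℤ) • (b * (hyp A (Fin n))ᴴ)) 0 := by
      rw [conjTranspose_zero]
      ext1 i j
      rcases i with i | i
      · rfl
      · exact smul_zero (e : ℤ)
    rw [h3, fr_add, fromRows_neg]
    simp only [Matrix.mul_one, Matrix.zero_mul, zero_add, Matrix.one_mul, add_zero, neg_zero,
      Matrix.mul_zero]
    ext1 i j
    rcases i with i | i
    · change (b * hyp A (Fin n) + (-(b * hyp A (Fin n)) +
        -((e : ℤ) • (b * (hyp A (Fin n))ᴴ)))) i j = (-((e : ℤ) • (b * (hyp A (Fin n))ᴴ))) i j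
      refine congrFun (congrFun ?_ i) j
      abel
    · simp
  · have h4 : fromRows (fromCols (b * hyp A (Fin n) * bᴴ) (b * hyp A (Fin n) *
        (0 : Matrix (Fin n ⊕ Fin n) (Fin 1) A)))
        ((0 : Matrix (Fin 1) (Fin n ⊕ Fin n) A) * fromCols bᴴ (0 : Matrix (Fin n ⊕ Fin n) (Fin 1) A)) =
        fromBlocks (b * hyp A (Fin n) * bᴴ) 0 0 0 := by
      ext1 i j
      rcases i with i | i <;> rcases j with j | j <;> simp [Matrix.mul_apply]
    rw [h4, fromBlocks_add, conjTranspose_zero, smul_zero, neg_zero, zero_add, zero_add]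
    unfold hyp
    rw [fromBlocks_neg, fromBlocks_add]
    congr 1 <;> simp

/-- Membership of Eichler transformations in the unitary group. -/
theorem Ei_mem {b : Matrix (Fin 1) (Fin n ⊕ Fin n) A} {m : Matrix (Fin 1) (Fin 1) A}
    (h : Triv Λ (b * hyp A (Fin n) * bᴴ + mᴴ)) : EiU e b m ∈ UQ Λ (psiC A n) := by
  rw [mem_UQ]
  change Triv Λ (Ei e b m * psiC A n * (Ei e b m)ᴴ - psiC A n)
  rw [Ei_form]
  refine (triv_min Λ _).add ?_
  exact triv_zero.fromBlocks (h.fromBlocks triv_zero)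

theorem triv_of_Ei {m : Matrix (Fin 1) (Fin 1) A}
    (h : EiU e (0 : Matrix (Fin 1) (Fin n ⊕ Fin n) A) m ∈ UQ Λ (psiC A n)) : Triv Λ mᴴ := by
  rw [mem_UQ] at h
  have h1 : Triv Λ (Ei e (0 : Matrix (Fin 1) (Fin n ⊕ Fin n) A) m * psiC A n *
    (Ei e 0 m)ᴴ - psiC A n) := h
  rw [Ei_form] at h1
  have h2 := h1.submatrix (fun k : Fin 1 => (Sum.inr (Sum.inl k) : Ci n))
  convert h2 using 1
  ext1 i j
  simp

theorem triv_conjTranspose {ι : Type*} {θ : Matrix ι ι A} (h : Triv Λ θᴴ) : Triv Λ θ := by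
  have h1 : θ = -((e : ℤ) • θᴴ) := by
    have h2 := h.1
    rw [conjTranspose_conjTranspose] at h2
    exact h2
  have h3 : ((e : ℤ) • θ) = -θᴴ := by
    conv_lhs => rw [h1]
    rw [smul_neg, ee_smul]
  refine ⟨?_, ?_⟩
  · rw [h3, neg_neg]
  · intro i
    rw [h1]
    have h4 : (-((e : ℤ) • θᴴ)) i i = -((e : ℤ) • (θᴴ i i)) := rfl
    rw [h4]
    exact Λ.carrier.neg_mem (Λ.carrier.zsmul_mem (h.2 i) _)

end Pool.Agent.H750.P
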