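import Pool.Agent.H750.P.Omega

set_option autoImplicit false

/-! # Rows of integral unitary matrices -/

namespace Pool.Agent.H750.P

open Matrix

section row

variable {m : ℕ}

/-- A unitary matrix with the class of `P` has the row `(a, b)`. -/
def Cl (P : UG evenP m) (r : Fin m ⊕ Fin m) (a b : Fin m → ℤ) : Prop :=
  ∃ Q : UG evenP m, L1.mk Q = L1.mk P ∧ Q.val.val r = Sum.elim a b

variable {P : UG evenP m} {r : Fin m ⊕ Fin m}

theorem Cl.move {a b a' b' : Fin m → ℤ} (h : Cl P r a b) (E : UG evenP m)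
    (hE : IsElem evenP E.val.val) (h' : Sum.elim a b ᵥ* E.val.val = Sum.elim a' b') :
    Cl P r a' b' := by
  obtain ⟨Q, h1, h2⟩ := h
  refine ⟨Q * E, ?_, ?_⟩
  · rw [L1.mk_mul, h1, L1.mk_elem E hE, add_zero]
  · rw [← h', ← h2]
    exact Matrix.mul_apply_eq_vecMul _ _ _

theorem tv_mul (i j : Fin m) (hij : i ≠ j) (c : ℤ) :
    (1 + Matrix.single i j c) * (1 - Matrix.single i j c) = 1 := by
  rw [mul_sub, mul_one, add_mul, one_mul, Matrix.single_mul_single_of_ne _ _ _ _ hij.symm]
  abel

theorem tv_mul' (i j : Fin m) (hij : i ≠ j) (c : ℤ) :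
    (1 - Matrix.single i j c) * (1 + Matrix.single i j c) = 1 := by
  rw [mul_add, mul_one, sub_mul, one_mul, Matrix.single_mul_single_of_ne _ _ _ _ hij.symm]
  abel

theorem Cl.trans {a b : Fin m → ℤ} (h : Cl P r a b) {i j : Fin m} (hij : i ≠ j) (c : ℤ) :
    ∃ a', (a = 0 → a' = 0) ∧ Cl P r a' (Function.update b i (b i - c * b j)) := by
  refine ⟨a ᵥ* (1 + Matrix.single i j c), fun h0 => by rw [h0, Matrix.zero_vecMul], ?_⟩
  refine h.move (hypU evenP (1 + Matrix.single i j c) (1 - Matrix.single i j c)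
    (tv_mul i j hij c) (tv_mul' i j hij c))
    (Or.inl ⟨_, _, tv_mul i j hij c, tv_mul' i j hij c, rfl⟩) ?_
  change Sum.elim a b ᵥ* (fromBlocks (1 + Matrix.single i j c) 0 0
    (1 - Matrix.single i j c)ᴴ) = _
  rw [Matrix.vecMul_fromBlocks]
  congr 1
  · rw [Matrix.vecMul_zero, add_zero]
    rfl
  · rw [Matrix.vecMul_zero, zero_add]
    funext k
    have h1 : (1 - Matrix.single i j c)ᴴ = 1 - Matrix.single j i c := by
      rw [conjTranspose_sub, conjTranspose_one]
      congr 1
      change (Matrix.single i j c)ᵀ = _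
      rw [Matrix.transpose_single]
    rw [h1, Matrix.vecMul_sub, Matrix.vecMul_one, Pi.sub_apply]
    have h2 : (b ᵥ* Matrix.single j i c) k = if k = i then c * b j else 0 := by
      change ∑ l, b l * Matrix.single j i c l k = _
      rw [Finset.sum_eq_single j]
      · rw [Matrix.single_apply]
        by_cases hk : k = i
        · rw [if_pos ⟨rfl, hk.symm⟩, if_pos hk, mul_comm]
        · rw [if_neg (fun hh => hk hh.2.symm), if_neg hk, mul_zero]
      · intro l _ hl
        rw [Matrix.single_apply, if_neg (fun hh => hl hh.1.symm), mul_zero]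
      · intro hh
        exact absurd (Finset.mem_univ _) hh
    change b k - (b ᵥ* Matrix.single j i c) k = _
    rw [h2]
    by_cases hk : k = i
    · subst hk
      rw [if_pos rfl, Function.update_self]
    · rw [if_neg hk, Function.update_of_ne hk, sub_zero]

theorem Cl.uni {a : Fin m → ℤ} {j : Fin m} {c : ℤ} (h : Cl P r a (Pi.single j c))
    (t : Fin m → ℤ) (ht : Even (t j)) :
    Cl P r (fun i => a i + c * t i) (Pi.single j c) := by
  obtain ⟨θ, hθ⟩ : ∃ θ : Matrix (Fin m) (Fin m) ℤ,
    θ = Matrix.of fun x y => if x = j then t y else if y = j then t x else 0 := ⟨_, rfl⟩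
  have hT : Triv evenP θ := by
    refine ⟨?_, fun i => ?_⟩
    · have h1 : -((((-1 : ℤˣ) : ℤ)) • θ) = θ := by simp
      rw [h1, hθ]
      ext1 x y
      change (if y = j then t x else if x = j then t y else 0) =
        if x = j then t y else if y = j then t x else 0
      by_cases hx : x = j <;> by_cases hy : y = j <;> simp [hx, hy]
    · rw [mem_evenP, hθ]
      change Even (if i = j then t i else if i = j then t i else 0)
      by_cases hi : i = j
      · subst hi
        rw [if_pos rfl]; exact ht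
      · rw [if_neg hi, if_neg hi]; exact Even.zero
  refine h.move (uniU evenP θ hT) (Or.inr (Or.inl ⟨θ, hT, rfl⟩)) ?_
  change Sum.elim a (Pi.single j c) ᵥ* (fromBlocks 1 0 θ 1) = _
  rw [Matrix.vecMul_fromBlocks]
  congr 1
  · rw [Matrix.vecMul_one]
    funext i
    change a i + (Pi.single j c ᵥ* θ) i = _
    rw [Matrix.single_vecMul]
    change a i + c * θ j i = _
    rw [hθ]
    simp
  · rw [Matrix.vecMul_one, Matrix.vecMul_zero, zero_add]
    rfl

theorem Cl.flip {a b : Fin m → ℤ} (h : Cl P r a b) : Cl P r (-b) a := by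
  refine h.move (flipU evenP m) (Or.inr (Or.inr rfl)) ?_
  change Sum.elim a b ᵥ* (fromBlocks 0 1 (((-1 : ℤˣ) : ℤ) • 1) 0) = _
  rw [Matrix.vecMul_fromBlocks]
  congr 1
  · rw [Matrix.vecMul_zero, zero_add, Matrix.vecMul_smul, Matrix.vecMul_one]
    simp
  · rw [Matrix.vecMul_zero, add_zero, Matrix.vecMul_one]
    rfl

theorem Cl.prim {a b : Fin m → ℤ} (h : Cl P r a b) :
    ∃ u v : Fin m → ℤ, ∑ i, a i * u i + ∑ i, b i * v i = 1 := by
  obtain ⟨Q, -, h2⟩ := h
  refine ⟨fun i => (Q⁻¹).val.val (Sum.inl i) r, fun i => (Q⁻¹).val.val (Sum.inr i) r, ?_⟩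
  have h3 : (Q.val.val * (Q⁻¹).val.val) r r = 1 := by
    have h4 : Q.val.val * (Q⁻¹).val.val = 1 := Q.val.mul_inv
    rw [h4, Matrix.one_apply_eq]
  rw [Matrix.mul_apply, Fintype.sum_sum_type, h2] at h3
  exact h3

theorem Cl.even {a b : Fin m → ℤ} (h : Cl P r a b) (hr : hyp ℤ (Fin m) r r = 0) :
    Even (∑ i, a i * b i) := by
  obtain ⟨Q, -, h2⟩ := h
  have h3 : Even ((Q.val.val * hyp ℤ (Fin m) * Q.val.valᴴ - hyp ℤ (Fin m)) r r) :=
    Q.property.2 r
  rw [Matrix.sub_apply, hr, sub_zero] at h3
  have h4 : (Q.val.val * hyp ℤ (Fin m) * Q.val.valᴴ) r r = ∑ i, a i * b i := by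
    rw [Matrix.mul_apply, Fintype.sum_sum_type]
    have h5 : ∀ y, (Q.val.val * hyp ℤ (Fin m)) r y = (Sum.elim a b ᵥ* hyp ℤ (Fin m)) y := by
      intro y
      rw [← h2, ← Matrix.mul_apply_eq_vecMul]
    have h6 : ∀ y, (Q.val.valᴴ) y r = Sum.elim a b y := by
      intro y
      rw [← h2]; rfl
    simp only [h5, h6]
    unfold hyp
    rw [Matrix.vecMul_fromBlocks]
    simp
  rw [h4] at h3
  exact h3

theorem Cl.sum_le {m0 : ℕ} (hm : ∀ a b, Cl P r a b → b ≠ 0 → m0 ≤ ∑ i, (b i).natAbs) :
    ∀ (N : ℕ) (a b : Fin m → ℤ), Cl P r a b → ∑ i, (b i).natAbs ≤ N → ∀ j, b j ≠ 0 →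
      m0 ≤ (b j).natAbs := by
  intro N
  induction N with
  | zero =>
    intro a b _ h2 j hj
    have h3 := Finset.single_le_sum (f := fun i => (b i).natAbs) (fun _ _ => Nat.zero_le _)
      (Finset.mem_univ j)
    have h4 : (b j).natAbs ≠ 0 := Int.natAbs_ne_zero.mpr hj
    change (b j).natAbs ≤ _ at h3
    omega
  | succ N ih =>
    intro a b h1 h2 j hj
    by_cases hk : ∃ k, k ≠ j ∧ b k ≠ 0
    · obtain ⟨k, hkj, hk0⟩ := hk
      have key : ∀ x y : Fin m, x ≠ y → b x ≠ 0 → b y ≠ 0 → (b y).natAbs ≤ (b x).natAbs →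
          m0 ≤ (b y).natAbs := by
        intro x y hxy hx hy hle
        obtain ⟨a', -, h4⟩ := h1.trans hxy (b x / b y)
        have h5 : b x - b x / b y * b y = b x % b y := by
          rw [Int.emod_def, mul_comm]
        have h6 : (b x % b y).natAbs < (b y).natAbs := by
          have e1 := Int.emod_nonneg (b x) hy
          have e2 := Int.emod_lt_abs (b x) hy
          rw [Int.abs_eq_natAbs] at e2
          omega
        rw [h5] at h4
        have h7 := ih a' _ h4 (by
          have h8 : ∑ i, (Function.update b x (b x % b y) i).natAbs < ∑ i, (b i).natAbs := by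
            apply Finset.sum_lt_sum
            · intro i _
              by_cases hi : i = x
              · subst hi
                rw [Function.update_self]
                omega
              · rw [Function.update_of_ne hi]
            · refine ⟨x, Finset.mem_univ _, ?_⟩
              rw [Function.update_self]
              omega
          omega) y (by rw [Function.update_of_ne hxy.symm]; exact hy)
        rw [Function.update_of_ne hxy.symm] at h7
        exact h7
      rcases le_total (b j).natAbs (b k).natAbs with h | h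
      · exact key k j hkj hk0 hj h
      · exact (key j k hkj.symm hj hk0 h).trans h
    · push Not at hk
      have h3 := hm a b h1 (by
        intro h0
        apply hj
        rw [h0]; rfl)
      rwa [Finset.sum_eq_single j (fun i _ hi => by rw [hk i hi]; rfl)
        (fun h => absurd (Finset.mem_univ _) h)] at h3

end row

end Pool.Agent.H750.P
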