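import Pool.Agent.H750.P.Euc1

set_option autoImplicit false

/-! # Every row of an integral unitary matrix can be moved to a standard row -/

namespace Pool.Agent.H750.P

open Matrix

section row

variable {m : ℕ} {P : UG evenP m} {r : Fin m ⊕ Fin m}

theorem Cl.exists_min (P : UG evenP m) (r : Fin m ⊕ Fin m) :
    ∃ m0 : ℕ, (∃ a b, Cl P r a b ∧ b ≠ 0 ∧ ∑ i, (b i).natAbs = m0) ∧
      ∀ a b, Cl P r a b → b ≠ 0 → m0 ≤ ∑ i, (b i).natAbs := by
  classical
  have h0 : ∃ a b, Cl P r a b ∧ b ≠ 0 := by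
    obtain ⟨a, b, h1⟩ : ∃ a b, Cl P r a b :=
      ⟨fun i => P.val.val r (Sum.inl i), fun i => P.val.val r (Sum.inr i), P, rfl, by
        funext x; rcases x with x | x <;> rfl⟩
    by_cases hb : b = 0
    · refine ⟨_, _, h1.flip, ?_⟩
      rintro rfl
      obtain ⟨u, v, h2⟩ := h1.prim
      rw [hb] at h2
      simp at h2
    · exact ⟨_, _, h1, hb⟩
  have hex : ∃ N, ∃ a b, Cl P r a b ∧ b ≠ 0 ∧ ∑ i, (b i).natAbs = N := by
    obtain ⟨a, b, h1, h2⟩ := h0
    exact ⟨_, a, b, h1, h2, rfl⟩
  exact ⟨Nat.find hex, Nat.find_spec hex,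
    fun a b h1 h2 => Nat.find_min' hex ⟨a, b, h1, h2, rfl⟩⟩

theorem Cl.main0 (hr : hyp ℤ (Fin m) r r = 0) :
    ∃ (j : Fin m) (c : ℤ), (c = 1 ∨ c = -1) ∧ Cl P r 0 (Pi.single j c) := by
  obtain ⟨m0, ⟨a0, b0, hc, hb0, hs⟩, hmin⟩ := Cl.exists_min P r
  have hM : ∀ a b, Cl P r a b → ∀ j, b j ≠ 0 → m0 ≤ (b j).natAbs :=
    fun a b h j hj => Cl.sum_le hmin _ a b h le_rfl j hj
  obtain ⟨j, hj⟩ : ∃ j, b0 j ≠ 0 := by
    by_contra h
    push Not at h
    exact hb0 (funext h)
  have hmj := hM a0 b0 hc j hj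
  have hz : ∀ i, i ≠ j → b0 i = 0 := by
    intro i hi
    have h2 : ∑ x ∈ ({i, j} : Finset (Fin m)), (b0 x).natAbs ≤ ∑ x, (b0 x).natAbs :=
      Finset.sum_le_sum_of_subset (Finset.subset_univ _)
    rw [Finset.sum_pair hi] at h2
    omega
  have hb : b0 = Pi.single j (b0 j) := by
    funext i
    by_cases hi : i = j
    · subst hi
      rw [Pi.single_eq_same]
    · rw [hz i hi, Pi.single_eq_of_ne hi]
  have hcm : (b0 j).natAbs = m0 := by
    rw [← hs]
    have h2 : ∑ i, (b0 i).natAbs = (b0 j).natAbs :=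
      Finset.sum_eq_single j (fun i _ hi => by rw [hz i hi]; rfl)
        (fun h => absurd (Finset.mem_univ _) h)
    exact h2.symm
  obtain ⟨c, hc0⟩ : ∃ c, c = b0 j := ⟨_, rfl⟩
  rw [hb, ← hc0] at hc
  rw [← hc0] at hj hcm
  have h1 := hc.uni (fun i => if i = j then -(2 * (a0 j / (2 * c))) else -(a0 i / c)) (by
    simp)
  obtain ⟨a1, ha1⟩ : ∃ a1 : Fin m → ℤ, a1 = fun i => a0 i + c *
    (if i = j then -(2 * (a0 j / (2 * c))) else -(a0 i / c)) := ⟨_, rfl⟩
  rw [← ha1] at h1
  have v1 : ∀ i, i ≠ j → a1 i = a0 i % c := by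
    intro i hi
    rw [ha1]
    simp only [if_neg hi]
    rw [Int.emod_def]
    ring
  have v2 : a1 j = a0 j % (2 * c) := by
    rw [ha1]
    simp only [if_pos]
    rw [Int.emod_def]
    ring
  have z1 : ∀ i, i ≠ j → a1 i = 0 := by
    intro i hi
    by_contra h
    have h2 := hM _ _ h1.flip i h
    rw [v1 i hi] at h2
    have e1 := Int.emod_nonneg (a0 i) hj
    have e2 := Int.emod_lt_abs (a0 i) hj
    rw [Int.abs_eq_natAbs] at e2
    omega
  have z2 : a1 j = 0 ∨ a1 j = m0 := by
    by_contra h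
    push Not at h
    have h2 := hM _ _ h1.flip j h.1
    have h2c : 2 * c ≠ 0 := by omega
    have e1 := Int.emod_nonneg (a0 j) h2c
    have e2 := Int.emod_lt_abs (a0 j) h2c
    rw [Int.abs_eq_natAbs, ← v2] at e2
    rw [← v2] at e1
    have h3 := h1.uni (fun i => if i = j then (if 0 < c then -2 else 2) else 0) (by
      simp only [if_pos]
      split_ifs
      · exact ⟨-1, rfl⟩
      · exact ⟨1, rfl⟩)
    have h4 : (a1 j + c * (if j = j then (if 0 < c then -2 else 2) else 0)) =
        a1 j - 2 * m0 := by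
      rw [if_pos rfl]
      split_ifs with h5
      · have : c = m0 := by omega
        rw [this]; ring
      · have : c = -m0 := by omega
        rw [this]; ring
    have h6 := hM _ _ h3.flip j (by
      change a1 j + c * (if j = j then (if 0 < c then -2 else 2) else 0) ≠ 0
      rw [h4]
      omega)
    change m0 ≤ (a1 j + c * (if j = j then (if 0 < c then -2 else 2) else 0)).natAbs at h6
    rw [h4] at h6
    omega
  have p1 : ∃ u v : ℤ, a1 j * u + c * v = 1 := by
    obtain ⟨u, v, h2⟩ := h1.prim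
    refine ⟨u j, v j, ?_⟩
    rw [Finset.sum_eq_single j (fun i _ hi => by rw [z1 i hi, zero_mul])
      (fun h => absurd (Finset.mem_univ _) h),
      Finset.sum_eq_single j (fun i _ hi => by rw [Pi.single_eq_of_ne hi, zero_mul])
      (fun h => absurd (Finset.mem_univ _) h), Pi.single_eq_same] at h2
    exact h2
  have p2 : Even (a1 j * c) := by
    have h2 := h1.even hr
    rw [Finset.sum_eq_single j (fun i _ hi => by rw [z1 i hi, zero_mul])
      (fun h => absurd (Finset.mem_univ _) h), Pi.single_eq_same] at h2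
    exact h2
  have hm1 : c = 1 ∨ c = -1 := by
    obtain ⟨u, v, h2⟩ := p1
    have h3 : c ∣ 1 := by
      rw [← h2]
      refine dvd_add (Dvd.dvd.mul_right ?_ _) (dvd_mul_right _ _)
      rcases z2 with h | h
      · rw [h]; exact dvd_zero _
      · rw [h, ← hcm]
        exact Int.dvd_natAbs.mpr dvd_rfl
    exact Int.isUnit_iff.mp (isUnit_of_dvd_one h3)
  have ha0 : a1 j = 0 := by
    rcases z2 with h | h
    · exact h
    · exfalso
      have h5 : (m0 : ℤ) = 1 := by
        rcases hm1 with h6 | h6 <;> rw [h6] at hcm <;> omega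
      rw [h, h5] at p2
      rcases hm1 with h6 | h6 <;> rw [h6] at p2 <;> revert p2 <;> decide
  refine ⟨j, c, hm1, ?_⟩
  have h7 : a1 = 0 := by
    funext i
    by_cases hi : i = j
    · rw [hi, ha0]; rfl
    · exact z1 i hi
  rw [h7] at h1
  exact h1

theorem Cl.main (hr : hyp ℤ (Fin m) r r = 0) (k : Fin m) : Cl P r 0 (Pi.single k 1) := by
  obtain ⟨j, c, hc, h⟩ := Cl.main0 (P := P) hr
  have h1 : Cl P r 0 (Pi.single j 1) := by
    rcases hc with rfl | rfl
    · exact h
    · have h2 := h.flip.flip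
      rw [neg_zero, ← Pi.single_neg, neg_neg] at h2
      exact h2
  by_cases hjk : j = k
  · rw [← hjk]; exact h1
  · obtain ⟨a', ha', h2⟩ := h1.trans (i := k) (j := j) (Ne.symm hjk) (-1)
    rw [ha' rfl] at h2
    obtain ⟨a'', ha'', h3⟩ := h2.trans (i := j) (j := k) hjk 1
    rw [ha'' rfl] at h3
    have h4 : ∀ f g : Fin m → ℤ, f = Pi.single j 1 → g = Function.update f k (f k - -1 * f j) →
        Function.update g j (g j - 1 * g k) = Pi.single k 1 := by
      rintro f g rfl rfl
      funext i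
      by_cases hi : i = j
      · subst hi
        rw [Function.update_self, Function.update_of_ne hjk, Function.update_self,
          Pi.single_eq_same, Pi.single_eq_of_ne (Ne.symm hjk), Pi.single_eq_of_ne hjk]
        norm_num
      · rw [Function.update_of_ne hi]
        by_cases hi' : i = k
        · subst hi'
          rw [Function.update_self, Pi.single_eq_same, Pi.single_eq_of_ne hi,
            Pi.single_eq_same]
          norm_num
        · rw [Function.update_of_ne hi', Pi.single_eq_of_ne hi, Pi.single_eq_of_ne hi']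
    rw [h4 _ _ rfl rfl] at h3
    exact h3

end row

end Pool.Agent.H750.P
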