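import Pool.Agent.H750.P.Euc2

set_option autoImplicit false

/-! # The odd L-group of the integers for the sign `-1` is zero -/

namespace Pool.Agent.H750.P

open Matrix

section zero

variable {n : ℕ} {f : Fin (n + 1) ≃ Fin n ⊕ Fin 1}

theorem TU_zero : TU ℤ n 0 = 1 := by
  apply Units.ext
  change fromBlocks 1 0 0 (fromBlocks 1 0 0 1) = 1
  rw [Matrix.fromBlocks_one, Matrix.fromBlocks_one]

theorem left_zero (B : Matrix (Fin 1) (Fin n) ℤ) :
    cC evenP f (EiU (-1) (fromCols B 0) 0) = 0 := by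
  let _ : StarRing PUnit.{1} := starRingOfComm
  let Ω' : FormParam PUnit.{1} (-1) := ⟨⊤, fun _ => trivial, fun _ _ => Subsingleton.elim _ _,
    fun _ _ _ => trivial⟩
  let p' : QHom evenP Ω' := ⟨Int.castRingHom _, fun _ => Subsingleton.elim _ _, fun _ _ => trivial⟩
  have h := conj_left_zero (f := f) (Λ := evenP) p' (fun a ha _ => ha) B (Subsingleton.elim _ _) 0
    triv_zero
  rwa [TU_zero, inv_one, one_mul, mul_one] at h

theorem right_zero (B : Matrix (Fin 1) (Fin n) ℤ) :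
    cC evenP f (EiU (-1) (fromCols 0 B) 0) = 0 := by
  let _ : StarRing PUnit.{1} := starRingOfComm
  let Ω' : FormParam PUnit.{1} (-1) := ⟨⊤, fun _ => trivial, fun _ _ => Subsingleton.elim _ _,
    fun _ _ _ => trivial⟩
  let p' : QHom evenP Ω' := ⟨Int.castRingHom _, fun _ => Subsingleton.elim _ _, fun _ _ => trivial⟩
  have h := conj_right_zero (f := f) (Λ := evenP) p' (fun a ha _ => ha) B (Subsingleton.elim _ _) 0
    triv_zero (by rw [TU_zero, inv_one, one_mul, mul_one]; exact Ei_right_mem B)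
  rwa [TU_zero, inv_one, one_mul, mul_one] at h

theorem up_zero (m : Matrix (Fin 1) (Fin 1) ℤ)
    (h : EiU (-1) (0 : Matrix (Fin 1) (Fin n ⊕ Fin n) ℤ) m ∈ UQ evenP (psiC ℤ n)) :
    cC evenP f (EiU (-1) (0 : Matrix (Fin 1) (Fin n ⊕ Fin n) ℤ) m) = 0 := by
  have h1 := triv_conjTranspose (triv_of_Ei h)
  rw [← lastU_upp]
  exact (cC_last f ⟨uppU m, uppU_mem h1⟩).trans (mk_uppU h1)

theorem ei_zero {b : Matrix (Fin 1) (Fin n ⊕ Fin n) ℤ} {m : Matrix (Fin 1) (Fin 1) ℤ}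
    (h : EiU (-1) b m ∈ UQ evenP (psiC ℤ n)) : cC evenP f (EiU (-1) b m) = 0 := by
  obtain ⟨B₁, B₂, rfl⟩ : ∃ B₁ B₂ : Matrix (Fin 1) (Fin n) ℤ, b = fromCols B₁ B₂ :=
    ⟨b.toCols₁, b.toCols₂, (Matrix.fromCols_toCols b).symm⟩
  obtain ⟨m₁, hm₁⟩ : ∃ m₁, EiU (-1) (fromCols B₁ 0) 0 * EiU (-1) (fromCols 0 B₂) 0 =
      EiU (-1) (fromCols B₁ B₂) m₁ := by
    have h1 : fromCols B₁ (0 : Matrix (Fin 1) (Fin n) ℤ) + fromCols 0 B₂ = fromCols B₁ B₂ := by
      ext1 i j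
      rcases j with j | j <;> simp
    have h2 := EiU_mul (e := -1) (fromCols B₁ 0) (fromCols 0 B₂) 0 0
    rw [h1] at h2
    exact ⟨_, h2⟩
  have h3 : EiU (-1) (fromCols B₁ 0) 0 * EiU (-1) (fromCols 0 B₂) 0 *
      EiU (-1) (0 : Matrix (Fin 1) (Fin n ⊕ Fin n) ℤ) (m - m₁) = EiU (-1) (fromCols B₁ B₂) m := by
    rw [hm₁, EiU_mul, conjTranspose_zero, Matrix.mul_zero, smul_zero, sub_zero, add_zero]
    congr 1
    abel
  have m1 : EiU (-1) (fromCols B₁ 0) 0 ∈ UQ evenP (psiC ℤ n) := Ei_left_mem B₁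
  have m2 : EiU (-1) (fromCols 0 B₂) 0 ∈ UQ evenP (psiC ℤ n) := Ei_right_mem B₂
  have m3 : EiU (-1) (0 : Matrix (Fin 1) (Fin n ⊕ Fin n) ℤ) (m - m₁) ∈ UQ evenP (psiC ℤ n) := by
    rw [← h3] at h
    have h4 := mul_mem (inv_mem (mul_mem m1 m2)) h
    rwa [inv_mul_cancel_left] at h4
  rw [← h3, cC_mul (mul_mem m1 m2) m3, cC_mul m1 m2, left_zero, right_zero, up_zero _ m3,
    add_zero, add_zero]

/-- The index of the first vector of the last plane. -/
abbrev rl (n : ℕ) : Ci n := Sum.inr (Sum.inl 0)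

/-- The index of the second vector of the last plane. -/
abbrev rr (n : ℕ) : Ci n := Sum.inr (Sum.inr 0)

theorem Jc_rr (z : Ci n) :
    (psiC ℤ n + ((-1 : ℤˣ) : ℤ) • (psiC ℤ n)ᴴ) z (rr n) = if z = rl n then 1 else 0 := by
  rw [Matrix.add_apply, Matrix.smul_apply, conjTranspose_apply]
  unfold psiC hyp
  rcases z with (z | z) | (z | z) <;> simp [Fin.fin_one_eq_zero]

theorem Jc_rl (z : Ci n) :
    (psiC ℤ n + ((-1 : ℤˣ) : ℤ) • (psiC ℤ n)ᴴ) z (rl n) = if z = rr n then -1 else 0 := by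
  rw [Matrix.add_apply, Matrix.smul_apply, conjTranspose_apply]
  unfold psiC hyp
  rcases z with (z | z) | (z | z) <;> simp [Fin.fin_one_eq_zero]

theorem row_std {N : (Matrix (Ci n) (Ci n) ℤ)ˣ} (hN : N ∈ UQ evenP (psiC ℤ n)) {t : Ci n}
    (ht : ∀ y, N.val t y = if y = t then 1 else 0) (x : Ci n) :
    ∑ z, N.val x z * (psiC ℤ n + ((-1 : ℤˣ) : ℤ) • (psiC ℤ n)ᴴ) z t =
      (psiC ℤ n + ((-1 : ℤˣ) : ℤ) • (psiC ℤ n)ᴴ) x t := by
  have h1 := congrFun (congrFun (herm_of_mem hN) x) t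
  rw [Matrix.mul_apply] at h1
  have h2 : ∑ j, (N.val * (psiC ℤ n + ((-1 : ℤˣ) : ℤ) • (psiC ℤ n)ᴴ)) x j * (N.valᴴ) j t =
      (N.val * (psiC ℤ n + ((-1 : ℤˣ) : ℤ) • (psiC ℤ n)ᴴ)) x t * (N.valᴴ) t t :=
    Finset.sum_eq_single t
      (fun y _ hy => by rw [conjTranspose_apply, ht y, if_neg hy]; exact mul_zero _)
      (fun h => absurd (Finset.mem_univ _) h)
  have h3 : (N.valᴴ) t t = 1 := by rw [conjTranspose_apply, ht t, if_pos rfl]; rfl
  rw [h2, h3, mul_one, Matrix.mul_apply] at h1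
  exact h1

theorem col_rl {N : (Matrix (Ci n) (Ci n) ℤ)ˣ} (hN : N ∈ UQ evenP (psiC ℤ n))
    (ht : ∀ y, N.val (rr n) y = if y = rr n then 1 else 0) (x : Ci n) :
    N.val x (rl n) = if x = rl n then 1 else 0 := by
  have h1 := row_std hN ht x
  rw [Jc_rr, Finset.sum_eq_single (rl n)] at h1
  · rw [Jc_rr, if_pos rfl, mul_one] at h1
    exact h1
  · intro y _ hy
    rw [Jc_rr, if_neg hy, mul_zero]
  · intro h
    exact absurd (Finset.mem_univ _) h

theorem col_rr {N : (Matrix (Ci n) (Ci n) ℤ)ˣ} (hN : N ∈ UQ evenP (psiC ℤ n))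
    (ht : ∀ y, N.val (rl n) y = if y = rl n then 1 else 0) (x : Ci n) :
    N.val x (rr n) = if x = rr n then 1 else 0 := by
  have h1 := row_std hN ht x
  rw [Jc_rl, Finset.sum_eq_single (rr n)] at h1
  · rw [Jc_rl, if_pos rfl] at h1
    split_ifs at h1 ⊢ <;> omega
  · intro y _ hy
    rw [Jc_rl, if_neg hy, mul_zero]
  · intro h
    exact absurd (Finset.mem_univ _) h

theorem form_row {M E : Matrix (Ci n) (Ci n) ℤ} {t : Ci n} (h : M t = E t) :
    (M * psiC ℤ n * Mᴴ) t t = (E * psiC ℤ n * Eᴴ) t t := by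
  rw [Matrix.mul_apply, Matrix.mul_apply]
  refine Finset.sum_congr rfl fun y _ => ?_
  rw [Matrix.mul_apply, Matrix.mul_apply, conjTranspose_apply, conjTranspose_apply, h]

theorem blk_one : (1 : Matrix (Ci n) (Ci n) ℤ).toBlocks₁₁ = 1 := by
  ext1 x y
  change (1 : Matrix (Ci n) (Ci n) ℤ) (Sum.inl x) (Sum.inl y) = _
  simp [Matrix.one_apply]

/-- A unitary matrix with a standard row is the product of a stabilised matrix and an Eichler
transformation. -/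
theorem reduce_row {M : (Matrix (Ci n) (Ci n) ℤ)ˣ} (hM : M ∈ UQ evenP (psiC ℤ n))
    (hrow : ∀ y, M.val (rr n) y = if y = rr n then 1 else 0) :
    ∃ γ : UG evenP n, cC evenP f M = L1.mk γ := by
  have hcol := col_rl hM hrow
  obtain ⟨b, hb⟩ : ∃ b : Matrix (Fin 1) (Fin n ⊕ Fin n) ℤ,
    b = Matrix.of fun _ y => M.val (rl n) (Sum.inl y) := ⟨_, rfl⟩
  obtain ⟨m, hm⟩ : ∃ m : Matrix (Fin 1) (Fin 1) ℤ,
    m = Matrix.of fun _ _ => M.val (rl n) (rr n) := ⟨_, rfl⟩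
  have r1 : M.val (rl n) = (EiU (-1) b m).val (rl n) := by
    funext y
    change _ = Ei (-1) b m (rl n) y
    unfold Ei
    rcases y with y | (y | y)
    · rw [fromBlocks_apply₂₁, fromRows_apply_inl, hb]
      rfl
    · rw [fromBlocks_apply₂₂, fromBlocks_apply₁₁, Fin.fin_one_eq_zero y, Matrix.one_apply_eq]
      have h1 := hcol (rl n)
      rw [if_pos rfl] at h1
      exact h1
    · rw [fromBlocks_apply₂₂, fromBlocks_apply₁₂, Fin.fin_one_eq_zero y, hm]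
      rfl
  have r2 : M.val (rr n) = (EiU (-1) b m).val (rr n) := by
    funext y
    rw [hrow]
    change _ = Ei (-1) b m (rr n) y
    unfold Ei
    rcases y with y | (y | y)
    · rw [fromBlocks_apply₂₁, fromRows_apply_inr]
      simp
    · rw [fromBlocks_apply₂₂, fromBlocks_apply₂₁]
      simp
    · rw [fromBlocks_apply₂₂, fromBlocks_apply₂₂, Fin.fin_one_eq_zero y, Matrix.one_apply_eq]
      simp
  have hE : EiU (-1) b m ∈ UQ evenP (psiC ℤ n) := by
    apply Ei_mem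
    refine ⟨?_, fun i => ?_⟩
    · ext1 i j
      rw [Fin.fin_one_eq_zero i, Fin.fin_one_eq_zero j, conjTranspose_apply]
      change (b * hyp ℤ (Fin n) * bᴴ + mᴴ) 0 0 =
        -(((-1 : ℤˣ) : ℤ) • (b * hyp ℤ (Fin n) * bᴴ + mᴴ) 0 0)
      simp
    · rw [Fin.fin_one_eq_zero i]
      have h1 : Even ((M.val * psiC ℤ n * M.valᴴ - psiC ℤ n) (rl n) (rl n)) := hM.2 (rl n)
      rw [Matrix.sub_apply, form_row r1, ← Matrix.sub_apply] at h1
      change Even ((Ei (-1) b m * psiC ℤ n * (Ei (-1) b m)ᴴ - psiC ℤ n) (rl n) (rl n)) at h1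
      rw [Ei_form, Matrix.add_apply] at h1
      exact (Int.even_add.mp h1).mp ((triv_min evenP _).2 (rl n))
  obtain ⟨N, hN⟩ : ∃ N, N = M * (EiU (-1) b m)⁻¹ := ⟨_, rfl⟩
  have hNm : N ∈ UQ evenP (psiC ℤ n) := by rw [hN]; exact mul_mem hM (inv_mem hE)
  have hrows : ∀ t, M.val t = (EiU (-1) b m).val t → ∀ y, N.val t y = if y = t then 1 else 0 := by
    intro t ht y
    have h1 : N.val = M.val * (EiU (-1) b m)⁻¹.val := by rw [hN]; rfl
    have h2 : (1 : Matrix (Ci n) (Ci n) ℤ) = (EiU (-1) b m).val * (EiU (-1) b m)⁻¹.val :=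
      (Units.mul_inv _).symm
    have h3 : N.val t y = (1 : Matrix (Ci n) (Ci n) ℤ) t y := by
      rw [h1, h2, Matrix.mul_apply, Matrix.mul_apply, ht]
    rw [h3, Matrix.one_apply]
    simp only [eq_comm]
  have w1 := hrows _ r1
  have w2 := hrows _ r2
  have w3 := col_rl hNm w2
  have w4 := col_rr hNm w1
  have hB : N.val = fromBlocks N.val.toBlocks₁₁ 0 0 1 := by
    ext1 x y
    rcases x with x | (x | x)
    · rcases y with y | (y | y)
      · rfl
      · rw [Fin.fin_one_eq_zero y, w3]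
        simp
      · rw [Fin.fin_one_eq_zero y, w4]
        simp
    · rw [Fin.fin_one_eq_zero x, w1]
      rcases y with y | (y | y) <;> simp [Matrix.one_apply, Fin.fin_one_eq_zero]
    · rw [Fin.fin_one_eq_zero x, w2]
      rcases y with y | (y | y) <;> simp [Matrix.one_apply, Fin.fin_one_eq_zero]
  have u1 : N.val.toBlocks₁₁ * (N⁻¹).val.toBlocks₁₁ = 1 := by
    have h1 : N.val * (N⁻¹).val = 1 := N.mul_inv
    rw [hB, ← Matrix.fromBlocks_toBlocks (N⁻¹).val, Matrix.fromBlocks_multiply] at h1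
    have h2 := congrArg Matrix.toBlocks₁₁ h1
    rw [Matrix.toBlocks_fromBlocks₁₁, blk_one] at h2
    simpa using h2
  have u2 : (N⁻¹).val.toBlocks₁₁ * N.val.toBlocks₁₁ = 1 := by
    have h1 : (N⁻¹).val * N.val = 1 := N.inv_mul
    rw [hB, ← Matrix.fromBlocks_toBlocks (N⁻¹).val, Matrix.fromBlocks_multiply] at h1
    have h2 := congrArg Matrix.toBlocks₁₁ h1
    rw [Matrix.toBlocks_fromBlocks₁₁, blk_one] at h2
    simpa using h2
  obtain ⟨γ, hγ⟩ : ∃ γ : (Matrix (Fin n ⊕ Fin n) (Fin n ⊕ Fin n) ℤ)ˣ,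
    γ = ⟨N.val.toBlocks₁₁, (N⁻¹).val.toBlocks₁₁, u1, u2⟩ := ⟨_, rfl⟩
  have hγN : hat ℤ n γ = N := by
    apply Units.ext
    rw [hat_val, hB, hγ]
  have hγm : γ ∈ UG evenP n := by
    rw [mem_UG]
    have h1 : Triv evenP (N.val * psiC ℤ n * N.valᴴ - psiC ℤ n) := hNm
    have h2 := h1.submatrix (fun k : Fin n ⊕ Fin n => (Sum.inl k : Ci n))
    have h3 : (N.val * psiC ℤ n * N.valᴴ - psiC ℤ n).submatrix
        (fun k : Fin n ⊕ Fin n => (Sum.inl k : Ci n)) (fun k => Sum.inl k) =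
        γ.val * hyp ℤ (Fin n) * γ.valᴴ - hyp ℤ (Fin n) := by
      rw [← hγN, hat_val]
      unfold psiC
      rw [fromBlocks_conjTranspose, Matrix.fromBlocks_multiply, Matrix.fromBlocks_multiply]
      ext1 x y
      rw [Matrix.submatrix_apply, Matrix.sub_apply, Matrix.sub_apply, fromBlocks_apply₁₁,
        fromBlocks_apply₁₁]
      simp
    rw [h3] at h2
    exact h2
  refine ⟨⟨γ, hγm⟩, ?_⟩
  have h5 : M = N * EiU (-1) b m := by rw [hN, inv_mul_cancel_right]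
  rw [h5, cC_mul hNm hE, ei_zero hE, add_zero, ← hγN]
  exact cC_hat hγm

end zero

end Pool.Agent.H750.P
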