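import Pool.Agent.H750.P.Euc3

set_option autoImplicit false

/-! # The unreduced kernel for the integers -/

namespace Pool.Agent.H750.P

open Matrix

section final

variable {n : ℕ}

/-- A unitary matrix with the renumbered index set. -/
def unt (s : Fin (n + 1) ≃ Fin n ⊕ Fin 1) (Q : UG evenP (n + 1)) : (Matrix (Ci n) (Ci n) ℤ)ˣ where
  val := Q.val.val.submatrix (stEquiv s).symm (stEquiv s).symm
  inv := (Q.val⁻¹).val.submatrix (stEquiv s).symm (stEquiv s).symm
  val_inv := by rw [Matrix.submatrix_mul_equiv, Q.val.mul_inv, Matrix.submatrix_one_equiv]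
  inv_val := by rw [Matrix.submatrix_mul_equiv, Q.val.inv_mul, Matrix.submatrix_one_equiv]

theorem tau_unt (s : Fin (n + 1) ≃ Fin n ⊕ Fin 1) (Q : UG evenP (n + 1)) :
    tau ℤ s (unt s Q) = Q.val := by
  apply Units.ext
  change (Q.val.val.submatrix (stEquiv s).symm (stEquiv s).symm).submatrix (stEquiv s)
    (stEquiv s) = Q.val.val
  rw [Matrix.submatrix_submatrix, Equiv.symm_comp_self, Matrix.submatrix_id_id]

theorem unt_mem (s : Fin (n + 1) ≃ Fin n ⊕ Fin 1) (Q : UG evenP (n + 1)) :
    unt s Q ∈ UQ evenP (psiC ℤ n) := by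
  rw [mem_UQ]
  have h1 : Triv evenP (Q.val.val * hyp ℤ (Fin (n + 1)) * Q.val.valᴴ - hyp ℤ (Fin (n + 1))) :=
    Q.property
  have h2 := h1.submatrix (stEquiv s).symm
  have h3 : psiC ℤ n = (hyp ℤ (Fin (n + 1))).submatrix (stEquiv s).symm (stEquiv s).symm := by
    rw [stM_hyp s, Matrix.submatrix_submatrix, Equiv.self_comp_symm, Matrix.submatrix_id_id]
    rfl
  have h4 : (unt s Q).val * psiC ℤ n * (unt s Q).valᴴ - psiC ℤ n =
      (Q.val.val * hyp ℤ (Fin (n + 1)) * Q.val.valᴴ - hyp ℤ (Fin (n + 1))).submatrix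
        (stEquiv s).symm (stEquiv s).symm := by
    change Q.val.val.submatrix (stEquiv s).symm (stEquiv s).symm * psiC ℤ n *
      (Q.val.val.submatrix (stEquiv s).symm (stEquiv s).symm)ᴴ - psiC ℤ n = _
    rw [h3, conjTranspose_submatrix, Matrix.submatrix_mul_equiv, Matrix.submatrix_mul_equiv]
    rfl
  rw [h4]
  exact h2

/-- The odd L-group of the integers for the sign `-1` and the smallest form parameter is zero. -/
theorem L1_int : ∀ (n : ℕ) (P : UG evenP n), L1.mk P = 0 := by
  intro n
  induction n with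
  | zero =>
    intro P
    have h : P = 1 := by
      apply Subtype.ext
      apply Units.ext
      exact Subsingleton.elim _ _
    rw [h, L1.mk_one]
  | succ n ih =>
    intro P
    obtain ⟨s, hs⟩ : ∃ s : Fin (n + 1) ≃ Fin n ⊕ Fin 1, s = finSumFinEquiv.symm := ⟨_, rfl⟩
    obtain ⟨Q, h1, h2⟩ := Cl.main (P := P) (r := Sum.inr (s.symm (Sum.inr 0))) (by
      unfold hyp
      rw [fromBlocks_apply₂₂]
      rfl) (s.symm (Sum.inr 0))
    have hrow : ∀ y, (unt s Q).val (rr n) y = if y = rr n then 1 else 0 := by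
      intro y
      change Q.val.val (Sum.inr (s.symm (Sum.inr 0))) ((stEquiv s).symm y) = _
      rw [h2]
      rcases y with (y | y) | (y | y)
      · change (0 : Fin (n + 1) → ℤ) (s.symm (Sum.inl y)) = _
        simp
      · change (Pi.single (s.symm (Sum.inr 0)) (1 : ℤ) : Fin (n + 1) → ℤ) (s.symm (Sum.inl y)) = _
        rw [Pi.single_eq_of_ne (by
          intro h
          have h3 := s.symm.injective h
          simp at h3)]
        simp
      · change (0 : Fin (n + 1) → ℤ) (s.symm (Sum.inr y)) = _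
        simp
      · change (Pi.single (s.symm (Sum.inr 0)) (1 : ℤ) : Fin (n + 1) → ℤ) (s.symm (Sum.inr y)) = _
        rw [Fin.fin_one_eq_zero y, Pi.single_eq_same, if_pos rfl]
    obtain ⟨γ, hγ⟩ := reduce_row (f := s) (unt_mem s Q) hrow
    rw [ih γ, cC_eq (unt_mem s Q)] at hγ
    rw [← h1, ← hγ]
    congr 1
    exact Subtype.ext (tau_unt s Q).symm

theorem L1_int_zero (x : L1 evenP) : x = 0 := by
  obtain ⟨n, P, rfl⟩ := x.ind
  exact L1_int n P

/-- The kernel of the change of the form parameter. -/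
theorem kernel_full {G : Type*} [Group G] (x : L1 (evenP.ext G)) :
    forget1 (ext_mono even_le_all) x = 0 ↔ ∃ g : G, x = Multiplicative.toAdd (kG G g) :=
  kernel_int x (L1_int_zero _)

end final

end Pool.Agent.H750.P
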