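import Pool.Agent.H750.P.Square

set_option autoImplicit false

/-! # Group rings as rings with involution and their form parameters -/

namespace Pool.Agent.H750.P

open Matrix

variable {R : Type*} [Ring R] [StarRing R] {G : Type*} [Group G] {e : ℤˣ}

/-- The involution `∑ r_g g ↦ ∑ star(r_g) g⁻¹` of the group ring. -/
noncomputable def gstar (x : MonoidAlgebra R G) : MonoidAlgebra R G :=
  x.coeff.sum fun g r => MonoidAlgebra.single g⁻¹ (star r)

theorem gstar_single (g : G) (r : R) :
    gstar (MonoidAlgebra.single g r) = MonoidAlgebra.single g⁻¹ (star r) := by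
  unfold gstar
  rw [MonoidAlgebra.coeff_single, Finsupp.sum_single_index]
  simp

theorem gstar_zero : gstar (0 : MonoidAlgebra R G) = 0 := by
  unfold gstar
  rw [MonoidAlgebra.coeff_zero, Finsupp.sum_zero_index]

theorem gstar_add (x y : MonoidAlgebra R G) : gstar (x + y) = gstar x + gstar y := by
  unfold gstar
  rw [MonoidAlgebra.coeff_add, Finsupp.sum_add_index']
  · simp
  · intro g r s
    rw [star_add, MonoidAlgebra.single_add]

theorem gstar_gstar (x : MonoidAlgebra R G) : gstar (gstar x) = x := by
  induction x using MonoidAlgebra.induction_linear with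
  | zero => rw [gstar_zero, gstar_zero]
  | add x y hx hy => rw [gstar_add, gstar_add, hx, hy]
  | single g r => rw [gstar_single, gstar_single, inv_inv, star_star]

theorem gstar_mul (x y : MonoidAlgebra R G) : gstar (x * y) = gstar y * gstar x := by
  induction x using MonoidAlgebra.induction_linear with
  | zero => rw [zero_mul, gstar_zero, mul_zero]
  | add x1 x2 h1 h2 => rw [add_mul, gstar_add, h1, h2, gstar_add, mul_add]
  | single g r =>
    induction y using MonoidAlgebra.induction_linear with
    | zero => rw [mul_zero, gstar_zero, zero_mul]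
    | add y1 y2 h1 h2 => rw [mul_add, gstar_add, h1, h2, gstar_add, add_mul]
    | single h s =>
      rw [MonoidAlgebra.single_mul_single, gstar_single, gstar_single, gstar_single,
        MonoidAlgebra.single_mul_single, _root_.mul_inv_rev, star_mul]

/-- The group ring of a ring with involution as a ring with involution. -/
noncomputable instance : StarRing (MonoidAlgebra R G) where
  star := gstar
  star_involutive := gstar_gstar
  star_mul := gstar_mul
  star_add := gstar_add

theorem star_single (g : G) (r : R) :
    star (MonoidAlgebra.single g r : MonoidAlgebra R G) = MonoidAlgebra.single g⁻¹ (star r) :=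
  gstar_single g r

theorem coeff_star (x : MonoidAlgebra R G) (g : G) :
    (star x).coeff g = star (x.coeff g⁻¹) := by
  classical
  induction x using MonoidAlgebra.induction_linear with
  | zero => simp
  | add x y hx hy =>
    rw [star_add, MonoidAlgebra.coeff_add, MonoidAlgebra.coeff_add, Finsupp.add_apply,
      Finsupp.add_apply, hx, hy, star_add]
  | single h r =>
    rw [star_single, MonoidAlgebra.coeff_single, MonoidAlgebra.coeff_single,
      Finsupp.single_apply, Finsupp.single_apply]
    by_cases hh : h = g⁻¹
    · rw [if_pos hh, if_pos (by rw [hh, inv_inv])]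
    · rw [if_neg hh, if_neg (by intro h1; apply hh; rw [← h1, inv_inv]), star_zero]

/-- The inclusion of the coefficients. -/
noncomputable def inc (R : Type*) [Ring R] (G : Type*) [Group G] : R →+* MonoidAlgebra R G :=
  MonoidAlgebra.singleOneRingHom

theorem inc_apply (r : R) : inc R G r = MonoidAlgebra.single 1 r := rfl

/-- The augmentation `∑ r_g g ↦ ∑ r_g`. -/
noncomputable def aug (R : Type*) [Ring R] (G : Type*) [Group G] : MonoidAlgebra R G →+* R :=
  MonoidAlgebra.liftNCRingHom (RingHom.id R) (1 : G →* R) (fun _ _ => Commute.one_right _)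

theorem aug_single (g : G) (r : R) : aug R G (MonoidAlgebra.single g r) = r := by
  unfold aug
  simp

theorem aug_inc (r : R) : aug R G (inc R G r) = r := aug_single 1 r

theorem inc_star (r : R) : inc R G (star r) = star (inc R G r) := by
  rw [inc_apply, inc_apply, star_single, inv_one]

theorem aug_star (x : MonoidAlgebra R G) : aug R G (star x) = star (aug R G x) := by
  induction x using MonoidAlgebra.induction_linear with
  | zero => simp
  | add x y hx hy => rw [star_add, map_add, map_add, hx, hy, star_add]
  | single g r => rw [star_single, aug_single, aug_single]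

/-- `x r x*` is `inc (aug x r (aug x)*)` up to an element `c - e c*`. -/
theorem conj_inc (r : R) (hr : star r = -((e : ℤ) • r)) (x : MonoidAlgebra R G) :
    ∃ c : MonoidAlgebra R G, x * inc R G r * star x =
      inc R G (aug R G x * r * star (aug R G x)) + (c - (e : ℤ) • star c) := by
  induction x using MonoidAlgebra.induction_linear with
  | zero => exact ⟨0, by simp⟩
  | add x y hx hy =>
    obtain ⟨c, hc⟩ := hx
    obtain ⟨d, hd⟩ := hy
    have h1 : y * inc R G r * star x = -((e : ℤ) • star (x * inc R G r * star y)) := by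
      rw [star_mul, star_mul, star_star, ← inc_star, hr, map_neg, map_zsmul, mul_assoc,
        neg_mul, smul_mul_assoc, mul_neg, mul_smul_comm, smul_neg, ee_smul, neg_neg]
    have h2 : aug R G y * r * star (aug R G x) =
        -((e : ℤ) • star (aug R G x * r * star (aug R G y))) := by
      rw [star_mul, star_mul, star_star, hr, mul_assoc,
        neg_mul, smul_mul_assoc, mul_neg, mul_smul_comm, smul_neg, ee_smul, neg_neg]
    refine ⟨c + d + x * inc R G r * star y - inc R G (aug R G x * r * star (aug R G y)), ?_⟩
    have h3 : (x + y) * inc R G r * star (x + y) = x * inc R G r * star x +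
        y * inc R G r * star y + x * inc R G r * star y + y * inc R G r * star x := by
      rw [star_add]; noncomm_ring
    have h4 : aug R G (x + y) * r * star (aug R G (x + y)) = aug R G x * r * star (aug R G x) +
        aug R G y * r * star (aug R G y) + aug R G x * r * star (aug R G y) +
        aug R G y * r * star (aug R G x) := by
      rw [map_add, star_add]; noncomm_ring
    rw [h3, h4, h1, h2, hc, hd]
    simp only [map_add, map_neg, map_zsmul, inc_star, star_add, star_sub, smul_add, smul_sub]
    abel
  | single g s =>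
    refine ⟨0, ?_⟩
    rw [star_single, inc_apply, inc_apply, aug_single, MonoidAlgebra.single_mul_single,
      MonoidAlgebra.single_mul_single, mul_one, mul_inv_cancel]
    simp

/-- The extension of a form parameter of `R` to the group ring: all elements
`b - e b* + r` with `r` in the form parameter. -/
noncomputable def FormParam.ext (Λ : FormParam R e) (G : Type*) [Group G] :
    FormParam (MonoidAlgebra R G) e where
  carrier :=
    { carrier := {a | ∃ (b : MonoidAlgebra R G) (r : R), r ∈ Λ.carrier ∧
        a = (b - (e : ℤ) • star b) + MonoidAlgebra.single 1 r}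
      zero_mem' := ⟨0, 0, Λ.carrier.zero_mem, by simp⟩
      add_mem' := by
        rintro a a' ⟨b, r, hr, rfl⟩ ⟨b', r', hr', rfl⟩
        refine ⟨b + b', r + r', Λ.carrier.add_mem hr hr', ?_⟩
        rw [star_add, smul_add, MonoidAlgebra.single_add]
        abel
      neg_mem' := by
        rintro a ⟨b, r, hr, rfl⟩
        refine ⟨-b, -r, Λ.carrier.neg_mem hr, ?_⟩
        rw [star_neg, smul_neg, MonoidAlgebra.single_neg]
        abel }
  min_mem a := ⟨a, 0, Λ.carrier.zero_mem, by simp⟩
  skew := by
    rintro a ⟨b, r, hr, rfl⟩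
    rw [star_add, star_sub, star_zsmul, star_star, star_single, inv_one, Λ.skew r hr, smul_add,
      smul_sub, ee_smul]
    have h1 : (MonoidAlgebra.single 1 (-((e : ℤ) • r)) : MonoidAlgebra R G) =
        -((e : ℤ) • MonoidAlgebra.single 1 r) := by
      change inc R G (-((e : ℤ) • r)) = -((e : ℤ) • inc R G r)
      rw [map_neg, map_zsmul]
    rw [h1]
    abel
  conj := by
    rintro a ⟨b, r, hr, rfl⟩ x
    obtain ⟨c, hc⟩ := conj_inc (G := G) r (Λ.skew r hr) x
    refine ⟨x * b * star x + c, aug R G x * r * star (aug R G x), Λ.conj r hr _, ?_⟩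
    change x * ((b - (e : ℤ) • star b) + inc R G r) * star x = _
    rw [mul_add, add_mul, hc, mul_sub, sub_mul, mul_smul_comm, smul_mul_assoc, star_add, star_mul,
      star_mul, star_star, smul_add, inc_apply, mul_assoc x (star b)]
    abel

theorem mem_ext {Λ : FormParam R e} {a : MonoidAlgebra R G} :
    a ∈ (Λ.ext G).carrier ↔ ∃ (b : MonoidAlgebra R G) (r : R), r ∈ Λ.carrier ∧
      a = (b - (e : ℤ) • star b) + MonoidAlgebra.single 1 r := Iff.rfl

theorem ext_mono {Λ Λ' : FormParam R e} (h : Λ.carrier ≤ Λ'.carrier) :
    (Λ.ext G).carrier ≤ (Λ'.ext G).carrier := by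
  rintro a ⟨b, r, hr, rfl⟩
  exact ⟨b, r, h hr, rfl⟩

/-- The inclusion `R → R[G]` as a morphism. -/
noncomputable def incHom (Λ : FormParam R e) (G : Type*) [Group G] : QHom Λ (Λ.ext G) where
  hom := inc R G
  star := inc_star
  mem r hr := ⟨0, r, hr, by simp [inc_apply]⟩

/-- The augmentation `R[G] → R` as a morphism. -/
noncomputable def augHom (Λ : FormParam R e) (G : Type*) [Group G] : QHom (Λ.ext G) Λ where
  hom := aug R G
  star := aug_star
  mem := by
    rintro a ⟨b, r, hr, rfl⟩
    rw [map_add, map_sub, map_zsmul, aug_star, aug_single]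
    exact Λ.carrier.add_mem (Λ.min_mem _) hr

/-- The cartesian square for the group ring. -/
theorem square_group {Λ Λ' : FormParam R e} (h : Λ.carrier ≤ Λ'.carrier) (y : LG (Λ'.ext G))
    (z : LG Λ) (hyz : (augHom Λ' G).L y = forget h z) :
    ∃! x : LG (Λ.ext G), forget (ext_mono h) x = y ∧ (augHom Λ G).L x = z := by
  refine square (ext_mono h) h (incHom Λ G) (incHom Λ' G) (augHom Λ G) (augHom Λ' G) rfl rfl
    aug_inc ?_ y z hyz
  rintro a ⟨b, r, hr, rfl⟩
  refine ⟨r, hr, ?_⟩
  change (b - (e : ℤ) • star b) + MonoidAlgebra.single 1 r - MonoidAlgebra.single 1 r ∈ _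
  rw [add_sub_cancel_right]
  exact (Λ.ext G).min_mem b

/-! ### groups without elements of order two -/

open Classical in
theorem skew_decomp (hG : ∀ g : G, g * g = 1 → g = 1) (a : MonoidAlgebra R G)
    (ha : star a = -((e : ℤ) • a)) : ∃ b : MonoidAlgebra R G,
      a = (b - (e : ℤ) • star b) + MonoidAlgebra.single 1 (a.coeff 1) := by
  obtain ⟨b, hb⟩ : ∃ b : MonoidAlgebra R G, ∀ g, b.coeff g =
      if WellOrderingRel g g⁻¹ then a.coeff g else 0 := by
    refine ⟨MonoidAlgebra.ofCoeff (Finsupp.onFinset a.coeff.support
      (fun g => if WellOrderingRel g g⁻¹ then a.coeff g else 0) ?_), fun g => rfl⟩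
    intro g hg
    rw [Finsupp.mem_support_iff]
    intro h0
    apply hg
    simp [h0]
  refine ⟨b, ?_⟩
  have hs : ∀ g, (e : ℤ) • star (a.coeff g⁻¹) = -a.coeff g := by
    intro g
    rw [← coeff_star, ha, MonoidAlgebra.coeff_neg, MonoidAlgebra.coeff_smul, Finsupp.neg_apply,
      Finsupp.smul_apply, smul_neg, ee_smul]
  ext g
  rw [MonoidAlgebra.coeff_add, MonoidAlgebra.coeff_sub, MonoidAlgebra.coeff_smul,
    Finsupp.add_apply, Finsupp.sub_apply, Finsupp.smul_apply, coeff_star, hb, hb, inv_inv,
    MonoidAlgebra.coeff_single, Finsupp.single_apply]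
  by_cases h1 : 1 = g
  · subst h1
    rw [if_pos rfl, inv_one, if_neg (irrefl_of WellOrderingRel _), star_zero]
    simp
  · rw [if_neg h1, add_zero]
    have h2 : g ≠ g⁻¹ := by
      intro h3
      apply h1
      refine (hG g ?_).symm
      calc g * g = g * g⁻¹ := by rw [← h3]
        _ = 1 := mul_inv_cancel g
    rcases trichotomous_of WellOrderingRel g g⁻¹ with h | h | h
    · rw [if_pos h, if_neg (asymm_of WellOrderingRel h), star_zero, smul_zero, sub_zero]
    · exact absurd h h2
    · rw [if_pos h, if_neg (asymm_of WellOrderingRel h), hs, zero_sub, neg_neg]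

/-- The restriction of a form parameter of the group ring. -/
noncomputable def FormParam.res (Λ : FormParam (MonoidAlgebra R G) e) : FormParam R e where
  carrier := Λ.carrier.comap (inc R G : R →+ MonoidAlgebra R G)
  min_mem a := by
    rw [AddSubgroup.mem_comap]
    change inc R G (a - (e : ℤ) • star a) ∈ _
    rw [map_sub, map_zsmul, inc_star]
    exact Λ.min_mem _
  skew a ha := by
    rw [AddSubgroup.mem_comap] at ha
    have h1 := Λ.skew _ ha
    change star (inc R G a) = -((e : ℤ) • inc R G a) at h1
    rw [← inc_star, ← map_zsmul, ← map_neg] at h1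
    have h2 := congrArg (aug R G) h1
    rwa [aug_inc, aug_inc] at h2
  conj a ha x := by
    rw [AddSubgroup.mem_comap] at ha ⊢
    change inc R G (x * a * star x) ∈ _
    rw [map_mul, map_mul, inc_star]
    exact Λ.conj _ ha _

theorem FormParam.ext' {A : Type*} [Ring A] [StarRing A] {Λ Λ' : FormParam A e}
    (h : Λ.carrier = Λ'.carrier) : Λ = Λ' := by
  cases Λ; cases Λ'; congr

theorem ext_res (hG : ∀ g : G, g * g = 1 → g = 1) (Λ : FormParam (MonoidAlgebra R G) e) :
    Λ.res.ext G = Λ := by
  apply FormParam.ext'
  ext a
  constructor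
  · rintro ⟨b, r, hr, rfl⟩
    exact Λ.carrier.add_mem (Λ.min_mem b) hr
  · intro ha
    obtain ⟨b, hb⟩ := skew_decomp hG a (Λ.skew a ha)
    refine ⟨b, a.coeff 1, ?_, hb⟩
    change MonoidAlgebra.single 1 (a.coeff 1) ∈ Λ.carrier
    have h1 : MonoidAlgebra.single 1 (a.coeff 1) = a - (b - (e : ℤ) • star b) := by
      conv_rhs => rw [hb]
      abel
    rw [h1]
    exact Λ.carrier.sub_mem ha (Λ.min_mem b)

theorem res_ext (Λ : FormParam R e) : (Λ.ext G).res = Λ := by
  apply FormParam.ext'
  ext a
  constructor
  · rintro ⟨b, r, hr, h⟩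
    have h1 := congrArg (aug R G) h
    rw [map_add, map_sub, map_zsmul, aug_star, aug_single] at h1
    change aug R G (inc R G a) = _ at h1
    rw [aug_inc] at h1
    rw [h1]
    exact Λ.carrier.add_mem (Λ.min_mem _) hr
  · intro ha
    exact ⟨0, a, ha, by simp; rfl⟩

end Pool.Agent.H750.P
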