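import Pool.Agent.H750.P.Omega

set_option autoImplicit false

/-! # Classes of conjugates by general unitary matrices over the coefficients -/

namespace Pool.Agent.H750.P

open Matrix

section stab

variable {A : Type*} [Ring A] [StarRing A] {e : ℤˣ} {Λ : FormParam A e} {n k m : ℕ}

/-- The renumbering for `n + k` planes. -/
def wE (f : Fin m ≃ Fin n ⊕ Fin k) : Fin m ⊕ Fin m ≃ (Fin n ⊕ Fin n) ⊕ (Fin k ⊕ Fin k) :=
  (Equiv.sumCongr f f).trans (swapEquiv (Fin n) (Fin k))

omit [StarRing A] in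
theorem submatrix_assoc {m' k' : ℕ} (f : Fin m ≃ Fin n ⊕ Fin k) (s : Fin m' ≃ Fin m ⊕ Fin 1)
    (q : Fin k ⊕ Fin 1 ≃ Fin k') (M : Matrix (Fin n ⊕ Fin n) (Fin n ⊕ Fin n) A) :
    (fromBlocks ((fromBlocks M 0 0 1).submatrix (wE f) (wE f)) 0 0 1).submatrix (wE s) (wE s) =
      (fromBlocks M 0 0 1).submatrix
        (wE (s.trans ((Equiv.sumCongr f (Equiv.refl _)).trans
          ((Equiv.sumAssoc _ _ _).trans (Equiv.sumCongr (Equiv.refl _) q)))))
        (wE (s.trans ((Equiv.sumCongr f (Equiv.refl _)).trans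
          ((Equiv.sumAssoc _ _ _).trans (Equiv.sumCongr (Equiv.refl _) q))))) := by
  ext1 x y
  rcases x with x | x <;> rcases y with y | y <;>
    obtain ⟨u, rfl⟩ := s.symm.surjective x <;> obtain ⟨v, rfl⟩ := s.symm.surjective y <;>
    rcases u with u | u <;> rcases v with v | v <;>
    (try obtain ⟨u, rfl⟩ := f.symm.surjective u) <;> (try obtain ⟨v, rfl⟩ := f.symm.surjective v) <;>
    (try rcases u with u | u) <;> (try rcases v with v | v) <;>
    simp [wE, swapEquiv, Matrix.one_apply]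

theorem stab_many (Λ : FormParam A e) (n k : ℕ) : ∃ f : Fin (n + k) ≃ Fin n ⊕ Fin k,
    ∀ P : UG Λ n, ∃ P' : UG Λ (n + k),
      P'.val.val = (fromBlocks P.val.val 0 0 1).submatrix (wE f) (wE f) ∧ L1.mk P' = L1.mk P := by
  induction k with
  | zero =>
    refine ⟨(Equiv.sumEmpty (Fin n) (Fin 0)).symm, fun P => ⟨P, ?_, rfl⟩⟩
    ext1 x y
    rcases x with x | x <;> rcases y with y | y <;> rfl
  | succ k ih =>
    obtain ⟨f, hf⟩ := ih
    refine ⟨(finSumFinEquiv.symm : Fin (n + k + 1) ≃ Fin (n + k) ⊕ Fin 1).trans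
      ((Equiv.sumCongr f (Equiv.refl _)).trans ((Equiv.sumAssoc _ _ _).trans
        (Equiv.sumCongr (Equiv.refl _) finSumFinEquiv))), fun P => ?_⟩
    obtain ⟨P', h1, h2⟩ := hf P
    refine ⟨stU Λ finSumFinEquiv.symm P', ?_, by rw [L1.mk_stU, h2]⟩
    rw [← submatrix_assoc, ← h1]
    rfl

theorem uniU_add {D D' : Matrix (Fin m) (Fin m) A} (h : Triv Λ D) (h' : Triv Λ D') :
    uniU Λ (D + D') (h.add h') = uniU Λ D h * uniU Λ D' h' := by
  apply Subtype.ext
  apply Units.ext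
  change fromBlocks 1 0 (D + D') 1 = fromBlocks 1 0 D 1 * fromBlocks 1 0 D' 1
  rw [Matrix.fromBlocks_multiply]
  simp

end stab

section main

variable {R : Type*} [Ring R] [StarRing R] {G : Type*} [Group G] {e : ℤˣ} {Λ Λ' : FormParam R e}
  {n : ℕ}

/-- The classes of the matrices of rank one. -/
def rankOne (G : Type*) [Group G] (Λ Λ' : FormParam R e) : Set (L1 (Λ.ext G)) :=
  {x | ∃ (D : Matrix (Fin 1) (Fin 1) R) (θ : Matrix (Fin 1) (Fin 1) (MonoidAlgebra R G)),
    Triv Λ' D ∧ Triv (Λ.ext G) θ ∧ θ.map (aug R G) = 0 ∧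
    ∃ h : kM (D.map (inc R G)) θ ∈ UG (Λ.ext G) 1, x = L1.mk ⟨_, h⟩}

/-- The unitary matrices over the coefficients whose commutators have classes in a given group. -/
def SG (Λ Λ' : FormParam R e) (N : AddSubgroup (L1 (Λ.ext G))) (hΛ : Λ.carrier ≤ Λ'.carrier) (n : ℕ) :
    Subgroup (UG Λ' n) where
  carrier := {g | ∀ P Q : UG (Λ.ext G) n, P.val.val.map (aug R G) = 1 →
    Q.val = mapU (inc R G) n g.val * P.val * (mapU (inc R G) n g.val)⁻¹ →
    L1.mk Q - L1.mk P ∈ N}
  one_mem' := by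
    intro P Q _ h
    have h1 : Q = P := by
      apply Subtype.ext
      rw [h]
      change mapU (inc R G) n 1 * P.val * (mapU (inc R G) n 1)⁻¹ = P.val
      rw [map_one, one_mul, inv_one, mul_one]
    rw [h1, sub_self]
    exact N.zero_mem
  mul_mem' := by
    intro g g' hg hg' P Q hP hQ
    have hP1 : mapU (augHom Λ' G).hom n P.val = 1 := Units.ext hP
    have h1 := hg' P (conjU (incHom Λ' G) (augHom Λ' G) ext_ker g' P (ext_mono hΛ) hP1) hP rfl
    have h2 := hg (conjU (incHom Λ' G) (augHom Λ' G) ext_ker g' P (ext_mono hΛ) hP1) Q (by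
      change (mapU (inc R G) n g'.val * P.val * (mapU (inc R G) n g'.val)⁻¹).val.map (aug R G) = 1
      rw [Units.val_mul, Units.val_mul, Matrix.map_mul, Matrix.map_mul, hP, Matrix.mul_one,
        ← Matrix.map_mul, ← Units.val_mul, mul_inv_cancel, Units.val_one,
        Matrix.map_one _ (map_zero _) (map_one _)]) (by
      rw [hQ]
      change mapU (inc R G) n (g.val * g'.val) * P.val * (mapU (inc R G) n (g.val * g'.val))⁻¹ =
        mapU (inc R G) n g.val * (mapU (inc R G) n g'.val * P.val *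
          (mapU (inc R G) n g'.val)⁻¹) * (mapU (inc R G) n g.val)⁻¹
      rw [map_mul]
      group)
    have h3 := N.add_mem h2 h1
    rwa [sub_add_sub_cancel] at h3
  inv_mem' := by
    intro g hg P Q hP hQ
    have hgi : mapU (inc R G) n (g⁻¹).val = (mapU (inc R G) n g.val)⁻¹ :=
      map_inv (mapU (inc R G) n) g.val
    rw [hgi] at hQ
    have h1 := hg Q P (by
      rw [hQ, Units.val_mul, Units.val_mul, Matrix.map_mul, Matrix.map_mul, hP, Matrix.mul_one,
        ← Matrix.map_mul, ← Units.val_mul, inv_inv, inv_mul_cancel, Units.val_one,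
        Matrix.map_one _ (map_zero _) (map_one _)]) (by
      rw [hQ]; group)
    have h2 := N.neg_mem h1
    rwa [neg_sub] at h2

theorem SG_small {N : AddSubgroup (L1 (Λ.ext G))} (hΛ : Λ.carrier ≤ Λ'.carrier) {g : UG Λ' n}
    (hg : g.val ∈ UG Λ n) : g ∈ SG Λ Λ' N hΛ n := by
  intro P Q _ hQ
  have h1 : Q = (incHom Λ G).U n ⟨g.val, hg⟩ * P * ((incHom Λ G).U n ⟨g.val, hg⟩)⁻¹ :=
    Subtype.ext hQ
  rw [h1, L1.mk_mul, L1.mk_mul, L1.mk_inv]
  have h2 : L1.mk ((incHom Λ G).U n ⟨g.val, hg⟩) + L1.mk P + -L1.mk ((incHom Λ G).U n ⟨g.val, hg⟩) -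
      L1.mk P = 0 := by abel
  rw [h2]
  exact N.zero_mem

end main

end Pool.Agent.H750.P
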