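import Pool.Agent.H750.P.Gen1

set_option autoImplicit false

/-! # Transvections -/

namespace Pool.Agent.H750.P

open Matrix

section coeff

variable {R : Type*} [Ring R] [StarRing R] {e : ℤˣ} {Λ Λ' : FormParam R e} {n : ℕ}

/-- The unit vector. -/
def unitV (R : Type*) [Ring R] {n : ℕ} (j : Fin n) : Matrix (Fin 1) (Fin n ⊕ Fin n) R :=
  fromCols (Matrix.single 0 j 1) 0

theorem v_Jm (j : Fin n) : unitV R j * Jm R e n = fromCols 0 (Matrix.single 0 j 1) := by
  unfold unitV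
  rw [Jm_blocks, fromCols_mul_fromBlocks]
  simp only [Matrix.mul_zero, Matrix.zero_mul, add_zero, Matrix.mul_one]

theorem Jm_v (j : Fin n) : -((e : ℤ) • (Jm R e n * (unitV R j)ᴴ)) =
    fromRows 0 (-(Matrix.single 0 j 1 : Matrix (Fin 1) (Fin n) R)ᴴ) := by
  unfold unitV
  rw [Jm_blocks, fc_conj, fromBlocks_mul_fromRows]
  ext1 a b
  rcases a with a | a
  · simp [-zsmul_eq_mul]
  · simp only [Matrix.neg_apply, Matrix.smul_apply, fromRows_apply_inr, Matrix.zero_mul, add_zero,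
      Matrix.smul_mul, Matrix.one_mul, conjTranspose_zero]
    rw [ee_smul]

theorem v_hyp (j : Fin n) : unitV R j * hyp R (Fin n) * (unitV R j)ᴴ = 0 := by
  unfold unitV hyp
  rw [fromCols_mul_fromBlocks, fc_conj, fromCols_mul_fromRows]
  simp

theorem diag_conj (j : Fin n) (D : Matrix (Fin 1) (Fin 1) R) (i : Ci n) :
    (Ei e (unitV R j) 0 * fromBlocks 0 0 0 (fromBlocks 0 0 0 D) * (Ei e (unitV R j) 0)ᴴ :
      Matrix (Ci n) (Ci n) R) i i =
    (fromBlocks (fromBlocks 0 0 0 (Matrix.single j j (D 0 0))) 0 0 (fromBlocks 0 0 0 D) :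
      Matrix (Ci n) (Ci n) R) i i := by
  rw [Ei_D, v_Jm, Jm_v]
  rcases i with (k | k) | (k | k)
  · simp
  · rw [fromBlocks_apply₁₁, fromBlocks_apply₁₁, fromBlocks_apply₂₂, Matrix.mul_apply,
      Fin.sum_univ_one, Matrix.mul_apply, Fin.sum_univ_one, fromRows_apply_inr, Matrix.neg_apply,
      Matrix.neg_apply, fromCols_apply_inr, conjTranspose_apply]
    by_cases h : j = k
    · subst h
      simp
    · simp [h]
  · simp
  · simp

/-- A transvection agrees, up to stabilisation and unitary matrices for the smaller form parameter,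
with the conjugate of a transvection on the last plane. -/
theorem trans_match (j : Fin n) (D : Matrix (Fin 1) (Fin 1) R)
    (hD : Triv Λ' D) (hj : Triv Λ' (Matrix.single j j (D 0 0))) :
    (eiv e (unitV R j) * TU R n D * (eiv e (unitV R j))⁻¹)⁻¹ *
      (hat R n (uniU Λ' _ hj).val * TU R n D) ∈ UQ Λ (psiC R n) := by
  have hu : eiv e (unitV R j) ∈ UQ Λ (psiC R n) := eiv_mem Λ _
  have hu' : eiv e (unitV R j) ∈ UQ Λ' (psiC R n) := eiv_mem Λ' _
  have hT : TU R n D ∈ UQ Λ' (psiC R n) := TU_mem hD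
  refine inv_mul_mem (mul_mem (hat_mem (uniU Λ' _ hj).property) hT)
    (mul_mem (mul_mem hu' hT) (inv_mem hu')) ?_
  have h1 := (conj_form hu _ (TU_form (A := R) (n := n) D)).2
  have h2 : (hat R n (uniU Λ' _ hj).val * TU R n D).val * psiC R n *
      ((hat R n (uniU Λ' _ hj).val * TU R n D).val)ᴴ =
      psiC R n + fromBlocks (fromBlocks 0 0 0 (Matrix.single j j (D 0 0))) 0 0
        (fromBlocks 0 0 0 D) := by
    have h3 := TU_form (A := R) (n := n) D
    have h4 : (TU R n D).val * psiC R n * (TU R n D).valᴴ =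
        psiC R n + fromBlocks 0 0 0 (fromBlocks 0 0 0 D) := by rw [← h3]; abel
    have h5 : (hat R n (uniU Λ' _ hj).val * TU R n D).val * psiC R n *
        ((hat R n (uniU Λ' _ hj).val * TU R n D).val)ᴴ =
        (hat R n (uniU Λ' _ hj).val).val * ((TU R n D).val * psiC R n * (TU R n D).valᴴ) *
          (hat R n (uniU Λ' _ hj).val).valᴴ := by
      rw [Units.val_mul, conjTranspose_mul]; simp only [Matrix.mul_assoc]
    rw [h5, h4, hat_val]
    unfold psiC
    have h6 : (uniU Λ' _ hj).val.val = fromBlocks 1 0 (Matrix.single j j (D 0 0)) 1 := rfl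
    rw [fromBlocks_add, fromBlocks_add, fromBlocks_conjTranspose, Matrix.fromBlocks_multiply,
      Matrix.fromBlocks_multiply, h6]
    congr 1
    · unfold hyp
      rw [fromBlocks_conjTranspose]
      simp [Matrix.fromBlocks_multiply, fromBlocks_add]
    · simp
    · simp
    · simp
  intro i
  have h7 := h1.2 i
  rw [h2]
  have h8 : (psiC R n + fromBlocks (fromBlocks 0 0 0 (Matrix.single j j (D 0 0))) 0 0
      (fromBlocks 0 0 0 D) -
      (eiv e (unitV R j) * TU R n D * (eiv e (unitV R j))⁻¹).val * psiC R n *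
        ((eiv e (unitV R j) * TU R n D * (eiv e (unitV R j))⁻¹).val)ᴴ : Matrix (Ci n) (Ci n) R) i i =
      (fromBlocks (fromBlocks 0 0 0 (Matrix.single j j (D 0 0))) 0 0
        (fromBlocks 0 0 0 D) : Matrix (Ci n) (Ci n) R) i i -
        ((eiv e (unitV R j)).val * fromBlocks 0 0 0 (fromBlocks 0 0 0 D) *
          ((eiv e (unitV R j)).val)ᴴ : Matrix (Ci n) (Ci n) R) i i -
      ((eiv e (unitV R j) * TU R n D * (eiv e (unitV R j))⁻¹).val * psiC R n *
        ((eiv e (unitV R j) * TU R n D * (eiv e (unitV R j))⁻¹).val)ᴴ - psiC R n -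
        (eiv e (unitV R j)).val * fromBlocks 0 0 0 (fromBlocks 0 0 0 D) *
          ((eiv e (unitV R j)).val)ᴴ : Matrix (Ci n) (Ci n) R) i i := by
    simp only [Matrix.sub_apply, Matrix.add_apply]
    abel
  rw [h8]
  have h9 : ((eiv e (unitV R j)).val * fromBlocks 0 0 0 (fromBlocks 0 0 0 D) *
      ((eiv e (unitV R j)).val)ᴴ : Matrix (Ci n) (Ci n) R) i i =
      (fromBlocks (fromBlocks 0 0 0 (Matrix.single j j (D 0 0))) 0 0
        (fromBlocks 0 0 0 D) : Matrix (Ci n) (Ci n) R) i i := by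
    have h10 : (eiv e (unitV R j)).val = Ei e (unitV R j) 0 := by
      unfold eiv
      rw [v_hyp]
      simp
      rfl
    rw [h10]
    exact diag_conj j D i
  rw [h9, sub_self, zero_sub]
  exact Λ.carrier.neg_mem h7

end coeff

section group

variable {R : Type*} [Ring R] [StarRing R] {G : Type*} [Group G] {e : ℤˣ} {Λ Λ' : FormParam R e}
  {n : ℕ}

theorem SG_single (hΛ : Λ.carrier ≤ Λ'.carrier) (j : Fin n) (D : Matrix (Fin 1) (Fin 1) R)
    (hD : Triv Λ' D) (hj : Triv Λ' (Matrix.single j j (D 0 0))) :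
    (uniU Λ' _ hj)⁻¹ ∈ SG Λ Λ' (AddSubgroup.closure (rankOne G Λ Λ')) hΛ n := by
  intro P Q hP hQ
  have hh := (incHom Λ G).mapC_mem (trans_match (Λ := Λ) j D hD hj)
  rw [map_mul, map_inv, map_mul, map_mul, map_inv, mapC_eiv, map_mul] at hh
  change (eiv e _ * mapC (inc R G) n (TU R n D) * _)⁻¹ *
    (mapC (inc R G) n (hat R n _) * mapC (inc R G) n (TU R n D)) ∈ _ at hh
  rw [mapC_TU, mapC_hat] at hh
  have hgi : mapU (inc R G) n ((uniU Λ' _ hj)⁻¹).val = (mapU (inc R G) n (uniU Λ' _ hj).val)⁻¹ :=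
    map_inv (mapU (inc R G) n) (uniU Λ' _ hj).val
  rw [hgi, inv_inv] at hQ
  have hX : (mapU (inc R G) n (uniU Λ' _ hj).val)⁻¹ * P.val * mapU (inc R G) n (uniU Λ' _ hj).val ∈
      UG (Λ.ext G) n := by
    rw [← hQ]; exact Q.property
  have hDi : Triv (Λ'.ext G) (D.map (inc R G)) := (incHom Λ' G).triv hD
  obtain ⟨θ, h1, h2, h3⟩ := key (f := (finSumFinEquiv.symm : Fin (n + 1) ≃ Fin n ⊕ Fin 1))
    (augHom Λ' G) ext_ker (ext_mono hΛ) P hP _ hX _ (D.map (inc R G)) hDi hh
  have h4 : (⟨_, hX⟩ : UG (Λ.ext G) n) = Q := Subtype.ext hQ.symm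
  have hk : kM (D.map (inc R G)) θ ∈ UG (Λ.ext G) 1 :=
    kM_mem (augHom Λ' G) ext_ker hDi (h1.mono (ext_mono hΛ)) h2
  rw [h4, cC_kM _ hk] at h3
  rw [h3, add_sub_cancel_left]
  exact AddSubgroup.subset_closure ⟨D, θ, hD, h1, h2, hk, rfl⟩

theorem triv_single (Λ' : FormParam R e) {d : R} (hd : d ∈ Λ'.carrier) (j : Fin n) :
    Triv Λ' (Matrix.single j j d : Matrix (Fin n) (Fin n) R) := by
  refine ⟨?_, fun i => ?_⟩
  · ext1 a b
    rw [conjTranspose_apply, Matrix.neg_apply, Matrix.smul_apply, Matrix.single_apply,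
      Matrix.single_apply]
    by_cases h : j = b ∧ j = a
    · rw [if_pos h, if_pos ⟨h.2, h.1⟩, Λ'.skew d hd]
    · rw [if_neg h, if_neg (fun h' => h ⟨h'.2, h'.1⟩), star_zero, smul_zero, neg_zero]
  · rw [Matrix.single_apply]
    split_ifs
    · exact hd
    · exact Λ'.carrier.zero_mem

theorem SG_single' (hΛ : Λ.carrier ≤ Λ'.carrier) (j : Fin n) {d : R} (hd : d ∈ Λ'.carrier) :
    uniU Λ' _ (triv_single Λ' hd j) ∈ SG Λ Λ' (AddSubgroup.closure (rankOne G Λ Λ')) hΛ n := by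
  have hd' : -d ∈ Λ'.carrier := Λ'.carrier.neg_mem hd
  have hD : Triv Λ' (Matrix.single 0 0 (-d) : Matrix (Fin 1) (Fin 1) R) := triv_single Λ' hd' 0
  have h1 := SG_single (G := G) hΛ j (Matrix.single 0 0 (-d)) hD
    (by rw [Matrix.single_apply_same]; exact triv_single Λ' hd' j)
  have h2 : (uniU Λ' (Matrix.single j j ((Matrix.single 0 0 (-d) : Matrix (Fin 1) (Fin 1) R) 0 0))
      (by rw [Matrix.single_apply_same]; exact triv_single Λ' hd' j))⁻¹ =
      uniU Λ' _ (triv_single Λ' hd j) := by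
    apply Subtype.ext
    apply Units.ext
    change fromBlocks 1 0 (-(Matrix.single j j
      ((Matrix.single 0 0 (-d) : Matrix (Fin 1) (Fin 1) R) 0 0))) 1 =
      fromBlocks 1 0 (Matrix.single j j d) 1
    congr 1
    rw [Matrix.single_apply_same]
    ext1 a b
    rw [Matrix.neg_apply, Matrix.single_apply, Matrix.single_apply]
    split_ifs <;> simp
  rw [← h2]
  exact h1

theorem SG_sum (hΛ : Λ.carrier ≤ Λ'.carrier) (d : Fin n → R) (hd : ∀ j, d j ∈ Λ'.carrier)
    (s : Finset (Fin n)) : ∃ h : Triv Λ' (∑ j ∈ s, Matrix.single j j (d j)),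
      uniU Λ' _ h ∈ SG Λ Λ' (AddSubgroup.closure (rankOne G Λ Λ')) hΛ n := by
  classical
  induction s using Finset.induction_on with
  | empty =>
    refine ⟨by rw [Finset.sum_empty]; exact triv_zero, SG_small hΛ ?_⟩
    have h0 : Triv Λ (∑ j ∈ (∅ : Finset (Fin n)), Matrix.single j j (d j)) := by
      rw [Finset.sum_empty]; exact triv_zero
    exact (uniU Λ _ h0).property
  | insert j s hj ih =>
    obtain ⟨h, hs⟩ := ih
    have h1 : ∑ k ∈ insert j s, Matrix.single k k (d k) =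
        Matrix.single j j (d j) + ∑ k ∈ s, Matrix.single k k (d k) := Finset.sum_insert hj
    have h2 := (triv_single Λ' (hd j) j).add h
    have h3 : Triv Λ' (∑ k ∈ insert j s, Matrix.single k k (d k)) := by rw [h1]; exact h2
    refine ⟨h3, ?_⟩
    have h4 : uniU Λ' _ h3 = uniU Λ' _ (triv_single Λ' (hd j) j) * uniU Λ' _ h := by
      rw [← uniU_add]
      congr 1
    rw [h4]
    exact mul_mem (SG_single' hΛ j (hd j)) hs

theorem SG_uni (hΛ : Λ.carrier ≤ Λ'.carrier) {θ : Matrix (Fin n) (Fin n) R} (hθ : Triv Λ' θ) :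
    uniU Λ' θ hθ ∈ SG Λ Λ' (AddSubgroup.closure (rankOne G Λ Λ')) hΛ n := by
  obtain ⟨h, hs⟩ := SG_sum (G := G) hΛ (fun j => θ j j) hθ.2 Finset.univ
  have h1 : ∀ i, (∑ j : Fin n, Matrix.single j j (θ j j)) i i = θ i i := by
    intro i
    rw [Matrix.sum_apply, Finset.sum_eq_single i]
    · exact Matrix.single_apply_same _ _ _
    · intro b _ hb
      exact Matrix.single_apply_of_ne _ _ _ _ _ (fun hc => hb hc.1)
    · intro h2
      exact absurd (Finset.mem_univ i) h2
  have h2 : Triv Λ (θ - ∑ j : Fin n, Matrix.single j j (θ j j)) := by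
    refine ⟨(hθ.sub h).1, fun i => ?_⟩
    rw [Matrix.sub_apply, h1, sub_self]
    exact Λ.carrier.zero_mem
  have h3 : uniU Λ' θ hθ = uniU Λ' _ (h2.mono hΛ) * uniU Λ' _ h := by
    rw [← uniU_add]
    congr 1
    rw [sub_add_cancel]
  rw [h3]
  exact mul_mem (SG_small hΛ (uniU Λ _ h2).property) hs

end group

end Pool.Agent.H750.P
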