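import Pool.Agent.H750.P.Gen2

set_option autoImplicit false
set_option linter.unusedSimpArgs false

/-! # The sum of a unitary matrix and its inverse is elementary -/

namespace Pool.Agent.H750.P

open Matrix

section alg

variable {R : Type*} [Ring R] [StarRing R] {e : ℤˣ} {Λ Λ' : FormParam R e} {n m : ℕ}

omit [StarRing R] in
theorem fb_sub {α β γ δ : Type*} (A A' : Matrix α γ R) (B B' : Matrix α δ R) (C C' : Matrix β γ R)
    (D D' : Matrix β δ R) : fromBlocks A B C D - fromBlocks A' B' C' D' =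
      fromBlocks (A - A') (B - B') (C - C') (D - D') := by
  rw [sub_eq_add_neg, fromBlocks_neg, fromBlocks_add]
  simp only [sub_eq_add_neg]

/-- The sign matrix. -/
def sM (R : Type*) [Ring R] (n : ℕ) : Matrix (Fin n ⊕ Fin n) (Fin n ⊕ Fin n) R :=
  fromBlocks 1 0 0 (-1)

/-- The inverse of the hermitian form. -/
def JI (R : Type*) [Ring R] (e : ℤˣ) (n : ℕ) : Matrix (Fin n ⊕ Fin n) (Fin n ⊕ Fin n) R :=
  fromBlocks 0 ((e : ℤ) • 1) 1 0

omit [StarRing R] in
theorem sM_sM : sM R n * sM R n = 1 := by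
  unfold sM
  rw [Matrix.fromBlocks_multiply]
  simp

theorem J_JI : Jm R e n * JI R e n = 1 := by
  rw [Jm_blocks]
  unfold JI
  rw [Matrix.fromBlocks_multiply, sm_one]
  simp

theorem JI_J : JI R e n * Jm R e n = 1 := by
  rw [Jm_blocks]
  unfold JI
  rw [Matrix.fromBlocks_multiply, sm_one]
  simp

/-- The change of basis. -/
def PM (R : Type*) [Ring R] (e : ℤˣ) (n : ℕ) :
    Matrix ((Fin n ⊕ Fin n) ⊕ (Fin n ⊕ Fin n)) ((Fin n ⊕ Fin n) ⊕ (Fin n ⊕ Fin n)) R :=
  fromBlocks (JI R e n) (JI R e n * sM R n) (1 - hyp R (Fin n) * JI R e n)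
    (-(hyp R (Fin n) * JI R e n * sM R n))

/-- The inverse of the change of basis. -/
def PN (R : Type*) [Ring R] [StarRing R] (e : ℤˣ) (n : ℕ) :
    Matrix ((Fin n ⊕ Fin n) ⊕ (Fin n ⊕ Fin n)) ((Fin n ⊕ Fin n) ⊕ (Fin n ⊕ Fin n)) R :=
  fromBlocks (hyp R (Fin n)) 1 (-((e : ℤ) • (hyp R (Fin n))ᴴ)) (-sM R n)

omit [StarRing R] in
theorem ms_ee (M : Matrix (Fin n) (Fin n) R) : (e : ℤ) • (e : ℤ) • M = M := by
  rw [smul_smul]
  rcases Int.units_eq_one_or e with h | h <;> subst h <;> simp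

theorem PM_PN : PM R e n * PN R e n = 1 := by
  unfold PM PN JI sM hyp
  simp only [fromBlocks_conjTranspose, fromBlocks_smul, Matrix.fromBlocks_neg,
    Matrix.fromBlocks_multiply, ← Matrix.fromBlocks_one, fb_sub, Matrix.fromBlocks_zero,
    Matrix.mul_zero, Matrix.zero_mul, zero_add, add_zero, Matrix.mul_one, Matrix.one_mul,
    Matrix.mul_neg, Matrix.neg_mul, neg_zero, neg_neg, sub_zero, zero_sub, sub_self,
    conjTranspose_one, conjTranspose_zero, Matrix.smul_mul, Matrix.mul_smul, smul_zero, smul_neg,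
    Matrix.fromBlocks_add, ms_ee, add_neg_cancel, neg_add_cancel]

theorem PN_PM : PN R e n * PM R e n = 1 := by
  unfold PM PN JI sM hyp
  simp only [fromBlocks_conjTranspose, fromBlocks_smul, Matrix.fromBlocks_neg,
    Matrix.fromBlocks_multiply, ← Matrix.fromBlocks_one, fb_sub, Matrix.fromBlocks_zero,
    Matrix.mul_zero, Matrix.zero_mul, zero_add, add_zero, Matrix.mul_one, Matrix.one_mul,
    Matrix.mul_neg, Matrix.neg_mul, neg_zero, neg_neg, sub_zero, zero_sub, sub_self,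
    conjTranspose_one, conjTranspose_zero, Matrix.smul_mul, Matrix.mul_smul, smul_zero, smul_neg,
    Matrix.fromBlocks_add, ms_ee, add_neg_cancel, neg_add_cancel]

theorem PM_form : PM R e n * fromBlocks (hyp R (Fin n)) 0 0 (hyp R (Fin n)) * (PM R e n)ᴴ -
    hyp R (Fin n ⊕ Fin n) =
    (fromBlocks 0 (-(fromBlocks 1 0 0 0)) 0 0) - (e : ℤ) •
      (fromBlocks 0 (-(fromBlocks 1 0 0 0)) 0 0 :
        Matrix ((Fin n ⊕ Fin n) ⊕ (Fin n ⊕ Fin n)) ((Fin n ⊕ Fin n) ⊕ (Fin n ⊕ Fin n)) R)ᴴ := by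
  unfold PM JI sM hyp
  simp only [fromBlocks_conjTranspose, fromBlocks_smul, Matrix.fromBlocks_neg,
    Matrix.fromBlocks_multiply, ← Matrix.fromBlocks_one, fb_sub, Matrix.fromBlocks_zero,
    Matrix.mul_zero, Matrix.zero_mul, zero_add, add_zero, Matrix.mul_one, Matrix.one_mul,
    Matrix.mul_neg, Matrix.neg_mul, neg_zero, neg_neg, sub_zero, zero_sub, sub_self,
    conjTranspose_one, conjTranspose_zero, Matrix.smul_mul, Matrix.mul_smul, smul_zero, smul_neg,
    Matrix.fromBlocks_add, ms_ee, add_neg_cancel, neg_add_cancel, conjTranspose_neg,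
    conjTranspose_zsmul]

/-- The change of basis as an invertible matrix. -/
def dU (R : Type*) [Ring R] [StarRing R] (e : ℤˣ) {m n : ℕ} (f : Fin m ≃ Fin n ⊕ Fin n) :
    (Matrix (Fin m ⊕ Fin m) (Fin m ⊕ Fin m) R)ˣ where
  val := (PM R e n).submatrix (Equiv.sumCongr f f) (wE f)
  inv := (PN R e n).submatrix (wE f) (Equiv.sumCongr f f)
  val_inv := by rw [Matrix.submatrix_mul_equiv, PM_PN, Matrix.submatrix_one_equiv]
  inv_val := by rw [Matrix.submatrix_mul_equiv, PN_PM, Matrix.submatrix_one_equiv]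

omit [StarRing R] in
theorem hyp_wE {k : ℕ} (f : Fin m ≃ Fin n ⊕ Fin k) : hyp R (Fin m) =
    (fromBlocks (hyp R (Fin n)) 0 0 (hyp R (Fin k))).submatrix (wE f) (wE f) := by
  unfold hyp wE
  ext1 x y
  rcases x with x | x <;> rcases y with y | y <;>
    obtain ⟨u, rfl⟩ := f.symm.surjective x <;> obtain ⟨v, rfl⟩ := f.symm.surjective y <;>
    rcases u with u | u <;> rcases v with v | v <;>
    simp [swapEquiv, Matrix.one_apply]

omit [StarRing R] in
theorem hyp_cong {κ : Type*} [Fintype κ] [DecidableEq κ] (f : Fin m ≃ κ) : hyp R (Fin m) =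
    (hyp R κ).submatrix (Equiv.sumCongr f f) (Equiv.sumCongr f f) := by
  unfold hyp
  ext1 x y
  rcases x with x | x <;> rcases y with y | y <;>
    simp [Matrix.one_apply]

theorem dU_mem (Λ : FormParam R e) (f : Fin m ≃ Fin n ⊕ Fin n) : dU R e f ∈ UG Λ m := by
  rw [mem_UG]
  have h1 : (dU R e f).val * hyp R (Fin m) * (dU R e f).valᴴ - hyp R (Fin m) =
      (PM R e n * fromBlocks (hyp R (Fin n)) 0 0 (hyp R (Fin n)) * (PM R e n)ᴴ -
        hyp R (Fin n ⊕ Fin n)).submatrix (Equiv.sumCongr f f) (Equiv.sumCongr f f) := by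
    change (PM R e n).submatrix (Equiv.sumCongr f f) (wE f) * hyp R (Fin m) *
      ((PM R e n).submatrix (Equiv.sumCongr f f) (wE f))ᴴ - hyp R (Fin m) = _
    conv_lhs => rw [hyp_cong f]
    have h2 : (hyp R (Fin n ⊕ Fin n)).submatrix (Equiv.sumCongr f f) (Equiv.sumCongr f f) =
        (fromBlocks (hyp R (Fin n)) 0 0 (hyp R (Fin n))).submatrix (wE f) (wE f) := by
      rw [← hyp_cong, ← hyp_wE]
    rw [show (PM R e n).submatrix (Equiv.sumCongr f f) (wE f) *
      (hyp R (Fin n ⊕ Fin n)).submatrix (Equiv.sumCongr f f) (Equiv.sumCongr f f) *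
      ((PM R e n).submatrix (Equiv.sumCongr f f) (wE f))ᴴ =
      (PM R e n * fromBlocks (hyp R (Fin n)) 0 0 (hyp R (Fin n)) * (PM R e n)ᴴ).submatrix
        (Equiv.sumCongr f f) (Equiv.sumCongr f f) by
        rw [h2, conjTranspose_submatrix, Matrix.submatrix_mul_equiv, Matrix.submatrix_mul_equiv]]
    rfl
  rw [h1, PM_form]
  exact (triv_min Λ _).submatrix _

/-- The sum of two invertible matrices. -/
def dbl (f : Fin m ≃ Fin n ⊕ Fin n) (g g' : (Matrix (Fin n ⊕ Fin n) (Fin n ⊕ Fin n) R)ˣ) :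
    (Matrix (Fin m ⊕ Fin m) (Fin m ⊕ Fin m) R)ˣ where
  val := (fromBlocks g.val 0 0 g'.val).submatrix (wE f) (wE f)
  inv := (fromBlocks (g⁻¹).val 0 0 (g'⁻¹).val).submatrix (wE f) (wE f)
  val_inv := by
    rw [Matrix.submatrix_mul_equiv, Matrix.fromBlocks_multiply]
    simp
  inv_val := by
    rw [Matrix.submatrix_mul_equiv, Matrix.fromBlocks_multiply]
    simp

/-- The sign matrix as an invertible matrix. -/
def sU (R : Type*) [Ring R] (n : ℕ) : (Matrix (Fin n ⊕ Fin n) (Fin n ⊕ Fin n) R)ˣ :=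
  ⟨sM R n, sM R n, sM_sM, sM_sM⟩

theorem herm_inv {g : (Matrix (Fin n ⊕ Fin n) (Fin n ⊕ Fin n) R)ˣ} (hg : g ∈ UG Λ n) :
    (g⁻¹).valᴴ * JI R e n = JI R e n * g.val := by
  have h1 : g.val * Jm R e n * g.valᴴ = Jm R e n := herm_of_mem (ψ := hyp R (Fin n)) hg
  have h3 : g.valᴴ * (g⁻¹).valᴴ = 1 := by
    rw [← conjTranspose_mul, g.inv_mul, conjTranspose_one]
  have h2 : g.val * Jm R e n = Jm R e n * (g⁻¹).valᴴ := by
    calc g.val * Jm R e n = g.val * Jm R e n * (g.valᴴ * (g⁻¹).valᴴ) := by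
          rw [h3, Matrix.mul_one]
      _ = (g.val * Jm R e n * g.valᴴ) * (g⁻¹).valᴴ := by simp only [Matrix.mul_assoc]
      _ = _ := by rw [h1]
  calc (g⁻¹).valᴴ * JI R e n = (JI R e n * Jm R e n) * ((g⁻¹).valᴴ * JI R e n) := by
        rw [JI_J, Matrix.one_mul]
    _ = JI R e n * (Jm R e n * (g⁻¹).valᴴ) * JI R e n := by simp only [Matrix.mul_assoc]
    _ = JI R e n * g.val * (Jm R e n * JI R e n) := by rw [← h2]; simp only [Matrix.mul_assoc]
    _ = _ := by rw [J_JI, Matrix.mul_one]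

/-- The sum of a unitary matrix and of its conjugate by the sign matrix is conjugate to a product of
elementary matrices. -/
theorem dbl_eq (f : Fin m ≃ Fin n ⊕ Fin n) {g : (Matrix (Fin n ⊕ Fin n) (Fin n ⊕ Fin n) R)ˣ}
    (hg : g ∈ UG Λ n) : ∃ (θ : Matrix (Fin m) (Fin m) R) (hθ : Triv Λ θ)
      (α β : Matrix (Fin m) (Fin m) R) (h1 : α * β = 1) (h2 : β * α = 1),
      dbl f g (sU R n * g * sU R n) =
        (dU R e f)⁻¹ * ((uniU Λ θ hθ).val * (hypU Λ α β h1 h2).val) * dU R e f := by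
  have hX : Triv Λ (g.val * hyp R (Fin n) * g.valᴴ - hyp R (Fin n)) := hg
  have e1 : (g⁻¹).valᴴ * g.valᴴ = 1 := by
    rw [← conjTranspose_mul, g.mul_inv, conjTranspose_one]
  have e2 : g.valᴴ * (g⁻¹).valᴴ = 1 := by
    rw [← conjTranspose_mul, g.inv_mul, conjTranspose_one]
  refine ⟨(g.val * hyp R (Fin n) * g.valᴴ - hyp R (Fin n)).submatrix f f, hX.submatrix f,
    ((g⁻¹).valᴴ).submatrix f f, (g.valᴴ).submatrix f f, ?_, ?_, ?_⟩
  · rw [Matrix.submatrix_mul_equiv, e1, Matrix.submatrix_one_equiv]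
  · rw [Matrix.submatrix_mul_equiv, e2, Matrix.submatrix_one_equiv]
  · rw [mul_assoc (dU R e f)⁻¹, eq_inv_mul_iff_mul_eq]
    apply Units.ext
    change (PM R e n).submatrix (Equiv.sumCongr f f) (wE f) *
      (fromBlocks g.val 0 0 (sM R n * g.val * sM R n)).submatrix (wE f) (wE f) =
      (fromBlocks 1 0 ((g.val * hyp R (Fin n) * g.valᴴ - hyp R (Fin n)).submatrix f f) 1 *
        fromBlocks (((g⁻¹).valᴴ).submatrix f f) 0 0 (((g.valᴴ).submatrix f f)ᴴ)) *
      (PM R e n).submatrix (Equiv.sumCongr f f) (wE f)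
    have h3 : (fromBlocks 1 0 ((g.val * hyp R (Fin n) * g.valᴴ - hyp R (Fin n)).submatrix f f) 1 *
        fromBlocks (((g⁻¹).valᴴ).submatrix f f) 0 0 (((g.valᴴ).submatrix f f)ᴴ) :
          Matrix (Fin m ⊕ Fin m) (Fin m ⊕ Fin m) R) =
        (fromBlocks 1 0 (g.val * hyp R (Fin n) * g.valᴴ - hyp R (Fin n)) 1 *
          fromBlocks ((g⁻¹).valᴴ) 0 0 g.val).submatrix (Equiv.sumCongr f f)
            (Equiv.sumCongr f f) := by
      rw [Matrix.fromBlocks_multiply, Matrix.fromBlocks_multiply, conjTranspose_submatrix,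
        conjTranspose_conjTranspose, Matrix.submatrix_mul_equiv]
      ext1 x y
      rcases x with x | x <;> rcases y with y | y <;> simp
    rw [h3, Matrix.submatrix_mul_equiv, Matrix.submatrix_mul_equiv]
    congr 1
    have h4 : (g.val * hyp R (Fin n) * g.valᴴ - hyp R (Fin n)) * (g⁻¹).valᴴ =
        g.val * hyp R (Fin n) - hyp R (Fin n) * (g⁻¹).valᴴ := by
      rw [Matrix.sub_mul, Matrix.mul_assoc, e2, Matrix.mul_one]
    have h5 := herm_inv hg
    unfold PM
    rw [Matrix.fromBlocks_multiply, Matrix.fromBlocks_multiply, Matrix.fromBlocks_multiply]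
    simp only [Matrix.mul_zero, Matrix.zero_mul, zero_add, add_zero, Matrix.one_mul, h4]
    congr 1
    · rw [h5]
    · calc JI R e n * sM R n * (sM R n * g.val * sM R n) =
          JI R e n * (sM R n * sM R n) * g.val * sM R n := by simp only [Matrix.mul_assoc]
        _ = JI R e n * g.val * sM R n := by rw [sM_sM, Matrix.mul_one]
        _ = _ := by rw [← h5, Matrix.mul_assoc]
    · rw [Matrix.sub_mul, Matrix.sub_mul, Matrix.one_mul, Matrix.mul_sub, Matrix.mul_one,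
        Matrix.mul_assoc (hyp R (Fin n)) ((g⁻¹).valᴴ), h5]
      simp only [Matrix.mul_assoc]
      abel
    · have h6 : -(hyp R (Fin n) * JI R e n * sM R n) * (sM R n * g.val * sM R n) =
          -(hyp R (Fin n) * (JI R e n * g.val) * sM R n) := by
        rw [Matrix.neg_mul]
        congr 1
        calc hyp R (Fin n) * JI R e n * sM R n * (sM R n * g.val * sM R n) =
            hyp R (Fin n) * JI R e n * (sM R n * sM R n) * g.val * sM R n := by
              simp only [Matrix.mul_assoc]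
          _ = _ := by rw [sM_sM, Matrix.mul_one]; simp only [Matrix.mul_assoc]
      rw [h6, Matrix.sub_mul, ← h5]
      simp only [Matrix.mul_assoc, Matrix.mul_neg]
      abel

end alg

section final

variable {R : Type*} [Ring R] [StarRing R] {G : Type*} [Group G] {e : ℤˣ} {Λ Λ' : FormParam R e}
  {n m : ℕ}

theorem dbl_SG (hΛ : Λ.carrier ≤ Λ'.carrier) (f : Fin m ≃ Fin n ⊕ Fin n) (g : UG Λ' n) :
    ∃ h : dbl f g.val (sU R n * g.val * sU R n) ∈ UG Λ' m, (⟨_, h⟩ : UG Λ' m) ∈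
      SG Λ Λ' (AddSubgroup.closure (rankOne G Λ Λ')) hΛ m := by
  obtain ⟨θ, hθ, α, β, h1, h2, h3⟩ := dbl_eq f g.property
  have hd : dU R e f ∈ UG Λ' m := dU_mem Λ' f
  have h4 : dbl f g.val (sU R n * g.val * sU R n) ∈ UG Λ' m := by
    rw [h3]
    exact mul_mem (mul_mem (inv_mem hd) (mul_mem (uniU Λ' θ hθ).property
      (hypU Λ' α β h1 h2).property)) hd
  refine ⟨h4, ?_⟩
  have h5 : (⟨_, h4⟩ : UG Λ' m) = (⟨dU R e f, hd⟩ : UG Λ' m)⁻¹ *
      (uniU Λ' θ hθ * hypU Λ' α β h1 h2) * ⟨dU R e f, hd⟩ := Subtype.ext h3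
  rw [h5]
  have h6 : (⟨dU R e f, hd⟩ : UG Λ' m) ∈
      SG Λ Λ' (AddSubgroup.closure (rankOne G Λ Λ')) hΛ m := SG_small hΛ (dU_mem Λ f)
  exact mul_mem (mul_mem (inv_mem h6) (mul_mem (SG_uni hΛ hθ)
    (SG_small hΛ (hypU Λ α β h1 h2).property))) h6

/-- The differences of conjugates are sums of classes of matrices of rank one. -/
theorem conjSet_le (hΛ : Λ.carrier ≤ Λ'.carrier) :
    conjSet (Λ.ext G) (incHom Λ' G) (augHom Λ' G) ⊆ AddSubgroup.closure (rankOne G Λ Λ') := by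
  rintro x ⟨n, g, P, Q, hP, hQ, rfl⟩
  obtain ⟨f, hf⟩ := stab_many (Λ.ext G) n n
  obtain ⟨P', hP1, hP2⟩ := hf P
  obtain ⟨Q', hQ1, hQ2⟩ := hf Q
  obtain ⟨h, hS⟩ := dbl_SG (G := G) hΛ f g
  rw [← hP2, ← hQ2]
  have hPa : P.val.val.map (aug R G) = 1 := congrArg Units.val hP
  refine hS P' Q' ?_ ?_
  · rw [hP1]
    change ((fromBlocks P.val.val 0 0 1).submatrix (wE f) (wE f)).map (aug R G) = 1
    rw [← Matrix.submatrix_map, Matrix.fromBlocks_map, hPa, Matrix.map_one _ (map_zero _) (map_one _),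
      Matrix.map_zero _ (map_zero _), Matrix.fromBlocks_one, Matrix.submatrix_one_equiv]
  · rw [eq_mul_inv_iff_mul_eq]
    apply Units.ext
    have hQm : Q.val.val * g.val.val.map (inc R G) = g.val.val.map (inc R G) * P.val.val := by
      have h1 := hQ
      rw [eq_mul_inv_iff_mul_eq] at h1
      exact congrArg Units.val h1
    change Q'.val.val * ((fromBlocks g.val.val 0 0
        (sU R n * g.val * sU R n).val).submatrix (wE f) (wE f)).map (inc R G) =
      ((fromBlocks g.val.val 0 0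
        (sU R n * g.val * sU R n).val).submatrix (wE f) (wE f)).map (inc R G) * P'.val.val
    rw [hP1, hQ1, ← Matrix.submatrix_map, Matrix.submatrix_mul_equiv, Matrix.submatrix_mul_equiv,
      Matrix.fromBlocks_map, Matrix.fromBlocks_multiply, Matrix.fromBlocks_multiply,
      Matrix.map_zero _ (map_zero _), hQm]
    simp

end final

end Pool.Agent.H750.P
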