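import Pool.Agent.H750.P.Gen3

set_option autoImplicit false

/-! # Generators and relations for the kernel -/

namespace Pool.Agent.H750.P

open Matrix

section coeff

variable {R : Type*} [Ring R] [StarRing R] {e : ℤˣ} {Λ Λ' : FormParam R e}

/-- Commutation of a transvection and an Eichler transformation over the coefficients. -/
theorem comm_ok (hΛ : Λ.carrier ≤ Λ'.carrier) {D B : Matrix (Fin 1) (Fin 1) R} (hD : Triv Λ' D)
    (hB : star (B 0 0) * D 0 0 * B 0 0 ∈ Λ.carrier) :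
    (TU R 1 D)⁻¹ * EiU e (fromCols B 0) 0 * TU R 1 D ∈ UQ Λ (psiC R 1) := by
  have hT : TU R 1 D ∈ UQ Λ' (psiC R 1) := TU_mem hD
  have hu : EiU e (fromCols B 0) 0 ∈ UQ Λ (psiC R 1) := Ei_left_mem B
  rw [mul_assoc]
  refine inv_mul_mem (mul_mem (UQ_mono hΛ hu) hT) hT ?_
  have h1 := (conj_form hu _ (TU_form (A := R) (n := 1) D)).1
  have h3 := TU_form (A := R) (n := 1) D
  intro i
  have h7 := h1.2 i
  have h4 := congrFun (congrFun h3 i) i
  rw [Matrix.sub_apply] at h4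
  have h8 : ((EiU e (fromCols B 0) 0 * TU R 1 D).val * psiC R 1 *
      ((EiU e (fromCols B 0) 0 * TU R 1 D).val)ᴴ -
      (TU R 1 D).val * psiC R 1 * (TU R 1 D).valᴴ : Matrix (Ci 1) (Ci 1) R) i i =
      ((EiU e (fromCols B 0) 0 * TU R 1 D).val * psiC R 1 *
      ((EiU e (fromCols B 0) 0 * TU R 1 D).val)ᴴ - psiC R 1 -
      (EiU e (fromCols B 0) 0).val * fromBlocks 0 0 0 (fromBlocks 0 0 0 D) *
        ((EiU e (fromCols B 0) 0).val)ᴴ : Matrix (Ci 1) (Ci 1) R) i i +
      (((EiU e (fromCols B 0) 0).val * fromBlocks 0 0 0 (fromBlocks 0 0 0 D) *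
        ((EiU e (fromCols B 0) 0).val)ᴴ : Matrix (Ci 1) (Ci 1) R) i i -
        (fromBlocks 0 0 0 (fromBlocks 0 0 0 D) : Matrix (Ci 1) (Ci 1) R) i i) := by
    rw [← h4]
    simp only [Matrix.sub_apply]
    abel
  rw [h8]
  refine Λ.carrier.add_mem h7 ?_
  change (Ei e (fromCols B 0) 0 * fromBlocks 0 0 0 (fromBlocks 0 0 0 D) *
    (Ei e (fromCols B 0) 0)ᴴ : Matrix (Ci 1) (Ci 1) R) i i - _ ∈ Λ.carrier
  have hv1 : fromCols B (0 : Matrix (Fin 1) (Fin 1) R) * Jm R e 1 = fromCols 0 B := by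
    rw [Jm_blocks, fromCols_mul_fromBlocks]
    simp only [Matrix.mul_zero, Matrix.zero_mul, add_zero, Matrix.mul_one]
  have hv2 : -((e : ℤ) • (Jm R e 1 * (fromCols B (0 : Matrix (Fin 1) (Fin 1) R))ᴴ)) =
      fromRows 0 (-Bᴴ) := by
    rw [Jm_blocks, fc_conj, fromBlocks_mul_fromRows]
    ext1 a b
    rcases a with a | a
    · simp [-zsmul_eq_mul]
    · simp only [Matrix.neg_apply, Matrix.smul_apply, fromRows_apply_inr, Matrix.zero_mul, add_zero,
        Matrix.smul_mul, Matrix.one_mul, conjTranspose_zero]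
      rw [ee_smul]
  rw [Ei_D, hv1, hv2]
  rcases i with (k | k) | (k | k)
  · have h9 : ∀ x : R, x = 0 → x ∈ Λ.carrier := fun x hx => hx ▸ Λ.carrier.zero_mem
    apply h9
    simp
  · rw [fromBlocks_apply₁₁, fromBlocks_apply₁₁, Matrix.mul_apply,
      Fin.sum_univ_one, Matrix.mul_apply, Fin.sum_univ_one, fromRows_apply_inr, Matrix.neg_apply,
      Matrix.neg_apply, fromCols_apply_inr, conjTranspose_apply, Fin.fin_one_eq_zero k]
    have h9 : -star (B 0 0) * D 0 0 * -B 0 0 - (0 : Matrix (Fin 1 ⊕ Fin 1) (Fin 1 ⊕ Fin 1) R)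
        (Sum.inr 0) (Sum.inr 0) = star (B 0 0) * D 0 0 * B 0 0 := by
      simp
    rw [h9]
    exact hB
  · have h9 : ∀ x : R, x = 0 → x ∈ Λ.carrier := fun x hx => hx ▸ Λ.carrier.zero_mem
    apply h9
    simp
  · have h9 : ∀ x : R, x = 0 → x ∈ Λ.carrier := fun x hx => hx ▸ Λ.carrier.zero_mem
    apply h9
    simp

end coeff

section group

variable {R : Type*} [Ring R] [StarRing R] {G : Type*} [Group G] {e : ℤˣ} {Λ Λ' : FormParam R e}

/-- The matrix `c - e c*`. -/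
noncomputable def thG (e : ℤˣ) (c : MonoidAlgebra R G) : Matrix (Fin 1) (Fin 1) (MonoidAlgebra R G) :=
  Matrix.of fun _ _ => c - (e : ℤ) • star c

theorem thG_add (c c' : MonoidAlgebra R G) : thG e (c + c') = thG e c + thG e c' := by
  ext1 i j
  change (c + c') - (e : ℤ) • star (c + c') = (c - (e : ℤ) • star c) + (c' - (e : ℤ) • star c')
  rw [star_add, smul_add]
  abel

theorem thG_triv (Ω : FormParam (MonoidAlgebra R G) e) (c : MonoidAlgebra R G) :
    Triv Ω (thG e c) := by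
  have h1 := triv_min Ω (Matrix.of fun _ _ => c : Matrix (Fin 1) (Fin 1) (MonoidAlgebra R G))
  exact h1

theorem thG_aug {c : MonoidAlgebra R G} (hc : aug R G c = 0) : (thG e c).map (aug R G) = 0 := by
  ext1 i j
  change aug R G (c - (e : ℤ) • star c) = 0
  rw [map_sub, map_zsmul, aug_star, hc]
  simp

/-- The class of the matrix of rank one for `d` and `c`. -/
noncomputable def kk (Λ : FormParam R e) (d : R) (c : MonoidAlgebra R G) : L1 (Λ.ext G) :=
  cC (Λ.ext G) (finSumFinEquiv.symm : Fin (1 + 1) ≃ Fin 1 ⊕ Fin 1)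
    ((TU _ 1 (Matrix.of fun _ _ => inc R G d))⁻¹ * EiU e 0 (thG e c) *
      TU _ 1 (Matrix.of fun _ _ => inc R G d))

theorem of_triv {d : R} (hd : d ∈ Λ'.carrier) :
    Triv Λ' (Matrix.of fun _ _ => d : Matrix (Fin 1) (Fin 1) R) := by
  refine ⟨?_, fun _ => hd⟩
  ext1 i j
  exact Λ'.skew d hd

omit [StarRing R] in
theorem of_map (d : R) : (Matrix.of fun _ _ => d : Matrix (Fin 1) (Fin 1) R).map (inc R G) =
    Matrix.of fun _ _ => inc R G d := rfl

theorem inc_triv {d : R} (hd : d ∈ Λ'.carrier) : Triv (Λ'.ext G)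
    (Matrix.of fun _ _ => inc R G d : Matrix (Fin 1) (Fin 1) (MonoidAlgebra R G)) :=
  (incHom Λ' G).triv (of_triv hd)

theorem kM_ok {d : R} (hd : d ∈ Λ'.carrier) {c : MonoidAlgebra R G}
    (hc : aug R G c = 0) :
    kM (Matrix.of fun _ _ => inc R G d) (thG e c) ∈ UG (Λ.ext G) 1 :=
  kM_mem (augHom Λ' G) ext_ker (inc_triv hd) (thG_triv _ c) (thG_aug hc)

theorem kk_eq {d : R} (hd : d ∈ Λ'.carrier) {c : MonoidAlgebra R G}
    (hc : aug R G c = 0) : kk Λ d c = L1.mk ⟨_, kM_ok (Λ := Λ) (Λ' := Λ') hd hc⟩ :=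
  cC_kM _ _

theorem kk_add {d : R} (hd : d ∈ Λ'.carrier)
    {c c' : MonoidAlgebra R G} (hc : aug R G c = 0) (hc' : aug R G c' = 0) :
    kk Λ d (c + c') = kk Λ d c + kk Λ d c' := by
  have h1 : aug R G (c + c') = 0 := by rw [map_add, hc, hc', add_zero]
  have h2 : (⟨_, kM_ok (Λ := Λ) (Λ' := Λ') hd h1⟩ : UG (Λ.ext G) 1) =
      (⟨_, kM_ok (Λ := Λ) (Λ' := Λ') hd hc⟩ : UG (Λ.ext G) 1) *
        ⟨_, kM_ok (Λ := Λ) (Λ' := Λ') hd hc'⟩ := by
    apply Subtype.ext
    change kM _ (thG e (c + c')) = kM _ (thG e c) * kM _ (thG e c')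
    rw [thG_add, kM_add]
  rw [kk_eq hd hc, kk_eq hd hc', kk_eq hd h1, h2, L1.mk_mul]

theorem map_zero_left {B : Matrix (Fin 1) (Fin 1) (MonoidAlgebra R G)}
    (hB : B.map (aug R G) = 0) :
    (fromCols B (0 : Matrix (Fin 1) (Fin 1) (MonoidAlgebra R G))).map (augHom Λ' G).hom = 0 := by
  ext1 i j
  rcases j with j | j
  · exact congrFun (congrFun hB i) j
  · exact map_zero (augHom Λ' G).hom

theorem map_zero_right {B : Matrix (Fin 1) (Fin 1) (MonoidAlgebra R G)}
    (hB : B.map (aug R G) = 0) :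
    (fromCols (0 : Matrix (Fin 1) (Fin 1) (MonoidAlgebra R G)) B).map (augHom Λ' G).hom = 0 := by
  ext1 i j
  rcases j with j | j
  · exact map_zero (augHom Λ' G).hom
  · exact congrFun (congrFun hB i) j

theorem thG_prod (b c : MonoidAlgebra R G) :
    (Matrix.of fun _ _ => star c : Matrix (Fin 1) (Fin 1) (MonoidAlgebra R G)) *
      (Matrix.of fun _ _ => b : Matrix (Fin 1) (Fin 1) (MonoidAlgebra R G))ᴴ -
      (e : ℤ) • ((Matrix.of fun _ _ => b : Matrix (Fin 1) (Fin 1) (MonoidAlgebra R G)) *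
      (Matrix.of fun _ _ => star c : Matrix (Fin 1) (Fin 1) (MonoidAlgebra R G))ᴴ) =
      thG e (-((e : ℤ) • (b * c))) := by
  ext1 i j
  rw [Matrix.sub_apply, Matrix.smul_apply, Matrix.mul_apply, Matrix.mul_apply,
    Fin.sum_univ_one, Fin.sum_univ_one, conjTranspose_apply, conjTranspose_apply]
  change star c * star b - (e : ℤ) • (b * star (star c)) =
    -((e : ℤ) • (b * c)) - (e : ℤ) • star (-((e : ℤ) • (b * c)))
  rw [star_star, star_neg, star_zsmul, star_mul, smul_neg, ee_smul]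
  abel

theorem kk_comm (hΛ : Λ.carrier ≤ Λ'.carrier) {d : R} (hd : d ∈ Λ'.carrier)
    {b c : MonoidAlgebra R G} (hc : aug R G c = 0)
    (h : (TU _ 1 (Matrix.of fun _ _ => inc R G d))⁻¹ *
      EiU e (fromCols (Matrix.of fun _ _ => -((e : ℤ) • b)) 0) 0 *
      TU _ 1 (Matrix.of fun _ _ => inc R G d) ∈ UQ (Λ.ext G) (psiC (MonoidAlgebra R G) 1)) :
    kk Λ d (b * c) = 0 := by
  have h2 : (TU _ 1 (Matrix.of fun _ _ => inc R G d))⁻¹ *
      EiU e (fromCols 0 (Matrix.of fun _ _ => star c)) 0 *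
      TU _ 1 (Matrix.of fun _ _ => inc R G d) ∈ UQ (Λ.ext G) (psiC (MonoidAlgebra R G) 1) := by
    refine conj_mem (augHom Λ' G) ext_ker (ext_mono hΛ) (TU_mem (inc_triv hd))
      (Ei_right_mem _) (Ei_map _ _ _ (map_zero_right ?_) (Matrix.map_zero _ (map_zero _)))
    ext1 i j
    change aug R G (star c) = 0
    rw [aug_star, hc, star_zero]
  have h3 := comm_zero (finSumFinEquiv.symm : Fin (1 + 1) ≃ Fin 1 ⊕ Fin 1) _ _ _ h h2
  rw [thG_prod] at h3
  have h4 : -((e : ℤ) • (-((e : ℤ) • b) * c)) = b * c := by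
    rw [neg_mul, smul_neg, neg_neg, smul_mul_assoc, ee_smul]
  rw [h4] at h3
  exact h3

theorem kk_mul (hΛ : Λ.carrier ≤ Λ'.carrier) {d : R} (hd : d ∈ Λ'.carrier)
    {b c : MonoidAlgebra R G} (hb : aug R G b = 0) (hc : aug R G c = 0) :
    kk Λ d (b * c) = 0 := by
  refine kk_comm hΛ hd hc ?_
  refine conj_mem (augHom Λ' G) ext_ker (ext_mono hΛ) (TU_mem (inc_triv hd))
    (Ei_left_mem _) (Ei_map _ _ _ (map_zero_left ?_) (Matrix.map_zero _ (map_zero _)))
  ext1 i j
  change aug R G (-((e : ℤ) • b)) = 0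
  rw [map_neg, map_zsmul, hb, smul_zero, neg_zero]

theorem kk_zero (hΛ : Λ.carrier ≤ Λ'.carrier) {d r : R} (hd : d ∈ Λ'.carrier)
    (hr : star r * d * r ∈ Λ.carrier) {c : MonoidAlgebra R G} (hc : aug R G c = 0) :
    kk Λ d (inc R G r * c) = 0 := by
  refine kk_comm hΛ hd hc ?_
  have h0 : star (-((e : ℤ) • r)) * d * (-((e : ℤ) • r)) = star r * d * r := by
    rw [star_neg, star_zsmul, neg_mul, neg_mul, smul_mul_assoc, smul_mul_assoc, mul_neg,
      mul_smul_comm, smul_neg, neg_neg, ee_smul]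
  have h1 := (incHom Λ G).mapC_mem (comm_ok hΛ (B := Matrix.of fun _ _ => -((e : ℤ) • r))
    (of_triv hd) (by
      change star (-((e : ℤ) • r)) * d * (-((e : ℤ) • r)) ∈ Λ.carrier
      rw [h0]; exact hr))
  rw [map_mul, map_mul, map_inv, mapC_EiU] at h1
  change (mapC (inc R G) 1 (TU R 1 _))⁻¹ * _ * mapC (inc R G) 1 (TU R 1 _) ∈ _ at h1
  rw [mapC_TU, Matrix.map_zero _ (map_zero _)] at h1
  have h2 : (fromCols (Matrix.of fun _ _ => -((e : ℤ) • r) : Matrix (Fin 1) (Fin 1) R)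
      (0 : Matrix (Fin 1) (Fin 1) R)).map (incHom Λ G).hom =
      fromCols (Matrix.of fun _ _ => -((e : ℤ) • inc R G r)) 0 := by
    ext1 i j
    rcases j with j | j
    · change inc R G (-((e : ℤ) • r)) = -((e : ℤ) • inc R G r)
      rw [map_neg, map_zsmul]
    · exact map_zero (inc R G)
  rw [h2] at h1
  exact h1

/-- The generator for `d`, `r` and `g`. -/
noncomputable def kg (Λ : FormParam R e) (d r : R) (g : G) : L1 (Λ.ext G) :=
  kk Λ d (MonoidAlgebra.single g r - MonoidAlgebra.single 1 r)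

theorem aug_sub' (g : G) (r : R) :
    aug R G (MonoidAlgebra.single g r - MonoidAlgebra.single 1 r) = 0 := by
  rw [map_sub, aug_single, aug_single, sub_self]

theorem kg_add {d : R} (hd : d ∈ Λ'.carrier) (r r' : R) (g : G) :
    kg Λ d (r + r') g = kg Λ d r g + kg Λ d r' g := by
  unfold kg
  rw [← kk_add hd (aug_sub' g r) (aug_sub' g r'), MonoidAlgebra.single_add,
    MonoidAlgebra.single_add]
  congr 1
  abel

theorem kg_mul (hΛ : Λ.carrier ≤ Λ'.carrier) {d : R} (hd : d ∈ Λ'.carrier) (r : R) (g h : G) :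
    kg Λ d r (g * h) = kg Λ d r g + kg Λ d r h := by
  have h1 := kk_mul hΛ hd (aug_sub' g r) (aug_sub' h (1 : R))
  have h2 : (MonoidAlgebra.single g r - MonoidAlgebra.single 1 r : MonoidAlgebra R G) *
      (MonoidAlgebra.single h 1 - MonoidAlgebra.single 1 1) +
      ((MonoidAlgebra.single g r - MonoidAlgebra.single 1 r) +
        (MonoidAlgebra.single h r - MonoidAlgebra.single 1 r)) =
      MonoidAlgebra.single (g * h) r - MonoidAlgebra.single 1 r := by
    rw [sub_mul, mul_sub, mul_sub]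
    simp only [MonoidAlgebra.single_mul_single, mul_one, one_mul]
    abel
  unfold kg
  rw [← h2, kk_add hd (by rw [map_mul, aug_sub', zero_mul])
    (by rw [map_add, aug_sub', aug_sub', add_zero]), h1, zero_add,
    kk_add hd (aug_sub' g r) (aug_sub' h r)]

theorem kg_zero (hΛ : Λ.carrier ≤ Λ'.carrier) {d r : R} (hd : d ∈ Λ'.carrier)
    (hr : star r * d * r ∈ Λ.carrier) (g : G) : kg Λ d r g = 0 := by
  have h1 := kk_zero hΛ hd hr (aug_sub' g (1 : R))
  unfold kg
  have h2 : inc R G r * (MonoidAlgebra.single g 1 - MonoidAlgebra.single 1 1) =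
      MonoidAlgebra.single g r - MonoidAlgebra.single 1 r := by
    rw [mul_sub, inc_apply]
    simp only [MonoidAlgebra.single_mul_single, mul_one, one_mul]
  rw [← h2]
  exact h1

theorem kg_congr (hΛ : Λ.carrier ≤ Λ'.carrier) {d d' : R} (hd : d ∈ Λ'.carrier)
    (hdd : d' - d ∈ Λ.carrier) (r : R) (g : G) : kg Λ d' r g = kg Λ d r g := by
  have hl : Triv (Λ.ext G) (Matrix.of fun _ _ => inc R G (d' - d) :
      Matrix (Fin 1) (Fin 1) (MonoidAlgebra R G)) := inc_triv (Λ' := Λ) hdd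
  have hT : TU (MonoidAlgebra R G) 1 (Matrix.of fun _ _ => inc R G d') =
      TU _ 1 (Matrix.of fun _ _ => inc R G d) * TU _ 1 (Matrix.of fun _ _ => inc R G (d' - d)) := by
    apply Units.ext
    change fromBlocks 1 0 0 (fromBlocks 1 0 (Matrix.of fun _ _ => inc R G d') 1) =
      fromBlocks 1 0 0 (fromBlocks 1 0 (Matrix.of fun _ _ => inc R G d) 1) *
      fromBlocks 1 0 0 (fromBlocks 1 0 (Matrix.of fun _ _ => inc R G (d' - d)) 1)
    rw [Matrix.fromBlocks_multiply, Matrix.fromBlocks_multiply]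
    simp only [Matrix.mul_zero, Matrix.zero_mul, zero_add, add_zero, Matrix.mul_one,
      Matrix.one_mul]
    congr 2
    ext1 i j
    change inc R G d' = inc R G d + inc R G (d' - d)
    rw [← map_add, add_sub_cancel]
  have hm : (TU _ 1 (Matrix.of fun _ _ => inc R G d))⁻¹ *
      EiU e 0 (thG e (MonoidAlgebra.single g r - MonoidAlgebra.single 1 r)) *
      TU _ 1 (Matrix.of fun _ _ => inc R G d) ∈ UQ (Λ.ext G) (psiC (MonoidAlgebra R G) 1) := by
    refine conj_mem (augHom Λ' G) ext_ker (ext_mono hΛ) (TU_mem (inc_triv hd)) ?_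
      (Ei_map _ _ _ (Matrix.map_zero _ (map_zero _)) (thG_aug (aug_sub' g r)))
    apply Ei_mem
    rw [Matrix.zero_mul, Matrix.zero_mul, zero_add]
    apply triv_conjTranspose
    rw [conjTranspose_conjTranspose]
    exact thG_triv _ _
  have h1 := cC_conj (f := (finSumFinEquiv.symm : Fin (1 + 1) ≃ Fin 1 ⊕ Fin 1))
    (inv_mem (TU_mem (n := 1) hl)) hm
  have h2 : (TU (MonoidAlgebra R G) 1 (Matrix.of fun _ _ => inc R G (d' - d)))⁻¹ *
      ((TU _ 1 (Matrix.of fun _ _ => inc R G d))⁻¹ *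
      EiU e 0 (thG e (MonoidAlgebra.single g r - MonoidAlgebra.single 1 r)) *
      TU _ 1 (Matrix.of fun _ _ => inc R G d)) *
      ((TU (MonoidAlgebra R G) 1 (Matrix.of fun _ _ => inc R G (d' - d)))⁻¹)⁻¹ =
      (TU _ 1 (Matrix.of fun _ _ => inc R G d'))⁻¹ *
      EiU e 0 (thG e (MonoidAlgebra.single g r - MonoidAlgebra.single 1 r)) *
      TU _ 1 (Matrix.of fun _ _ => inc R G d') := by
    rw [hT, _root_.mul_inv_rev, inv_inv]
    simp only [mul_assoc]
  rw [h2] at h1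
  exact h1

/-- The set of the generators. -/
def gens (G : Type*) [Group G] (Λ Λ' : FormParam R e) : Set (L1 (Λ.ext G)) :=
  {x | ∃ d ∈ Λ'.carrier, ∃ (r : R) (g : G), x = kg Λ d r g}

theorem kk_gens {d : R} (hd : d ∈ Λ'.carrier) (b : MonoidAlgebra R G) :
    kk Λ d (b - inc R G (aug R G b)) ∈ AddSubgroup.closure (gens G Λ Λ') := by
  have hz : ∀ b : MonoidAlgebra R G, aug R G (b - inc R G (aug R G b)) = 0 := by
    intro b
    rw [map_sub, aug_inc, sub_self]
  induction b using MonoidAlgebra.induction_linear with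
  | zero =>
    have h1 := kk_add (Λ := Λ) hd (map_zero (aug R G)) (map_zero (aug R G))
    rw [add_zero] at h1
    have h2 : kk Λ d (0 : MonoidAlgebra R G) = 0 := left_eq_add.mp h1
    rw [map_zero, map_zero, sub_zero, h2]
    exact AddSubgroup.zero_mem _
  | add x y hx hy =>
    have h1 : x + y - inc R G (aug R G (x + y)) =
        (x - inc R G (aug R G x)) + (y - inc R G (aug R G y)) := by
      rw [map_add, map_add]; abel
    rw [h1, kk_add hd (hz x) (hz y)]
    exact AddSubgroup.add_mem _ hx hy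
  | single g r =>
    rw [aug_single, inc_apply]
    exact AddSubgroup.subset_closure ⟨d, hd, r, g, rfl⟩

theorem rankOne_le : rankOne G Λ Λ' ⊆ AddSubgroup.closure (gens G Λ Λ') := by
  rintro x ⟨D, θ, hD, hθ, h0, h, rfl⟩
  obtain ⟨b, r, hr, hb⟩ := hθ.2 0
  have h3 : aug R G (θ 0 0) = 0 := congrFun (congrFun h0 0) 0
  rw [hb, map_add, map_sub, map_zsmul, aug_star, aug_single] at h3
  have h4 : θ = thG e (b - inc R G (aug R G b)) := by
    have h5 := eq_neg_of_add_eq_zero_right h3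
    ext1 i j
    rw [Fin.fin_one_eq_zero i, Fin.fin_one_eq_zero j, hb, h5]
    change (b - (e : ℤ) • star b) + inc R G _ = (b - inc R G (aug R G b)) -
      (e : ℤ) • star (b - inc R G (aug R G b))
    rw [star_sub, ← inc_star, map_neg, map_sub, map_zsmul, smul_sub]
    abel
  have h6 : D = Matrix.of fun _ _ => D 0 0 := by
    ext1 i j
    rw [Fin.fin_one_eq_zero i, Fin.fin_one_eq_zero j]
    rfl
  have hd : D 0 0 ∈ Λ'.carrier := hD.2 0
  have h7 := kk_gens (Λ := Λ) (G := G) hd b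
  rw [kk_eq hd (by rw [map_sub, aug_inc, sub_self])] at h7
  have h8 : (⟨_, h⟩ : UG (Λ.ext G) 1) = ⟨_, kM_ok (Λ := Λ) (Λ' := Λ') hd
      (c := b - inc R G (aug R G b)) (by rw [map_sub, aug_inc, sub_self])⟩ := by
    apply Subtype.ext
    change kM (D.map (inc R G)) θ = kM (Matrix.of fun _ _ => inc R G (D 0 0)) _
    rw [← h4, ← of_map, ← h6]
  rw [h8]
  exact h7

theorem forget_kk (hΛ : Λ.carrier ≤ Λ'.carrier) {d : R} (hd : d ∈ Λ'.carrier)
    {c : MonoidAlgebra R G} (hc : aug R G c = 0) : forget1 (ext_mono hΛ) (kk Λ d c) = 0 := by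
  have hb : Triv (Λ'.ext G) (thG e c) := thG_triv _ c
  rw [kk_eq hd hc, forget1_mk]
  have h1 : incU (ext_mono hΛ) 1 (⟨_, kM_ok (Λ := Λ) (Λ' := Λ') hd hc⟩ : UG (Λ.ext G) 1) =
      (uniU (Λ'.ext G) _ (inc_triv hd))⁻¹ *
      ⟨uppU (thG e c), uppU_mem hb⟩ * uniU (Λ'.ext G) _ (inc_triv hd) := by
    apply Subtype.ext
    apply Units.ext
    rfl
  rw [h1, L1.mk_mul, L1.mk_mul, L1.mk_inv, mk_uppU hb]
  abel

/-- The kernel of the change of the form parameter on the reduced odd L-groups. -/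
theorem kernel_gen (hΛ : Λ.carrier ≤ Λ'.carrier) (x : L1 (Λ.ext G))
    (hx : (augHom Λ G).L1 x = 0) :
    forget1 (ext_mono hΛ) x = 0 ↔ x ∈ AddSubgroup.closure (gens G Λ Λ') := by
  constructor
  · intro h
    rw [(odd_main (incHom Λ' G) (augHom Λ' G) aug_inc ext_ker (ext_mono hΛ)
      (incHom Λ G) (augHom Λ G) rfl rfl).2 x hx] at h
    have h1 : AddSubgroup.closure (conjSet (Λ.ext G) (incHom Λ' G) (augHom Λ' G)) ≤
        AddSubgroup.closure (rankOne G Λ Λ') := (AddSubgroup.closure_le _).mpr (conjSet_le hΛ)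
    have h2 : AddSubgroup.closure (rankOne G Λ Λ') ≤ AddSubgroup.closure (gens G Λ Λ') :=
      (AddSubgroup.closure_le _).mpr rankOne_le
    exact h2 (h1 h)
  · intro h
    have h1 : AddSubgroup.closure (gens G Λ Λ') ≤ (forget1 (ext_mono (G := G) hΛ)).ker := by
      rw [AddSubgroup.closure_le]
      rintro y ⟨d, hd, r, g, rfl⟩
      exact forget_kk hΛ hd (aug_sub' g r)
    exact h1 h

end group

end Pool.Agent.H750.P
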