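import Pool.Agent.H750.P.Quad

set_option autoImplicit false

/-! # The two form parameters of the integers for the sign `-1` -/

namespace Pool.Agent.H750.P

/-- The form parameter of all even integers, for the sign `-1`. -/
def evenP : FormParam ℤ (-1) where
  carrier :=
    { carrier := {a | Even a}
      zero_mem' := Even.zero
      add_mem' := fun ha hb => Even.add ha hb
      neg_mem' := fun ha => Even.neg ha }
  min_mem a := ⟨a, by simp⟩
  skew a _ := by simp
  conj a ha x := (Even.mul_left ha x).mul_right _

/-- The form parameter of all integers, for the sign `-1`. -/
def allP : FormParam ℤ (-1) where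
  carrier := ⊤
  min_mem _ := AddSubgroup.mem_top _
  skew a _ := by simp
  conj _ _ _ := AddSubgroup.mem_top _

end Pool.Agent.H750.P
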