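import Pool.Agent.H750.P.ZPart

set_option autoImplicit false

/-! # The classes of the matrices of rank one -/

namespace Pool.Agent.H750.P

open Matrix

section comm

variable {A : Type*} [Ring A] [StarRing A] {e : ℤˣ} {Λ Λ' : FormParam A e} {n : ℕ}

theorem EiU_comm (B₁ B₂ : Matrix (Fin 1) (Fin n) A) :
    EiU e (fromCols B₁ 0) 0 * EiU e (fromCols 0 B₂) 0 =
      EiU e (fromCols 0 B₂) 0 * EiU e (fromCols B₁ 0) 0 *
        EiU e (0 : Matrix (Fin 1) (Fin n ⊕ Fin n) A) (B₂ * B₁ᴴ - (e : ℤ) • (B₁ * B₂ᴴ)) := by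
  rw [EiU_mul, EiU_mul, EiU_mul]
  have h1 : fromCols B₁ (0 : Matrix (Fin 1) (Fin n) A) * Jm A e n *
      (fromCols (0 : Matrix (Fin 1) (Fin n) A) B₂)ᴴ = B₁ * B₂ᴴ := by
    rw [Jm_blocks, fromCols_mul_fromBlocks, fc_conj, fromCols_mul_fromRows]
    simp [-zsmul_eq_mul]
  have h2 : fromCols (0 : Matrix (Fin 1) (Fin n) A) B₂ * Jm A e n *
      (fromCols B₁ (0 : Matrix (Fin 1) (Fin n) A))ᴴ = (e : ℤ) • (B₂ * B₁ᴴ) := by
    rw [Jm_blocks, fromCols_mul_fromBlocks, fc_conj, fromCols_mul_fromRows]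
    simp only [Matrix.mul_zero, Matrix.zero_mul, zero_add, add_zero, Matrix.mul_smul,
      Matrix.smul_mul, Matrix.mul_one, conjTranspose_zero]
  rw [h1, h2, ee_smul, conjTranspose_zero, Matrix.mul_zero, smul_zero, add_zero, add_zero,
    add_comm (fromCols B₁ 0)]
  congr 1
  abel

theorem comm_zero (f : Fin (n + 1) ≃ Fin n ⊕ Fin 1) (B₁ B₂ : Matrix (Fin 1) (Fin n) A)
    (T : (Matrix (Ci n) (Ci n) A)ˣ)
    (h₁ : T⁻¹ * EiU e (fromCols B₁ 0) 0 * T ∈ UQ Λ (psiC A n))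
    (h₂ : T⁻¹ * EiU e (fromCols 0 B₂) 0 * T ∈ UQ Λ (psiC A n)) :
    cC Λ f (T⁻¹ * EiU e 0 (B₂ * B₁ᴴ - (e : ℤ) • (B₁ * B₂ᴴ)) * T) = 0 := by
  have h3 : T⁻¹ * EiU e 0 (B₂ * B₁ᴴ - (e : ℤ) • (B₁ * B₂ᴴ)) * T =
      ((T⁻¹ * EiU e (fromCols 0 B₂) 0 * T) * (T⁻¹ * EiU e (fromCols B₁ 0) 0 * T))⁻¹ *
        ((T⁻¹ * EiU e (fromCols B₁ 0) 0 * T) * (T⁻¹ * EiU e (fromCols 0 B₂) 0 * T)) := by
    have h4 : (T⁻¹ * EiU e (fromCols B₁ 0) 0 * T) * (T⁻¹ * EiU e (fromCols 0 B₂) 0 * T) =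
        T⁻¹ * (EiU e (fromCols B₁ 0) 0 * EiU e (fromCols 0 B₂) 0) * T := by group
    rw [h4, EiU_comm]
    group
  rw [h3, cC_mul (inv_mem (mul_mem h₂ h₁)) (mul_mem h₁ h₂), cC_inv (mul_mem h₂ h₁),
    cC_mul h₂ h₁, cC_mul h₁ h₂]
  abel

end comm

/-! ### maps -/

section map

variable {A : Type*} [Ring A] [StarRing A] {e : ℤˣ} {B : Type*} [Ring B] [StarRing B]
  {Λ : FormParam A e} {Λ' : FormParam B e} {n : ℕ}

theorem QHom.mapC_mem (F : QHom Λ Λ') {P : (Matrix (Ci n) (Ci n) A)ˣ}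
    (hP : P ∈ UQ Λ (psiC A n)) : mapC F.hom n P ∈ UQ Λ' (psiC B n) := by
  rw [mem_UQ] at hP ⊢
  have h := F.triv hP
  have h4 : (psiC A n).map F.hom = psiC B n := by
    unfold psiC
    rw [Matrix.fromBlocks_map, map_hyp, map_hyp, Matrix.map_zero _ (map_zero _),
      Matrix.map_zero _ (map_zero _)]
  have h5 : (P.val * psiC A n * P.valᴴ - psiC A n).map F.hom =
      P.val.map F.hom * psiC B n * (P.val.map F.hom)ᴴ - psiC B n := by
    rw [F.conjTranspose_map, Matrix.map_sub _ (fun a b => map_sub F.hom a b), Matrix.map_mul,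
      Matrix.map_mul, h4]
  change Triv Λ' (P.val.map F.hom * psiC B n * (P.val.map F.hom)ᴴ - psiC B n)
  rw [← h5]; exact h

omit [StarRing A] [StarRing B] in
theorem mapC_TU (f : A →+* B) (D : Matrix (Fin 1) (Fin 1) A) :
    mapC f n (TU A n D) = TU B n (D.map f) := by
  apply Units.ext
  change (fromBlocks 1 0 0 (fromBlocks 1 0 D 1) : Matrix (Ci n) (Ci n) A).map f =
    fromBlocks 1 0 0 (fromBlocks 1 0 (D.map f) 1)
  rw [Matrix.fromBlocks_map, Matrix.fromBlocks_map, Matrix.map_one _ (map_zero _) (map_one _),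
    Matrix.map_one _ (map_zero _) (map_one _), Matrix.map_zero _ (map_zero _),
    Matrix.map_zero _ (map_zero _), Matrix.map_zero _ (map_zero _)]

omit [StarRing A] [StarRing B] in
theorem mapC_hat (f : A →+* B) (P : (Matrix (Fin n ⊕ Fin n) (Fin n ⊕ Fin n) A)ˣ) :
    mapC f n (hat A n P) = hat B n (mapU f n P) := by
  apply Units.ext
  change (fromBlocks P.val 0 0 1 : Matrix (Ci n) (Ci n) A).map f = fromBlocks (P.val.map f) 0 0 1
  rw [Matrix.fromBlocks_map, Matrix.map_one _ (map_zero _) (map_one _),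
    Matrix.map_zero _ (map_zero _), Matrix.map_zero _ (map_zero _)]

theorem Jm_map (f : A →+* B) : (Jm A e n).map f = Jm B e n := by
  rw [Jm_blocks, Jm_blocks, Matrix.fromBlocks_map, Matrix.map_one _ (map_zero _) (map_one _),
    Matrix.map_zero _ (map_zero _)]
  congr 1
  ext1 i j
  rw [Matrix.map_apply, Matrix.smul_apply, Matrix.smul_apply, map_zsmul, Matrix.one_apply,
    Matrix.one_apply]
  split_ifs <;> simp

theorem mapC_EiU (F : QHom Λ Λ') (b : Matrix (Fin 1) (Fin n ⊕ Fin n) A)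
    (m : Matrix (Fin 1) (Fin 1) A) :
    mapC F.hom n (EiU e b m) = EiU e (b.map F.hom) (m.map F.hom) := by
  apply Units.ext
  change (Ei e b m).map F.hom = Ei e (b.map F.hom) (m.map F.hom)
  unfold Ei
  have h2 : (Jm A e n * bᴴ).map F.hom = Jm B e n * (b.map F.hom)ᴴ := by
    rw [Matrix.map_mul, ← F.conjTranspose_map, Jm_map]
  rw [Matrix.fromBlocks_map, Matrix.fromBlocks_map, Matrix.map_one _ (map_zero _) (map_one _),
    Matrix.map_one _ (map_zero _) (map_one _), Matrix.map_zero _ (map_zero _), ← h2]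
  congr 1
  · ext1 i j
    rcases j with j | j
    · exact map_zero F.hom
    · change F.hom (-((e : ℤ) • ((Jm A e n * bᴴ) i j))) =
        -((e : ℤ) • (F.hom ((Jm A e n * bᴴ) i j)))
      rw [map_neg, map_zsmul]
  · ext1 i j
    rcases i with i | i
    · rfl
    · exact map_zero F.hom

theorem mapC_eiv (F : QHom Λ Λ') (v : Matrix (Fin 1) (Fin n ⊕ Fin n) A) :
    mapC F.hom n (eiv e v) = eiv e (v.map F.hom) := by
  unfold eiv
  rw [mapC_EiU]
  congr 1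
  have h : (v * hyp A (Fin n) * vᴴ).map F.hom = v.map F.hom * hyp B (Fin n) * (v.map F.hom)ᴴ := by
    rw [Matrix.map_mul, Matrix.map_mul, ← F.conjTranspose_map, map_hyp]
  rw [← h, F.conjTranspose_map]
  ext1 i j
  exact map_neg F.hom _

end map

/-! ### the matrices of rank one with trivial augmentation -/

section kap

variable {A : Type*} [Ring A] [StarRing A] {e : ℤˣ} {R : Type*} [Ring R] [StarRing R]
  {Λ Λ' : FormParam A e} {Ω' : FormParam R e}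

theorem lowU_mem {D : Matrix (Fin 1) (Fin 1) A} (hD : Triv Λ D) : lowU D ∈ UG Λ 1 :=
  (uniU Λ D hD).property

theorem uppU_mem {D : Matrix (Fin 1) (Fin 1) A} (hD : Triv Λ D) : uppU D ∈ UG Λ 1 := by
  rw [mem_UG]
  change Triv Λ (fromBlocks 1 D 0 1 * hyp A (Fin 1) * (fromBlocks 1 D 0 1)ᴴ - hyp A (Fin 1))
  have h : fromBlocks 1 D 0 1 * hyp A (Fin 1) * (fromBlocks 1 D 0 1)ᴴ - hyp A (Fin 1) =
      fromBlocks Dᴴ 0 0 0 := by
    unfold hyp
    rw [fromBlocks_conjTranspose, Matrix.fromBlocks_multiply, Matrix.fromBlocks_multiply,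
      sub_eq_add_neg, fromBlocks_neg, fromBlocks_add]
    simp
  rw [h]
  refine Triv.fromBlocks (triv_conjTranspose ?_) triv_zero
  rw [conjTranspose_conjTranspose]
  exact hD

omit [StarRing A] in
theorem uppU_add (D E : Matrix (Fin 1) (Fin 1) A) : uppU (D + E) = uppU D * uppU E := by
  apply Units.ext
  change fromBlocks 1 (D + E) 0 1 = fromBlocks 1 D 0 1 * fromBlocks 1 E 0 1
  rw [Matrix.fromBlocks_multiply]
  simp [add_comm]

/-- The conjugate of an upper triangular matrix. -/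
def kM (D θ : Matrix (Fin 1) (Fin 1) A) : (Matrix (Fin 1 ⊕ Fin 1) (Fin 1 ⊕ Fin 1) A)ˣ :=
  (lowU D)⁻¹ * uppU θ * lowU D

theorem kM_add (D θ θ' : Matrix (Fin 1) (Fin 1) A) : kM D (θ + θ') = kM D θ * kM D θ' := by
  unfold kM
  rw [uppU_add]
  group

theorem kM_mem (p' : QHom Λ' Ω') (hk : ∀ a ∈ Λ'.carrier, p'.hom a = 0 → a ∈ Λ.carrier)
    {D θ : Matrix (Fin 1) (Fin 1) A} (hD : Triv Λ' D) (hθ : Triv Λ' θ)
    (h0 : θ.map p'.hom = 0) : kM D θ ∈ UG Λ 1 := by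
  refine mem_UG_of_one p' hk (mul_mem (mul_mem (inv_mem (lowU_mem hD)) (uppU_mem hθ))
    (lowU_mem hD)) ?_
  unfold kM
  rw [map_mul, map_mul, map_inv]
  have h1 : mapU p'.hom 1 (uppU θ) = 1 := by
    apply Units.ext
    change (fromBlocks 1 θ 0 1 : Matrix (Fin 1 ⊕ Fin 1) (Fin 1 ⊕ Fin 1) A).map p'.hom = 1
    rw [Matrix.fromBlocks_map, h0, Matrix.map_one _ (map_zero _) (map_one _),
      Matrix.map_zero _ (map_zero _), Matrix.fromBlocks_one]
  rw [h1, mul_one, inv_mul_cancel]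

theorem cC_kM {n : ℕ} (f : Fin (n + 1) ≃ Fin n ⊕ Fin 1) {D θ : Matrix (Fin 1) (Fin 1) A}
    (h : kM D θ ∈ UG Λ 1) :
    cC Λ f ((TU A n D)⁻¹ * EiU e 0 θ * TU A n D) = L1.mk ⟨kM D θ, h⟩ := by
  rw [← cC_last f ⟨kM D θ, h⟩]
  congr 1
  unfold kM
  rw [map_mul, map_mul, map_inv, lastU_low, lastU_upp (e := e)]

end kap

end Pool.Agent.H750.P
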