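import Pool.Agent.H750.P.Eich

set_option autoImplicit false

/-! # Conjugation of Eichler transformations by transvections -/

namespace Pool.Agent.H750.P

open Matrix

variable {A : Type*} [Ring A] [StarRing A] {e : ℤˣ} {Λ Λ' : FormParam A e} {m n : ℕ}
  {f : Fin (n + 1) ≃ Fin n ⊕ Fin 1}

/-- Hyperbolic matrices. -/
def hypU (Λ : FormParam A e) (α β : Matrix (Fin m) (Fin m) A) (h1 : α * β = 1) (h2 : β * α = 1) :
    UG Λ m :=
  ⟨⟨fromBlocks α 0 0 βᴴ, fromBlocks β 0 0 αᴴ, by
      rw [Matrix.fromBlocks_multiply, ← conjTranspose_mul, h1, conjTranspose_one,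
        ← Matrix.fromBlocks_one]; simp, by
      rw [Matrix.fromBlocks_multiply, ← conjTranspose_mul, h2, conjTranspose_one,
        ← Matrix.fromBlocks_one]; simp⟩, by
    rw [mem_UG]
    change Triv Λ (fromBlocks α 0 0 βᴴ * hyp A (Fin m) * (fromBlocks α 0 0 βᴴ)ᴴ - hyp A (Fin m))
    have h : fromBlocks α 0 0 βᴴ * hyp A (Fin m) * (fromBlocks α 0 0 βᴴ)ᴴ = hyp A (Fin m) := by
      unfold hyp
      rw [fromBlocks_conjTranspose, Matrix.fromBlocks_multiply, Matrix.fromBlocks_multiply,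
        conjTranspose_conjTranspose]
      simp [h1]
    rw [h, sub_self]
    exact triv_zero⟩

/-- Unipotent matrices. -/
def uniU (Λ : FormParam A e) (θ : Matrix (Fin m) (Fin m) A) (hθ : Triv Λ θ) : UG Λ m :=
  ⟨⟨fromBlocks 1 0 θ 1, fromBlocks 1 0 (-θ) 1, by
      rw [Matrix.fromBlocks_multiply, ← Matrix.fromBlocks_one]; simp, by
      rw [Matrix.fromBlocks_multiply, ← Matrix.fromBlocks_one]; simp⟩, by
    rw [mem_UG]
    change Triv Λ (fromBlocks 1 0 θ 1 * hyp A (Fin m) * (fromBlocks 1 0 θ 1)ᴴ - hyp A (Fin m))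
    have h : fromBlocks 1 0 θ 1 * hyp A (Fin m) * (fromBlocks 1 0 θ 1)ᴴ - hyp A (Fin m) =
        fromBlocks 0 0 0 θ := by
      unfold hyp
      rw [fromBlocks_conjTranspose, Matrix.fromBlocks_multiply, Matrix.fromBlocks_multiply,
        sub_eq_add_neg, fromBlocks_neg, fromBlocks_add]
      simp
    rw [h]
    exact triv_zero.fromBlocks hθ⟩

theorem sm_one : ((e : ℤ) • (1 : Matrix (Fin m) (Fin m) A)) * ((e : ℤ) • 1) = 1 := by
  rw [Matrix.smul_mul, Matrix.mul_smul, Matrix.one_mul, ee_smul]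

/-- The flip. -/
def flipU (Λ : FormParam A e) (m : ℕ) : UG Λ m :=
  ⟨⟨fromBlocks 0 1 ((e : ℤ) • 1) 0, fromBlocks 0 ((e : ℤ) • 1) 1 0, by
      rw [Matrix.fromBlocks_multiply, sm_one, ← Matrix.fromBlocks_one]; simp, by
      rw [Matrix.fromBlocks_multiply, sm_one, ← Matrix.fromBlocks_one]; simp⟩, by
    rw [mem_UG]
    change Triv Λ (fromBlocks 0 1 ((e : ℤ) • 1) 0 * hyp A (Fin m) *
      (fromBlocks 0 1 ((e : ℤ) • 1) 0)ᴴ - hyp A (Fin m))
    have h : fromBlocks 0 1 ((e : ℤ) • 1) 0 * hyp A (Fin m) *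
        (fromBlocks 0 1 ((e : ℤ) • 1) 0)ᴴ - hyp A (Fin m) =
        fromBlocks 0 0 ((e : ℤ) • 1) 0 - (e : ℤ) • (fromBlocks 0 0 ((e : ℤ) • 1) 0 :
          Matrix (Fin m ⊕ Fin m) (Fin m ⊕ Fin m) A)ᴴ := by
      unfold hyp
      rw [fromBlocks_conjTranspose, fromBlocks_conjTranspose, Matrix.fromBlocks_multiply,
        Matrix.fromBlocks_multiply, conjTranspose_zsmul, conjTranspose_one, fromBlocks_smul,
        ee_smul, sub_eq_add_neg, sub_eq_add_neg, fromBlocks_neg, fromBlocks_neg, fromBlocks_add,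
        fromBlocks_add]
      congr 1 <;> simp [-zsmul_eq_mul]
    rw [h]
    exact triv_min Λ _⟩

theorem cC_two {P : (Matrix (Ci n) (Ci n) A)ˣ} (X Y : UG Λ (n + 1)) (hX : IsElem Λ X.val.val)
    (hY : IsElem Λ Y.val.val) (h : (tau A f P).val = X.val.val * Y.val.val) :
    cC Λ f P = 0 := by
  by_cases hP : P ∈ UQ Λ (psiC A n)
  · rw [cC_eq hP]
    have h1 : (⟨tau A f P, tau_mem hP⟩ : UG Λ (n + 1)) = X * Y := Subtype.ext (Units.ext h)
    rw [h1, L1.mk_mul, L1.mk_elem _ hX, L1.mk_elem _ hY, add_zero]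
  · exact dif_neg hP

/-- The transvection on the last plane. -/
def TU (A : Type*) [Ring A] (n : ℕ) (D : Matrix (Fin 1) (Fin 1) A) :
    (Matrix (Ci n) (Ci n) A)ˣ where
  val := fromBlocks 1 0 0 (fromBlocks 1 0 D 1)
  inv := fromBlocks 1 0 0 (fromBlocks 1 0 (-D) 1)
  val_inv := by
    rw [Matrix.fromBlocks_multiply, Matrix.fromBlocks_multiply]
    simp
  inv_val := by
    rw [Matrix.fromBlocks_multiply, Matrix.fromBlocks_multiply]
    simp

theorem TU_form (D : Matrix (Fin 1) (Fin 1) A) :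
    (TU A n D).val * psiC A n * (TU A n D).valᴴ - psiC A n =
      fromBlocks 0 0 0 (fromBlocks 0 0 0 D) := by
  change fromBlocks 1 0 0 (fromBlocks 1 0 D 1) * psiC A n *
    (fromBlocks 1 0 0 (fromBlocks 1 0 D 1))ᴴ - psiC A n = _
  unfold psiC
  rw [fromBlocks_conjTranspose, Matrix.fromBlocks_multiply, Matrix.fromBlocks_multiply,
    sub_eq_add_neg, fromBlocks_neg, fromBlocks_add]
  congr 1
  · simp
  · simp
  · simp
  · unfold hyp
    have h0 : (fromBlocks 1 0 D 1 : Matrix (Fin 1 ⊕ Fin 1) (Fin 1 ⊕ Fin 1) A) *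
        fromBlocks 0 1 0 0 = fromBlocks 0 1 0 D := by
      rw [Matrix.fromBlocks_multiply]; simp
    simp only [Matrix.mul_zero, Matrix.zero_mul, zero_add, h0]
    rw [fromBlocks_conjTranspose, Matrix.fromBlocks_multiply, fromBlocks_neg, fromBlocks_add]
    simp

theorem TU_mem {D : Matrix (Fin 1) (Fin 1) A} (hD : Triv Λ D) : TU A n D ∈ UQ Λ (psiC A n) := by
  rw [mem_UQ, TU_form]
  exact triv_zero.fromBlocks (triv_zero.fromBlocks hD)

theorem TU_hat (D : Matrix (Fin 1) (Fin 1) A)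
    (γ : (Matrix (Fin n ⊕ Fin n) (Fin n ⊕ Fin n) A)ˣ) :
    TU A n D * hat A n γ = hat A n γ * TU A n D := by
  apply Units.ext
  change fromBlocks 1 0 0 (fromBlocks 1 0 D 1) * fromBlocks γ.val 0 0 1 =
    fromBlocks γ.val 0 0 1 * fromBlocks 1 0 0 (fromBlocks 1 0 D 1)
  rw [Matrix.fromBlocks_multiply, Matrix.fromBlocks_multiply]
  simp

theorem TU_inv_hat (D : Matrix (Fin 1) (Fin 1) A)
    (γ : (Matrix (Fin n ⊕ Fin n) (Fin n ⊕ Fin n) A)ˣ) :
    (TU A n D)⁻¹ * hat A n γ = hat A n γ * (TU A n D)⁻¹ := by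
  rw [inv_mul_eq_iff_eq_mul, ← mul_assoc, TU_hat, mul_assoc, mul_inv_cancel, mul_one]

theorem Jm_blocks : Jm A e n = fromBlocks 0 1 ((e : ℤ) • 1) 0 := by
  unfold Jm hyp
  rw [fromBlocks_conjTranspose, fromBlocks_smul, fromBlocks_add]
  simp [-zsmul_eq_mul]

theorem Ei_left (B : Matrix (Fin 1) (Fin n) A) : Ei e (fromCols B 0) 0 =
    fromBlocks 1 (fromCols 0 (fromRows 0 (-Bᴴ))) (fromRows (fromCols B 0) 0) 1 := by
  unfold Ei
  have h : -((e : ℤ) • (Jm A e n * (fromCols B (0 : Matrix (Fin 1) (Fin n) A))ᴴ)) =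
      fromRows 0 (-Bᴴ) := by
    rw [Jm_blocks, fc_conj, fromBlocks_mul_fromRows, conjTranspose_zero, Matrix.mul_zero,
      Matrix.mul_zero, add_zero, add_zero, Matrix.smul_mul, Matrix.one_mul, Matrix.zero_mul]
    ext1 i j
    rcases i with i | i
    · change -((e : ℤ) • (0 : A)) = 0
      rw [smul_zero, neg_zero]
    · change -((e : ℤ) • ((e : ℤ) • (Bᴴ i j))) = -(Bᴴ i j)
      rw [ee_smul]
  rw [h, Matrix.fromBlocks_one]

/-- The matrix `α` of the Eichler transformation. -/
def alM (f : Fin (n + 1) ≃ Fin n ⊕ Fin 1) (B : Matrix (Fin 1) (Fin n) A) :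
    Matrix (Fin (n + 1)) (Fin (n + 1)) A :=
  (fromBlocks 1 0 B 1).submatrix f f

theorem alM_mul (B : Matrix (Fin 1) (Fin n) A) : alM f B * alM f (-B) = 1 := by
  unfold alM
  rw [Matrix.submatrix_mul_equiv, Matrix.fromBlocks_multiply]
  simp

theorem alM_mul' (B : Matrix (Fin 1) (Fin n) A) : alM f (-B) * alM f B = 1 := by
  have h := alM_mul (f := f) (-B)
  rwa [neg_neg] at h

theorem tau_Ei_left (B : Matrix (Fin 1) (Fin n) A) :
    (tau A f (EiU e (fromCols B 0) 0)).val = fromBlocks (alM f B) 0 0 (alM f (-B))ᴴ := by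
  change (Ei e (fromCols B 0) 0).submatrix (stEquiv f) (stEquiv f) = _
  rw [Ei_left]
  ext1 x y
  rcases x with x | x <;> rcases y with y | y
  · rw [Matrix.submatrix_apply, fromBlocks_apply₁₁]
    unfold stEquiv alM
    rw [Matrix.submatrix_apply]
    simp only [Equiv.trans_apply, Equiv.sumCongr_apply, Sum.map_inl]
    generalize f x = u
    generalize f y = v
    rcases u with u | u <;> rcases v with v | v <;> simp [swapEquiv, Matrix.one_apply]
  · rw [Matrix.submatrix_apply, fromBlocks_apply₁₂]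
    unfold stEquiv
    simp only [Equiv.trans_apply, Equiv.sumCongr_apply, Sum.map_inl, Sum.map_inr]
    generalize f x = u
    generalize f y = v
    rcases u with u | u <;> rcases v with v | v <;> simp [swapEquiv]
  · rw [Matrix.submatrix_apply, fromBlocks_apply₂₁]
    unfold stEquiv
    simp only [Equiv.trans_apply, Equiv.sumCongr_apply, Sum.map_inl, Sum.map_inr]
    generalize f x = u
    generalize f y = v
    rcases u with u | u <;> rcases v with v | v <;> simp [swapEquiv]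
  · rw [Matrix.submatrix_apply, fromBlocks_apply₂₂]
    unfold stEquiv alM
    rw [conjTranspose_apply, Matrix.submatrix_apply]
    simp only [Equiv.trans_apply, Equiv.sumCongr_apply, Sum.map_inr]
    generalize f x = u
    generalize f y = v
    rcases u with u | u <;> rcases v with v | v <;>
      simp [swapEquiv, Matrix.one_apply, eq_comm, apply_ite (star : A → A)]

/-- The matrix of the transvection. -/
def dM (f : Fin (n + 1) ≃ Fin n ⊕ Fin 1) (D : Matrix (Fin 1) (Fin 1) A) :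
    Matrix (Fin (n + 1)) (Fin (n + 1)) A :=
  (fromBlocks 0 0 0 D).submatrix f f

theorem tau_TU (D : Matrix (Fin 1) (Fin 1) A) :
    (tau A f (TU A n D)).val = fromBlocks 1 0 (dM f D) 1 := by
  change (fromBlocks 1 0 0 (fromBlocks 1 0 D 1)).submatrix (stEquiv f) (stEquiv f) = _
  have h : ∀ x y : Fin (n + 1), (1 : Matrix (Fin (n + 1)) (Fin (n + 1)) A) x y =
      (1 : Matrix (Fin n ⊕ Fin 1) (Fin n ⊕ Fin 1) A) (f x) (f y) := by
    intro x y
    rw [Matrix.one_apply, Matrix.one_apply]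
    simp only [EmbeddingLike.apply_eq_iff_eq]
  ext1 x y
  rcases x with x | x <;> rcases y with y | y
  · rw [Matrix.submatrix_apply, fromBlocks_apply₁₁, h]
    unfold stEquiv
    simp only [Equiv.trans_apply, Equiv.sumCongr_apply, Sum.map_inl]
    generalize f x = u
    generalize f y = v
    rcases u with u | u <;> rcases v with v | v <;> simp [swapEquiv, Matrix.one_apply]
  · rw [Matrix.submatrix_apply, fromBlocks_apply₁₂]
    unfold stEquiv
    simp only [Equiv.trans_apply, Equiv.sumCongr_apply, Sum.map_inl, Sum.map_inr]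
    generalize f x = u
    generalize f y = v
    rcases u with u | u <;> rcases v with v | v <;> simp [swapEquiv]
  · rw [Matrix.submatrix_apply, fromBlocks_apply₂₁]
    unfold stEquiv dM
    rw [Matrix.submatrix_apply]
    simp only [Equiv.trans_apply, Equiv.sumCongr_apply, Sum.map_inl, Sum.map_inr]
    generalize f x = u
    generalize f y = v
    rcases u with u | u <;> rcases v with v | v <;> simp [swapEquiv]
  · rw [Matrix.submatrix_apply, fromBlocks_apply₂₂, h]
    unfold stEquiv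
    simp only [Equiv.trans_apply, Equiv.sumCongr_apply, Sum.map_inr]
    generalize f x = u
    generalize f y = v
    rcases u with u | u <;> rcases v with v | v <;> simp [swapEquiv, Matrix.one_apply]

theorem dM_triv {D : Matrix (Fin 1) (Fin 1) A} (hD : Triv Λ D) : Triv Λ (dM f D) :=
  (triv_zero.fromBlocks hD).submatrix f

theorem TU_inv_eq (D : Matrix (Fin 1) (Fin 1) A) : (TU A n D)⁻¹ = TU A n (-D) := Units.ext rfl

/-- The conjugate of an Eichler transformation of hyperbolic type by a transvection. -/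
theorem conj_left (B : Matrix (Fin 1) (Fin n) A) (D : Matrix (Fin 1) (Fin 1) A)
    (h : Triv Λ (dM f D - (alM f B)ᴴ * dM f D * alM f B)) :
    cC Λ f ((TU A n D)⁻¹ * EiU e (fromCols B 0) 0 * TU A n D) = 0 := by
  refine cC_two (hypU Λ (alM f B) (alM f (-B)) (alM_mul B) (alM_mul' B)) (uniU Λ _ h)
    (Or.inl ⟨_, _, alM_mul B, alM_mul' B, rfl⟩) (Or.inr (Or.inl ⟨_, h, rfl⟩)) ?_
  rw [TU_inv_eq, map_mul, map_mul, Units.val_mul, Units.val_mul, tau_TU, tau_TU, tau_Ei_left]
  change _ = fromBlocks (alM f B) 0 0 (alM f (-B))ᴴ * fromBlocks 1 0 _ 1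
  rw [Matrix.fromBlocks_multiply, Matrix.fromBlocks_multiply, Matrix.fromBlocks_multiply]
  have h1 : dM f (-D) = -dM f D := by
    unfold dM
    ext1 x y
    rw [Matrix.submatrix_apply, Matrix.neg_apply, Matrix.submatrix_apply]
    generalize f x = u
    generalize f y = v
    rcases u with u | u <;> rcases v with v | v <;> simp
  have h2 : (alM f (-B))ᴴ * (alM f B)ᴴ = 1 := by
    rw [← conjTranspose_mul, alM_mul, conjTranspose_one]
  congr 1
  · simp
  · simp
  · rw [h1, Matrix.mul_sub, ← Matrix.mul_assoc, ← Matrix.mul_assoc, h2]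
    simp only [Matrix.one_mul, Matrix.mul_one, Matrix.zero_mul, Matrix.mul_zero, add_zero,
      zero_add, Matrix.neg_mul]
    abel
  · simp

/-! ### the relative situation -/

section rel

variable {R : Type*} [Ring R] [StarRing R] {Ω' : FormParam R e} (i' : QHom Ω' Λ')
  (p' : QHom Λ' Ω') (hk : ∀ a ∈ Λ'.carrier, p'.hom a = 0 → a ∈ Λ.carrier)

/-- The entrywise action of a homomorphism on invertible matrices. -/
def mapC (g : A →+* R) (n : ℕ) : (Matrix (Ci n) (Ci n) A)ˣ →* (Matrix (Ci n) (Ci n) R)ˣ :=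
  Units.map (g.mapMatrix : Matrix (Ci n) (Ci n) A →+* Matrix (Ci n) (Ci n) R).toMonoidHom

include hk in
theorem mem_UQ_of_one {P : (Matrix (Ci n) (Ci n) A)ˣ} (hP : P ∈ UQ Λ' (psiC A n))
    (h1 : P.val.map p'.hom = 1) : P ∈ UQ Λ (psiC A n) := by
  rw [mem_UQ] at hP ⊢
  refine ⟨hP.1, fun i => hk _ (hP.2 i) ?_⟩
  have h5 : (P.val * psiC A n * P.valᴴ - psiC A n).map p'.hom = 0 := by
    rw [Matrix.map_sub _ (fun a b => map_sub p'.hom a b), Matrix.map_mul,
      Matrix.map_mul, ← p'.conjTranspose_map, h1, conjTranspose_one, Matrix.one_mul,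
      Matrix.mul_one, sub_self]
  exact congrFun (congrFun h5 i) i

include hk in
/-- The conjugate of an Eichler transformation of hyperbolic type with trivial augmentation by an
integral transvection has class zero. -/
theorem conj_left_zero (B : Matrix (Fin 1) (Fin n) A) (hB : B.map p'.hom = 0)
    (D : Matrix (Fin 1) (Fin 1) A) (hD : Triv Λ' D) :
    cC Λ f ((TU A n D)⁻¹ * EiU e (fromCols B 0) 0 * TU A n D) = 0 := by
  apply conj_left
  have h1 : Triv Λ' (dM f D - (alM f B)ᴴ * dM f D * alM f B) := by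
    have h2 := (dM_triv (f := f) hD).conj (alM f B)ᴴ
    rw [conjTranspose_conjTranspose] at h2
    exact (dM_triv hD).sub h2
  refine ⟨h1.1, fun i => hk _ (h1.2 i) ?_⟩
  have h3 : (alM f B).map p'.hom = 1 := by
    unfold alM
    rw [← Matrix.submatrix_map, Matrix.fromBlocks_map, hB, Matrix.map_one _ (map_zero _) (map_one _),
      Matrix.map_one _ (map_zero _) (map_one _), Matrix.map_zero _ (map_zero _),
      Matrix.fromBlocks_one, Matrix.submatrix_one_equiv]
  have h4 : (dM f D - (alM f B)ᴴ * dM f D * alM f B).map p'.hom = 0 := by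
    rw [Matrix.map_sub _ (fun a b => map_sub p'.hom a b), Matrix.map_mul,
      Matrix.map_mul, ← p'.conjTranspose_map, h3, conjTranspose_one, Matrix.one_mul,
      Matrix.mul_one, sub_self]
  exact congrFun (congrFun h4 i) i

theorem Ei_left_mem (B : Matrix (Fin 1) (Fin n) A) :
    EiU e (fromCols B 0) 0 ∈ UQ Λ (psiC A n) := by
  apply Ei_mem
  have h : fromCols B (0 : Matrix (Fin 1) (Fin n) A) * hyp A (Fin n) *
      (fromCols B (0 : Matrix (Fin 1) (Fin n) A))ᴴ + (0 : Matrix (Fin 1) (Fin 1) A)ᴴ = 0 := by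
    unfold hyp
    rw [fromCols_mul_fromBlocks, fc_conj, fromCols_mul_fromRows]
    simp
  rw [h]; exact triv_zero

theorem Ei_right_mem (B : Matrix (Fin 1) (Fin n) A) :
    EiU e (fromCols 0 B) 0 ∈ UQ Λ (psiC A n) := by
  apply Ei_mem
  have h : fromCols (0 : Matrix (Fin 1) (Fin n) A) B * hyp A (Fin n) *
      (fromCols (0 : Matrix (Fin 1) (Fin n) A) B)ᴴ + (0 : Matrix (Fin 1) (Fin 1) A)ᴴ = 0 := by
    unfold hyp
    rw [fromCols_mul_fromBlocks, fc_conj, fromCols_mul_fromRows]
    simp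
  rw [h]; exact triv_zero

/-- The second half of the Eichler transformations is conjugate to the first half. -/
theorem conj_flip (B : Matrix (Fin 1) (Fin n) A) :
    hat A n (flipU Λ n).val * EiU e (fromCols 0 B) 0 * (hat A n (flipU Λ n).val)⁻¹ =
      EiU e (fromCols B 0) 0 := by
  rw [hat_Ei (flipU Λ n).property]
  congr 1
  change fromCols 0 B * fromBlocks 0 ((e : ℤ) • 1) 1 0 = _
  rw [fromCols_mul_fromBlocks]
  simp

include hk in
theorem conj_right_zero (B : Matrix (Fin 1) (Fin n) A) (hB : B.map p'.hom = 0)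
    (D : Matrix (Fin 1) (Fin 1) A) (hD : Triv Λ' D)
    (hmem : (TU A n D)⁻¹ * EiU e (fromCols 0 B) 0 * TU A n D ∈ UQ Λ (psiC A n)) :
    cC Λ f ((TU A n D)⁻¹ * EiU e (fromCols 0 B) 0 * TU A n D) = 0 := by
  rw [← cC_conj (hat_mem (flipU Λ n).property) hmem]
  have h1 : hat A n (flipU Λ n).val * ((TU A n D)⁻¹ * EiU e (fromCols 0 B) 0 * TU A n D) *
      (hat A n (flipU Λ n).val)⁻¹ = (TU A n D)⁻¹ * EiU e (fromCols B 0) 0 * TU A n D := by
    have h2 := TU_inv_hat D (flipU Λ n).val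
    have h3 := TU_hat D (flipU Λ n).val
    have h4 := conj_flip (Λ := Λ) (e := e) B
    calc hat A n (flipU Λ n).val * ((TU A n D)⁻¹ * EiU e (fromCols 0 B) 0 * TU A n D) *
        (hat A n (flipU Λ n).val)⁻¹ = (hat A n (flipU Λ n).val * (TU A n D)⁻¹) *
          EiU e (fromCols 0 B) 0 * (TU A n D * (hat A n (flipU Λ n).val)⁻¹) := by
            simp only [mul_assoc]
      _ = ((TU A n D)⁻¹ * hat A n (flipU Λ n).val) *
          EiU e (fromCols 0 B) 0 * ((hat A n (flipU Λ n).val)⁻¹ * TU A n D) := by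
            rw [← h2]
            congr 1
            rw [mul_inv_eq_iff_eq_mul, mul_assoc, h3, inv_mul_cancel_left]
      _ = (TU A n D)⁻¹ * (hat A n (flipU Λ n).val * EiU e (fromCols 0 B) 0 *
          (hat A n (flipU Λ n).val)⁻¹) * TU A n D := by simp only [mul_assoc]
      _ = _ := by rw [h4]
  rw [h1]
  exact conj_left_zero p' hk B hB D hD

end rel

end Pool.Agent.H750.P
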