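import Pool.Agent.H750.P.Quad

set_option autoImplicit false

/-! # The L-groups of quadratic forms with a form parameter -/

namespace Pool.Agent.H750.P

open Matrix

variable {A : Type*} [Ring A] [StarRing A] {e : ℤˣ} {ι κ μ ν : Type*}

section stable

variable [Fintype ι] [DecidableEq ι] [Fintype κ] [DecidableEq κ] [Fintype μ] [DecidableEq μ]
  [Fintype ν] [DecidableEq ν] {Λ : FormParam A e}

/-- Stable isometry: isometry after adding hyperbolic forms. -/
def Stab (Λ : FormParam A e) (ψ : Matrix ι ι A) (φ : Matrix κ κ A) : Prop :=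
  ∃ a b : ℕ, Isom Λ (osum ψ (hyp A (Fin a))) (osum φ (hyp A (Fin b)))

theorem iso_hyp_fin (a b : ℕ) :
    Isom Λ (osum (hyp A (Fin a)) (hyp A (Fin b))) (hyp A (Fin (a + b))) :=
  iso_hyp.trans (iso_hyp_equiv finSumFinEquiv)

theorem Isom.stab {ψ : Matrix ι ι A} {φ : Matrix κ κ A} (h : Isom Λ ψ φ) : Stab Λ ψ φ :=
  ⟨0, 0, h.osum (Isom.refl _)⟩

theorem Stab.symm {ψ : Matrix ι ι A} {φ : Matrix κ κ A} (h : Stab Λ ψ φ) : Stab Λ φ ψ := by
  obtain ⟨a, b, h⟩ := h
  exact ⟨b, a, h.symm⟩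

/-- adding a form on the right and regrouping -/
theorem iso_osum_right {ψ : Matrix ι ι A} {φ : Matrix κ κ A} {χ : Matrix μ μ A} :
    Isom Λ (osum (osum ψ φ) χ) (osum (osum ψ χ) φ) :=
  (iso_assoc ψ φ χ).trans (((Isom.refl ψ).osum (iso_comm φ χ)).trans (iso_assoc ψ χ φ).symm)

theorem Stab.trans {ψ : Matrix ι ι A} {φ : Matrix κ κ A} {χ : Matrix μ μ A} (h : Stab Λ ψ φ)
    (h' : Stab Λ φ χ) : Stab Λ ψ χ := by
  obtain ⟨a, b, h⟩ := h
  obtain ⟨c, d, h'⟩ := h'
  refine ⟨a + c, d + b, ?_⟩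
  have h1 : Isom Λ (Pool.Agent.H750.P.osum ψ (hyp A (Fin (a + c))))
      (Pool.Agent.H750.P.osum (Pool.Agent.H750.P.osum ψ (hyp A (Fin a))) (hyp A (Fin c))) :=
    (((Isom.refl ψ).osum (iso_hyp_fin a c)).symm).trans (iso_assoc _ _ _).symm
  have h2 : Isom Λ
      (Pool.Agent.H750.P.osum (Pool.Agent.H750.P.osum χ (hyp A (Fin d))) (hyp A (Fin b)))
      (Pool.Agent.H750.P.osum χ (hyp A (Fin (d + b)))) :=
    (iso_assoc _ _ _).trans ((Isom.refl χ).osum (iso_hyp_fin d b))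
  exact h1.trans ((h.osum (Isom.refl _)).trans (iso_osum_right.trans
    ((h'.osum (Isom.refl _)).trans h2)))

theorem iso_regroup {α β γ : Type*} [Fintype α] [DecidableEq α] [Fintype β] [DecidableEq β]
    [Fintype γ] [DecidableEq γ] (ψ : Matrix ι ι A) (φ : Matrix μ μ A) {X : Matrix α α A}
    {Y : Matrix β β A} {Z : Matrix γ γ A} (hXY : Isom Λ (osum X Y) Z) :
    Isom Λ (osum (osum ψ φ) Z) (osum (osum ψ X) (osum φ Y)) := by
  refine ((Isom.refl _).osum hXY.symm).trans ?_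
  refine (iso_assoc _ _ _).symm.trans ?_
  refine ((iso_osum_right).osum (Isom.refl _)).trans ?_
  exact iso_assoc _ _ _

theorem Stab.osum {ψ : Matrix ι ι A} {φ : Matrix κ κ A} {ψ' : Matrix μ μ A} {φ' : Matrix ν ν A}
    (h : Stab Λ ψ ψ') (h' : Stab Λ φ φ') : Stab Λ (osum ψ φ) (osum ψ' φ') := by
  obtain ⟨a, b, h⟩ := h
  obtain ⟨c, d, h'⟩ := h'
  exact ⟨a + c, b + d, (iso_regroup ψ φ (iso_hyp_fin a c)).trans
    ((h.osum h').trans (iso_regroup ψ' φ' (iso_hyp_fin b d)).symm)⟩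

theorem iso_zero (ψ : Matrix ι ι A) (Z : Matrix (Fin 0) (Fin 0) A) : Isom Λ (osum Z ψ) ψ := by
  have h1 := Isom.submatrix (Λ := Λ) (osum Z ψ) (Equiv.emptySum (Fin 0) ι).symm
  convert h1 using 1
  ext1 x y
  rfl

theorem stab_zero {ψ : Matrix ι ι A} {a : ℕ}
    (h : Isom Λ ψ (hyp A (Fin a))) (Z : Matrix (Fin 0) (Fin 0) A) : Stab Λ ψ Z :=
  ⟨0, a + 0, (h.osum (Isom.refl _)).trans ((iso_hyp_fin a 0).trans (iso_zero _ Z).symm)⟩

theorem Isom.neg {ψ : Matrix ι ι A} {φ : Matrix κ κ A} (h : Isom Λ ψ φ) : Isom Λ (-ψ) (-φ) := by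
  obtain ⟨P, Q, h1, h2, h3⟩ := h
  refine ⟨P, Q, h1, h2, ?_⟩
  have h4 := h3.neg
  rw [Matrix.mul_neg, Matrix.neg_mul]
  convert h4 using 1
  abel

theorem iso_neg_hyp (ψ : Matrix ι ι A) (c : ℕ) :
    Isom Λ (osum (-ψ) (hyp A (Fin c))) (-(osum ψ (hyp A (Fin c)))) := by
  refine ⟨Matrix.fromBlocks 1 0 0 (Matrix.fromBlocks 1 0 0 (-1)),
    Matrix.fromBlocks 1 0 0 (Matrix.fromBlocks 1 0 0 (-1)), ?_, ?_, ?_⟩
  · rw [Matrix.fromBlocks_multiply, ← Matrix.fromBlocks_one]
    simp only [Matrix.fromBlocks_multiply, ← Matrix.fromBlocks_one]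
    simp
  · rw [Matrix.fromBlocks_multiply, ← Matrix.fromBlocks_one]
    simp only [Matrix.fromBlocks_multiply, ← Matrix.fromBlocks_one]
    simp
  · have h : Matrix.fromBlocks 1 0 0 (Matrix.fromBlocks 1 0 0 (-1)) *
        Pool.Agent.H750.P.osum (-ψ) (hyp A (Fin c)) *
        (Matrix.fromBlocks 1 0 0 (Matrix.fromBlocks 1 0 0 (-1)))ᴴ -
        -(Pool.Agent.H750.P.osum ψ (hyp A (Fin c))) = 0 := by
      unfold Pool.Agent.H750.P.osum hyp
      simp only [fromBlocks_conjTranspose, Matrix.fromBlocks_neg]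
      simp [Matrix.fromBlocks_multiply]
    rw [h]; exact triv_zero

theorem Stab.neg {ψ : Matrix ι ι A} {φ : Matrix κ κ A} (h : Stab Λ ψ φ) :
    Stab Λ (-ψ) (-φ) := by
  obtain ⟨a, b, h⟩ := h
  exact ⟨a, b, (iso_neg_hyp ψ a).trans (h.neg.trans (iso_neg_hyp φ b).symm)⟩

end stable

/-- Nonsingular quadratic forms on free modules. -/
structure QForm (A : Type*) [Ring A] [StarRing A] (e : ℤˣ) where
  /-- the rank -/
  n : ℕ
  /-- the matrix -/
  mat : Matrix (Fin n) (Fin n) A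
  nonsing : Nonsing e mat

/-- Stable isometry as an equivalence relation. -/
def stabSetoid (Λ : FormParam A e) : Setoid (QForm A e) where
  r X Y := Stab Λ X.mat Y.mat
  iseqv := ⟨fun X => (Isom.refl X.mat).stab, fun h => h.symm, fun h h' => h.trans h'⟩

/-- The L-group of the form parameter `Λ`: nonsingular quadratic forms on free modules modulo
isometry after adding hyperbolic forms. -/
def LG (Λ : FormParam A e) : Type _ := Quotient (stabSetoid Λ)

/-- The class of a form. -/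
def LG.mk (Λ : FormParam A e) (X : QForm A e) : LG Λ := Quotient.mk (stabSetoid Λ) X

theorem LG.mk_eq {Λ : FormParam A e} {X Y : QForm A e} :
    LG.mk Λ X = LG.mk Λ Y ↔ Stab Λ X.mat Y.mat :=
  ⟨fun h => Quotient.exact h, fun h => Quotient.sound (s := stabSetoid Λ) h⟩

theorem LG.ind {Λ : FormParam A e} (x : LG Λ) : ∃ X, x = LG.mk Λ X := by
  induction x using Quotient.inductionOn with
  | h X => exact ⟨X, rfl⟩

/-- Orthogonal sum. -/
def QForm.add (X Y : QForm A e) : QForm A e :=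
  ⟨X.n + Y.n, (osum X.mat Y.mat).submatrix finSumFinEquiv.symm finSumFinEquiv.symm, by
    have h := nonsing_osum X.nonsing Y.nonsing
    unfold Nonsing at h ⊢
    obtain ⟨U, hU⟩ := h
    have h1 : (osum X.mat Y.mat).submatrix finSumFinEquiv.symm finSumFinEquiv.symm + (e : ℤ) •
        ((osum X.mat Y.mat).submatrix finSumFinEquiv.symm finSumFinEquiv.symm)ᴴ =
        U.val.submatrix finSumFinEquiv.symm finSumFinEquiv.symm := by
      rw [hU]; rfl
    rw [h1]
    refine ⟨⟨U.val.submatrix finSumFinEquiv.symm finSumFinEquiv.symm,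
      (U⁻¹).val.submatrix finSumFinEquiv.symm finSumFinEquiv.symm, ?_, ?_⟩, rfl⟩
    · rw [Matrix.submatrix_mul_equiv, U.mul_inv, Matrix.submatrix_one_equiv]
    · rw [Matrix.submatrix_mul_equiv, U.inv_mul, Matrix.submatrix_one_equiv]⟩

theorem QForm.add_iso (Λ : FormParam A e) (X Y : QForm A e) :
    Isom Λ (X.add Y).mat (osum X.mat Y.mat) :=
  (Isom.submatrix (osum X.mat Y.mat) finSumFinEquiv.symm).symm

/-- The negative of a form. -/
def QForm.neg (X : QForm A e) : QForm A e := ⟨X.n, -X.mat, nonsing_neg X.nonsing⟩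

/-- The zero form. -/
def QForm.zero (A : Type*) [Ring A] [StarRing A] (e : ℤˣ) : QForm A e := ⟨0, 0, nonsing_zero 0⟩

variable {Λ : FormParam A e}

instance : Add (LG Λ) where
  add := Quotient.map₂ QForm.add (fun X X' h Y Y' h' =>
    (QForm.add_iso Λ X Y).stab.trans ((Stab.osum h h').trans (QForm.add_iso Λ X' Y').stab.symm))

instance : Zero (LG Λ) where
  zero := LG.mk Λ (QForm.zero A e)

instance : Neg (LG Λ) where
  neg := Quotient.map QForm.neg (fun _ _ h => Stab.neg h)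

theorem LG.mk_add (X Y : QForm A e) : LG.mk Λ X + LG.mk Λ Y = LG.mk Λ (X.add Y) := rfl

theorem LG.mk_neg (X : QForm A e) : -LG.mk Λ X = LG.mk Λ X.neg := rfl

theorem LG.zero_def : (0 : LG Λ) = LG.mk Λ (QForm.zero A e) := rfl

instance : AddCommGroup (LG Λ) where
  add_assoc x y z := by
    obtain ⟨X, rfl⟩ := x.ind
    obtain ⟨Y, rfl⟩ := y.ind
    obtain ⟨Z, rfl⟩ := z.ind
    rw [LG.mk_add, LG.mk_add, LG.mk_add, LG.mk_add, LG.mk_eq]
    refine Isom.stab ?_
    refine (QForm.add_iso Λ _ _).trans (((QForm.add_iso Λ X Y).osum (Isom.refl _)).trans ?_)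
    refine (iso_assoc _ _ _).trans ?_
    exact ((Isom.refl _).osum (QForm.add_iso Λ Y Z).symm).trans (QForm.add_iso Λ _ _).symm
  zero_add x := by
    obtain ⟨X, rfl⟩ := x.ind
    rw [LG.zero_def, LG.mk_add, LG.mk_eq]
    exact ((QForm.add_iso Λ _ _).trans (iso_zero X.mat _)).stab
  add_zero x := by
    obtain ⟨X, rfl⟩ := x.ind
    rw [LG.zero_def, LG.mk_add, LG.mk_eq]
    exact ((QForm.add_iso Λ _ _).trans ((iso_comm _ _).trans (iso_zero X.mat _))).stab
  neg_add_cancel x := by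
    obtain ⟨X, rfl⟩ := x.ind
    rw [LG.zero_def, LG.mk_neg, LG.mk_add, LG.mk_eq]
    have h1 : Isom Λ (X.neg.add X).mat (osum (-X.mat) X.mat) := QForm.add_iso Λ X.neg X
    have h2 : Stab Λ (X.neg.add X).mat (QForm.zero A e).mat :=
      stab_zero (a := X.n) (h1.trans (iso_neg Λ X.nonsing)) _
    exact h2
  add_comm x y := by
    obtain ⟨X, rfl⟩ := x.ind
    obtain ⟨Y, rfl⟩ := y.ind
    rw [LG.mk_add, LG.mk_add, LG.mk_eq]
    exact ((QForm.add_iso Λ X Y).trans ((iso_comm _ _).trans (QForm.add_iso Λ Y X).symm)).stab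
  nsmul := nsmulRec
  zsmul := zsmulRec

/-- The class is zero if the form is hyperbolic. -/
theorem LG.mk_eq_zero {X : QForm A e} :
    LG.mk Λ X = 0 ↔ ∃ a b : ℕ, Isom Λ (osum X.mat (hyp A (Fin a))) (hyp A (Fin b)) := by
  rw [LG.zero_def, LG.mk_eq]
  constructor
  · rintro ⟨a, b, h⟩
    exact ⟨a, b, h.trans (iso_zero _ _)⟩
  · rintro ⟨a, b, h⟩
    exact ⟨a, b, h.trans (iso_zero _ _).symm⟩

/-! ### functoriality -/

variable {B : Type*} [Ring B] [StarRing B] {Λ' : FormParam B e}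

/-- Homomorphisms of rings with involution which respect form parameters. -/
structure QHom {A : Type*} [Ring A] [StarRing A] {B : Type*} [Ring B] [StarRing B] {e : ℤˣ}
    (Λ : FormParam A e) (Λ' : FormParam B e) where
  /-- the ring homomorphism -/
  hom : A →+* B
  star : ∀ a, hom (Star.star a) = Star.star (hom a)
  mem : ∀ a ∈ Λ.carrier, hom a ∈ Λ'.carrier

theorem QHom.conjTranspose_map (F : QHom Λ Λ') (M : Matrix ι κ A) :
    (M.map F.hom)ᴴ = Mᴴ.map F.hom := by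
  ext1 i j
  rw [conjTranspose_apply, Matrix.map_apply, Matrix.map_apply, conjTranspose_apply, F.star]

theorem QHom.triv (F : QHom Λ Λ') {θ : Matrix ι ι A} (h : Triv Λ θ) :
    Triv Λ' (θ.map F.hom) := by
  refine ⟨?_, fun i => F.mem _ (h.2 i)⟩
  rw [F.conjTranspose_map, h.1]
  ext1 i j
  simp

section

variable [Fintype ι] [DecidableEq ι] [Fintype κ] [DecidableEq κ]

theorem QHom.isom (F : QHom Λ Λ') {ψ : Matrix ι ι A} {φ : Matrix κ κ A} (h : Isom Λ ψ φ) :
    Isom Λ' (ψ.map F.hom) (φ.map F.hom) := by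
  obtain ⟨P, Q, h1, h2, h3⟩ := h
  refine ⟨P.map F.hom, Q.map F.hom, ?_, ?_, ?_⟩
  · rw [← Matrix.map_mul, h1, Matrix.map_one _ (map_zero _) (map_one _)]
  · rw [← Matrix.map_mul, h2, Matrix.map_one _ (map_zero _) (map_one _)]
  · have h4 := F.triv h3
    have h5 : (P * ψ * Pᴴ - φ).map F.hom =
        P.map F.hom * ψ.map F.hom * (P.map F.hom)ᴴ - φ.map F.hom := by
      rw [F.conjTranspose_map, ← Matrix.map_mul, ← Matrix.map_mul,
        Matrix.map_sub _ (fun a b => map_sub F.hom a b)]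
    rw [← h5]; exact h4

theorem map_osum (f : A →+* B) (ψ : Matrix ι ι A) (φ : Matrix κ κ A) :
    (osum ψ φ).map f = osum (ψ.map f) (φ.map f) := by
  unfold osum
  rw [Matrix.fromBlocks_map]
  simp

theorem map_hyp (f : A →+* B) : (hyp A ι).map f = hyp B ι := by
  unfold hyp
  rw [Matrix.fromBlocks_map, Matrix.map_one _ (map_zero _) (map_one _)]
  simp

theorem QHom.stab (F : QHom Λ Λ') {ψ : Matrix ι ι A} {φ : Matrix κ κ A} (h : Stab Λ ψ φ) :
    Stab Λ' (ψ.map F.hom) (φ.map F.hom) := by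
  obtain ⟨a, b, h⟩ := h
  have h1 := F.isom h
  rw [map_osum, map_osum, map_hyp, map_hyp] at h1
  exact ⟨a, b, h1⟩

theorem nonsing_map (f : A →+* B) (hf : ∀ a, f (star a) = star (f a)) {ψ : Matrix ι ι A}
    (h : Nonsing e ψ) : Nonsing e (ψ.map f) := by
  obtain ⟨U, hU⟩ := h
  have h1 : ψ.map f + (e : ℤ) • (ψ.map f)ᴴ = U.val.map f := by
    rw [hU]
    ext1 i j
    rw [Matrix.add_apply, Matrix.smul_apply, conjTranspose_apply, Matrix.map_apply,
      Matrix.map_apply, Matrix.map_apply, Matrix.add_apply, Matrix.smul_apply,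
      conjTranspose_apply, map_add, map_zsmul, hf]
  unfold Nonsing
  rw [h1]
  refine ⟨⟨U.val.map f, (U⁻¹).val.map f, ?_, ?_⟩, rfl⟩
  · rw [← Matrix.map_mul, U.mul_inv, Matrix.map_one _ (map_zero _) (map_one _)]
  · rw [← Matrix.map_mul, U.inv_mul, Matrix.map_one _ (map_zero _) (map_one _)]

end

/-- Change of rings for forms. -/
def QHom.form (F : QHom Λ Λ') (X : QForm A e) : QForm B e :=
  ⟨X.n, X.mat.map F.hom, nonsing_map F.hom F.star X.nonsing⟩

/-- The homomorphism of L-groups induced by a homomorphism of rings with involution. -/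
def QHom.L (F : QHom Λ Λ') : LG Λ →+ LG Λ' :=
  AddMonoidHom.mk' (Quotient.map F.form (fun _ _ h => F.stab h)) (by
    intro x y
    obtain ⟨X, rfl⟩ := x.ind
    obtain ⟨Y, rfl⟩ := y.ind
    change LG.mk Λ' (F.form (X.add Y)) = LG.mk Λ' ((F.form X).add (F.form Y))
    rw [LG.mk_eq]
    refine Isom.stab ?_
    have h : (F.form (X.add Y)).mat = ((F.form X).add (F.form Y)).mat := by
      change ((osum X.mat Y.mat).submatrix _ _).map F.hom =
        (osum (X.mat.map F.hom) (Y.mat.map F.hom)).submatrix _ _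
      rw [← map_osum]
      rfl
    rw [h]
    exact Isom.refl _)

theorem QHom.L_mk (F : QHom Λ Λ') (X : QForm A e) : F.L (LG.mk Λ X) = LG.mk Λ' (F.form X) := rfl

end Pool.Agent.H750.P
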