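import Pool.Agent.H750.P.Key

set_option autoImplicit false

/-! # The class of a commutator with a unitary matrix over the coefficients -/

namespace Pool.Agent.H750.P

open Matrix

variable {A : Type*} [Ring A] [StarRing A] {e : ℤˣ} {Λ Λ' : FormParam A e} {m n : ℕ}
  {f : Fin (n + 1) ≃ Fin n ⊕ Fin 1} {R : Type*} [Ring R] [StarRing R] {Ω' : FormParam R e}

theorem UQ_mono (h : Λ.carrier ≤ Λ'.carrier) : UQ Λ (psiC A n) ≤ UQ Λ' (psiC A n) :=
  fun _ hP => Triv.mono h hP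

/-- The isotropic Eichler transformation of a vector. -/
def eiv (e : ℤˣ) (v : Matrix (Fin 1) (Fin n ⊕ Fin n) A) : (Matrix (Ci n) (Ci n) A)ˣ :=
  EiU e v (-(v * hyp A (Fin n) * vᴴ)ᴴ)

theorem eiv_mem (Λ : FormParam A e) (v : Matrix (Fin 1) (Fin n ⊕ Fin n) A) :
    eiv e v ∈ UQ Λ (psiC A n) := by
  apply Ei_mem
  rw [conjTranspose_neg, conjTranspose_conjTranspose, add_neg_cancel]
  exact triv_zero

theorem Ei_map (p' : QHom Λ' Ω') (b : Matrix (Fin 1) (Fin n ⊕ Fin n) A)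
    (m : Matrix (Fin 1) (Fin 1) A) (hb : b.map p'.hom = 0) (hm : m.map p'.hom = 0) :
    (EiU e b m).val.map p'.hom = 1 := by
  change (Ei e b m).map p'.hom = 1
  unfold Ei
  have h1 : (fromCols (0 : Matrix (Fin n ⊕ Fin n) (Fin 1) A)
      (-((e : ℤ) • (Jm A e n * bᴴ)))).map p'.hom = 0 := by
    have h2 : (Jm A e n * bᴴ).map p'.hom = 0 := by
      rw [Matrix.map_mul, ← p'.conjTranspose_map, hb, conjTranspose_zero, Matrix.mul_zero]
    ext1 i j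
    rcases j with j | j
    · exact map_zero p'.hom
    · change p'.hom (-((e : ℤ) • ((Jm A e n * bᴴ) i j))) = 0
      rw [map_neg, map_zsmul]
      have h3 := congrFun (congrFun h2 i) j
      rw [Matrix.map_apply] at h3
      rw [h3]
      simp
  have h4 : (fromRows b (0 : Matrix (Fin 1) (Fin n ⊕ Fin n) A)).map p'.hom = 0 := by
    ext1 i j
    rcases i with i | i
    · exact congrFun (congrFun hb i) j
    · exact map_zero p'.hom
  rw [Matrix.fromBlocks_map, h1, h4, Matrix.fromBlocks_map, hm,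
    Matrix.map_one _ (map_zero _) (map_one _), Matrix.map_one _ (map_zero _) (map_one _),
    Matrix.map_zero _ (map_zero _), Matrix.fromBlocks_one, Matrix.fromBlocks_one]

section key

variable (p' : QHom Λ' Ω') (hk : ∀ a ∈ Λ'.carrier, p'.hom a = 0 → a ∈ Λ.carrier)
  (hΛ : Λ.carrier ≤ Λ'.carrier)

theorem conj_map_one {T P : (Matrix (Ci n) (Ci n) A)ˣ} (hP : P.val.map p'.hom = 1) :
    (T⁻¹ * P * T).val.map p'.hom = 1 := by
  change ((T⁻¹).val * P.val * T.val).map p'.hom = 1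
  rw [Matrix.map_mul, Matrix.map_mul, hP, Matrix.mul_one, ← Matrix.map_mul, T.inv_mul,
    Matrix.map_one _ (map_zero _) (map_one _)]

include hk hΛ in
theorem conj_mem {T P : (Matrix (Ci n) (Ci n) A)ˣ} (hT : T ∈ UQ Λ' (psiC A n))
    (hP : P ∈ UQ Λ' (psiC A n)) (h1 : P.val.map p'.hom = 1) : T⁻¹ * P * T ∈ UQ Λ (psiC A n) :=
  mem_UQ_of_one p' hk (mul_mem (mul_mem (inv_mem hT) hP) hT) (conj_map_one p' h1)

include hk hΛ in
/-- The class of the conjugate of a unitary matrix with trivial augmentation. -/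
theorem key (γ : UG Λ n) (hγ : γ.val.val.map p'.hom = 1)
    (G : (Matrix (Fin n ⊕ Fin n) (Fin n ⊕ Fin n) A)ˣ)
    (hX : G⁻¹ * γ.val * G ∈ UG Λ n)
    (v : Matrix (Fin 1) (Fin n ⊕ Fin n) A)
    (D : Matrix (Fin 1) (Fin 1) A) (hD : Triv Λ' D)
    (hh : (eiv e v * TU A n D * (eiv e v)⁻¹)⁻¹ * (hat A n G * TU A n D) ∈ UQ Λ (psiC A n)) :
    ∃ θ : Matrix (Fin 1) (Fin 1) A, Triv Λ θ ∧ θ.map p'.hom = 0 ∧
      L1.mk ⟨G⁻¹ * γ.val * G, hX⟩ =
        L1.mk γ + cC Λ f ((TU A n D)⁻¹ * EiU e 0 θ * TU A n D) := by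
  set T := TU A n D with hT
  set u := eiv e v with hu
  set g := hat A n γ.val with hg
  have huΛ : u ∈ UQ Λ (psiC A n) := eiv_mem Λ v
  have hTΛ' : T ∈ UQ Λ' (psiC A n) := TU_mem hD
  have hgΛ : g ∈ UQ Λ (psiC A n) := hat_mem γ.property
  -- the transformation of the conjugate
  have h1 : hat A n (G⁻¹ * γ.val * G) = (hat A n G * T)⁻¹ * g * (hat A n G * T) := by
    have h2 := TU_hat D (G⁻¹ * γ.val * G)
    rw [← hT] at h2
    have h3 : (hat A n G * T)⁻¹ * g * (hat A n G * T) = T⁻¹ * hat A n (G⁻¹ * γ.val * G) * T := by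
      rw [map_mul, map_mul, map_inv, hg]
      group
    rw [h3, mul_assoc T⁻¹, ← h2, inv_mul_cancel_left]
  obtain ⟨h, hhdef⟩ : ∃ h, h = (u * T * u⁻¹)⁻¹ * (hat A n G * T) := ⟨_, rfl⟩
  rw [← hhdef] at hh
  have hXΛ : hat A n (G⁻¹ * γ.val * G) ∈ UQ Λ (psiC A n) := hat_mem hX
  have h4 : u⁻¹ * (h * hat A n (G⁻¹ * γ.val * G) * h⁻¹) * (u⁻¹)⁻¹ = T⁻¹ * (u⁻¹ * g * u) * T := by
    rw [h1, hhdef]
    group
  have hYΛ : T⁻¹ * (u⁻¹ * g * u) * T ∈ UQ Λ (psiC A n) := by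
    rw [← h4]
    exact mul_mem (mul_mem (inv_mem huΛ) (mul_mem (mul_mem hh hXΛ) (inv_mem hh)))
      (inv_mem (inv_mem huΛ))
  have h5 : cC Λ f (hat A n (G⁻¹ * γ.val * G)) = cC Λ f (T⁻¹ * (u⁻¹ * g * u) * T) := by
    rw [← h4, cC_conj (inv_mem huΛ) (mul_mem (mul_mem hh hXΛ) (inv_mem hh)), cC_conj hh hXΛ]
  -- the Eichler transformation
  obtain ⟨η, hη⟩ : ∃ η, η = u⁻¹ * (g * u * g⁻¹) := ⟨_, rfl⟩
  have hcomm : T⁻¹ * g = g * T⁻¹ := TU_inv_hat D γ.val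
  have hcomm' : T * g = g * T := TU_hat D γ.val
  have h6 : T⁻¹ * (u⁻¹ * g * u) * T = (T⁻¹ * η * T) * g := by
    calc T⁻¹ * (u⁻¹ * g * u) * T = T⁻¹ * η * (g * T) := by rw [hη]; group
      _ = (T⁻¹ * η * T) * g := by rw [← hcomm']; group
  have hηΛ : T⁻¹ * η * T ∈ UQ Λ (psiC A n) := by
    have h7 : T⁻¹ * η * T = T⁻¹ * (u⁻¹ * g * u) * T * g⁻¹ := by rw [h6]; group
    rw [h7]
    exact mul_mem hYΛ (inv_mem hgΛ)
  have hηΛ' : η ∈ UQ Λ' (psiC A n) := by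
    rw [hη]
    exact UQ_mono hΛ (mul_mem (inv_mem huΛ) (mul_mem (mul_mem hgΛ huΛ) (inv_mem hgΛ)))
  obtain ⟨B, hB⟩ : ∃ B, B = v * (γ.val⁻¹).val - v := ⟨_, rfl⟩
  have hB0 : B.map p'.hom = 0 := by
    have h8 : (γ.val⁻¹).val.map p'.hom = 1 := by
      have h9 : ((γ.val⁻¹).val * γ.val.val).map p'.hom = 1 := by
        rw [γ.val.inv_mul, Matrix.map_one _ (map_zero _) (map_one _)]
      rw [Matrix.map_mul, hγ, Matrix.mul_one] at h9
      exact h9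
    rw [hB, Matrix.map_sub _ (fun a b => map_sub p'.hom a b), Matrix.map_mul, h8, Matrix.mul_one,
      sub_self]
  have hηE : η = EiU e B ((e : ℤ) • (v * Jm A e n * Bᴴ)) := by
    rw [hη, hg, hu]
    unfold eiv
    rw [hat_Ei γ.property, EiU_inv, EiU_mul]
    congr 1
    · rw [hB]; abel
    · rw [hB, conjTranspose_sub, Matrix.mul_sub, smul_sub, Matrix.neg_mul, Matrix.neg_mul, smul_neg]
      abel
  obtain ⟨B₁, hB₁⟩ : ∃ B₁ : Matrix (Fin 1) (Fin n) A, B₁ = B.toCols₁ := ⟨_, rfl⟩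
  obtain ⟨B₂, hB₂⟩ : ∃ B₂ : Matrix (Fin 1) (Fin n) A, B₂ = B.toCols₂ := ⟨_, rfl⟩
  have hBB : B = fromCols B₁ 0 + fromCols 0 B₂ := by
    rw [fc_add, add_zero, zero_add, hB₁, hB₂, fromCols_toCols]
  have hB₁0 : B₁.map p'.hom = 0 := by
    ext1 i j
    rw [hB₁]
    exact congrFun (congrFun hB0 i) (Sum.inl j)
  have hB₂0 : B₂.map p'.hom = 0 := by
    ext1 i j
    rw [hB₂]
    exact congrFun (congrFun hB0 i) (Sum.inr j)
  obtain ⟨θ, hθ⟩ : ∃ θ, θ = (e : ℤ) • (v * Jm A e n * Bᴴ) +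
      (e : ℤ) • (fromCols B₁ (0 : Matrix (Fin 1) (Fin n) A) * Jm A e n *
        (fromCols (0 : Matrix (Fin 1) (Fin n) A) B₂)ᴴ) := ⟨_, rfl⟩
  have hdec : η = EiU e (fromCols B₁ 0) 0 * EiU e (fromCols 0 B₂) 0 * EiU e 0 θ := by
    rw [hηE, EiU_mul, EiU_mul, ← hBB, add_zero, conjTranspose_zero, Matrix.mul_zero, smul_zero,
      sub_zero, add_zero, zero_sub, hθ]
    congr 1
    abel
  have hθ0 : θ.map p'.hom = 0 := by
    have h8 : ∀ (x : Matrix (Fin 1) (Fin n ⊕ Fin n) A) (y : Matrix (Fin 1) (Fin n ⊕ Fin n) A),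
        y.map p'.hom = 0 → ((e : ℤ) • (x * Jm A e n * yᴴ)).map p'.hom = 0 := by
      intro x y hy
      have h9 : (x * Jm A e n * yᴴ).map p'.hom = 0 := by
        rw [Matrix.map_mul, ← p'.conjTranspose_map, hy, conjTranspose_zero, Matrix.mul_zero]
      ext1 i j
      change p'.hom ((e : ℤ) • ((x * Jm A e n * yᴴ) i j)) = 0
      have h10 := congrFun (congrFun h9 i) j
      rw [Matrix.map_apply] at h10
      rw [map_zsmul, h10]
      simp
    rw [hθ, Matrix.map_add _ (fun a b => map_add p'.hom a b), h8 _ _ hB0, h8 _ _ ?_, add_zero]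
    ext1 i j
    rcases j with j | j
    · exact map_zero p'.hom
    · exact congrFun (congrFun hB₂0 i) j
  have hE1 : EiU e (fromCols B₁ 0) 0 ∈ UQ Λ' (psiC A n) := Ei_left_mem B₁
  have hE2 : EiU e (fromCols 0 B₂) 0 ∈ UQ Λ' (psiC A n) := Ei_right_mem B₂
  have hE3 : EiU e (0 : Matrix (Fin 1) (Fin n ⊕ Fin n) A) θ ∈ UQ Λ' (psiC A n) := by
    have h8 : EiU e (0 : Matrix (Fin 1) (Fin n ⊕ Fin n) A) θ =
        (EiU e (fromCols B₁ 0) 0 * EiU e (fromCols 0 B₂) 0)⁻¹ * η := by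
      rw [hdec]; group
    rw [h8]
    exact mul_mem (inv_mem (mul_mem hE1 hE2)) hηΛ'
  have hz1 : (fromCols B₁ (0 : Matrix (Fin 1) (Fin n) A)).map p'.hom = 0 := by
    ext1 i j
    rcases j with j | j
    · exact congrFun (congrFun hB₁0 i) j
    · exact map_zero p'.hom
  have hz2 : (fromCols (0 : Matrix (Fin 1) (Fin n) A) B₂).map p'.hom = 0 := by
    ext1 i j
    rcases j with j | j
    · exact map_zero p'.hom
    · exact congrFun (congrFun hB₂0 i) j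
  have hm0 : (0 : Matrix (Fin 1) (Fin 1) A).map p'.hom = 0 := Matrix.map_zero _ (map_zero _)
  have hv0 : (0 : Matrix (Fin 1) (Fin n ⊕ Fin n) A).map p'.hom = 0 :=
    Matrix.map_zero _ (map_zero _)
  have hc1 := conj_mem p' hk hΛ hTΛ' hE1 (Ei_map p' _ _ hz1 hm0)
  have hc2 := conj_mem p' hk hΛ hTΛ' hE2 (Ei_map p' _ _ hz2 hm0)
  have hc3 := conj_mem p' hk hΛ hTΛ' hE3 (Ei_map p' _ _ hv0 hθ0)
  have hθΛ : Triv Λ θ := by
    have h8 : Triv Λ' θ := triv_conjTranspose (triv_of_Ei hE3)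
    exact ⟨h8.1, fun i => hk _ (h8.2 i) (congrFun (congrFun hθ0 i) i)⟩
  refine ⟨θ, hθΛ, hθ0, ?_⟩
  rw [← cC_hat (f := f) hX, h5, h6, cC_mul hηΛ hgΛ]
  have h9 : T⁻¹ * η * T = (T⁻¹ * EiU e (fromCols B₁ 0) 0 * T) *
      (T⁻¹ * EiU e (fromCols 0 B₂) 0 * T) * (T⁻¹ * EiU e 0 θ * T) := by
    rw [hdec]; group
  rw [h9, cC_mul (mul_mem hc1 hc2) hc3, cC_mul hc1 hc2,
    conj_left_zero p' hk B₁ hB₁0 D hD, conj_right_zero p' hk B₂ hB₂0 D hD hc2, zero_add, zero_add,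
    hg, cC_hat γ.property, add_comm]

end key

end Pool.Agent.H750.P
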