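import Pool.Agent.H750.P.Square

set_option autoImplicit false

/-! # The odd L-groups -/

namespace Pool.Agent.H750.P

open Matrix

variable {A : Type*} [Ring A] [StarRing A] {e : ℤˣ} {ι κ : Type*}

/-- The unitary group: the invertible matrices which preserve the hyperbolic form of rank `2n`. -/
def UG (Λ : FormParam A e) (n : ℕ) : Subgroup (Matrix (Fin n ⊕ Fin n) (Fin n ⊕ Fin n) A)ˣ where
  carrier := {P | Triv Λ (P.val * hyp A (Fin n) * P.valᴴ - hyp A (Fin n))}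
  one_mem' := by
    change Triv Λ ((1 : Matrix (Fin n ⊕ Fin n) (Fin n ⊕ Fin n) A) * hyp A (Fin n) *
      (1 : Matrix (Fin n ⊕ Fin n) (Fin n ⊕ Fin n) A)ᴴ - hyp A (Fin n))
    rw [conjTranspose_one, Matrix.one_mul, Matrix.mul_one, sub_self]
    exact triv_zero
  mul_mem' := by
    intro P Q hP hQ
    have hP' : Triv Λ (P.val * hyp A (Fin n) * P.valᴴ - hyp A (Fin n)) := hP
    have hQ' : Triv Λ (Q.val * hyp A (Fin n) * Q.valᴴ - hyp A (Fin n)) := hQ
    change Triv Λ ((P.val * Q.val) * hyp A (Fin n) * (P.val * Q.val)ᴴ - hyp A (Fin n))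
    have h1 := (hQ'.conj P.val).add hP'
    have h2 : (P.val * Q.val) * hyp A (Fin n) * (P.val * Q.val)ᴴ - hyp A (Fin n) =
        P.val * (Q.val * hyp A (Fin n) * Q.valᴴ - hyp A (Fin n)) * P.valᴴ +
          (P.val * hyp A (Fin n) * P.valᴴ - hyp A (Fin n)) := by
      rw [conjTranspose_mul, Matrix.mul_sub, Matrix.sub_mul]
      simp only [Matrix.mul_assoc]
      abel
    rw [h2]; exact h1
  inv_mem' := by
    intro P hP
    have hP' : Triv Λ (P.val * hyp A (Fin n) * P.valᴴ - hyp A (Fin n)) := hP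
    change Triv Λ ((P⁻¹).val * hyp A (Fin n) * (P⁻¹).valᴴ - hyp A (Fin n))
    have h1 := (hP'.conj (P⁻¹).val).neg
    have h3 : P.valᴴ * (P⁻¹).valᴴ = 1 := by
      rw [← conjTranspose_mul, P.inv_mul, conjTranspose_one]
    have h2 : (P⁻¹).val * hyp A (Fin n) * (P⁻¹).valᴴ - hyp A (Fin n) =
        -((P⁻¹).val * (P.val * hyp A (Fin n) * P.valᴴ - hyp A (Fin n)) * (P⁻¹).valᴴ) := by
      have h4 : (P⁻¹).val * (P.val * hyp A (Fin n) * P.valᴴ) * (P⁻¹).valᴴ = hyp A (Fin n) := by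
        calc (P⁻¹).val * (P.val * hyp A (Fin n) * P.valᴴ) * (P⁻¹).valᴴ =
            ((P⁻¹).val * P.val) * hyp A (Fin n) * (P.valᴴ * (P⁻¹).valᴴ) := by
              simp only [Matrix.mul_assoc]
          _ = _ := by rw [P.inv_mul, h3, Matrix.one_mul, Matrix.mul_one]
      rw [Matrix.mul_sub, Matrix.sub_mul, h4, neg_sub]
    rw [h2]; exact h1

theorem mem_UG {Λ : FormParam A e} {n : ℕ} {P : (Matrix (Fin n ⊕ Fin n) (Fin n ⊕ Fin n) A)ˣ} :
    P ∈ UG Λ n ↔ Triv Λ (P.val * hyp A (Fin n) * P.valᴴ - hyp A (Fin n)) := Iff.rfl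

/-- The reindexing of the stabilisation, for a numbering `f` of the hyperbolic planes. -/
def stEquiv {n : ℕ} (f : Fin (n + 1) ≃ Fin n ⊕ Fin 1) :
    Fin (n + 1) ⊕ Fin (n + 1) ≃ (Fin n ⊕ Fin n) ⊕ (Fin 1 ⊕ Fin 1) :=
  (Equiv.sumCongr f f).trans (swapEquiv (Fin n) (Fin 1))

/-- The stabilisation `M ↦ M ⊕ 1` of matrices. -/
def stM (A : Type*) [Ring A] {n : ℕ} (f : Fin (n + 1) ≃ Fin n ⊕ Fin 1) : Matrix (Fin n ⊕ Fin n) (Fin n ⊕ Fin n) A →*
    Matrix (Fin (n + 1) ⊕ Fin (n + 1)) (Fin (n + 1) ⊕ Fin (n + 1)) A where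
  toFun M := (fromBlocks M 0 0 1).submatrix (stEquiv f) (stEquiv f)
  map_one' := by rw [Matrix.fromBlocks_one, Matrix.submatrix_one_equiv]
  map_mul' M N := by
    rw [Matrix.submatrix_mul_equiv, Matrix.fromBlocks_multiply]
    simp

theorem stM_hyp {n : ℕ} (f : Fin (n + 1) ≃ Fin n ⊕ Fin 1) : hyp A (Fin (n + 1)) =
    (fromBlocks (hyp A (Fin n)) 0 0 (hyp A (Fin 1))).submatrix (stEquiv f) (stEquiv f) := by
  have h : ∀ x y : Fin (n + 1), (1 : Matrix (Fin (n + 1)) (Fin (n + 1)) A) x y =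
      (1 : Matrix (Fin n ⊕ Fin 1) (Fin n ⊕ Fin 1) A) (f x) (f y) := by
    intro x y
    rw [Matrix.one_apply, Matrix.one_apply]
    simp only [EmbeddingLike.apply_eq_iff_eq]
  ext1 x y
  rcases x with x | x <;> rcases y with y | y
  · rw [Matrix.submatrix_apply]
    unfold stEquiv hyp
    simp only [Equiv.trans_apply, Equiv.sumCongr_apply, Sum.map_inl]
    generalize f x = u
    generalize f y = v
    rcases u with u | u <;> rcases v with v | v <;> rfl
  · rw [Matrix.submatrix_apply]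
    unfold hyp
    rw [fromBlocks_apply₁₂, h]
    unfold stEquiv
    simp only [Equiv.trans_apply, Equiv.sumCongr_apply, Sum.map_inl, Sum.map_inr]
    generalize f x = u
    generalize f y = v
    rcases u with u | u <;> rcases v with v | v <;> simp [swapEquiv, Matrix.one_apply]
  · rw [Matrix.submatrix_apply]
    unfold stEquiv hyp
    simp only [Equiv.trans_apply, Equiv.sumCongr_apply, Sum.map_inl, Sum.map_inr]
    generalize f x = u
    generalize f y = v
    rcases u with u | u <;> rcases v with v | v <;> rfl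
  · rw [Matrix.submatrix_apply]
    unfold stEquiv hyp
    simp only [Equiv.trans_apply, Equiv.sumCongr_apply, Sum.map_inr]
    generalize f x = u
    generalize f y = v
    rcases u with u | u <;> rcases v with v | v <;> rfl

/-- The stabilisation `P ↦ P ⊕ 1` of the unitary groups. -/
def stU (Λ : FormParam A e) {n : ℕ} (f : Fin (n + 1) ≃ Fin n ⊕ Fin 1) (P : UG Λ n) :
    UG Λ (n + 1) :=
  ⟨Units.map (stM A f) P.val, by
    rw [mem_UG]
    have h1 : Triv Λ (P.val.val * hyp A (Fin n) * P.val.valᴴ - hyp A (Fin n)) := P.property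
    have h2 := (h1.fromBlocks (triv_zero (ι := Fin 1 ⊕ Fin 1) (Λ := Λ))).submatrix (stEquiv f)
    have h3 : (Units.map (stM A f) P.val).val * hyp A (Fin (n + 1)) *
        ((Units.map (stM A f) P.val).val)ᴴ - hyp A (Fin (n + 1)) =
        (fromBlocks (P.val.val * hyp A (Fin n) * P.val.valᴴ - hyp A (Fin n)) 0 0 0).submatrix
          (stEquiv f) (stEquiv f) := by
      change (fromBlocks P.val.val 0 0 1).submatrix (stEquiv f) (stEquiv f) *
        hyp A (Fin (n + 1)) *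
        ((fromBlocks P.val.val 0 0 1).submatrix (stEquiv f) (stEquiv f))ᴴ -
        hyp A (Fin (n + 1)) = _
      rw [stM_hyp f, conjTranspose_submatrix, Matrix.submatrix_mul_equiv,
        Matrix.submatrix_mul_equiv, fromBlocks_conjTranspose, Matrix.fromBlocks_multiply,
        Matrix.fromBlocks_multiply]
      ext1 x y
      rw [Matrix.sub_apply, Matrix.submatrix_apply, Matrix.submatrix_apply,
        Matrix.submatrix_apply]
      generalize stEquiv f x = u
      generalize stEquiv f y = v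
      rcases u with u | u <;> rcases v with v | v <;> simp
    rw [h3]; exact h2⟩

/-- The elementary unitary matrices: the hyperbolic matrices `α ⊕ (α*)⁻¹`, the unipotent matrices
and the flip. -/
def IsElem (Λ : FormParam A e) {n : ℕ} (P : Matrix (Fin n ⊕ Fin n) (Fin n ⊕ Fin n) A) : Prop :=
  (∃ α β : Matrix (Fin n) (Fin n) A, α * β = 1 ∧ β * α = 1 ∧ P = fromBlocks α 0 0 βᴴ) ∨
  (∃ θ : Matrix (Fin n) (Fin n) A, Triv Λ θ ∧ P = fromBlocks 1 0 θ 1) ∨
  P = fromBlocks 0 1 ((e : ℤ) • 1) 0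

/-- The pairs of a number `n` and a unitary matrix of rank `2n`. -/
abbrev SigU (Λ : FormParam A e) : Type _ := Σ n, UG Λ n

/-- The relations of the odd L-group: products, stabilisation (for all numberings of the
hyperbolic planes), and the elementary matrices. -/
def rels (Λ : FormParam A e) : Set (FreeAbelianGroup (SigU Λ)) :=
  {x | (∃ (n : ℕ) (P Q : UG Λ n), x = FreeAbelianGroup.of ⟨n, P * Q⟩ -
      (FreeAbelianGroup.of ⟨n, P⟩ + FreeAbelianGroup.of ⟨n, Q⟩)) ∨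
    (∃ (n : ℕ) (f : Fin (n + 1) ≃ Fin n ⊕ Fin 1) (P : UG Λ n),
      x = FreeAbelianGroup.of ⟨n + 1, stU Λ f P⟩ - FreeAbelianGroup.of ⟨n, P⟩) ∨
    (∃ (n : ℕ) (P : UG Λ n), IsElem Λ P.val.val ∧ x = FreeAbelianGroup.of ⟨n, P⟩)}

/-- The odd L-group: the stable unitary group made abelian, modulo the elementary matrices. -/
def L1 (Λ : FormParam A e) : Type _ :=
  FreeAbelianGroup (SigU Λ) ⧸ AddSubgroup.closure (rels Λ)

instance (Λ : FormParam A e) : AddCommGroup (L1 Λ) :=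
  QuotientAddGroup.Quotient.addCommGroup (AddSubgroup.closure (rels Λ))

variable {Λ : FormParam A e}

/-- The class of a unitary matrix. -/
def L1.mk {n : ℕ} (P : UG Λ n) : L1 Λ :=
  QuotientAddGroup.mk' (AddSubgroup.closure (rels Λ)) (FreeAbelianGroup.of ⟨n, P⟩)

theorem L1.rel_zero {x : FreeAbelianGroup (SigU Λ)} (hx : x ∈ rels Λ) :
    QuotientAddGroup.mk' (AddSubgroup.closure (rels Λ)) x = 0 :=
  (QuotientAddGroup.eq_zero_iff x).mpr (AddSubgroup.subset_closure hx)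

theorem L1.mk_mul {n : ℕ} (P Q : UG Λ n) : L1.mk (P * Q) = L1.mk P + L1.mk Q := by
  have h := L1.rel_zero (Λ := Λ) (Or.inl ⟨n, P, Q, rfl⟩)
  rw [map_sub, map_add, sub_eq_zero] at h
  exact h

theorem L1.mk_stU {n : ℕ} (f : Fin (n + 1) ≃ Fin n ⊕ Fin 1) (P : UG Λ n) :
    L1.mk (stU Λ f P) = L1.mk P := by
  have h := L1.rel_zero (Λ := Λ) (Or.inr (Or.inl ⟨n, f, P, rfl⟩))
  rw [map_sub, sub_eq_zero] at h
  exact h

theorem L1.mk_elem {n : ℕ} (P : UG Λ n) (hP : IsElem Λ P.val.val) : L1.mk P = 0 :=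
  L1.rel_zero (Λ := Λ) (Or.inr (Or.inr ⟨n, P, hP, rfl⟩))

theorem L1.mk_one (n : ℕ) : L1.mk (1 : UG Λ n) = 0 := by
  have h := L1.mk_mul (1 : UG Λ n) 1
  rw [mul_one] at h
  exact left_eq_add.mp h

theorem L1.mk_inv {n : ℕ} (P : UG Λ n) : L1.mk P⁻¹ = -L1.mk P := by
  have h := L1.mk_mul P P⁻¹
  rw [mul_inv_cancel, L1.mk_one] at h
  exact (neg_eq_of_add_eq_zero_right h.symm).symm

theorem L1.stab_add {n : ℕ} (P : UG Λ n) (k : ℕ) : ∃ Q : UG Λ (n + k), L1.mk Q = L1.mk P := by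
  induction k with
  | zero => exact ⟨P, rfl⟩
  | succ k ih =>
    obtain ⟨Q, hQ⟩ := ih
    exact ⟨stU Λ finSumFinEquiv.symm Q, by rw [L1.mk_stU, hQ]⟩

theorem L1.ind (x : L1 Λ) : ∃ (n : ℕ) (P : UG Λ n), x = L1.mk P := by
  obtain ⟨x, rfl⟩ := QuotientAddGroup.mk'_surjective _ x
  induction x using FreeAbelianGroup.induction_on with
  | zero => exact ⟨0, 1, by rw [map_zero, L1.mk_one]; rfl⟩
  | of X => exact ⟨X.1, X.2, rfl⟩
  | neg X h =>
    refine ⟨X.1, X.2⁻¹, ?_⟩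
    rw [map_neg, L1.mk_inv]; rfl
  | add x y hx hy =>
    obtain ⟨n, P, hP⟩ := hx
    obtain ⟨m, Q, hQ⟩ := hy
    obtain ⟨P', hP'⟩ := L1.stab_add P m
    obtain ⟨Q', hQ'⟩ : ∃ Q' : UG Λ (n + m), L1.mk Q' = L1.mk Q := by
      rw [add_comm n m]
      exact L1.stab_add Q n
    refine ⟨n + m, P' * Q', ?_⟩
    rw [map_add, hP, hQ, L1.mk_mul, hP', hQ']
    rfl

/-- Homomorphisms out of the odd L-group. -/
def L1.lift {B : Type*} [AddCommGroup B] (f : ∀ n, UG Λ n → B)
    (h1 : ∀ n (P Q : UG Λ n), f n (P * Q) = f n P + f n Q)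
    (h2 : ∀ n (s : Fin (n + 1) ≃ Fin n ⊕ Fin 1) (P : UG Λ n), f (n + 1) (stU Λ s P) = f n P)
    (h3 : ∀ n (P : UG Λ n), IsElem Λ P.val.val → f n P = 0) : L1 Λ →+ B :=
  QuotientAddGroup.lift (AddSubgroup.closure (rels Λ))
    (FreeAbelianGroup.lift fun X : SigU Λ => f X.1 X.2) (by
      rw [AddSubgroup.closure_le]
      rintro x (⟨n, P, Q, rfl⟩ | ⟨n, s, P, rfl⟩ | ⟨n, P, hP, rfl⟩)
      · change FreeAbelianGroup.lift _ _ = 0
        rw [map_sub, map_add, FreeAbelianGroup.lift_apply_of, FreeAbelianGroup.lift_apply_of,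
          FreeAbelianGroup.lift_apply_of, h1, sub_self]
      · change FreeAbelianGroup.lift _ _ = 0
        rw [map_sub, FreeAbelianGroup.lift_apply_of, FreeAbelianGroup.lift_apply_of, h2, sub_self]
      · change FreeAbelianGroup.lift _ _ = 0
        rw [FreeAbelianGroup.lift_apply_of]
        exact h3 n P hP)

theorem L1.lift_mk {B : Type*} [AddCommGroup B] (f : ∀ n, UG Λ n → B)
    (h1 : ∀ n (P Q : UG Λ n), f n (P * Q) = f n P + f n Q)
    (h2 : ∀ n (s : Fin (n + 1) ≃ Fin n ⊕ Fin 1) (P : UG Λ n), f (n + 1) (stU Λ s P) = f n P)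
    (h3 : ∀ n (P : UG Λ n), IsElem Λ P.val.val → f n P = 0) {n : ℕ} (P : UG Λ n) :
    L1.lift f h1 h2 h3 (L1.mk P) = f n P := by
  change FreeAbelianGroup.lift _ (FreeAbelianGroup.of _) = _
  rw [FreeAbelianGroup.lift_apply_of]

end Pool.Agent.H750.P
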