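import Pool.Agent.H750.P.Odd

set_option autoImplicit false

/-! # Functoriality of the odd L-groups and change of the form parameter -/

namespace Pool.Agent.H750.P

open Matrix

variable {A : Type*} [Ring A] [StarRing A] {e : ℤˣ} {B : Type*} [Ring B] [StarRing B]

section map

variable {Λ : FormParam A e} {Λ' : FormParam B e}

/-- The entrywise action of a ring homomorphism on invertible matrices. -/
def mapU (f : A →+* B) (n : ℕ) : (Matrix (Fin n ⊕ Fin n) (Fin n ⊕ Fin n) A)ˣ →*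
    (Matrix (Fin n ⊕ Fin n) (Fin n ⊕ Fin n) B)ˣ :=
  Units.map (f.mapMatrix : Matrix (Fin n ⊕ Fin n) (Fin n ⊕ Fin n) A →+*
    Matrix (Fin n ⊕ Fin n) (Fin n ⊕ Fin n) B).toMonoidHom

theorem mapU_val (f : A →+* B) {n : ℕ} (P : (Matrix (Fin n ⊕ Fin n) (Fin n ⊕ Fin n) A)ˣ) :
    (mapU f n P).val = P.val.map f := rfl

theorem QHom.mapU_mem (F : QHom Λ Λ') {n : ℕ} {P : (Matrix (Fin n ⊕ Fin n) (Fin n ⊕ Fin n) A)ˣ}
    (hP : P ∈ UG Λ n) : mapU F.hom n P ∈ UG Λ' n := by
  rw [mem_UG] at hP ⊢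
  have h := F.triv hP
  have h5 : (P.val * hyp A (Fin n) * P.valᴴ - hyp A (Fin n)).map F.hom =
      P.val.map F.hom * hyp B (Fin n) * (P.val.map F.hom)ᴴ - hyp B (Fin n) := by
    rw [F.conjTranspose_map, Matrix.map_sub _ (fun a b => map_sub F.hom a b), Matrix.map_mul,
      Matrix.map_mul, map_hyp]
  rw [mapU_val, ← h5]; exact h

/-- The homomorphism of unitary groups induced by a homomorphism of rings with involution. -/
def QHom.U (F : QHom Λ Λ') (n : ℕ) : UG Λ n →* UG Λ' n where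
  toFun P := ⟨mapU F.hom n P.val, F.mapU_mem P.property⟩
  map_one' := Subtype.ext (map_one (mapU F.hom n))
  map_mul' P Q := Subtype.ext (map_mul (mapU F.hom n) P.val Q.val)

theorem QHom.U_val (F : QHom Λ Λ') {n : ℕ} (P : UG Λ n) :
    (F.U n P).val.val = P.val.val.map F.hom := rfl

theorem stM_map (f : A →+* B) {n : ℕ} (s : Fin (n + 1) ≃ Fin n ⊕ Fin 1)
    (M : Matrix (Fin n ⊕ Fin n) (Fin n ⊕ Fin n) A) :
    (stM A s M).map f = stM B s (M.map f) := by
  change ((fromBlocks M 0 0 1).submatrix (stEquiv s) (stEquiv s)).map f =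
    (fromBlocks (M.map f) 0 0 1).submatrix (stEquiv s) (stEquiv s)
  rw [← Matrix.submatrix_map, Matrix.fromBlocks_map, Matrix.map_one _ (map_zero _) (map_one _),
    Matrix.map_zero _ (map_zero _), Matrix.map_zero _ (map_zero _)]

theorem QHom.U_stU (F : QHom Λ Λ') {n : ℕ} (s : Fin (n + 1) ≃ Fin n ⊕ Fin 1) (P : UG Λ n) :
    F.U (n + 1) (stU Λ s P) = stU Λ' s (F.U n P) :=
  Subtype.ext (Units.ext (stM_map F.hom s P.val.val))

theorem QHom.isElem (F : QHom Λ Λ') {n : ℕ} {P : Matrix (Fin n ⊕ Fin n) (Fin n ⊕ Fin n) A}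
    (h : IsElem Λ P) : IsElem Λ' (P.map F.hom) := by
  rcases h with ⟨α, β, h1, h2, rfl⟩ | ⟨θ, h1, rfl⟩ | rfl
  · refine Or.inl ⟨α.map F.hom, β.map F.hom, ?_, ?_, ?_⟩
    · rw [← Matrix.map_mul, h1, Matrix.map_one _ (map_zero _) (map_one _)]
    · rw [← Matrix.map_mul, h2, Matrix.map_one _ (map_zero _) (map_one _)]
    · rw [Matrix.fromBlocks_map, F.conjTranspose_map, Matrix.map_zero _ (map_zero _)]
  · refine Or.inr (Or.inl ⟨θ.map F.hom, F.triv h1, ?_⟩)
    rw [Matrix.fromBlocks_map, Matrix.map_zero _ (map_zero _),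
      Matrix.map_one _ (map_zero _) (map_one _)]
  · refine Or.inr (Or.inr ?_)
    rw [Matrix.fromBlocks_map, Matrix.map_zero _ (map_zero _),
      Matrix.map_one _ (map_zero _) (map_one _)]
    congr 1
    ext1 i j
    rw [Matrix.map_apply, Matrix.smul_apply, Matrix.smul_apply, map_zsmul, Matrix.one_apply,
      Matrix.one_apply]
    split_ifs <;> simp

/-- The homomorphism of odd L-groups induced by a homomorphism of rings with involution. -/
def QHom.L1 (F : QHom Λ Λ') : Pool.Agent.H750.P.L1 Λ →+ Pool.Agent.H750.P.L1 Λ' :=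
  L1.lift (fun _ P => L1.mk (F.U _ P)) (fun n P Q => by rw [map_mul, L1.mk_mul])
    (fun n s P => by rw [F.U_stU, L1.mk_stU]) (fun n P hP => L1.mk_elem _ (F.isElem hP))

theorem QHom.L1_mk (F : QHom Λ Λ') {n : ℕ} (P : UG Λ n) : F.L1 (L1.mk P) = L1.mk (F.U n P) :=
  L1.lift_mk _ _ _ _ P

end map

section mono

variable {Λ Λ' : FormParam A e}

theorem UG_mono (h : Λ.carrier ≤ Λ'.carrier) (n : ℕ) : UG Λ n ≤ UG Λ' n :=
  fun _ hP => Triv.mono h hP

/-- The inclusion of unitary groups. -/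
def incU (h : Λ.carrier ≤ Λ'.carrier) (n : ℕ) : UG Λ n →* UG Λ' n :=
  Subgroup.inclusion (UG_mono h n)

theorem incU_val (h : Λ.carrier ≤ Λ'.carrier) {n : ℕ} (P : UG Λ n) : (incU h n P).val = P.val :=
  rfl

theorem IsElem.mono (h : Λ.carrier ≤ Λ'.carrier) {n : ℕ}
    {P : Matrix (Fin n ⊕ Fin n) (Fin n ⊕ Fin n) A} (hP : IsElem Λ P) : IsElem Λ' P := by
  rcases hP with h1 | ⟨θ, h1, h2⟩ | h1
  · exact Or.inl h1
  · exact Or.inr (Or.inl ⟨θ, h1.mono h, h2⟩)
  · exact Or.inr (Or.inr h1)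

/-- The homomorphism of odd L-groups which enlarges the form parameter. -/
def forget1 (h : Λ.carrier ≤ Λ'.carrier) : L1 Λ →+ L1 Λ' :=
  L1.lift (fun _ P => L1.mk (incU h _ P)) (fun n P Q => by rw [map_mul, L1.mk_mul])
    (fun n s P => L1.mk_stU s (incU h n P)) (fun n P hP => L1.mk_elem _ (hP.mono h))

theorem forget1_mk (h : Λ.carrier ≤ Λ'.carrier) {n : ℕ} (P : UG Λ n) :
    forget1 h (L1.mk P) = L1.mk (incU h n P) := L1.lift_mk _ _ _ _ P

end mono

/-! ### the reduced groups -/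

section main

variable {R : Type*} [Ring R] [StarRing R] {Λ Λ' : FormParam A e} {Ω Ω' : FormParam R e}

/-- A matrix which is unitary for the larger form parameter and has trivial augmentation is unitary
for the smaller form parameter. -/
theorem mem_UG_of_one (p' : QHom Λ' Ω') (hk : ∀ a ∈ Λ'.carrier, p'.hom a = 0 → a ∈ Λ.carrier)
    {n : ℕ} {P : (Matrix (Fin n ⊕ Fin n) (Fin n ⊕ Fin n) A)ˣ} (hP : P ∈ UG Λ' n)
    (h1 : mapU p'.hom n P = 1) : P ∈ UG Λ n := by
  rw [mem_UG] at hP ⊢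
  refine ⟨hP.1, fun i => hk _ (hP.2 i) ?_⟩
  have h2 : P.val.map p'.hom = 1 := congrArg Units.val h1
  have h5 : (P.val * hyp A (Fin n) * P.valᴴ - hyp A (Fin n)).map p'.hom = 0 := by
    rw [Matrix.map_sub _ (fun a b => map_sub p'.hom a b), Matrix.map_mul,
      Matrix.map_mul, map_hyp, ← p'.conjTranspose_map, h2, conjTranspose_one, Matrix.one_mul,
      Matrix.mul_one, sub_self]
  exact congrFun (congrFun h5 i) i

variable (i' : QHom Ω' Λ') (p' : QHom Λ' Ω') (hpi' : ∀ r, p'.hom (i'.hom r) = r)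
  (hk : ∀ a ∈ Λ'.carrier, p'.hom a = 0 → a ∈ Λ.carrier)

include hpi' in
theorem mapU_mapU (n : ℕ) (P : (Matrix (Fin n ⊕ Fin n) (Fin n ⊕ Fin n) R)ˣ) :
    mapU p'.hom n (mapU i'.hom n P) = P := by
  apply Units.ext
  ext1 a b
  exact hpi' _

/-- The reduced part `P i(p P)⁻¹` of a unitary matrix. -/
def redU {n : ℕ} (P : UG Λ' n) : UG Λ n :=
  ⟨P.val * (mapU i'.hom n (mapU p'.hom n P.val))⁻¹,
    mem_UG_of_one p' hk
      (mul_mem P.property (inv_mem (i'.mapU_mem (p'.mapU_mem P.property)))) (by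
        rw [map_mul, map_inv, mapU_mapU i' p' hpi', mul_inv_cancel])⟩

theorem redU_val {n : ℕ} (P : UG Λ' n) : (redU i' p' hpi' hk P).val =
    P.val * (mapU i'.hom n (mapU p'.hom n P.val))⁻¹ := rfl

/-- The classes `[g P g⁻¹] - [P]` for `P` in the kernel of the augmentation and `g` unitary over the
coefficients for the larger form parameter. -/
def conjSet (Λ : FormParam A e) (i' : QHom Ω' Λ') (p' : QHom Λ' Ω') : Set (L1 Λ) :=
  {x | ∃ (n : ℕ) (g : UG Ω' n) (P Q : UG Λ n), mapU p'.hom n P.val = 1 ∧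
    Q.val = mapU i'.hom n g.val * P.val * (mapU i'.hom n g.val)⁻¹ ∧ x = L1.mk Q - L1.mk P}

theorem mapU_redU {n : ℕ} (P : UG Λ' n) : mapU p'.hom n (redU i' p' hpi' hk P).val = 1 := by
  rw [redU_val, map_mul, map_inv, mapU_mapU i' p' hpi', mul_inv_cancel]

theorem redU_elem {n : ℕ} (P : UG Λ' n) (hP : IsElem Λ' P.val.val) :
    L1.mk (redU i' p' hpi' hk P) = 0 := by
  apply L1.mk_elem
  have hinv : ∀ X : (Matrix (Fin n ⊕ Fin n) (Fin n ⊕ Fin n) A)ˣ, ∀ Y, X.val * Y = 1 →
      (X⁻¹).val = Y := by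
    intro X Y h
    have h2 : X⁻¹.val * (X.val * Y) = Y := by rw [← Matrix.mul_assoc, X.inv_mul, Matrix.one_mul]
    rw [h, Matrix.mul_one] at h2
    exact h2
  have hE : ∀ M : Matrix (Fin n ⊕ Fin n) (Fin n ⊕ Fin n) A, ∀ Y,
      (M.map p'.hom).map i'.hom * Y = 1 → P.val.val = M → 
      (redU i' p' hpi' hk P).val.val = M * Y := by
    intro M Y h1 h2
    change P.val.val * ((mapU i'.hom n (mapU p'.hom n P.val))⁻¹).val = M * Y
    rw [hinv _ Y (by
      change (P.val.val.map p'.hom).map i'.hom * Y = 1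
      rw [h2, h1]), h2]
  rcases hP with ⟨α, β, h1, h2, h3⟩ | ⟨θ, h1, h3⟩ | h3
  · have h4 : (α.map p'.hom).map i'.hom * (β.map p'.hom).map i'.hom = 1 := by
      rw [← Matrix.map_mul, ← Matrix.map_mul, h1, Matrix.map_one _ (map_zero _) (map_one _),
        Matrix.map_one _ (map_zero _) (map_one _)]
    have h4' : (β.map p'.hom).map i'.hom * (α.map p'.hom).map i'.hom = 1 := by
      rw [← Matrix.map_mul, ← Matrix.map_mul, h2, Matrix.map_one _ (map_zero _) (map_one _),
        Matrix.map_one _ (map_zero _) (map_one _)]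
    rw [hE _ (fromBlocks ((β.map p'.hom).map i'.hom) 0 0 (((α.map p'.hom).map i'.hom)ᴴ)) ?_ h3]
    · refine Or.inl ⟨α * (β.map p'.hom).map i'.hom, (α.map p'.hom).map i'.hom * β, ?_, ?_, ?_⟩
      · calc α * (β.map p'.hom).map i'.hom * ((α.map p'.hom).map i'.hom * β) =
            α * ((β.map p'.hom).map i'.hom * (α.map p'.hom).map i'.hom) * β := by
              simp only [Matrix.mul_assoc]
          _ = 1 := by rw [h4', Matrix.mul_one, h1]
      · calc (α.map p'.hom).map i'.hom * β * (α * (β.map p'.hom).map i'.hom) =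
            (α.map p'.hom).map i'.hom * (β * α) * (β.map p'.hom).map i'.hom := by
              simp only [Matrix.mul_assoc]
          _ = 1 := by rw [h2, Matrix.mul_one, h4]
      · rw [Matrix.fromBlocks_multiply, conjTranspose_mul]
        simp
    · rw [Matrix.fromBlocks_map, Matrix.fromBlocks_map, Matrix.fromBlocks_multiply,
        ← p'.conjTranspose_map, ← i'.conjTranspose_map, ← conjTranspose_mul, h4,
        conjTranspose_one, ← Matrix.fromBlocks_one]
      simp
  · rw [hE _ (fromBlocks 1 0 (-((θ.map p'.hom).map i'.hom)) 1) ?_ h3]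
    · refine Or.inr (Or.inl ⟨θ - (θ.map p'.hom).map i'.hom, ?_, ?_⟩)
      · have h5 : Triv Λ' (θ - (θ.map p'.hom).map i'.hom) := h1.sub (i'.triv (p'.triv h1))
        refine ⟨h5.1, fun k => hk _ (h5.2 k) ?_⟩
        rw [Matrix.sub_apply, Matrix.map_apply, Matrix.map_apply, map_sub, hpi', sub_self]
      · rw [Matrix.fromBlocks_multiply]
        simp [sub_eq_add_neg]
    · rw [Matrix.fromBlocks_map, Matrix.fromBlocks_map, Matrix.fromBlocks_multiply,
        ← Matrix.fromBlocks_one]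
      simp
  · have h4 : (fromBlocks 0 1 ((e : ℤ) • 1) 0 : Matrix (Fin n ⊕ Fin n) (Fin n ⊕ Fin n) A) *
        fromBlocks 0 ((e : ℤ) • 1) 1 0 = 1 := by
      have h2 : ((e : ℤ) • (1 : Matrix (Fin n) (Fin n) A)) *
          ((e : ℤ) • (1 : Matrix (Fin n) (Fin n) A)) = 1 := by
        rw [Matrix.smul_mul, Matrix.mul_smul, Matrix.one_mul, ee_smul]
      rw [Matrix.fromBlocks_multiply, h2, ← Matrix.fromBlocks_one]; simp
    rw [hE _ (fromBlocks 0 ((e : ℤ) • 1) 1 0) ?_ h3, h4]
    · exact Or.inl ⟨1, 1, by simp, by simp, by rw [conjTranspose_one, Matrix.fromBlocks_one]⟩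
    · have h6 : ((fromBlocks 0 1 ((e : ℤ) • 1) 0 : Matrix (Fin n ⊕ Fin n) (Fin n ⊕ Fin n) A).map
          p'.hom).map i'.hom = fromBlocks 0 1 ((e : ℤ) • 1) 0 := by
        have h7 : ∀ k l, i'.hom (p'.hom ((((e : ℤ) • (1 : Matrix (Fin n) (Fin n) A)) k l))) =
            ((e : ℤ) • (1 : Matrix (Fin n) (Fin n) A)) k l := by
          intro k l
          rw [Matrix.smul_apply, map_zsmul, map_zsmul, Matrix.one_apply]
          split_ifs <;> simp
        rw [Matrix.fromBlocks_map, Matrix.fromBlocks_map]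
        congr 1
        · ext1 k l; simp
        · ext1 k l
          rw [Matrix.map_apply, Matrix.map_apply, Matrix.one_apply]
          split_ifs <;> simp
        · ext1 k l
          exact h7 k l
        · ext1 k l; simp
      rw [h6, h4]

theorem redU_stU {n : ℕ} (s : Fin (n + 1) ≃ Fin n ⊕ Fin 1) (P : UG Λ' n) :
    redU i' p' hpi' hk (stU Λ' s P) = stU Λ s (redU i' p' hpi' hk P) := by
  apply Subtype.ext
  rw [redU_val]
  change Units.map (stM A s) P.val * (mapU i'.hom (n + 1) (mapU p'.hom (n + 1)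
    (Units.map (stM A s) P.val)))⁻¹ = Units.map (stM A s) (redU i' p' hpi' hk P).val
  rw [redU_val, map_mul, map_inv]
  congr 2
  apply Units.ext
  change ((stM A s P.val.val).map p'.hom).map i'.hom = stM A s ((P.val.val.map p'.hom).map i'.hom)
  rw [stM_map, stM_map]

/-- Conjugation of the reduced part by a unitary matrix over the coefficients. -/
def conjU {n : ℕ} (g : UG Ω' n) (P : UG Λ n) (hΛ : Λ.carrier ≤ Λ'.carrier)
    (hP : mapU p'.hom n P.val = 1) : UG Λ n :=
  ⟨mapU i'.hom n g.val * P.val * (mapU i'.hom n g.val)⁻¹, mem_UG_of_one p' hk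
    (mul_mem (mul_mem (i'.mapU_mem g.property) (UG_mono hΛ n P.property))
      (inv_mem (i'.mapU_mem g.property))) (by
        rw [map_mul, map_mul, hP, map_inv, mul_one, mul_inv_cancel])⟩

theorem redU_mul (hΛ : Λ.carrier ≤ Λ'.carrier) {n : ℕ} (P Q : UG Λ' n) :
    redU i' p' hpi' hk (P * Q) = redU i' p' hpi' hk P *
      conjU i' p' hk (p'.U n P) (redU i' p' hpi' hk Q) hΛ (mapU_redU i' p' hpi' hk Q) := by
  apply Subtype.ext
  change P.val * Q.val * (mapU i'.hom n (mapU p'.hom n (P.val * Q.val)))⁻¹ =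
    P.val * (mapU i'.hom n (mapU p'.hom n P.val))⁻¹ *
    (mapU i'.hom n (mapU p'.hom n P.val) * (Q.val * (mapU i'.hom n (mapU p'.hom n Q.val))⁻¹) *
      (mapU i'.hom n (mapU p'.hom n P.val))⁻¹)
  rw [map_mul, map_mul]
  group

/-- The inverse homomorphism modulo the classes of commutators. -/
def psi (hΛ : Λ.carrier ≤ Λ'.carrier) :
    L1 Λ' →+ L1 Λ ⧸ AddSubgroup.closure (conjSet Λ i' p') :=
  L1.lift (fun _ P => QuotientAddGroup.mk' (AddSubgroup.closure (conjSet Λ i' p'))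
      (L1.mk (redU i' p' hpi' hk P)))
    (fun n P Q => by
      rw [redU_mul i' p' hpi' hk hΛ, L1.mk_mul, map_add, add_right_inj, ← sub_eq_zero, ← map_sub]
      refine (QuotientAddGroup.eq_zero_iff _).mpr (AddSubgroup.subset_closure ?_)
      exact ⟨n, p'.U n P, redU i' p' hpi' hk Q, _, mapU_redU i' p' hpi' hk Q, rfl, rfl⟩)
    (fun n s P => by rw [redU_stU, L1.mk_stU])
    (fun n P hP => by rw [redU_elem i' p' hpi' hk P hP, map_zero])

theorem psi_mk (hΛ : Λ.carrier ≤ Λ'.carrier) {n : ℕ} (P : UG Λ' n) :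
    psi i' p' hpi' hk hΛ (L1.mk P) = QuotientAddGroup.mk' (AddSubgroup.closure (conjSet Λ i' p'))
      (L1.mk (redU i' p' hpi' hk P)) := L1.lift_mk _ _ _ _ P

theorem split_mk (hΛ : Λ.carrier ≤ Λ'.carrier) {n : ℕ} (P : UG Λ' n) :
    (L1.mk P : L1 Λ') = forget1 hΛ (L1.mk (redU i' p' hpi' hk P)) + i'.L1 (p'.L1 (L1.mk P)) := by
  rw [p'.L1_mk, i'.L1_mk, forget1_mk, ← L1.mk_mul]
  congr 1
  apply Subtype.ext
  change P.val = P.val * (mapU i'.hom n (mapU p'.hom n P.val))⁻¹ *
    mapU i'.hom n (mapU p'.hom n P.val)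
  rw [inv_mul_cancel_right]

include hpi' hk in
/-- The reduced odd L-groups: enlarging the form parameter by elements of the coefficients is
surjective and its kernel is generated by the differences of conjugates. -/
theorem odd_main (hΛ : Λ.carrier ≤ Λ'.carrier) (i : QHom Ω Λ) (p : QHom Λ Ω)
    (hi : i.hom = i'.hom) (hp : p.hom = p'.hom) :
    (∀ y : L1 Λ', p'.L1 y = 0 → ∃ x : L1 Λ, p.L1 x = 0 ∧ forget1 hΛ x = y) ∧
    (∀ x : L1 Λ, p.L1 x = 0 →
      (forget1 hΛ x = 0 ↔ x ∈ AddSubgroup.closure (conjSet Λ i' p'))) := by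
  constructor
  · intro y hy
    obtain ⟨n, P, rfl⟩ := y.ind
    refine ⟨L1.mk (redU i' p' hpi' hk P), ?_, ?_⟩
    · rw [p.L1_mk]
      have h : p.U n (redU i' p' hpi' hk P) = 1 := by
        apply Subtype.ext
        change mapU p.hom n (redU i' p' hpi' hk P).val = 1
        rw [hp, mapU_redU]
      rw [h, L1.mk_one]
    · have h := split_mk i' p' hpi' hk hΛ P
      rw [hy, map_zero, add_zero] at h
      exact h.symm
  · intro x hx
    constructor
    · intro h
      obtain ⟨n, P, rfl⟩ := x.ind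
      have h1 : (L1.mk P : L1 Λ) = L1.mk (redU i' p' hpi' hk (incU hΛ n P)) +
          i.L1 (p.L1 (L1.mk P)) := by
        rw [p.L1_mk, i.L1_mk, ← L1.mk_mul]
        congr 1
        apply Subtype.ext
        change P.val = P.val * (mapU i'.hom n (mapU p'.hom n P.val))⁻¹ *
          mapU i.hom n (mapU p.hom n P.val)
        rw [hi, hp, inv_mul_cancel_right]
      rw [hx, map_zero, add_zero] at h1
      rw [h1]
      have h2 := psi_mk i' p' hpi' hk hΛ (incU hΛ n P)
      rw [← forget1_mk, h, map_zero] at h2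
      exact (QuotientAddGroup.eq_zero_iff _).mp h2.symm
    · intro h
      have h1 : AddSubgroup.closure (conjSet Λ i' p') ≤ (forget1 hΛ).ker := by
        rw [AddSubgroup.closure_le]
        rintro z ⟨n, g, P, Q, hP, hQ, rfl⟩
        change forget1 hΛ (L1.mk Q - L1.mk P) = 0
        have h2 : incU hΛ n Q = i'.U n g * incU hΛ n P * (i'.U n g)⁻¹ := Subtype.ext hQ
        rw [map_sub, forget1_mk, forget1_mk, h2, L1.mk_mul, L1.mk_mul, L1.mk_inv]
        abel
      exact h1 h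

end main

end Pool.Agent.H750.P
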