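import Pool.Agent.H750.P.Kap
import Pool.Agent.H750.P.GRing

set_option autoImplicit false

/-! # Integral group rings for the sign `-1` -/

namespace Pool.Agent.H750.P

open Matrix

section ext

variable {R : Type*} [Ring R] [StarRing R] {G : Type*} [Group G] {e : ℤˣ}

/-- An element of the larger form parameter of the group ring with augmentation zero lies in the
smaller one. -/
theorem ext_ker {Λ Λ' : FormParam R e} :
    ∀ a ∈ (Λ'.ext G).carrier, (augHom Λ' G).hom a = 0 → a ∈ (Λ.ext G).carrier := by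
  rintro a ⟨b, r, hr, rfl⟩ h0
  change aug R G _ = 0 at h0
  rw [map_add, map_sub, map_zsmul, aug_star, aug_single] at h0
  refine ⟨b, r, ?_, rfl⟩
  have h1 : r = -aug R G b - (e : ℤ) • star (-aug R G b) := by
    rw [star_neg, smul_neg]
    have h2 := eq_neg_of_add_eq_zero_right h0
    rw [h2]
    abel
  rw [h1]
  exact Λ.min_mem _

/-- A unipotent upper triangular matrix has class zero. -/
theorem mk_uppU {A : Type*} [Ring A] [StarRing A] {Λ : FormParam A e}
    {D : Matrix (Fin 1) (Fin 1) A} (hD : Triv Λ D) : L1.mk ⟨uppU D, uppU_mem hD⟩ = 0 := by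
  have hE : Triv Λ ((e : ℤ) • D) := by
    refine ⟨?_, fun i => Λ.carrier.zsmul_mem (hD.2 i) _⟩
    rw [conjTranspose_zsmul, hD.1, smul_neg]
  have h1 : (⟨uppU D, uppU_mem hD⟩ : UG Λ 1) = flipU Λ 1 * uniU Λ _ hE * (flipU Λ 1)⁻¹ := by
    rw [eq_mul_inv_iff_mul_eq]
    apply Subtype.ext
    apply Units.ext
    change fromBlocks 1 D 0 1 * fromBlocks 0 1 ((e : ℤ) • 1) 0 =
      fromBlocks 0 1 ((e : ℤ) • 1) 0 * fromBlocks 1 0 ((e : ℤ) • D) 1
    rw [Matrix.fromBlocks_multiply, Matrix.fromBlocks_multiply]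
    simp only [Matrix.mul_zero, Matrix.zero_mul, zero_add, add_zero, Matrix.mul_smul,
      Matrix.mul_one, Matrix.one_mul, smul_zero]
  rw [h1, L1.mk_mul, L1.mk_mul, L1.mk_inv, L1.mk_elem (uniU Λ _ hE) (Or.inr (Or.inl ⟨_, hE, rfl⟩))]
  abel

end ext

section int

variable {G : Type*} [Group G]

theorem one_triv : Triv (allP.ext G) (1 : Matrix (Fin 1) (Fin 1) (MonoidAlgebra ℤ G)) := by
  refine ⟨by simp, fun i => ⟨0, 1, AddSubgroup.mem_top _, ?_⟩⟩
  rw [Matrix.one_apply_eq]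
  simp [MonoidAlgebra.one_def]

/-- The matrix `b + b* - 2 aug b`. -/
noncomputable def th (b : MonoidAlgebra ℤ G) : Matrix (Fin 1) (Fin 1) (MonoidAlgebra ℤ G) :=
  Matrix.of fun _ _ => (b - inc ℤ G (aug ℤ G b)) + star (b - inc ℤ G (aug ℤ G b))

theorem th_apply (b : MonoidAlgebra ℤ G) (i j : Fin 1) :
    th b i j = (b - inc ℤ G (aug ℤ G b)) + star (b - inc ℤ G (aug ℤ G b)) := rfl

theorem th_add (b c : MonoidAlgebra ℤ G) : th (b + c) = th b + th c := by
  ext1 i j
  rw [Matrix.add_apply, th_apply, th_apply, th_apply, map_add, map_add]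
  simp only [star_sub, star_add]
  abel

theorem th_inc (r : ℤ) : th (inc ℤ G r) = 0 := by
  ext1 i j
  rw [th_apply, aug_inc, sub_self, star_zero, add_zero]
  rfl

theorem th_eq {b : MonoidAlgebra ℤ G} (hb : aug ℤ G b = 0) (i j : Fin 1) :
    th b i j = b + star b := by
  rw [th_apply, hb, map_zero, sub_zero]

theorem th_triv (b : MonoidAlgebra ℤ G) : Triv (evenP.ext G) (th b) := by
  refine ⟨?_, fun i => ?_⟩
  · ext1 i j
    change star (th b j i) = -(((-1 : ℤˣ) : ℤ) • th b i j)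
    rw [th_apply, th_apply, star_add, star_star]
    simp [add_comm]
  · refine ⟨b - inc ℤ G (aug ℤ G b), 0, Even.zero, ?_⟩
    rw [th_apply]
    simp
    abel

theorem th_aug (b : MonoidAlgebra ℤ G) : (th b).map (augHom allP G).hom = 0 := by
  ext1 i j
  rw [Matrix.map_apply, th_apply]
  change aug ℤ G _ = 0
  rw [map_add, aug_star, map_sub, aug_inc, sub_self, star_zero, add_zero]

/-- The unitary matrix of rank one of an element of the group ring. -/
noncomputable def kU (b : MonoidAlgebra ℤ G) : UG (evenP.ext G) 1 :=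
  ⟨kM 1 (th b), kM_mem (augHom allP G) ext_ker one_triv
    ((th_triv b).mono (ext_mono even_le_all)) (th_aug b)⟩

theorem kU_add (b c : MonoidAlgebra ℤ G) : kU (b + c) = kU b * kU c := by
  apply Subtype.ext
  change kM 1 (th (b + c)) = kM 1 (th b) * kM 1 (th c)
  rw [th_add, kM_add]

/-- The class of the unitary matrix of rank one. -/
noncomputable def kH : MonoidAlgebra ℤ G →+ L1 (evenP.ext G) :=
  AddMonoidHom.mk' (fun b => L1.mk (kU b)) fun b c => by rw [kU_add, L1.mk_mul]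

theorem kH_apply (b : MonoidAlgebra ℤ G) : kH b = L1.mk (kU b) := rfl

theorem kH_inc (r : ℤ) : kH (inc ℤ G r) = 0 := by
  have h : kU (inc ℤ G r) * kU (inc ℤ G r) = kU (inc ℤ G r) := by
    apply Subtype.ext
    change kM 1 (th (inc ℤ G r)) * kM 1 (th (inc ℤ G r)) = kM 1 (th (inc ℤ G r))
    rw [← kM_add, th_inc, add_zero]
  rw [kH_apply]
  have h1 := congrArg L1.mk h
  rw [L1.mk_mul] at h1
  exact left_eq_add.mp h1.symm

theorem kH_cC {n : ℕ} (f : Fin (n + 1) ≃ Fin n ⊕ Fin 1) (b : MonoidAlgebra ℤ G) :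
    cC (evenP.ext G) f ((TU _ n 1)⁻¹ * EiU (-1) 0 (th b) * TU _ n 1) = kH b :=
  cC_kM f (kU b).property

theorem single_map (B : MonoidAlgebra ℤ G) (hB : aug ℤ G B = 0) :
    (Matrix.of fun _ _ => B : Matrix (Fin 1) (Fin 1) (MonoidAlgebra ℤ G)).map
      (augHom allP G).hom = 0 := by
  ext1 i j
  exact hB

theorem left_ok {B : Matrix (Fin 1) (Fin 1) (MonoidAlgebra ℤ G)}
    (hB : B.map (augHom allP G).hom = 0) :
    (TU _ 1 1)⁻¹ * EiU (-1) (fromCols B 0) 0 * TU _ 1 1 ∈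
      UQ (evenP.ext G) (psiC (MonoidAlgebra ℤ G) 1) := by
  refine conj_mem (augHom allP G) ext_ker (ext_mono even_le_all) (TU_mem one_triv)
    (Ei_left_mem B) (Ei_map _ _ _ ?_ (Matrix.map_zero _ (map_zero _)))
  ext1 i j
  rcases j with j | j
  · exact congrFun (congrFun hB i) j
  · exact map_zero (augHom allP G).hom

theorem right_ok {B : Matrix (Fin 1) (Fin 1) (MonoidAlgebra ℤ G)}
    (hB : B.map (augHom allP G).hom = 0) :
    (TU _ 1 1)⁻¹ * EiU (-1) (fromCols 0 B) 0 * TU _ 1 1 ∈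
      UQ (evenP.ext G) (psiC (MonoidAlgebra ℤ G) 1) := by
  refine conj_mem (augHom allP G) ext_ker (ext_mono even_le_all) (TU_mem one_triv)
    (Ei_right_mem B) (Ei_map _ _ _ ?_ (Matrix.map_zero _ (map_zero _)))
  ext1 i j
  rcases j with j | j
  · exact map_zero (augHom allP G).hom
  · exact congrFun (congrFun hB i) j

theorem th_prod {b c : MonoidAlgebra ℤ G} (h : aug ℤ G (b * c) = 0) :
    (Matrix.of fun _ _ => star c : Matrix (Fin 1) (Fin 1) (MonoidAlgebra ℤ G)) *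
      (Matrix.of fun _ _ => b : Matrix (Fin 1) (Fin 1) (MonoidAlgebra ℤ G))ᴴ -
      ((-1 : ℤˣ) : ℤ) • ((Matrix.of fun _ _ => b : Matrix (Fin 1) (Fin 1) (MonoidAlgebra ℤ G)) *
      (Matrix.of fun _ _ => star c : Matrix (Fin 1) (Fin 1) (MonoidAlgebra ℤ G))ᴴ) =
      th (b * c) := by
  ext1 i j
  rw [th_eq h, Matrix.sub_apply, Matrix.smul_apply, Matrix.mul_apply, Matrix.mul_apply,
    Fin.sum_univ_one, Fin.sum_univ_one, conjTranspose_apply, conjTranspose_apply]
  simp [add_comm]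

theorem kH_mul {b c : MonoidAlgebra ℤ G} (hb : aug ℤ G b = 0) (hc : aug ℤ G c = 0) :
    kH (b * c) = 0 := by
  rw [← kH_cC (finSumFinEquiv.symm : Fin (1 + 1) ≃ Fin 1 ⊕ Fin 1),
    ← th_prod (by rw [map_mul, hb, zero_mul])]
  exact comm_zero _ _ _ _ (left_ok (single_map b hb))
    (right_ok (single_map (star c) (by rw [aug_star, hc, star_zero])))

/-- The Eichler transformation of an even integral vector. -/
theorem two_ok (B : Matrix (Fin 1) (Fin 1) ℤ) (hB : Even (B 0 0)) :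
    (TU ℤ 1 1)⁻¹ * EiU (-1) (fromCols B 0) 0 * TU ℤ 1 1 ∈ UQ evenP (psiC ℤ 1) := by
  have hT : TU ℤ 1 1 ∈ UQ allP (psiC ℤ 1) := TU1_mem
  have hu : EiU (-1) (fromCols B 0) 0 ∈ UQ evenP (psiC ℤ 1) := Ei_left_mem B
  rw [mul_assoc]
  refine inv_mul_mem (mul_mem (UQ_mono even_le_all hu) hT) hT ?_
  have h1 := (conj_form hu _ (TU_form (A := ℤ) (n := 1) 1)).1
  have h3 := TU_form (A := ℤ) (n := 1) 1
  obtain ⟨d1, d2, d3, d4⟩ := Ei_D_diag (fromCols B (0 : Matrix (Fin 1) (Fin 1) ℤ)) 0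
  intro i
  have h7 := h1.2 i
  rw [mem_evenP] at h7 ⊢
  have h4 := congrFun (congrFun h3 i) i
  rw [Matrix.sub_apply] at h4
  have h8 : ((EiU (-1) (fromCols B 0) 0 * TU ℤ 1 1).val * psiC ℤ 1 *
      ((EiU (-1) (fromCols B 0) 0 * TU ℤ 1 1).val)ᴴ -
      (TU ℤ 1 1).val * psiC ℤ 1 * (TU ℤ 1 1).valᴴ : Matrix (Ci 1) (Ci 1) ℤ) i i =
      ((EiU (-1) (fromCols B 0) 0 * TU ℤ 1 1).val * psiC ℤ 1 *
      ((EiU (-1) (fromCols B 0) 0 * TU ℤ 1 1).val)ᴴ - psiC ℤ 1 -
      (EiU (-1) (fromCols B 0) 0).val * fromBlocks 0 0 0 (fromBlocks 0 0 0 1) *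
        ((EiU (-1) (fromCols B 0) 0).val)ᴴ : Matrix (Ci 1) (Ci 1) ℤ) i i +
      (((EiU (-1) (fromCols B 0) 0).val * fromBlocks 0 0 0 (fromBlocks 0 0 0 1) *
        ((EiU (-1) (fromCols B 0) 0).val)ᴴ : Matrix (Ci 1) (Ci 1) ℤ) i i -
        (fromBlocks 0 0 0 (fromBlocks 0 0 0 1) : Matrix (Ci 1) (Ci 1) ℤ) i i) := by
    rw [← h4]
    simp only [Matrix.sub_apply]
    ring
  rw [h8]
  refine Even.add h7 ?_
  change Even ((Ei (-1) (fromCols B 0) 0 * fromBlocks 0 0 0 (fromBlocks 0 0 0 1) *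
    (Ei (-1) (fromCols B 0) 0)ᴴ : Matrix (Ci 1) (Ci 1) ℤ) i i - _)
  rcases i with (k | k) | (k | k)
  · rw [d1 k]
    simp
  · rw [d2 k]
    have h9 : (fromBlocks 0 0 0 (fromBlocks 0 0 0 1) : Matrix (Ci 1) (Ci 1) ℤ)
        (Sum.inl (Sum.inr k)) (Sum.inl (Sum.inr k)) = 0 := rfl
    rw [h9, sub_zero, fromCols_apply_inl, Fin.fin_one_eq_zero k]
    exact hB.mul_right _
  · rw [d3 k]
    simp
  · rw [d4 k]
    have h9 : (fromBlocks 0 0 0 (fromBlocks 0 0 0 1) : Matrix (Ci 1) (Ci 1) ℤ)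
        (Sum.inr (Sum.inr k)) (Sum.inr (Sum.inr k)) = 1 := by
      rw [fromBlocks_apply₂₂, fromBlocks_apply₂₂, Matrix.one_apply_eq]
    rw [h9, sub_self]
    exact Even.zero

theorem kH_two {c : MonoidAlgebra ℤ G} (hc : aug ℤ G c = 0) : kH (inc ℤ G 2 * c) = 0 := by
  rw [← kH_cC (finSumFinEquiv.symm : Fin (1 + 1) ≃ Fin 1 ⊕ Fin 1),
    ← th_prod (by rw [map_mul, hc, mul_zero])]
  refine comm_zero _ _ _ _ ?_
    (right_ok (single_map (star c) (by rw [aug_star, hc, star_zero])))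
  have h1 := (incHom evenP G).mapC_mem (two_ok (Matrix.of fun _ _ => 2) ⟨1, rfl⟩)
  rw [map_mul, map_mul, map_inv, mapC_EiU] at h1
  change (mapC (inc ℤ G) 1 (TU ℤ 1 1))⁻¹ * _ * mapC (inc ℤ G) 1 (TU ℤ 1 1) ∈ _ at h1
  rw [mapC_TU, Matrix.map_one _ (map_zero _) (map_one _)] at h1
  have h2 : (fromCols (Matrix.of fun _ _ => 2 : Matrix (Fin 1) (Fin 1) ℤ)
      (0 : Matrix (Fin 1) (Fin 1) ℤ)).map (incHom evenP G).hom =
      fromCols (Matrix.of fun _ _ => inc ℤ G 2) 0 := by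
    ext1 i j
    rcases j with j | j
    · rfl
    · exact map_zero (inc ℤ G)
  rw [h2, Matrix.map_zero _ (map_zero _)] at h1
  exact h1

theorem aug_sub (g : G) : aug ℤ G (MonoidAlgebra.single g 1 - MonoidAlgebra.single 1 1) = 0 := by
  rw [map_sub, aug_single, aug_single, sub_self]

theorem kH_group (g h : G) : kH (MonoidAlgebra.single (g * h) 1 : MonoidAlgebra ℤ G) =
    kH (MonoidAlgebra.single g 1) + kH (MonoidAlgebra.single h 1) := by
  have h1 := kH_mul (aug_sub g) (aug_sub h)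
  have h2 : (MonoidAlgebra.single g 1 - MonoidAlgebra.single 1 1 : MonoidAlgebra ℤ G) *
      (MonoidAlgebra.single h 1 - MonoidAlgebra.single 1 1) =
      MonoidAlgebra.single (g * h) 1 - (MonoidAlgebra.single g 1 + MonoidAlgebra.single h 1) +
        inc ℤ G 1 := by
    rw [sub_mul, mul_sub, mul_sub, inc_apply]
    simp only [MonoidAlgebra.single_mul_single, mul_one, one_mul]
    abel
  rw [h2, map_add, kH_inc, add_zero, map_sub, map_add] at h1
  exact sub_eq_zero.mp h1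

/-- The homomorphism from the group. -/
noncomputable def kG (G : Type*) [Group G] : G →* Multiplicative (L1 (evenP.ext G)) where
  toFun g := Multiplicative.ofAdd (kH (MonoidAlgebra.single g 1))
  map_one' := congrArg Multiplicative.ofAdd (kH_inc 1)
  map_mul' g h := congrArg Multiplicative.ofAdd (kH_group g h)

theorem kG_apply (g : G) : kG G g = Multiplicative.ofAdd (kH (MonoidAlgebra.single g 1)) := rfl

theorem kG_sq (g : G) : kG G g * kG G g = 1 := by
  have h1 := kH_two (aug_sub g)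
  have h2 : inc ℤ G 2 * (MonoidAlgebra.single g 1 - MonoidAlgebra.single 1 1) =
      MonoidAlgebra.single g 1 + MonoidAlgebra.single g 1 - inc ℤ G 2 := by
    rw [mul_sub, inc_apply]
    simp only [MonoidAlgebra.single_mul_single, mul_one, one_mul]
    rw [← MonoidAlgebra.single_add]
    rfl
  rw [h2, map_sub, kH_inc, sub_zero, map_add] at h1
  rw [kG_apply, ← ofAdd_add, h1]
  rfl

theorem kH_single (g : G) (r : ℤ) :
    ∃ h : G, kH (MonoidAlgebra.single g r) = kH (MonoidAlgebra.single h 1) := by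
  refine ⟨g ^ r, ?_⟩
  have h1 : (MonoidAlgebra.single g r : MonoidAlgebra ℤ G) = r • MonoidAlgebra.single g 1 := by
    rw [MonoidAlgebra.smul_single]
    simp
  have h2 := map_zpow (kG G) g r
  rw [kG_apply, kG_apply, ← ofAdd_zsmul] at h2
  rw [h1, map_zsmul]
  exact (Multiplicative.ofAdd.injective h2).symm

theorem kH_range (b : MonoidAlgebra ℤ G) : ∃ g : G, kH b = kH (MonoidAlgebra.single g 1) := by
  induction b using MonoidAlgebra.induction_linear with
  | zero =>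
    refine ⟨1, ?_⟩
    rw [map_zero]
    exact (kH_inc 1).symm
  | add x y hx hy =>
    obtain ⟨g, hg⟩ := hx
    obtain ⟨h, hh⟩ := hy
    refine ⟨g * h, ?_⟩
    have h2 := map_mul (kG G) g h
    rw [kG_apply, kG_apply, kG_apply, ← ofAdd_add] at h2
    rw [map_add, hg, hh]
    exact (Multiplicative.ofAdd.injective h2).symm
  | single g r => exact kH_single g r

theorem th_surj {θ : Matrix (Fin 1) (Fin 1) (MonoidAlgebra ℤ G)} (h1 : Triv (evenP.ext G) θ)
    (h2 : θ.map (augHom allP G).hom = 0) : ∃ b, θ = th b := by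
  obtain ⟨b, r, hr, hb⟩ := h1.2 0
  refine ⟨b, ?_⟩
  have h3 : aug ℤ G (θ 0 0) = 0 := congrFun (congrFun h2 0) 0
  rw [hb, map_add, map_sub, map_zsmul, aug_star, aug_single] at h3
  have h4 : r = -(aug ℤ G b + aug ℤ G b) := by
    have h5 : star (aug ℤ G b) = aug ℤ G b := rfl
    rw [h5] at h3
    simp at h3
    linarith
  ext1 i j
  rw [Fin.fin_one_eq_zero i, Fin.fin_one_eq_zero j, th_apply, hb, h4]
  change b - ((-1 : ℤˣ) : ℤ) • star b + inc ℤ G _ = _
  rw [map_neg, map_add, star_sub, ← inc_star]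
  have h5 : star (aug ℤ G b) = aug ℤ G b := rfl
  rw [h5]
  simp
  abel

/-- The classes of commutators with integral matrices. -/
theorem conj_range {x : L1 (evenP.ext G)}
    (hx : x ∈ conjSet (evenP.ext G) (incHom allP G) (augHom allP G)) : ∃ b, x = kH b := by
  obtain ⟨n, g, P, Q, hP, hQ, rfl⟩ := hx
  obtain ⟨w, hw⟩ := match_int g⁻¹
  have hh := (incHom evenP G).mapC_mem hw
  rw [map_mul, map_inv, map_mul, map_mul, map_inv, mapC_eiv, map_mul] at hh
  change (eiv (-1) _ * mapC (inc ℤ G) n (TU ℤ n 1) * _)⁻¹ *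
    (mapC (inc ℤ G) n (hat ℤ n (g⁻¹).val) * mapC (inc ℤ G) n (TU ℤ n 1)) ∈ _ at hh
  rw [mapC_TU, Matrix.map_one _ (map_zero _) (map_one _), mapC_hat] at hh
  have hQ' : (mapU (inc ℤ G) n (g⁻¹).val)⁻¹ * P.val * mapU (inc ℤ G) n (g⁻¹).val = Q.val := by
    rw [hQ]
    have h1 : mapU (inc ℤ G) n (g⁻¹).val = (mapU (inc ℤ G) n g.val)⁻¹ :=
      map_inv (mapU (inc ℤ G) n) g.val
    rw [h1, inv_inv]
    rfl
  have hX : (mapU (inc ℤ G) n (g⁻¹).val)⁻¹ * P.val * mapU (inc ℤ G) n (g⁻¹).val ∈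
      UG (evenP.ext G) n := by
    rw [hQ']; exact Q.property
  have hP' : P.val.val.map (augHom allP G).hom = 1 := congrArg Units.val hP
  obtain ⟨θ, h1, h2, h3⟩ := key (f := (finSumFinEquiv.symm : Fin (n + 1) ≃ Fin n ⊕ Fin 1))
    (augHom allP G) ext_ker (ext_mono even_le_all) P hP' _ hX _ 1 one_triv hh
  obtain ⟨b, rfl⟩ := th_surj h1 h2
  refine ⟨b, ?_⟩
  rw [kH_cC] at h3
  have h4 : (⟨_, hX⟩ : UG (evenP.ext G) n) = Q := Subtype.ext hQ'
  rw [h4] at h3
  rw [h3]
  abel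

theorem forget_kH (b : MonoidAlgebra ℤ G) : forget1 (ext_mono even_le_all) (kH b) = 0 := by
  have hb := (th_triv b).mono (ext_mono even_le_all)
  rw [kH_apply, forget1_mk]
  have h1 : incU (ext_mono even_le_all) 1 (kU b) = (uniU (allP.ext G) 1 one_triv)⁻¹ *
      ⟨uppU (th b), uppU_mem hb⟩ * uniU (allP.ext G) 1 one_triv := by
    apply Subtype.ext
    apply Units.ext
    rfl
  rw [h1, L1.mk_mul, L1.mk_mul, L1.mk_inv, mk_uppU hb]
  abel

/-- The kernel of the change of the form parameter on the reduced groups. -/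
theorem kernel_int (x : L1 (evenP.ext G)) (hx : (augHom evenP G).L1 x = 0) :
    forget1 (ext_mono even_le_all) x = 0 ↔ ∃ g : G, x = Multiplicative.toAdd (kG G g) := by
  rw [(odd_main (incHom allP G) (augHom allP G) aug_inc ext_ker (ext_mono even_le_all)
    (incHom evenP G) (augHom evenP G) rfl rfl).2 x hx]
  constructor
  · intro h
    have h1 : AddSubgroup.closure (conjSet (evenP.ext G) (incHom allP G) (augHom allP G)) ≤
        (kH (G := G)).range := by
      rw [AddSubgroup.closure_le]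
      intro z hz
      obtain ⟨b, hb⟩ := conj_range hz
      exact ⟨b, hb.symm⟩
    obtain ⟨b, hb⟩ := h1 h
    obtain ⟨g, hg⟩ := kH_range b
    exact ⟨g, by rw [← hb, hg]; rfl⟩
  · rintro ⟨g, rfl⟩
    rw [← (odd_main (incHom allP G) (augHom allP G) aug_inc ext_ker (ext_mono even_le_all)
      (incHom evenP G) (augHom evenP G) rfl rfl).2 _ hx]
    exact forget_kH _

end int

end Pool.Agent.H750.P
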