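import Pool.Agent.H750.P.Main1

set_option autoImplicit false

/-! # Unitary matrices of rank one in higher rank -/

namespace Pool.Agent.H750.P

open Matrix

variable {A : Type*} [Ring A] [StarRing A] {e : ℤˣ} {Λ : FormParam A e} {m n : ℕ}

/-- The matrix `M` on the plane with the number `j`, the identity on all other planes. -/
def plM (j : Fin m) (M : Matrix (Fin 1 ⊕ Fin 1) (Fin 1 ⊕ Fin 1) A) :
    Matrix (Fin m ⊕ Fin m) (Fin m ⊕ Fin m) A :=
  fromBlocks (diagonal fun k => if k = j then M (Sum.inl 0) (Sum.inl 0) else 1)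
    (diagonal fun k => if k = j then M (Sum.inl 0) (Sum.inr 0) else 0)
    (diagonal fun k => if k = j then M (Sum.inr 0) (Sum.inl 0) else 0)
    (diagonal fun k => if k = j then M (Sum.inr 0) (Sum.inr 0) else 1)

theorem tau_last (f : Fin (n + 1) ≃ Fin n ⊕ Fin 1) (M : Matrix (Fin 1 ⊕ Fin 1) (Fin 1 ⊕ Fin 1) A) :
    (fromBlocks (1 : Matrix (Fin n ⊕ Fin n) (Fin n ⊕ Fin n) A) 0 0 M).submatrix (stEquiv f)
      (stEquiv f) = plM (f.symm (Sum.inr 0)) M := by
  ext1 x y
  unfold plM stEquiv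
  rcases x with x | x <;> rcases y with y | y <;>
    obtain ⟨u, rfl⟩ := f.symm.surjective x <;> obtain ⟨v, rfl⟩ := f.symm.surjective y <;>
    rcases u with u | u <;> rcases v with v | v <;>
    simp [swapEquiv, Matrix.one_apply, Matrix.diagonal, Fin.fin_one_eq_zero]

theorem stM_pl (s : Fin (m + 1) ≃ Fin m ⊕ Fin 1) (j : Fin m)
    (M : Matrix (Fin 1 ⊕ Fin 1) (Fin 1 ⊕ Fin 1) A) :
    stM A s (plM j M) = plM (s.symm (Sum.inl j)) M := by
  change (fromBlocks (plM j M) 0 0 1).submatrix (stEquiv s) (stEquiv s) = _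
  ext1 x y
  unfold plM stEquiv
  rcases x with x | x <;> rcases y with y | y <;>
    obtain ⟨u, rfl⟩ := s.symm.surjective x <;> obtain ⟨v, rfl⟩ := s.symm.surjective y <;>
    rcases u with u | u <;> rcases v with v | v <;>
    simp [swapEquiv, Matrix.one_apply, Matrix.diagonal, Fin.fin_one_eq_zero]

theorem place_one (w : UG Λ 1) (m : ℕ) (j : Fin (m + 1)) :
    ∃ Y : UG Λ (m + 1), Y.val.val = plM j w.val.val ∧ L1.mk Y = L1.mk w := by
  induction m with
  | zero =>
    refine ⟨w, ?_, rfl⟩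
    ext1 x y
    unfold plM
    rcases x with x | x <;> rcases y with y | y <;>
      simp [Matrix.diagonal, Fin.fin_one_eq_zero]
  | succ m ih =>
    obtain ⟨Y, hY, hY'⟩ := ih 0
    set s0 : Fin (m + 1 + 1) ≃ Fin (m + 1) ⊕ Fin 1 := finSumFinEquiv.symm with hs0
    refine ⟨stU Λ ((Equiv.swap j (s0.symm (Sum.inl 0))).trans s0) Y, ?_, ?_⟩
    · change stM A _ Y.val.val = _
      rw [hY, stM_pl]
      congr 1
      simp
    · rw [L1.mk_stU, hY']

/-- The embedding of rank one matrices on the last plane. -/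
def lastM (A : Type*) [Ring A] (n : ℕ) : Matrix (Fin 1 ⊕ Fin 1) (Fin 1 ⊕ Fin 1) A →*
    Matrix (Ci n) (Ci n) A where
  toFun M := fromBlocks 1 0 0 M
  map_one' := Matrix.fromBlocks_one
  map_mul' M N := by
    rw [Matrix.fromBlocks_multiply]
    simp

/-- The embedding of invertible rank one matrices on the last plane. -/
def lastU (A : Type*) [Ring A] (n : ℕ) : (Matrix (Fin 1 ⊕ Fin 1) (Fin 1 ⊕ Fin 1) A)ˣ →*
    (Matrix (Ci n) (Ci n) A)ˣ := Units.map (lastM A n)

theorem lastU_mem (w : UG Λ 1) : lastU A n w.val ∈ UQ Λ (psiC A n) := by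
  rw [mem_UQ]
  change Triv Λ (fromBlocks 1 0 0 w.val.val * psiC A n * (fromBlocks 1 0 0 w.val.val)ᴴ - psiC A n)
  have h1 : Triv Λ (w.val.val * hyp A (Fin 1) * w.val.valᴴ - hyp A (Fin 1)) := w.property
  have h2 := (triv_zero (ι := Fin n ⊕ Fin n) (Λ := Λ)).fromBlocks h1
  have h3 : fromBlocks 1 0 0 w.val.val * psiC A n * (fromBlocks 1 0 0 w.val.val)ᴴ - psiC A n =
      fromBlocks 0 0 0 (w.val.val * hyp A (Fin 1) * w.val.valᴴ - hyp A (Fin 1)) := by
    unfold psiC
    rw [fromBlocks_conjTranspose, Matrix.fromBlocks_multiply, Matrix.fromBlocks_multiply,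
      sub_eq_add_neg, fromBlocks_neg, fromBlocks_add]
    simp [sub_eq_add_neg]
  rw [h3]; exact h2

theorem cC_last (f : Fin (n + 1) ≃ Fin n ⊕ Fin 1) (w : UG Λ 1) :
    cC Λ f (lastU A n w.val) = L1.mk w := by
  obtain ⟨Y, hY, hY'⟩ := place_one w n (f.symm (Sum.inr 0))
  rw [cC_eq (lastU_mem w), ← hY']
  congr 1
  apply Subtype.ext
  apply Units.ext
  rw [hY]
  exact tau_last f w.val.val

/-! ### the matrices of rank one -/

/-- The lower triangular matrix. -/
def lowU (D : Matrix (Fin 1) (Fin 1) A) : (Matrix (Fin 1 ⊕ Fin 1) (Fin 1 ⊕ Fin 1) A)ˣ where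
  val := fromBlocks 1 0 D 1
  inv := fromBlocks 1 0 (-D) 1
  val_inv := by rw [Matrix.fromBlocks_multiply, ← Matrix.fromBlocks_one]; simp
  inv_val := by rw [Matrix.fromBlocks_multiply, ← Matrix.fromBlocks_one]; simp

/-- The upper triangular matrix. -/
def uppU (D : Matrix (Fin 1) (Fin 1) A) : (Matrix (Fin 1 ⊕ Fin 1) (Fin 1 ⊕ Fin 1) A)ˣ where
  val := fromBlocks 1 D 0 1
  inv := fromBlocks 1 (-D) 0 1
  val_inv := by rw [Matrix.fromBlocks_multiply, ← Matrix.fromBlocks_one]; simp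
  inv_val := by rw [Matrix.fromBlocks_multiply, ← Matrix.fromBlocks_one]; simp

theorem lastU_low (D : Matrix (Fin 1) (Fin 1) A) : lastU A n (lowU D) = TU A n D := Units.ext rfl

theorem lastU_upp (θ : Matrix (Fin 1) (Fin 1) A) : lastU A n (uppU θ) = EiU e 0 θ := by
  apply Units.ext
  change fromBlocks 1 0 0 (fromBlocks 1 θ 0 1) = Ei e 0 θ
  unfold Ei
  rw [conjTranspose_zero, Matrix.mul_zero, smul_zero, neg_zero, fromCols_zero, fromRows_zero]

end Pool.Agent.H750.P
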