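import Mathlib

set_option autoImplicit false

/-! # Quadratic forms over rings with involution and form parameters -/

namespace Pool.Agent.H750.P

open Matrix

/-- A form parameter of the ring with involution `A` and the sign `e`. -/
structure FormParam (A : Type*) [Ring A] [StarRing A] (e : ℤˣ) where
  /-- the additive group of the form parameter -/
  carrier : AddSubgroup A
  min_mem : ∀ a : A, a - (e : ℤ) • star a ∈ carrier
  skew : ∀ a ∈ carrier, star a = -((e : ℤ) • a)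
  conj : ∀ a ∈ carrier, ∀ x : A, x * a * star x ∈ carrier

variable {A : Type*} [Ring A] [StarRing A] {e : ℤˣ} {ι κ μ ν : Type*}

/-- The matrices which represent the zero form: skew-hermitian up to the sign `e`, with diagonal
entries in the form parameter. -/
def Triv (Λ : FormParam A e) (θ : Matrix ι ι A) : Prop :=
  θᴴ = -((e : ℤ) • θ) ∧ ∀ i, θ i i ∈ Λ.carrier

/-- Isometry of the quadratic forms with the matrices `ψ` and `φ`. -/
def Isom [Fintype ι] [Fintype κ] [DecidableEq ι] [DecidableEq κ] (Λ : FormParam A e)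
    (ψ : Matrix ι ι A) (φ : Matrix κ κ A) : Prop :=
  ∃ (P : Matrix κ ι A) (Q : Matrix ι κ A), P * Q = 1 ∧ Q * P = 1 ∧ Triv Λ (P * ψ * Pᴴ - φ)

/-- The orthogonal sum. -/
def osum (ψ : Matrix ι ι A) (φ : Matrix κ κ A) : Matrix (ι ⊕ κ) (ι ⊕ κ) A := fromBlocks ψ 0 0 φ

/-- The hyperbolic form. -/
def hyp (A : Type*) [Ring A] (ι : Type*) [DecidableEq ι] : Matrix (ι ⊕ ι) (ι ⊕ ι) A :=
  fromBlocks 0 1 0 0

/-- A form is nonsingular if its hermitian form `ψ + e ψ*` is invertible. -/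
def Nonsing [Fintype ι] [DecidableEq ι] (e : ℤˣ) (ψ : Matrix ι ι A) : Prop :=
  IsUnit (ψ + (e : ℤ) • ψᴴ)

section triv

variable {Λ : FormParam A e}

theorem ee_smul {M : Type*} [AddCommGroup M] (e : ℤˣ) (x : M) : (e : ℤ) • ((e : ℤ) • x) = x := by
  rcases Int.units_eq_one_or e with rfl | rfl <;> simp

theorem triv_zero : Triv Λ (0 : Matrix ι ι A) := by
  exact ⟨by simp, fun i => Λ.carrier.zero_mem⟩

theorem Triv.add {θ θ' : Matrix ι ι A} (h : Triv Λ θ) (h' : Triv Λ θ') : Triv Λ (θ + θ') := by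
  refine ⟨?_, fun i => Λ.carrier.add_mem (h.2 i) (h'.2 i)⟩
  rw [conjTranspose_add, h.1, h'.1, smul_add]; abel

theorem Triv.neg {θ : Matrix ι ι A} (h : Triv Λ θ) : Triv Λ (-θ) := by
  refine ⟨?_, fun i => Λ.carrier.neg_mem (h.2 i)⟩
  rw [conjTranspose_neg, h.1, smul_neg]

theorem Triv.sub {θ θ' : Matrix ι ι A} (h : Triv Λ θ) (h' : Triv Λ θ') : Triv Λ (θ - θ') := by
  rw [sub_eq_add_neg]; exact h.add h'.neg

theorem Triv.submatrix {θ : Matrix ι ι A} (h : Triv Λ θ) (f : κ → ι) :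
    Triv Λ (θ.submatrix f f) := by
  refine ⟨?_, fun i => h.2 (f i)⟩
  rw [conjTranspose_submatrix, h.1]; rfl

theorem Triv.fromBlocks {θ : Matrix ι ι A} {θ' : Matrix κ κ A} (h : Triv Λ θ) (h' : Triv Λ θ') :
    Triv Λ (fromBlocks θ 0 0 θ') := by
  refine ⟨?_, ?_⟩
  · rw [fromBlocks_conjTranspose, h.1, h'.1, fromBlocks_smul, fromBlocks_neg]; simp
  · rintro (i | i)
    · exact h.2 i
    · exact h'.2 i

theorem triv_min (Λ : FormParam A e) (α : Matrix ι ι A) : Triv Λ (α - (e : ℤ) • αᴴ) := by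
  refine ⟨?_, fun i => Λ.min_mem (α i i)⟩
  rw [conjTranspose_sub, conjTranspose_zsmul, conjTranspose_conjTranspose, smul_sub, ee_smul]
  abel

open Classical in
theorem triv_decomp [DecidableEq ι] {θ : Matrix ι ι A} (h : Triv Λ θ) :
    ∃ α : Matrix ι ι A, θ = α - (e : ℤ) • αᴴ + diagonal (fun i => θ i i) := by
  refine ⟨Matrix.of fun i j => if WellOrderingRel i j then θ i j else 0, ?_⟩
  have hs : ∀ i j, (e : ℤ) • star (θ i j) = -θ j i := by
    intro i j
    have h1 := congrFun (congrFun h.1 j) i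
    rw [conjTranspose_apply] at h1
    rw [h1]
    change (e : ℤ) • (-((e : ℤ) • θ j i)) = _
    rw [smul_neg, ee_smul]
  ext1 i j
  rw [Matrix.add_apply, Matrix.sub_apply, Matrix.smul_apply, conjTranspose_apply, Matrix.of_apply,
    Matrix.of_apply]
  rcases trichotomous_of WellOrderingRel i j with h | h | h
  · have h1 : i ≠ j := by
      rintro rfl
      exact irrefl_of WellOrderingRel _ h
    rw [if_pos h, if_neg (asymm_of WellOrderingRel h)]
    simp [Matrix.diagonal, h1]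
  · subst h
    rw [if_neg (irrefl_of WellOrderingRel i)]
    simp [Matrix.diagonal]
  · have h1 : i ≠ j := by
      rintro rfl
      exact irrefl_of WellOrderingRel _ h
    rw [if_pos h, if_neg (asymm_of WellOrderingRel h), hs]
    simp [Matrix.diagonal, h1]

variable [Fintype ι] [Fintype κ] [DecidableEq ι] [DecidableEq κ]

theorem triv_diagonal {d : ι → A} (hd : ∀ i, d i ∈ Λ.carrier) : Triv Λ (diagonal d) := by
  refine ⟨?_, fun i => by rw [diagonal_apply_eq]; exact hd i⟩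
  have h1 : -((e : ℤ) • diagonal d) = diagonal (fun i => -((e : ℤ) • d i)) := by
    rw [← diagonal_smul, diagonal_neg]; rfl
  rw [diagonal_conjTranspose, h1]
  congr 1
  funext i
  exact Λ.skew _ (hd i)

theorem Triv.conj {θ : Matrix ι ι A} (h : Triv Λ θ) (P : Matrix κ ι A) :
    Triv Λ (P * θ * Pᴴ) := by
  obtain ⟨α, hα⟩ := triv_decomp h
  refine ⟨?_, ?_⟩
  · rw [conjTranspose_mul, conjTranspose_mul, conjTranspose_conjTranspose, h.1, Matrix.neg_mul,
      Matrix.mul_neg, Matrix.smul_mul, Matrix.mul_smul, Matrix.mul_assoc]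
  · intro i
    have hD : ∀ i, (P * diagonal (fun i => θ i i) * Pᴴ) i i ∈ Λ.carrier := by
      intro i
      rw [Matrix.mul_apply]
      refine AddSubgroup.sum_mem _ fun j _ => ?_
      rw [Matrix.mul_diagonal, conjTranspose_apply]
      exact Λ.conj _ (h.2 j) _
    have hE : P * θ * Pᴴ = (P * α * Pᴴ - (e : ℤ) • (P * α * Pᴴ)ᴴ) +
        P * diagonal (fun i => θ i i) * Pᴴ := by
      conv_lhs => rw [hα]
      rw [Matrix.mul_add, Matrix.add_mul, Matrix.mul_sub, Matrix.sub_mul, Matrix.mul_smul,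
        Matrix.smul_mul, conjTranspose_mul, conjTranspose_mul, conjTranspose_conjTranspose,
        Matrix.mul_assoc P αᴴ]
    rw [hE]
    exact Λ.carrier.add_mem ((triv_min Λ (P * α * Pᴴ)).2 i) (hD i)

end triv

section iso

variable [Fintype ι] [Fintype κ] [Fintype μ] [Fintype ν] [DecidableEq ι] [DecidableEq κ]
  [DecidableEq μ] [DecidableEq ν] {Λ : FormParam A e}

theorem isom_of_triv {ψ φ : Matrix ι ι A} (h : Triv Λ (ψ - φ)) : Isom Λ ψ φ :=
  ⟨1, 1, by simp, by simp, by simpa using h⟩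

theorem Isom.refl (ψ : Matrix ι ι A) : Isom Λ ψ ψ := isom_of_triv (by rw [sub_self]; exact triv_zero)

theorem Isom.symm {ψ : Matrix ι ι A} {φ : Matrix κ κ A} (h : Isom Λ ψ φ) : Isom Λ φ ψ := by
  obtain ⟨P, Q, h1, h2, h3⟩ := h
  refine ⟨Q, P, h2, h1, ?_⟩
  have h4 : Pᴴ * Qᴴ = 1 := by rw [← conjTranspose_mul, h2, conjTranspose_one]
  have h5 : Q * (P * ψ * Pᴴ) * Qᴴ = ψ := by
    calc Q * (P * ψ * Pᴴ) * Qᴴ = (Q * P) * ψ * (Pᴴ * Qᴴ) := by
          simp only [Matrix.mul_assoc]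
      _ = ψ := by rw [h2, h4, Matrix.one_mul, Matrix.mul_one]
  have h6 := (h3.conj Q).neg
  rw [Matrix.mul_sub, Matrix.sub_mul, h5, neg_sub] at h6
  exact h6

theorem Isom.trans {ψ : Matrix ι ι A} {φ : Matrix κ κ A} {χ : Matrix μ μ A}
    (h : Isom Λ ψ φ) (h' : Isom Λ φ χ) : Isom Λ ψ χ := by
  obtain ⟨P, Q, h1, h2, h3⟩ := h
  obtain ⟨P', Q', h1', h2', h3'⟩ := h'
  refine ⟨P' * P, Q * Q', ?_, ?_, ?_⟩
  · calc P' * P * (Q * Q') = P' * (P * Q) * Q' := by simp only [Matrix.mul_assoc]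
      _ = 1 := by rw [h1, Matrix.mul_one, h1']
  · calc Q * Q' * (P' * P) = Q * (Q' * P') * P := by simp only [Matrix.mul_assoc]
      _ = 1 := by rw [h2', Matrix.mul_one, h2]
  · have h4 := (h3.conj P').add h3'
    have h5 : P' * P * ψ * (P' * P)ᴴ - χ =
        P' * (P * ψ * Pᴴ - φ) * P'ᴴ + (P' * φ * P'ᴴ - χ) := by
      rw [conjTranspose_mul, Matrix.mul_sub, Matrix.sub_mul]
      simp only [Matrix.mul_assoc]
      abel
    rw [h5]; exact h4

theorem Isom.osum {ψ : Matrix ι ι A} {φ : Matrix κ κ A} {ψ' : Matrix μ μ A} {φ' : Matrix ν ν A}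
    (h : Isom Λ ψ ψ') (h' : Isom Λ φ φ') : Isom Λ (osum ψ φ) (osum ψ' φ') := by
  obtain ⟨P, Q, h1, h2, h3⟩ := h
  obtain ⟨P', Q', h1', h2', h3'⟩ := h'
  refine ⟨Matrix.fromBlocks P 0 0 P', Matrix.fromBlocks Q 0 0 Q', ?_, ?_, ?_⟩
  · rw [Matrix.fromBlocks_multiply]; simp [h1, h1']
  · rw [Matrix.fromBlocks_multiply]; simp [h2, h2']
  · have h4 := h3.fromBlocks h3'
    unfold Pool.Agent.H750.P.osum
    rw [fromBlocks_conjTranspose, Matrix.fromBlocks_multiply, Matrix.fromBlocks_multiply,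
      sub_eq_add_neg, fromBlocks_neg, fromBlocks_add]
    simpa [sub_eq_add_neg] using h4

theorem Isom.submatrix (ψ : Matrix ι ι A) (f : κ ≃ ι) : Isom Λ ψ (ψ.submatrix f f) := by
  refine ⟨(1 : Matrix ι ι A).submatrix f id, (1 : Matrix ι ι A).submatrix id f, ?_, ?_, ?_⟩
  · rw [← Matrix.submatrix_mul _ _ _ _ _ Function.bijective_id, Matrix.one_mul]
    exact Matrix.submatrix_one_equiv f
  · rw [Matrix.submatrix_mul_equiv, Matrix.one_mul, Matrix.submatrix_id_id]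
  · rw [conjTranspose_submatrix, conjTranspose_one]
    have h4 : ψ = ψ.submatrix id id := rfl
    have h5 : (1 : Matrix ι ι A).submatrix f id * ψ * (1 : Matrix ι ι A).submatrix id f =
        ψ.submatrix f f := by
      conv_lhs => rw [h4]
      rw [← Matrix.submatrix_mul _ _ _ _ _ Function.bijective_id,
        ← Matrix.submatrix_mul _ _ _ _ _ Function.bijective_id, Matrix.one_mul, Matrix.mul_one]
    rw [h5, sub_self]; exact triv_zero

theorem iso_comm (ψ : Matrix ι ι A) (φ : Matrix κ κ A) : Isom Λ (osum ψ φ) (osum φ ψ) := by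
  have h := Isom.submatrix (Λ := Λ) (osum ψ φ) (Equiv.sumComm κ ι)
  convert h using 1
  ext1 x y
  rcases x with x | x <;> rcases y with y | y <;> rfl

theorem iso_assoc (ψ : Matrix ι ι A) (φ : Matrix κ κ A) (χ : Matrix μ μ A) :
    Isom Λ (osum (osum ψ φ) χ) (osum ψ (osum φ χ)) := by
  have h := Isom.submatrix (Λ := Λ) (osum (osum ψ φ) χ) (Equiv.sumAssoc ι κ μ).symm
  convert h using 1
  ext1 x y
  rcases x with x | x | x <;> rcases y with y | y | y <;> rfl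

/-- The reindexing for a sum of forms with two blocks. -/
def swapEquiv (ι κ : Type*) : (ι ⊕ κ) ⊕ (ι ⊕ κ) ≃ (ι ⊕ ι) ⊕ (κ ⊕ κ) where
  toFun := Sum.elim (Sum.elim (fun i => Sum.inl (Sum.inl i)) (fun k => Sum.inr (Sum.inl k)))
    (Sum.elim (fun i => Sum.inl (Sum.inr i)) (fun k => Sum.inr (Sum.inr k)))
  invFun := Sum.elim (Sum.elim (fun i => Sum.inl (Sum.inl i)) (fun i => Sum.inr (Sum.inl i)))
    (Sum.elim (fun k => Sum.inl (Sum.inr k)) (fun k => Sum.inr (Sum.inr k)))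
  left_inv x := by rcases x with (x | x) | (x | x) <;> rfl
  right_inv x := by rcases x with (x | x) | (x | x) <;> rfl

theorem iso_hyp : Isom Λ (osum (hyp A ι) (hyp A κ)) (hyp A (ι ⊕ κ)) := by
  have h := Isom.submatrix (Λ := Λ) (osum (hyp A ι) (hyp A κ)) (swapEquiv ι κ)
  convert h using 1
  unfold hyp osum
  ext1 x y
  rcases x with (x | x) | (x | x) <;> rcases y with (y | y) | (y | y) <;>
    simp [swapEquiv, Matrix.one_apply]

theorem iso_hyp_equiv (f : ι ≃ κ) : Isom Λ (hyp A ι) (hyp A κ) := by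
  have h := Isom.submatrix (Λ := Λ) (hyp A ι) (Equiv.sumCongr f.symm f.symm)
  convert h using 1
  unfold hyp
  ext1 x y
  rcases x with x | x <;> rcases y with y | y <;> simp [Matrix.one_apply]

/-! ### nonsingular forms -/

theorem triv_herm {θ : Matrix ι ι A} (h : Triv Λ θ) : θ + (e : ℤ) • θᴴ = 0 := by
  rw [h.1, smul_neg, ee_smul, add_neg_cancel]

theorem nonsing_congr {ψ : Matrix ι ι A} {φ : Matrix κ κ A} (h : Isom Λ ψ φ) (hψ : Nonsing e ψ) :
    Nonsing e φ := by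
  obtain ⟨P, Q, h1, h2, h3⟩ := h
  obtain ⟨U, hU⟩ := hψ
  have h4 : φ + (e : ℤ) • φᴴ = P * (ψ + (e : ℤ) • ψᴴ) * Pᴴ := by
    have h5 := triv_herm h3
    have h6 : P * (ψ + (e : ℤ) • ψᴴ) * Pᴴ - (φ + (e : ℤ) • φᴴ) = 0 := by
      rw [← h5, conjTranspose_sub, conjTranspose_mul, conjTranspose_mul,
        conjTranspose_conjTranspose, Matrix.mul_add, Matrix.add_mul, Matrix.mul_smul,
        Matrix.smul_mul, smul_sub]
      simp only [Matrix.mul_assoc]
      abel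
    exact (sub_eq_zero.mp h6).symm
  unfold Nonsing
  rw [h4, ← hU]
  have h4 : Qᴴ * Pᴴ = 1 := by rw [← conjTranspose_mul, h1, conjTranspose_one]
  have h5 : Pᴴ * Qᴴ = 1 := by rw [← conjTranspose_mul, h2, conjTranspose_one]
  refine ⟨⟨P * U.val * Pᴴ, Qᴴ * (U⁻¹).val * Q, ?_, ?_⟩, rfl⟩
  · calc P * U.val * Pᴴ * (Qᴴ * (U⁻¹).val * Q) =
        P * (U.val * ((Pᴴ * Qᴴ) * (U⁻¹).val)) * Q := by simp only [Matrix.mul_assoc]
      _ = 1 := by rw [h5, Matrix.one_mul, U.mul_inv, Matrix.mul_one, h1]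
  · calc Qᴴ * (U⁻¹).val * Q * (P * U.val * Pᴴ) =
        Qᴴ * ((U⁻¹).val * ((Q * P) * U.val)) * Pᴴ := by simp only [Matrix.mul_assoc]
      _ = 1 := by rw [h2, Matrix.one_mul, U.inv_mul, Matrix.mul_one, h4]

theorem nonsing_osum {ψ : Matrix ι ι A} {φ : Matrix κ κ A} (h : Nonsing e ψ) (h' : Nonsing e φ) :
    Nonsing e (osum ψ φ) := by
  obtain ⟨U, hU⟩ := h
  obtain ⟨V, hV⟩ := h'
  have h1 : osum ψ φ + (e : ℤ) • (osum ψ φ)ᴴ = Matrix.fromBlocks U.val 0 0 V.val := by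
    unfold osum
    rw [fromBlocks_conjTranspose, fromBlocks_smul, fromBlocks_add, hU, hV]; simp
  unfold Nonsing
  rw [h1]
  refine ⟨⟨Matrix.fromBlocks U.val 0 0 V.val, Matrix.fromBlocks (U⁻¹).val 0 0 (V⁻¹).val,
    ?_, ?_⟩, rfl⟩
  · rw [Matrix.fromBlocks_multiply]; simp
  · rw [Matrix.fromBlocks_multiply]; simp

theorem nonsing_neg {ψ : Matrix ι ι A} (h : Nonsing e ψ) : Nonsing e (-ψ) := by
  unfold Nonsing at *
  rw [conjTranspose_neg, smul_neg, ← neg_add]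
  exact h.neg

theorem nonsing_hyp : Nonsing e (hyp A ι) := by
  have h1 : hyp A ι + (e : ℤ) • (hyp A ι)ᴴ = Matrix.fromBlocks 0 1 ((e : ℤ) • 1) 0 := by
    unfold hyp
    rw [fromBlocks_conjTranspose, fromBlocks_smul, fromBlocks_add]; simp
  have h2 : ((e : ℤ) • (1 : Matrix ι ι A)) * ((e : ℤ) • (1 : Matrix ι ι A)) = 1 := by
    rw [Matrix.smul_mul, Matrix.mul_smul, Matrix.one_mul, ee_smul]
  unfold Nonsing
  rw [h1]
  refine ⟨⟨Matrix.fromBlocks 0 1 ((e : ℤ) • 1) 0, Matrix.fromBlocks 0 ((e : ℤ) • 1) 1 0,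
    ?_, ?_⟩, rfl⟩
  · rw [Matrix.fromBlocks_multiply, h2, ← Matrix.fromBlocks_one]; simp
  · rw [Matrix.fromBlocks_multiply, h2, ← Matrix.fromBlocks_one]; simp

theorem nonsing_zero (Z : Matrix (Fin 0) (Fin 0) A) : Nonsing e Z :=
  ⟨1, Subsingleton.elim _ _⟩

theorem iso_neg_aux (Λ : FormParam A e) (ψ D E : Matrix ι ι A) (hDE : D * E = 1)
    (hED : E * D = 1) (hone : ψ * Dᴴ + (e : ℤ) • (ψᴴ * Dᴴ) = 1)
    (hDL : D * ψ + (e : ℤ) • (D * ψᴴ) = (e : ℤ) • 1) : Isom Λ (osum (-ψ) ψ) (hyp A ι) := by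
  obtain ⟨X, hX⟩ : ∃ X : Matrix ι ι A, X = -((e : ℤ) • (D * ψᴴ * Dᴴ)) := ⟨_, rfl⟩
  have hXs : Xᴴ = -((e : ℤ) • (D * ψ * Dᴴ)) := by
    rw [hX, conjTranspose_neg, conjTranspose_zsmul, conjTranspose_mul, conjTranspose_mul,
      conjTranspose_conjTranspose, conjTranspose_conjTranspose, Matrix.mul_assoc]
  have hz : D * ψ * Xᴴ + (e : ℤ) • (D * ψᴴ * Xᴴ) + D * ψ * Dᴴ = 0 := by
    have h1 : D * ψ * Xᴴ + (e : ℤ) • (D * ψᴴ * Xᴴ) = (e : ℤ) • Xᴴ := by
      rw [← Matrix.smul_mul, ← Matrix.add_mul, hDL, Matrix.smul_mul, Matrix.one_mul]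
    rw [h1, hXs, smul_neg, ee_smul]
    abel
  refine ⟨Matrix.fromBlocks 1 1 X (X + D), Matrix.fromBlocks (1 + E * X) (-E) (-(E * X)) E,
    ?_, ?_, ?_⟩
  · rw [Matrix.fromBlocks_multiply, ← Matrix.fromBlocks_one]
    congr 1
    · rw [Matrix.one_mul, Matrix.one_mul]; abel
    · rw [Matrix.one_mul, Matrix.one_mul]; abel
    · rw [Matrix.add_mul, Matrix.mul_neg D, ← Matrix.mul_assoc D, hDE, Matrix.one_mul,
        Matrix.mul_add, Matrix.mul_neg, Matrix.mul_one]; abel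
    · rw [Matrix.add_mul, hDE, Matrix.mul_neg]; abel
  · rw [Matrix.fromBlocks_multiply, ← Matrix.fromBlocks_one]
    congr 1
    · rw [Matrix.mul_one, Matrix.neg_mul]; abel
    · rw [Matrix.mul_one, Matrix.neg_mul, Matrix.mul_add, hED]; abel
    · rw [Matrix.mul_one]; abel
    · rw [Matrix.mul_one, Matrix.mul_add, hED]; abel
  · have h1 : Matrix.fromBlocks 1 1 X (X + D) * Pool.Agent.H750.P.osum (-ψ) ψ *
        (Matrix.fromBlocks 1 1 X (X + D))ᴴ - hyp A ι =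
        Matrix.fromBlocks 0 0 (D * ψ) (X * ψ * Dᴴ) -
          (e : ℤ) • (Matrix.fromBlocks 0 0 (D * ψ) (X * ψ * Dᴴ))ᴴ := by
      unfold hyp Pool.Agent.H750.P.osum
      rw [fromBlocks_conjTranspose, fromBlocks_conjTranspose, Matrix.fromBlocks_multiply,
        Matrix.fromBlocks_multiply, fromBlocks_smul, sub_eq_add_neg, sub_eq_add_neg,
        fromBlocks_neg, fromBlocks_neg, fromBlocks_add, fromBlocks_add]
      congr 1
      · simp
      · have h3 : ψ * Dᴴ = 1 - (e : ℤ) • (ψᴴ * Dᴴ) := eq_sub_of_add_eq hone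
        simp only [conjTranspose_add, conjTranspose_mul, Matrix.one_mul, Matrix.mul_zero,
          add_zero, zero_add, Matrix.mul_add, Matrix.neg_mul]
        rw [h3]
        abel
      · simp only [conjTranspose_one, Matrix.mul_one, Matrix.mul_zero,
          add_zero, zero_add, Matrix.add_mul, Matrix.mul_neg, conjTranspose_zero, smul_zero,
          neg_zero]
        abel
      · simp only [Matrix.mul_zero,
          add_zero, zero_add, Matrix.add_mul, Matrix.mul_neg, conjTranspose_add, conjTranspose_mul,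
          conjTranspose_conjTranspose, Matrix.mul_add, Matrix.neg_mul, neg_zero]
        have h2 : D * ψ * Xᴴ + D * ψ * Dᴴ = -((e : ℤ) • (D * (ψᴴ * Xᴴ))) := by
          rw [← Matrix.mul_assoc]
          rw [eq_neg_iff_add_eq_zero, ← hz]
          abel
        rw [← h2]
        abel
    rw [h1]
    exact triv_min Λ _

/-- The sum of a form and its negative is hyperbolic. -/
theorem iso_neg (Λ : FormParam A e) {ψ : Matrix ι ι A} (h : Nonsing e ψ) :
    Isom Λ (osum (-ψ) ψ) (hyp A ι) := by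
  obtain ⟨U, hU⟩ := h
  have hVL : (U⁻¹).val * (ψ + (e : ℤ) • ψᴴ) = 1 := by rw [← hU]; exact U.inv_mul
  have hLV : (ψ + (e : ℤ) • ψᴴ) * (U⁻¹).val = 1 := by rw [← hU]; exact U.mul_inv
  generalize (U⁻¹).val = V at hVL hLV
  have hLs : (ψ + (e : ℤ) • ψᴴ)ᴴ = (e : ℤ) • (ψ + (e : ℤ) • ψᴴ) := by
    rw [conjTranspose_add, conjTranspose_zsmul, conjTranspose_conjTranspose, smul_add, ee_smul]
    abel
  have hVs : Vᴴ = (e : ℤ) • V := by
    have h1 : Vᴴ * (ψ + (e : ℤ) • ψᴴ) = (e : ℤ) • 1 := by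
      have h2 : ((ψ + (e : ℤ) • ψᴴ) * V)ᴴ = 1 := by rw [hLV, conjTranspose_one]
      rw [conjTranspose_mul, hLs, Matrix.mul_smul] at h2
      rw [← h2, ee_smul]
    calc Vᴴ = Vᴴ * ((ψ + (e : ℤ) • ψᴴ) * V) := by rw [hLV, Matrix.mul_one]
      _ = (Vᴴ * (ψ + (e : ℤ) • ψᴴ)) * V := by rw [Matrix.mul_assoc]
      _ = (e : ℤ) • V := by rw [h1, Matrix.smul_mul, Matrix.one_mul]
  have hDs : ((e : ℤ) • V)ᴴ = V := by rw [conjTranspose_zsmul, hVs, ee_smul]
  refine iso_neg_aux Λ ψ ((e : ℤ) • V) ((e : ℤ) • (ψ + (e : ℤ) • ψᴴ)) ?_ ?_ ?_ ?_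
  · rw [Matrix.smul_mul, Matrix.mul_smul, hVL, ee_smul]
  · rw [Matrix.smul_mul, Matrix.mul_smul, hLV, ee_smul]
  · rw [hDs, ← Matrix.smul_mul, ← Matrix.add_mul, hLV]
  · rw [Matrix.smul_mul, Matrix.smul_mul, ← smul_add, ← Matrix.mul_smul, ← Matrix.mul_add, hVL]

end iso

end Pool.Agent.H750.P
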