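import Pool.Agent.H750.P.LGrp

set_option autoImplicit false

/-! # Change of the form parameter -/

namespace Pool.Agent.H750.P

open Matrix

variable {A : Type*} [Ring A] [StarRing A] {e : ℤˣ} {ι κ : Type*}

section mono

variable {Λ Λ' : FormParam A e}

theorem Triv.mono (h : Λ.carrier ≤ Λ'.carrier) {θ : Matrix ι ι A} (hθ : Triv Λ θ) : Triv Λ' θ :=
  ⟨hθ.1, fun i => h (hθ.2 i)⟩

variable [Fintype ι] [DecidableEq ι] [Fintype κ] [DecidableEq κ]

theorem Isom.mono (h : Λ.carrier ≤ Λ'.carrier) {ψ : Matrix ι ι A} {φ : Matrix κ κ A}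
    (hi : Isom Λ ψ φ) : Isom Λ' ψ φ := by
  obtain ⟨P, Q, h1, h2, h3⟩ := hi
  exact ⟨P, Q, h1, h2, h3.mono h⟩

theorem Stab.mono (h : Λ.carrier ≤ Λ'.carrier) {ψ : Matrix ι ι A} {φ : Matrix κ κ A}
    (hi : Stab Λ ψ φ) : Stab Λ' ψ φ := by
  obtain ⟨a, b, h1⟩ := hi
  exact ⟨a, b, h1.mono h⟩

end mono

/-- The homomorphism of L-groups which enlarges the form parameter. -/
def forget {Λ Λ' : FormParam A e} (h : Λ.carrier ≤ Λ'.carrier) : LG Λ →+ LG Λ' :=
  AddMonoidHom.mk' (Quotient.map (fun X => X) (fun _ _ h' => Stab.mono h h')) (by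
    intro x y
    obtain ⟨X, rfl⟩ := x.ind
    obtain ⟨Y, rfl⟩ := y.ind
    rfl)

theorem forget_mk {Λ Λ' : FormParam A e} (h : Λ.carrier ≤ Λ'.carrier) (X : QForm A e) :
    forget h (LG.mk Λ X) = LG.mk Λ' X := rfl

theorem forget_surjective {Λ Λ' : FormParam A e} (h : Λ.carrier ≤ Λ'.carrier) :
    Function.Surjective (forget h) := by
  intro y
  obtain ⟨Y, rfl⟩ := y.ind
  exact ⟨LG.mk Λ Y, rfl⟩

theorem form_congr {B : Type*} [Ring B] [StarRing B] {Λ₁ Λ₂ : FormParam A e}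
    {Ω₁ Ω₂ : FormParam B e} (F : QHom Λ₁ Ω₁) (F' : QHom Λ₂ Ω₂) (h : F.hom = F'.hom)
    (X : QForm A e) : F.form X = F'.form X := by
  unfold QHom.form
  congr 1
  rw [h]

variable {R : Type*} [Ring R] [StarRing R]

/-- Forms which become isometric for the larger form parameter. -/
theorem lift_isom {Λ Λ' : FormParam A e} {Ω' : FormParam R e} (i : R →+* A)
    (hi : ∀ a ∈ Λ'.carrier, ∃ r ∈ Ω'.carrier, a - i r ∈ Λ.carrier)
    [Fintype ι] [DecidableEq ι] [Fintype κ] [DecidableEq κ] {ψ : Matrix ι ι A} {φ : Matrix κ κ A}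
    (h : Isom Λ' ψ φ) : ∃ r : κ → R, (∀ k, r k ∈ Ω'.carrier) ∧
      Isom Λ ψ (φ + diagonal fun k => i (r k)) := by
  obtain ⟨P, Q, h1, h2, h3⟩ := h
  obtain ⟨α, hα⟩ := triv_decomp h3
  choose r hr hr' using fun k => hi _ (h3.2 k)
  refine ⟨r, hr, P, Q, h1, h2, ?_⟩
  have h4 : P * ψ * Pᴴ - (φ + diagonal fun k => i (r k)) =
      (α - (e : ℤ) • αᴴ) + diagonal (fun k => (P * ψ * Pᴴ - φ) k k - i (r k)) := by
    have h5 : diagonal (fun k => (P * ψ * Pᴴ - φ) k k - i (r k)) =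
        diagonal (fun k => (P * ψ * Pᴴ - φ) k k) - diagonal (fun k => i (r k)) := by
      rw [diagonal_sub]
    rw [h5, ← sub_sub]
    conv_lhs => rw [hα]
    abel
  rw [h4]
  exact (triv_min Λ α).add (triv_diagonal hr')

theorem triv_diag_herm [DecidableEq ι] {Ω : FormParam R e} {r : ι → R}
    (hr : ∀ k, r k ∈ Ω.carrier) : diagonal r + (e : ℤ) • (diagonal r)ᴴ = 0 := by
  have h1 : (diagonal r)ᴴ = -((e : ℤ) • diagonal r) := by
    have h2 : -((e : ℤ) • diagonal r) = diagonal (fun i => -((e : ℤ) • r i)) := by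
      rw [← diagonal_smul, diagonal_neg]; rfl
    rw [diagonal_conjTranspose, h2]
    congr 1
    funext i
    exact Ω.skew _ (hr i)
  rw [h1, smul_neg, ee_smul, add_neg_cancel]

/-- The square of L-groups for an enlargement of the form parameter by elements of a retract. -/
theorem square {Λ Λ' : FormParam A e} {Ω Ω' : FormParam R e} (hΛ : Λ.carrier ≤ Λ'.carrier)
    (hΩ : Ω.carrier ≤ Ω'.carrier) (i : QHom Ω Λ) (i' : QHom Ω' Λ') (p : QHom Λ Ω)
    (p' : QHom Λ' Ω') (hi : i.hom = i'.hom) (hp : p.hom = p'.hom)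
    (hpi : ∀ r, p.hom (i.hom r) = r)
    (hd : ∀ a ∈ Λ'.carrier, ∃ r ∈ Ω'.carrier, a - i.hom r ∈ Λ.carrier)
    (y : LG Λ') (z : LG Ω) (hyz : p'.L y = forget hΩ z) :
    ∃! x : LG Λ, forget hΛ x = y ∧ p.L x = z := by
  have hsec : ∀ z : LG Ω, p.L (i.L z) = z := by
    intro z
    obtain ⟨Z, rfl⟩ := z.ind
    rw [QHom.L_mk, QHom.L_mk]
    congr 1
    unfold QHom.form
    obtain ⟨n, M, hM⟩ := Z
    simp only
    congr 1
    ext1 a b
    exact hpi _
  have hfi : ∀ z : LG Ω, forget hΛ (i.L z) = i'.L (forget hΩ z) := by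
    intro z
    obtain ⟨Z, rfl⟩ := z.ind
    rw [QHom.L_mk, forget_mk, forget_mk, QHom.L_mk, form_congr i i' hi]
  have hfp : ∀ x : LG Λ, forget hΩ (p.L x) = p'.L (forget hΛ x) := by
    intro x
    obtain ⟨X, rfl⟩ := x.ind
    rw [QHom.L_mk, forget_mk, forget_mk, QHom.L_mk, form_congr p p' hp]
  have hker : ∀ x : LG Λ, forget hΛ x = 0 → p.L x = 0 → x = 0 := by
    intro x hx hx'
    obtain ⟨X, rfl⟩ := x.ind
    rw [forget_mk, LG.mk_eq_zero] at hx
    obtain ⟨a, b, hx⟩ := hx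
    obtain ⟨r, hr, hr'⟩ := lift_isom i.hom hd hx
    have hns : Nonsing e (hyp R (Fin b) + diagonal r) := by
      have h1 := nonsing_hyp (A := R) (e := e) (ι := Fin b)
      unfold Nonsing at h1 ⊢
      have h2 : hyp R (Fin b) + diagonal r + (e : ℤ) • (hyp R (Fin b) + diagonal r)ᴴ =
          hyp R (Fin b) + (e : ℤ) • (hyp R (Fin b))ᴴ := by
        have h3 := triv_diag_herm hr
        rw [conjTranspose_add, smul_add]
        calc _ = (hyp R (Fin b) + (e : ℤ) • (hyp R (Fin b))ᴴ) +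
            (diagonal r + (e : ℤ) • (diagonal r)ᴴ) := by abel
          _ = _ := by rw [h3, add_zero]
      rw [h2]; exact h1
    have hns' : Nonsing e ((hyp R (Fin b) + diagonal r).submatrix
        finSumFinEquiv.symm finSumFinEquiv.symm) :=
      nonsing_congr (Isom.submatrix (Λ := Ω) _ _) hns
    have key : LG.mk Λ X = i.L (LG.mk Ω ⟨b + b, _, hns'⟩) := by
      rw [QHom.L_mk, LG.mk_eq]
      have h1 : Stab Λ X.mat (osum X.mat (hyp A (Fin a))) := by
        refine ⟨a + 0, 0, ?_⟩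
        exact ((Isom.refl _).osum (iso_hyp_fin a 0).symm).trans (iso_assoc _ _ _).symm
      refine h1.trans (hr'.stab.trans ?_)
      have h2 : hyp A (Fin b) + diagonal (fun k => i.hom (r k)) =
          (hyp R (Fin b) + diagonal r).map i.hom := by
        rw [Matrix.map_add _ (fun a b => map_add i.hom a b), map_hyp,
          diagonal_map (map_zero i.hom)]
      rw [h2]
      exact (Isom.submatrix _ _).stab
    rw [key] at hx' ⊢
    rw [hsec] at hx'
    rw [hx', map_zero]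
  obtain ⟨x₀, rfl⟩ := forget_surjective hΛ y
  refine ⟨x₀ - i.L (p.L x₀ - z), ⟨?_, ?_⟩, ?_⟩
  · rw [map_sub, hfi, map_sub, hfp, hyz, sub_self, map_zero, sub_zero]
  · rw [map_sub, hsec]; abel
  · rintro x ⟨h1, h2⟩
    rw [← sub_eq_zero]
    refine hker _ ?_ ?_
    · rw [map_sub, map_sub, hfi, map_sub, hfp, hyz, sub_self, map_zero, sub_zero, h1, sub_self]
    · rw [map_sub, map_sub, hsec, h2]; abel

end Pool.Agent.H750.P
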