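import Mathlib

set_option autoImplicit false

/-! # Determinants modulo eight -/

namespace Pool.Agent.H750.P

open Matrix

section det

variable {ι : Type*} [Fintype ι] [DecidableEq ι]

theorem z8 (w : ZMod 8) : 4 * w * (1 + w) = 0 := by
  revert w
  decide

/-- The first factor. -/
def uM (i j : ι) : Matrix ι (Fin 2) (ZMod 8) :=
  Matrix.of fun a c => if c = 0 then (if a = i then 1 else 0) else (if a = j then 1 else 0)

/-- The second factor. -/
def vM (i j : ι) (x : ZMod 8) (Z : Matrix ι ι (ZMod 8)) : Matrix (Fin 2) ι (ZMod 8) :=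
  Matrix.of fun c b => if c = 0 then 2 * (x * Z j b) else 2 * (x * Z i b)

theorem uv_eq (i j : ι) (x : ZMod 8) (Z : Matrix ι ι (ZMod 8)) :
    (2 : ZMod 8) • ((Matrix.single i j x + (Matrix.single i j x)ᵀ) * Z) =
      uM i j * vM i j x Z := by
  ext a b
  rw [Matrix.smul_apply, Matrix.add_mul, Matrix.add_apply, Matrix.mul_apply (M := uM i j),
    Fin.sum_univ_two, Matrix.transpose_single]
  have h1 : ∀ k l : ι, (Matrix.single k l x * Z) a b = if a = k then x * Z l b else 0 := by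
    intro k l
    by_cases h : a = k
    · subst h
      simp
    · rw [if_neg h]
      exact Matrix.single_mul_apply_of_ne _ _ _ _ _ h _
  rw [h1, h1]
  simp only [uM, vM, Matrix.of_apply, if_true, Fin.isValue, one_ne_zero, if_false, smul_eq_mul]
  split_ifs <;> ring

theorem vu_eq (i j : ι) (x : ZMod 8) (Z : Matrix ι ι (ZMod 8)) :
    vM i j x Z * uM i j = !![2 * (x * Z j i), 2 * (x * Z j j); 2 * (x * Z i i), 2 * (x * Z i j)] := by
  ext a b
  rw [Matrix.mul_apply]
  fin_cases a <;> fin_cases b <;> simp [uM, vM]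

theorem good_single (i j : ι) (x : ZMod 8) (Z : Matrix ι ι (ZMod 8)) (h1 : Zᵀ = Z)
    (h2 : ∀ k, 4 * Z k k = 0) :
    det (1 + (2 : ZMod 8) • ((Matrix.single i j x + (Matrix.single i j x)ᵀ) * Z)) = 1 := by
  rw [uv_eq, Matrix.det_one_add_mul_comm, vu_eq, Matrix.det_fin_two]
  have hz : Z j i = Z i j := by
    conv_lhs => rw [← h1]
    rfl
  have h3 := z8 (x * Z i j)
  have h4 := h2 i
  simp [hz]
  linear_combination h3 - x ^ 2 * Z j j * h4

/-- The determinant of `1 + 2 S Z` modulo eight for symmetric matrices with even diagonals. -/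
theorem good (L : Matrix ι ι (ZMod 8)) : ∀ Z : Matrix ι ι (ZMod 8), Zᵀ = Z →
    (∀ k, 4 * Z k k = 0) → det (1 + (2 : ZMod 8) • ((L + Lᵀ) * Z)) = 1 := by
  induction L using Matrix.induction_on' with
  | h_zero => intro Z _ _; simp
  | h_std_basis i j x => exact fun Z h1 h2 => good_single i j x Z h1 h2
  | h_add L₁ L₂ ih₁ ih₂ =>
    intro Z h1 h2
    obtain ⟨W, hW⟩ : ∃ W, W = 1 + (2 : ZMod 8) • ((L₁ + L₁ᵀ) * Z) := ⟨_, rfl⟩
    have hdW : det W = 1 := by rw [hW]; exact ih₁ Z h1 h2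
    have hu : IsUnit (det W) := by rw [hdW]; exact isUnit_one
    have hinv : W * W⁻¹ = 1 := Matrix.mul_nonsing_inv W hu
    have hinv' : W⁻¹ * W = 1 := Matrix.nonsing_inv_mul W hu
    have h3 : 1 + (2 : ZMod 8) • ((L₁ + L₂ + (L₁ + L₂)ᵀ) * Z) =
        (1 + (2 : ZMod 8) • ((L₂ + L₂ᵀ) * (Z * W⁻¹))) * W := by
      have h5 : (1 + (2 : ZMod 8) • ((L₂ + L₂ᵀ) * (Z * W⁻¹))) * W =
          W + (2 : ZMod 8) • ((L₂ + L₂ᵀ) * Z) := by
        rw [add_mul, one_mul, Matrix.smul_mul]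
        congr 2
        rw [Matrix.mul_assoc, Matrix.mul_assoc, hinv', Matrix.mul_one]
      have h4 : L₁ + L₂ + (L₁ + L₂)ᵀ = (L₁ + L₁ᵀ) + (L₂ + L₂ᵀ) := by
        rw [Matrix.transpose_add]; abel
      rw [h5, h4, Matrix.add_mul, smul_add, hW, add_assoc]
    have hV : Wᵀ * Z = Z * W := by
      have h5 : Wᵀ = 1 + (2 : ZMod 8) • (Z * (L₁ + L₁ᵀ)) := by
        rw [hW, Matrix.transpose_add, Matrix.transpose_smul, Matrix.transpose_mul, h1,
          Matrix.transpose_add, Matrix.transpose_transpose, Matrix.transpose_one, add_comm L₁ᵀ]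
      rw [h5, hW, add_mul, mul_add Z 1, one_mul, mul_one, Matrix.smul_mul, Matrix.mul_smul,
        Matrix.mul_assoc]
    have hZ1 : (Z * W⁻¹)ᵀ = Z * W⁻¹ := by
      rw [Matrix.transpose_mul, h1]
      have h5 : (W⁻¹)ᵀ * Wᵀ = 1 := by rw [← Matrix.transpose_mul, hinv, Matrix.transpose_one]
      calc (W⁻¹)ᵀ * Z = (W⁻¹)ᵀ * (Z * (W * W⁻¹)) := by rw [hinv, Matrix.mul_one]
        _ = (W⁻¹)ᵀ * (Wᵀ * Z) * W⁻¹ := by rw [hV]; simp only [Matrix.mul_assoc]
        _ = ((W⁻¹)ᵀ * Wᵀ) * Z * W⁻¹ := by simp only [Matrix.mul_assoc]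
        _ = _ := by rw [h5, Matrix.one_mul]
    have h48 : (4 : ZMod 8) * 2 = 0 := by decide
    have hZ2 : ∀ k, 4 * (Z * W⁻¹) k k = 0 := by
      intro k
      have h6 : (4 : ZMod 8) • W = 4 • (1 : Matrix ι ι (ZMod 8)) := by
        rw [hW, smul_add, smul_smul, h48, zero_smul, add_zero]
        ext1 a b
        simp [Matrix.smul_apply]
      have h7 : (4 : ZMod 8) • (Z * W⁻¹) = (4 : ZMod 8) • Z := by
        calc (4 : ZMod 8) • (Z * W⁻¹) = Z * (((4 : ZMod 8) • (1 : Matrix ι ι (ZMod 8))) * W⁻¹) := by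
              rw [Matrix.smul_mul, Matrix.one_mul, Matrix.mul_smul]
          _ = Z * (((4 : ZMod 8) • W) * W⁻¹) := by
              rw [h6]
              congr 2
              ext1 a b
              simp [Matrix.smul_apply]
          _ = _ := by rw [Matrix.smul_mul, hinv, Matrix.mul_smul, Matrix.mul_one]
      have h8 := congrFun (congrFun h7 k) k
      rw [Matrix.smul_apply, Matrix.smul_apply, smul_eq_mul, smul_eq_mul] at h8
      rw [h8]
      exact h2 k
    rw [h3, det_mul, ih₂ _ hZ1 hZ2, hdW, one_mul]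

end det

end Pool.Agent.H750.P
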