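import Pool.Agent.H750.P.Theta1

set_option autoImplicit false

/-! # A character of the theta group modulo eight -/

namespace Pool.Agent.H750.P

open Matrix

section defs

variable (K : Type*) [CommRing K] (n : ℕ)

/-- The symplectic form. -/
def JZ : Matrix (Fin n ⊕ Fin n) (Fin n ⊕ Fin n) K := fromBlocks 0 1 (-1) 0

/-- The projection. -/
def EZ : Matrix (Fin n ⊕ Fin n) (Fin n ⊕ Fin n) K := fromBlocks 0 0 0 1

/-- The hyperbolic form. -/
def PZ : Matrix (Fin n ⊕ Fin n) (Fin n ⊕ Fin n) K := fromBlocks 0 1 0 0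

variable {K n}

theorem JJ : JZ K n * JZ K n = -1 := by
  unfold JZ
  rw [Matrix.fromBlocks_multiply, ← Matrix.fromBlocks_one, Matrix.fromBlocks_neg]
  simp

theorem JT : (JZ K n)ᵀ = -JZ K n := by
  unfold JZ
  rw [Matrix.fromBlocks_transpose, Matrix.fromBlocks_neg]
  simp

theorem ET : (EZ K n)ᵀ = EZ K n := by
  unfold EZ
  rw [Matrix.fromBlocks_transpose]
  simp

theorem JE_EJ : JZ K n * EZ K n + EZ K n * JZ K n = JZ K n := by
  unfold JZ EZ
  rw [Matrix.fromBlocks_multiply, Matrix.fromBlocks_multiply, Matrix.fromBlocks_add]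
  simp

theorem E_eq : EZ K n = 1 + PZ K n * JZ K n := by
  unfold JZ EZ PZ
  rw [Matrix.fromBlocks_multiply, ← Matrix.fromBlocks_one, Matrix.fromBlocks_add]
  simp

end defs

section eight

variable {n : ℕ}

/-- Matrices modulo eight. -/
abbrev M8 (n : ℕ) := Matrix (Fin n ⊕ Fin n) (Fin n ⊕ Fin n) (ZMod 8)

theorem z8_42 : (4 : ZMod 8) * 2 = 0 := by decide

theorem z8_24 : (2 : ZMod 8) * 4 = 0 := by decide

theorem unit_two (M : M8 n) : IsUnit (det (1 + (2 : ZMod 8) • M)) := by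
  rw [← Matrix.isUnit_iff_isUnit_det]
  apply IsNilpotent.isUnit_one_add
  refine ⟨3, ?_⟩
  rw [smul_pow]
  have h : (2 : ZMod 8) ^ 3 = 0 := by decide
  rw [h, zero_smul]

theorem four_inv (M : M8 n) : (4 : ZMod 8) • (1 + (2 : ZMod 8) • M)⁻¹ = (4 : ZMod 8) • 1 := by
  have h1 := Matrix.mul_nonsing_inv _ (unit_two M)
  have h2 : (4 : ZMod 8) • ((1 + (2 : ZMod 8) • M) * (1 + (2 : ZMod 8) • M)⁻¹) =
      (4 : ZMod 8) • (1 + (2 : ZMod 8) • M)⁻¹ := by
    rw [← Matrix.smul_mul, smul_add, smul_smul, z8_42, zero_smul, add_zero, Matrix.smul_mul,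
      Matrix.one_mul]
  rw [← h2, h1]

/-- The condition on `X` for `1 + 2 X` to be symplectic with even diagonals. -/
def QX (X : M8 n) : Prop :=
  X * JZ _ n + JZ _ n * Xᵀ + (2 : ZMod 8) • (X * JZ _ n * Xᵀ) = 0 ∧
    ∃ L : M8 n, (4 : ZMod 8) • (JZ _ n * X) = (4 : ZMod 8) • (L + Lᵀ)

/-- The determinant. -/
noncomputable def DX (X : M8 n) : ZMod 8 := det (1 + (2 : ZMod 8) • (X * EZ _ n))

theorem DX_conj {X g h L₁ : M8 n} (hX : QX X) (hgh : g * h = 1) (hhg : h * g = 1)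
    (hJ : g * JZ _ n * gᵀ = JZ _ n) (hS : g * PZ _ n * gᵀ = PZ _ n + (L₁ + L₁ᵀ)) :
    DX (h * X * g) = DX X := by
  obtain ⟨hX1, L, hX2⟩ := hX
  have hJh : JZ _ n * h = gᵀ * JZ _ n := by
    have h1 : JZ (ZMod 8) n * gᵀ = h * JZ _ n := by
      calc JZ (ZMod 8) n * gᵀ = (h * g) * (JZ _ n * gᵀ) := by rw [hhg, Matrix.one_mul]
        _ = h * (g * JZ _ n * gᵀ) := by simp only [Matrix.mul_assoc]
        _ = _ := by rw [hJ]
    calc JZ _ n * h = -(JZ _ n * h * (JZ _ n * JZ _ n)) := by rw [JJ]; simp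
      _ = -(JZ _ n * (h * JZ _ n) * JZ _ n) := by simp only [Matrix.mul_assoc]
      _ = -((JZ _ n * JZ _ n) * gᵀ * JZ _ n) := by rw [← h1]; simp only [Matrix.mul_assoc]
      _ = _ := by rw [JJ]; simp
  have hE : g * EZ _ n * h = EZ _ n + (L₁ + L₁ᵀ) * JZ _ n := by
    rw [E_eq]
    calc g * (1 + PZ _ n * JZ _ n) * h = g * h + g * PZ _ n * (JZ _ n * h) := by
          rw [mul_add, add_mul, mul_one]; simp only [Matrix.mul_assoc]
      _ = 1 + (g * PZ _ n * gᵀ) * JZ _ n := by rw [hgh, hJh]; simp only [Matrix.mul_assoc]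
      _ = _ := by rw [hS, add_mul, add_assoc]
  obtain ⟨W, hW⟩ : ∃ W, W = 1 + (2 : ZMod 8) • (X * EZ _ n) := ⟨_, rfl⟩
  have hu : IsUnit (det W) := by rw [hW]; exact unit_two _
  have hinv : W * W⁻¹ = 1 := Matrix.mul_nonsing_inv W hu
  have hinv' : W⁻¹ * W = 1 := Matrix.nonsing_inv_mul W hu
  have h1 : DX (h * X * g) = det (W + (2 : ZMod 8) • (X * ((L₁ + L₁ᵀ) * JZ _ n))) := by
    unfold DX
    have h2 : 1 + (2 : ZMod 8) • (h * X * g * EZ _ n) =
        h * (1 + (2 : ZMod 8) • (X * (g * EZ _ n * h))) * g := by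
      rw [mul_add, add_mul, mul_one, hhg, Matrix.mul_smul, Matrix.smul_mul]
      congr 2
      calc h * X * g * EZ _ n = h * X * g * EZ _ n * (h * g) := by rw [hhg, mul_one]
        _ = _ := by simp only [Matrix.mul_assoc]
    rw [h2, det_mul, det_mul, mul_comm (det h), mul_assoc, ← det_mul, hhg, det_one, mul_one, hE,
      mul_add, smul_add, hW, add_assoc]
  have h3 : W + (2 : ZMod 8) • (X * ((L₁ + L₁ᵀ) * JZ _ n)) =
      W * (1 + (W⁻¹ * X) * ((2 : ZMod 8) • ((L₁ + L₁ᵀ) * JZ _ n))) := by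
    have e : W * ((W⁻¹ * X) * ((2 : ZMod 8) • ((L₁ + L₁ᵀ) * JZ _ n))) =
        (W * W⁻¹) * (X * ((2 : ZMod 8) • ((L₁ + L₁ᵀ) * JZ _ n))) := by
      simp only [Matrix.mul_assoc]
    rw [mul_add, mul_one, e, hinv, Matrix.one_mul, Matrix.mul_smul]
  have hZ : (JZ _ n * (W⁻¹ * X))ᵀ = JZ _ n * (W⁻¹ * X) := by
    have hWT : Wᵀ = 1 + (2 : ZMod 8) • (EZ _ n * Xᵀ) := by
      rw [hW, transpose_add, transpose_one, transpose_smul, transpose_mul, ET]
    have h4 : X * JZ _ n * Wᵀ = -(W * JZ _ n * Xᵀ) := by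
      rw [hWT, hW, eq_neg_iff_add_eq_zero, mul_add, mul_one, add_mul, add_mul, one_mul,
        Matrix.mul_smul, Matrix.smul_mul, Matrix.smul_mul]
      have h5 : X * JZ _ n * (EZ _ n * Xᵀ) + X * EZ _ n * JZ _ n * Xᵀ = X * JZ _ n * Xᵀ := by
        calc X * JZ _ n * (EZ _ n * Xᵀ) + X * EZ _ n * JZ _ n * Xᵀ =
            X * (JZ _ n * EZ _ n + EZ _ n * JZ _ n) * Xᵀ := by
              rw [mul_add, add_mul]; simp only [Matrix.mul_assoc]
          _ = _ := by rw [JE_EJ]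
      calc X * JZ _ n + (2 : ZMod 8) • (X * JZ _ n * (EZ _ n * Xᵀ)) +
          (JZ _ n * Xᵀ + (2 : ZMod 8) • (X * EZ _ n * JZ _ n * Xᵀ)) =
          X * JZ _ n + JZ _ n * Xᵀ + (2 : ZMod 8) • (X * JZ _ n * (EZ _ n * Xᵀ) +
            X * EZ _ n * JZ _ n * Xᵀ) := by rw [smul_add]; abel
        _ = 0 := by rw [h5, hX1]
    have hiT : Wᵀ * (W⁻¹)ᵀ = 1 := by rw [← transpose_mul, hinv', transpose_one]
    have h6 : W⁻¹ * X * JZ _ n = -(JZ _ n * Xᵀ * (W⁻¹)ᵀ) := by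
      calc W⁻¹ * X * JZ _ n = W⁻¹ * (X * JZ _ n) * (Wᵀ * (W⁻¹)ᵀ) := by
            rw [hiT, mul_one]; simp only [Matrix.mul_assoc]
        _ = W⁻¹ * (X * JZ _ n * Wᵀ) * (W⁻¹)ᵀ := by simp only [Matrix.mul_assoc]
        _ = -((W⁻¹ * W) * JZ _ n * Xᵀ * (W⁻¹)ᵀ) := by
            rw [h4]; simp only [Matrix.mul_assoc, mul_neg, neg_mul]
        _ = _ := by rw [hinv', Matrix.one_mul]
    rw [transpose_mul, transpose_mul, JT]
    calc Xᵀ * (W⁻¹)ᵀ * -JZ _ n = (JZ _ n * JZ _ n) * (Xᵀ * (W⁻¹)ᵀ * JZ _ n) := by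
          rw [JJ]; simp
      _ = JZ _ n * (JZ _ n * Xᵀ * (W⁻¹)ᵀ) * JZ _ n := by simp only [Matrix.mul_assoc]
      _ = -(JZ _ n * (W⁻¹ * X * JZ _ n) * JZ _ n) := by rw [h6]; simp
      _ = -(JZ _ n * (W⁻¹ * X) * (JZ _ n * JZ _ n)) := by simp only [Matrix.mul_assoc]
      _ = _ := by rw [JJ]; simp
  have hZ2 : ∀ k, 4 * (JZ (ZMod 8) n * (W⁻¹ * X) : M8 n) k k = 0 := by
    intro k
    have h7 : (4 : ZMod 8) • (JZ _ n * (W⁻¹ * X)) = (4 : ZMod 8) • (L + Lᵀ) := by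
      rw [← hX2]
      calc (4 : ZMod 8) • (JZ _ n * (W⁻¹ * X)) = JZ _ n * (((4 : ZMod 8) • W⁻¹) * X) := by
            rw [Matrix.smul_mul, Matrix.mul_smul]
        _ = _ := by rw [hW, four_inv, Matrix.smul_mul, Matrix.mul_smul, Matrix.one_mul]
    have h8 := congrFun (congrFun h7 k) k
    rw [Matrix.smul_apply, Matrix.smul_apply, Matrix.add_apply, Matrix.transpose_apply,
      smul_eq_mul, smul_eq_mul] at h8
    rw [h8, ← two_mul, ← mul_assoc, z8_42, zero_mul]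
  rw [h1, h3, det_mul, Matrix.det_one_add_mul_comm]
  have h9 : (2 : ZMod 8) • ((L₁ + L₁ᵀ) * JZ _ n) * (W⁻¹ * X) =
      (2 : ZMod 8) • ((L₁ + L₁ᵀ) * (JZ _ n * (W⁻¹ * X))) := by
    rw [Matrix.smul_mul, Matrix.mul_assoc]
  rw [h9, good L₁ _ hZ hZ2, mul_one, hW]
  rfl

theorem QX_conj {X g h : M8 n} (hX : QX X) (hhg : h * g = 1)
    (hJ : g * JZ _ n * gᵀ = JZ _ n) : QX (h * X * g) := by
  obtain ⟨hX1, L, hX2⟩ := hX
  have h1 : JZ (ZMod 8) n * gᵀ = h * JZ _ n := by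
    calc JZ (ZMod 8) n * gᵀ = (h * g) * (JZ _ n * gᵀ) := by rw [hhg, Matrix.one_mul]
      _ = h * (g * JZ _ n * gᵀ) := by simp only [Matrix.mul_assoc]
      _ = _ := by rw [hJ]
  have hJh : JZ _ n * h = gᵀ * JZ _ n := by
    calc JZ _ n * h = -(JZ _ n * h * (JZ _ n * JZ _ n)) := by rw [JJ]; simp
      _ = -(JZ _ n * (h * JZ _ n) * JZ _ n) := by simp only [Matrix.mul_assoc]
      _ = -((JZ _ n * JZ _ n) * gᵀ * JZ _ n) := by rw [← h1]; simp only [Matrix.mul_assoc]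
      _ = _ := by rw [JJ]; simp
  have h2 : g * JZ _ n = JZ _ n * hᵀ := by
    have h3 : gᵀ * hᵀ = 1 := by rw [← transpose_mul, hhg, transpose_one]
    calc g * JZ _ n = g * JZ _ n * (gᵀ * hᵀ) := by rw [h3, mul_one]
      _ = (g * JZ _ n * gᵀ) * hᵀ := by simp only [Matrix.mul_assoc]
      _ = _ := by rw [hJ]
  refine ⟨?_, gᵀ * L * g, ?_⟩
  · have h4 : h * X * g * JZ _ n + JZ _ n * (h * X * g)ᵀ +
        (2 : ZMod 8) • (h * X * g * JZ _ n * (h * X * g)ᵀ) =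
        h * (X * JZ _ n + JZ _ n * Xᵀ + (2 : ZMod 8) • (X * JZ _ n * Xᵀ)) * hᵀ := by
      rw [transpose_mul, transpose_mul]
      have e1 : h * X * g * JZ _ n = h * (X * JZ _ n) * hᵀ := by
        rw [Matrix.mul_assoc (h * X), h2]; simp only [Matrix.mul_assoc]
      have e2 : JZ _ n * (gᵀ * (Xᵀ * hᵀ)) = h * (JZ _ n * Xᵀ) * hᵀ := by
        rw [← Matrix.mul_assoc, h1]; simp only [Matrix.mul_assoc]
      have e3 : h * X * g * JZ _ n * (gᵀ * (Xᵀ * hᵀ)) = h * (X * JZ _ n * Xᵀ) * hᵀ := by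
        calc h * X * g * JZ _ n * (gᵀ * (Xᵀ * hᵀ)) = h * X * (g * JZ _ n * gᵀ) * (Xᵀ * hᵀ) := by
              simp only [Matrix.mul_assoc]
          _ = _ := by rw [hJ]; simp only [Matrix.mul_assoc]
      rw [e3, e1, e2]
      simp only [mul_add, add_mul, Matrix.mul_smul, Matrix.smul_mul]
    rw [h4, hX1, mul_zero, zero_mul]
  · calc (4 : ZMod 8) • (JZ _ n * (h * X * g)) = gᵀ * ((4 : ZMod 8) • (JZ _ n * X)) * g := by
          rw [Matrix.mul_smul, Matrix.smul_mul]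
          congr 1
          rw [← Matrix.mul_assoc, ← Matrix.mul_assoc, hJh]
          simp only [Matrix.mul_assoc]
      _ = _ := by
          rw [hX2, Matrix.mul_smul, Matrix.smul_mul, transpose_mul, transpose_mul,
            transpose_transpose]
          congr 1
          rw [mul_add, add_mul]
          simp only [Matrix.mul_assoc]

theorem DX_mul {X X' : M8 n} (hX : QX X) (hX' : QX X') :
    DX (X + X' + (2 : ZMod 8) • (X * X')) = DX X * DX X' := by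
  obtain ⟨-, L, hL⟩ := hX
  obtain ⟨-, L', hL'⟩ := hX'
  obtain ⟨W, hW⟩ : ∃ W, W = 1 + (2 : ZMod 8) • (X * EZ _ n) := ⟨_, rfl⟩
  obtain ⟨W', hW'⟩ : ∃ W', W' = 1 + (2 : ZMod 8) • (X' * EZ _ n) := ⟨_, rfl⟩
  have hWW : ∃ M, W * W' = 1 + (2 : ZMod 8) • M := by
    refine ⟨X * EZ _ n + X' * EZ _ n + (2 : ZMod 8) • (X * EZ _ n * (X' * EZ _ n)), ?_⟩
    rw [hW, hW']
    simp only [mul_add, add_mul, mul_one, one_mul, smul_add, Matrix.smul_mul, Matrix.mul_smul]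
    abel
  obtain ⟨M, hM⟩ := hWW
  have hu : IsUnit (det (W * W')) := by rw [hM]; exact unit_two _
  have hinv : (W * W') * (W * W')⁻¹ = 1 := Matrix.mul_nonsing_inv _ hu
  have h4i : (4 : ZMod 8) • (W * W')⁻¹ = (4 : ZMod 8) • 1 := by rw [hM]; exact four_inv _
  have h22 : (2 : ZMod 8) * 2 = 4 := by decide
  have h1 : 1 + (2 : ZMod 8) • ((X + X' + (2 : ZMod 8) • (X * X')) * EZ _ n) =
      W * W' + (4 : ZMod 8) • (X * (1 - EZ _ n) * X' * EZ _ n) := by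
    rw [hW, hW']
    simp only [mul_add, add_mul, mul_one, one_mul, smul_add, Matrix.smul_mul, Matrix.mul_smul,
      smul_smul, h22, mul_sub, sub_mul, smul_sub, Matrix.mul_assoc]
    abel
  have h2 : W * W' + (4 : ZMod 8) • (X * (1 - EZ _ n) * X' * EZ _ n) =
      (W * W') * (1 + (4 : ZMod 8) • (X * (1 - EZ _ n) * X' * EZ _ n)) := by
    have h3 : (4 : ZMod 8) • (W * W') = (4 : ZMod 8) • 1 := by
      rw [hM, smul_add, smul_smul, z8_42, zero_smul, add_zero]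
    have e : (W * W') * ((4 : ZMod 8) • (X * (1 - EZ _ n) * X' * EZ _ n)) =
        ((4 : ZMod 8) • (W * W')) * (X * (1 - EZ _ n) * X' * EZ _ n) := by
      rw [Matrix.mul_smul, Matrix.smul_mul]
    rw [mul_add, mul_one, e, h3, Matrix.smul_mul, Matrix.one_mul]
  have hFJ : (1 - EZ (ZMod 8) n) * JZ _ n = JZ _ n * EZ _ n := by
    rw [sub_mul, one_mul, sub_eq_iff_eq_add]
    exact JE_EJ.symm
  obtain ⟨K, hK⟩ : ∃ K, K = JZ _ n * EZ _ n * L' * EZ _ n * JZ _ n := ⟨_, rfl⟩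
  have hKT : JZ _ n * EZ _ n * (L' + L'ᵀ) * EZ _ n * JZ _ n = K + Kᵀ := by
    rw [hK]
    simp only [transpose_mul, JT, ET, mul_add, add_mul, Matrix.mul_assoc, mul_neg, neg_mul,
      neg_neg]
  have h5 : (4 : ZMod 8) • ((1 - EZ _ n) * X' * EZ _ n * X) =
      (2 : ZMod 8) • ((K + Kᵀ) * ((2 : ZMod 8) • L + ((2 : ZMod 8) • L)ᵀ)) := by
    have e1 : X = -(JZ _ n * (JZ _ n * X)) := by
      rw [← Matrix.mul_assoc, JJ]; simp
    have e2 : X' = -(JZ _ n * (JZ _ n * X')) := by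
      rw [← Matrix.mul_assoc, JJ]; simp
    have e3 : (1 - EZ _ n) * X' * EZ _ n * X =
        JZ _ n * EZ _ n * (JZ _ n * X') * EZ _ n * JZ _ n * (JZ _ n * X) := by
      conv_lhs => rw [e1, e2]
      calc (1 - EZ _ n) * -(JZ _ n * (JZ _ n * X')) * EZ _ n * -(JZ _ n * (JZ _ n * X)) =
          ((1 - EZ _ n) * JZ _ n) * (JZ _ n * X') * EZ _ n * (JZ _ n * (JZ _ n * X)) := by
            simp only [Matrix.mul_assoc, mul_neg, neg_mul, neg_neg]
        _ = _ := by rw [hFJ]; simp only [Matrix.mul_assoc]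
    rw [e3]
    calc (4 : ZMod 8) • (JZ _ n * EZ _ n * (JZ _ n * X') * EZ _ n * JZ _ n * (JZ _ n * X)) =
        JZ _ n * EZ _ n * (JZ _ n * X') * EZ _ n * JZ _ n * ((4 : ZMod 8) • (JZ _ n * X)) := by
          rw [Matrix.mul_smul]
      _ = JZ _ n * EZ _ n * ((4 : ZMod 8) • (JZ _ n * X')) * EZ _ n * JZ _ n * (L + Lᵀ) := by
          rw [hL]
          simp only [Matrix.mul_smul, Matrix.smul_mul]
      _ = (4 : ZMod 8) • ((JZ _ n * EZ _ n * (L' + L'ᵀ) * EZ _ n * JZ _ n) * (L + Lᵀ)) := by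
          rw [hL']
          simp only [Matrix.mul_smul, Matrix.smul_mul]
      _ = _ := by
          rw [hKT, transpose_smul, ← smul_add, Matrix.mul_smul, smul_smul, h22]
  have h6 : det (1 + (4 : ZMod 8) • (X * (1 - EZ _ n) * X' * EZ _ n)) = 1 := by
    have e4 : (4 : ZMod 8) • (X * (1 - EZ _ n) * X' * EZ _ n) =
        X * ((4 : ZMod 8) • ((1 - EZ _ n) * X' * EZ _ n)) := by
      rw [Matrix.mul_smul]; simp only [Matrix.mul_assoc]
    rw [e4, Matrix.det_one_add_mul_comm, Matrix.smul_mul, h5, ← Matrix.mul_smul,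
      Matrix.det_one_add_mul_comm, Matrix.smul_mul]
    apply good
    · rw [transpose_add, transpose_transpose, add_comm]
    · intro k
      rw [Matrix.add_apply, Matrix.transpose_apply, ← two_mul, ← mul_assoc, z8_42, zero_mul]
  unfold DX
  rw [h1, h2, det_mul, det_mul, h6, mul_one, hW, hW']

end eight

end Pool.Agent.H750.P
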