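import Pool.Agent.H750.P.Theta2
import Pool.Agent.H750.P.Omega

set_option autoImplicit false

/-! # The character of the odd L-group given by a homomorphism to the group of order two -/

namespace Pool.Agent.H750.P

open Matrix

section lower

variable {ι : Type*}

open Classical in
/-- A matrix which is symmetric modulo two with even diagonal is `L + Lᵀ` modulo two. -/
theorem exists_low (Y : Matrix ι ι ℤ) (h1 : ∀ i j, Even (Y i j - Y j i)) (h2 : ∀ i, Even (Y i i)) :
    ∃ L : Matrix ι ι ℤ, (∀ i j, Even (Y i j - (L + Lᵀ) i j)) ∧ (Yᵀ = Y → Y = L + Lᵀ) := by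
  choose c hc using h2
  refine ⟨Matrix.of fun i j => if WellOrderingRel i j then Y i j else if i = j then c i else 0,
    fun i j => ?_, fun hY => ?_⟩
  · rw [Matrix.add_apply, Matrix.transpose_apply, Matrix.of_apply, Matrix.of_apply]
    rcases trichotomous_of WellOrderingRel i j with h | h | h
    · rw [if_pos h, if_neg (asymm_of WellOrderingRel h),
        if_neg (by rintro rfl; exact irrefl_of _ _ h)]
      simp
    · subst h
      rw [if_neg (irrefl_of _ _), if_pos rfl, hc]
      simp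
    · rw [if_neg (asymm_of WellOrderingRel h), if_pos h,
        if_neg (by rintro rfl; exact irrefl_of _ _ h)]
      rw [zero_add]
      exact h1 i j
  · ext1 i j
    have hY' : Y j i = Y i j := congrFun (congrFun hY i) j
    rw [Matrix.add_apply, Matrix.transpose_apply, Matrix.of_apply, Matrix.of_apply]
    rcases trichotomous_of WellOrderingRel i j with h | h | h
    · rw [if_pos h, if_neg (asymm_of WellOrderingRel h),
        if_neg (by rintro rfl; exact irrefl_of _ _ h)]
      simp
    · subst h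
      rw [if_neg (irrefl_of _ _), if_pos rfl, hc]
    · rw [if_neg (asymm_of WellOrderingRel h), if_pos h,
        if_neg (by rintro rfl; exact irrefl_of _ _ h), zero_add, hY']

end lower

section integral

variable {n : ℕ}

/-- Integral matrices. -/
abbrev MI (n : ℕ) := Matrix (Fin n ⊕ Fin n) (Fin n ⊕ Fin n) ℤ

/-- Reduction modulo eight. -/
def red8 (M : MI n) : M8 n := M.map (Int.castRingHom (ZMod 8))

theorem red8_mul (M N : MI n) : red8 (M * N) = red8 M * red8 N := Matrix.map_mul
theorem red8_add (M N : MI n) : red8 (M + N) = red8 M + red8 N :=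
  Matrix.map_add _ (fun a b => map_add _ a b) _ _
theorem red8_sub (M N : MI n) : red8 (M - N) = red8 M - red8 N :=
  Matrix.map_sub _ (fun a b => map_sub _ a b) _ _
theorem red8_one : red8 (1 : MI n) = 1 := Matrix.map_one _ (map_zero _) (map_one _)
theorem red8_zero : red8 (0 : MI n) = 0 := Matrix.map_zero _ (map_zero _)
theorem red8_two (M : MI n) : red8 ((2 : ℤ) • M) = (2 : ZMod 8) • red8 M := by
  ext1 i j
  change Int.castRingHom (ZMod 8) ((2 : ℤ) • M i j) = (2 : ZMod 8) • Int.castRingHom (ZMod 8) (M i j)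
  rw [smul_eq_mul, map_mul, smul_eq_mul]
  rfl
theorem red8_T (M : MI n) : red8 Mᵀ = (red8 M)ᵀ := rfl
theorem red8_J : red8 (JZ ℤ n) = JZ (ZMod 8) n := by
  unfold red8 JZ
  rw [Matrix.fromBlocks_map, Matrix.map_one _ (map_zero _) (map_one _),
    Matrix.map_zero _ (map_zero _)]
  congr 1
  ext1 i j
  rw [Matrix.map_apply, Matrix.neg_apply, Matrix.neg_apply, Matrix.one_apply, Matrix.one_apply]
  split_ifs <;> simp
theorem red8_P : red8 (PZ ℤ n) = PZ (ZMod 8) n := by
  unfold red8 PZ
  rw [Matrix.fromBlocks_map, Matrix.map_one _ (map_zero _) (map_one _),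
    Matrix.map_zero _ (map_zero _)]

theorem four_even {a b : ℤ} (h : Even (a - b)) : (4 : ZMod 8) * (a : ZMod 8) = 4 * (b : ZMod 8) := by
  obtain ⟨c, hc⟩ := h
  have h1 : a = b + (c + c) := by omega
  rw [h1]
  push_cast
  have h2 := z8_42
  linear_combination (c : ZMod 8) * h2

/-- The condition for integral matrices. -/
theorem QX_int {X : MI n} {T : MI n}
    (h1 : X * JZ ℤ n + JZ ℤ n * Xᵀ + (2 : ℤ) • (X * JZ ℤ n * Xᵀ) = 0)
    (h2 : X * PZ ℤ n + PZ ℤ n * Xᵀ + (2 : ℤ) • (X * PZ ℤ n * Xᵀ) = T + Tᵀ) : QX (red8 X) := by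
  refine ⟨?_, ?_⟩
  · have h3 := congrArg red8 h1
    rw [red8_add, red8_add, red8_two, red8_mul, red8_mul, red8_mul, red8_mul, red8_J, red8_T,
      red8_zero] at h3
    exact h3
  · have h4 : ∀ i j, Even ((JZ ℤ n * X) i j - (JZ ℤ n * X) j i) := by
      intro i j
      have h5 : JZ ℤ n * X - (JZ ℤ n * X)ᵀ =
          (2 : ℤ) • (JZ ℤ n * (X * JZ ℤ n * Xᵀ) * JZ ℤ n) := by
        have h6 : JZ ℤ n * (X * JZ ℤ n + JZ ℤ n * Xᵀ + (2 : ℤ) • (X * JZ ℤ n * Xᵀ)) * JZ ℤ n = 0 := by
          rw [h1, mul_zero, zero_mul]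
        have h7 : JZ ℤ n * (X * JZ ℤ n + JZ ℤ n * Xᵀ + (2 : ℤ) • (X * JZ ℤ n * Xᵀ)) * JZ ℤ n =
            -(JZ ℤ n * X - (JZ ℤ n * X)ᵀ) + (2 : ℤ) • (JZ ℤ n * (X * JZ ℤ n * Xᵀ) * JZ ℤ n) := by
          rw [transpose_mul, JT, mul_add, mul_add, add_mul, add_mul, Matrix.mul_smul,
            Matrix.smul_mul]
          have e1 : JZ ℤ n * (X * JZ ℤ n) * JZ ℤ n = -(JZ ℤ n * X) := by
            calc JZ ℤ n * (X * JZ ℤ n) * JZ ℤ n = JZ ℤ n * X * (JZ ℤ n * JZ ℤ n) := by
                  simp only [Matrix.mul_assoc]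
              _ = _ := by rw [JJ]; simp
          have e2 : JZ ℤ n * (JZ ℤ n * Xᵀ) * JZ ℤ n = -(Xᵀ * JZ ℤ n) := by
            calc JZ ℤ n * (JZ ℤ n * Xᵀ) * JZ ℤ n = (JZ ℤ n * JZ ℤ n) * Xᵀ * JZ ℤ n := by
                  simp only [Matrix.mul_assoc]
              _ = _ := by rw [JJ]; simp
          rw [e1, e2, mul_neg]
          abel
        rw [h7] at h6
        rw [neg_add_eq_zero] at h6
        exact h6
      have h8 := congrFun (congrFun h5 i) j
      rw [Matrix.sub_apply, Matrix.transpose_apply, Matrix.smul_apply] at h8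
      rw [h8, smul_eq_mul]
      exact even_two_mul _
    have h9 : ∀ i, Even ((JZ ℤ n * X) i i) := by
      have h10 : ∀ i, Even ((X * PZ ℤ n) i i + (PZ ℤ n * Xᵀ) i i) := by
        intro i
        have h11 := congrFun (congrFun h2 i) i
        rw [Matrix.add_apply, Matrix.add_apply, Matrix.smul_apply, Matrix.add_apply,
          Matrix.transpose_apply, smul_eq_mul] at h11
        exact ⟨T i i - (X * PZ ℤ n * Xᵀ) i i, by linarith⟩
      intro i
      rcases i with i | i
      · have h12 := h10 (Sum.inr i)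
        unfold JZ
        unfold PZ at h12
        simp [Matrix.mul_apply, Fintype.sum_sum_type, Matrix.one_apply, fromBlocks] at h12 ⊢
        exact h12
      · have h12 := h10 (Sum.inl i)
        unfold JZ
        unfold PZ at h12
        simp [Matrix.mul_apply, Fintype.sum_sum_type, Matrix.one_apply, fromBlocks] at h12 ⊢
        exact h12
    obtain ⟨L, hL, -⟩ := exists_low (JZ ℤ n * X) h4 h9
    refine ⟨red8 L, ?_⟩
    ext1 i j
    have h13 := four_even (hL i j)
    have h14 : (JZ (ZMod 8) n * red8 X) = red8 (JZ ℤ n * X) := by rw [red8_mul, red8_J]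
    have h15 : red8 L + (red8 L)ᵀ = red8 (L + Lᵀ) := by rw [red8_add, red8_T]
    rw [h14, h15, Matrix.smul_apply, Matrix.smul_apply, smul_eq_mul, smul_eq_mul]
    exact h13

end integral

end Pool.Agent.H750.P
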