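import Pool.Agent.H750.P.Theta3

set_option autoImplicit false

/-! # The character of the odd L-group -/

namespace Pool.Agent.H750.P

open Matrix

section int

variable {n : ℕ}

theorem two_cancel {A B : MI n} (h : (2 : ℤ) • A = (2 : ℤ) • B) : A = B := by
  ext1 i j
  have h1 := congrFun (congrFun h i) j
  rw [Matrix.smul_apply, Matrix.smul_apply, smul_eq_mul, smul_eq_mul] at h1
  omega

theorem expand_two (X S : MI n) : (1 + (2 : ℤ) • X) * S * (1 + (2 : ℤ) • X)ᵀ =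
    S + (2 : ℤ) • (X * S + S * Xᵀ + (2 : ℤ) • (X * S * Xᵀ)) := by
  rw [transpose_add, transpose_one, transpose_smul]
  simp only [mul_add, add_mul, mul_one, one_mul, smul_add, Matrix.smul_mul, Matrix.mul_smul]
  abel

/-- The condition for the quotient of two matrices. -/
theorem QX_quot {g h g₂ H T θ₁ θ₂ : MI n} (hhg : h * g = 1)
    (hJ : g * JZ ℤ n * gᵀ = JZ ℤ n) (hJ₂ : g₂ * JZ ℤ n * g₂ᵀ = JZ ℤ n)
    (hS : g * PZ ℤ n * gᵀ = PZ ℤ n + θ₁) (hS₂ : g₂ * PZ ℤ n * g₂ᵀ = PZ ℤ n + θ₂)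
    (hT : θ₂ - θ₁ = (2 : ℤ) • (T + Tᵀ)) (hH : g₂ - g = (2 : ℤ) • H) :
    h * g₂ = 1 + (2 : ℤ) • (h * H) ∧ QX (red8 (h * H)) := by
  have hN : h * g₂ = 1 + (2 : ℤ) • (h * H) := by
    rw [← Matrix.mul_smul, ← hH, mul_sub, hhg]
    abel
  refine ⟨hN, ?_⟩
  have hT' : gᵀ * hᵀ = 1 := by rw [← transpose_mul, hhg, transpose_one]
  have key : ∀ S : MI n, h * (g * S * gᵀ) * hᵀ = S := by
    intro S
    calc h * (g * S * gᵀ) * hᵀ = (h * g) * S * (gᵀ * hᵀ) := by simp only [Matrix.mul_assoc]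
      _ = S := by rw [hhg, hT', mul_one, one_mul]
  have key2 : ∀ S : MI n, (h * g₂) * S * (h * g₂)ᵀ = h * (g₂ * S * g₂ᵀ) * hᵀ := by
    intro S
    rw [transpose_mul]
    simp only [Matrix.mul_assoc]
  apply QX_int (T := h * T * hᵀ)
  · have h1 := key2 (JZ ℤ n)
    rw [hN, expand_two, hJ₂] at h1
    have h2 := key (JZ ℤ n)
    rw [hJ] at h2
    rw [h2] at h1
    apply two_cancel
    rw [smul_zero]
    exact left_eq_add.mp h1.symm
  · have h1 := key2 (PZ ℤ n)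
    rw [hN, expand_two, hS₂] at h1
    have h2 := key (PZ ℤ n)
    rw [hS] at h2
    have h3 : h * (PZ ℤ n + θ₂) * hᵀ = PZ ℤ n + (2 : ℤ) • (h * T * hᵀ + (h * T * hᵀ)ᵀ) := by
      have h4 : PZ ℤ n + θ₂ = (PZ ℤ n + θ₁) + (2 : ℤ) • (T + Tᵀ) := by
        rw [← hT]; abel
      rw [h4, mul_add, add_mul, h2, transpose_mul, transpose_mul, transpose_transpose,
        Matrix.mul_smul, Matrix.smul_mul, mul_add, add_mul]
      simp only [Matrix.mul_assoc]
    rw [h3] at h1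
    apply two_cancel
    exact add_left_cancel h1

end int

section sgn

variable {G : Type*} [Group G] (φ : G →* ℤˣ)

/-- The ring homomorphism given by a homomorphism to the group of order two. -/
noncomputable def sgn : MonoidAlgebra ℤ G →+* ℤ :=
  MonoidAlgebra.liftNCRingHom (RingHom.id ℤ) ((Units.coeHom ℤ).comp φ)
    (fun _ _ => Commute.all _ _)

theorem sgn_single (g : G) (r : ℤ) :
    sgn φ (MonoidAlgebra.single g r) = r * ((φ g : ℤˣ) : ℤ) := by
  unfold sgn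
  simp

theorem sgn_star (x : MonoidAlgebra ℤ G) : sgn φ (star x) = star (sgn φ x) := by
  induction x using MonoidAlgebra.induction_linear with
  | zero => simp
  | add x y hx hy => rw [star_add, map_add, map_add, hx, hy, star_add]
  | single g r =>
    rw [star_single, sgn_single, sgn_single, map_inv]
    rcases Int.units_eq_one_or (φ g) with h | h <;> rw [h] <;> simp

theorem sgn_aug (x : MonoidAlgebra ℤ G) : Even (sgn φ x - aug ℤ G x) := by
  induction x using MonoidAlgebra.induction_linear with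
  | zero => simp
  | add x y hx hy =>
    rw [map_add, map_add, add_sub_add_comm]
    exact hx.add hy
  | single g r =>
    rw [sgn_single, aug_single]
    rcases Int.units_eq_one_or (φ g) with h | h <;> rw [h]
    · simp
    · exact ⟨-r, by simp; ring⟩

/-- The ring homomorphism as a homomorphism of rings with involution and form parameter. -/
noncomputable def sgnHom : QHom (evenP.ext G) evenP where
  hom := sgn φ
  star := sgn_star φ
  mem := by
    rintro a ⟨b, r, hr, rfl⟩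
    rw [map_add, map_sub, map_zsmul, sgn_star, sgn_single, map_one]
    refine evenP.carrier.add_mem (evenP.min_mem _) ?_
    simpa using hr

theorem sgn_four {a : MonoidAlgebra ℤ G} (ha : a ∈ (evenP.ext G).carrier) :
    ∃ c : ℤ, sgn φ a - aug ℤ G a = 2 * (2 * c) := by
  obtain ⟨b, r, -, rfl⟩ := ha
  obtain ⟨c, hc⟩ := sgn_aug φ b
  refine ⟨c, ?_⟩
  rw [map_add, map_sub, map_zsmul, sgn_star, sgn_single, map_add, map_sub, map_zsmul, aug_star,
    aug_single, map_one]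
  have h1 : star (sgn φ b) = sgn φ b := rfl
  have h2 : star (aug ℤ G b) = aug ℤ G b := rfl
  rw [h1, h2]
  simp
  linarith

variable {n : ℕ}

/-- The augmentation of a unitary matrix. -/
noncomputable def gA (P : UG (evenP.ext G) n) : MI n := P.val.val.map (aug ℤ G)

/-- The image of a unitary matrix. -/
noncomputable def gS (P : UG (evenP.ext G) n) : MI n := P.val.val.map (sgn φ)

theorem gA_mul (P Q : UG (evenP.ext G) n) : gA (P * Q) = gA P * gA Q := Matrix.map_mul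

theorem gS_mul (P Q : UG (evenP.ext G) n) : gS φ (P * Q) = gS φ P * gS φ Q := Matrix.map_mul

theorem gA_one : gA (1 : UG (evenP.ext G) n) = 1 :=
  Matrix.map_one _ (map_zero _) (map_one _)

theorem gA_inv (P : UG (evenP.ext G) n) : gA P⁻¹ * gA P = 1 := by
  rw [← gA_mul, inv_mul_cancel, gA_one]

theorem gA_inv' (P : UG (evenP.ext G) n) : gA P * gA P⁻¹ = 1 := by
  rw [← gA_mul, mul_inv_cancel, gA_one]

/-- The quotient of the two images of a unitary matrix. -/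
noncomputable def nM (P : UG (evenP.ext G) n) : MI n := gA P⁻¹ * gS φ P

theorem form_even (Q : UG evenP n) :
    Q.val.val * JZ ℤ n * Q.val.valᵀ = JZ ℤ n ∧
      ∃ L : MI n, Q.val.val * PZ ℤ n * Q.val.valᵀ = PZ ℤ n + (L + Lᵀ) := by
  have hT : (Q.val.val)ᴴ = (Q.val.val)ᵀ := rfl
  have h0 : Triv evenP (Q.val.val * PZ ℤ n * Q.val.valᵀ - PZ ℤ n) := Q.property
  obtain ⟨θ, hθ⟩ : ∃ θ, θ = Q.val.val * PZ ℤ n * Q.val.valᵀ - PZ ℤ n := ⟨_, rfl⟩
  rw [← hθ] at h0
  have hsym : θᵀ = θ := by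
    have h1 : θᵀ = -((((-1 : ℤˣ) : ℤ)) • θ) := h0.1
    rw [h1]
    simp
  have hP : Q.val.val * PZ ℤ n * Q.val.valᵀ = PZ ℤ n + θ := by rw [hθ]; abel
  refine ⟨?_, ?_⟩
  · have h1 : JZ ℤ n = PZ ℤ n - (PZ ℤ n)ᵀ := by
      unfold JZ PZ
      rw [Matrix.fromBlocks_transpose, sub_eq_add_neg, Matrix.fromBlocks_neg,
        Matrix.fromBlocks_add]
      simp
    have h2 : Q.val.val * (PZ ℤ n)ᵀ * Q.val.valᵀ = (Q.val.val * PZ ℤ n * Q.val.valᵀ)ᵀ := by
      rw [transpose_mul, transpose_mul, transpose_transpose, Matrix.mul_assoc]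
    rw [h1, mul_sub, sub_mul, h2, hP, transpose_add, hsym]
    abel
  · obtain ⟨L, -, hL⟩ := exists_low θ (fun i j => by
      have h3 : θ j i = θ i j := congrFun (congrFun hsym i) j
      rw [h3, sub_self]; exact Even.zero) (fun i => h0.2 i)
    exact ⟨L, by rw [hP, ← hL hsym]⟩

theorem half_symm {θ : MI n} (hs : θᵀ = θ) (hd : ∀ i, ∃ c, θ i i = 2 * (2 * c))
    (he : ∀ i j, Even (θ i j)) : ∃ T : MI n, θ = (2 : ℤ) • (T + Tᵀ) := by
  choose c hc using he
  have hY : θ = (2 : ℤ) • (Matrix.of c) := by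
    ext1 i j
    rw [Matrix.smul_apply, smul_eq_mul, Matrix.of_apply, hc]
    ring
  have hsym : (Matrix.of c)ᵀ = Matrix.of c := by
    apply two_cancel
    rw [← hY, ← transpose_smul, ← hY, hs]
  obtain ⟨L, -, hL⟩ := exists_low (Matrix.of c) (fun i j => by
      have h3 : (Matrix.of c) j i = (Matrix.of c) i j := congrFun (congrFun hsym i) j
      rw [h3, sub_self]; exact Even.zero) (fun i => by
      obtain ⟨d, hd⟩ := hd i
      rw [hc] at hd
      refine ⟨d, ?_⟩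
      rw [Matrix.of_apply]
      omega)
  exact ⟨L, by rw [← hL hsym, ← hY]⟩

theorem nM_spec (P : UG (evenP.ext G) n) :
    ∃ X : MI n, nM φ P = 1 + (2 : ℤ) • X ∧ QX (red8 X) := by
  obtain ⟨hJ, -⟩ := form_even ((augHom evenP G).U n P)
  obtain ⟨hJ₂, -⟩ := form_even ((sgnHom φ).U n P)
  have hJ' : gA P * JZ ℤ n * (gA P)ᵀ = JZ ℤ n := hJ
  have hJ₂' : gS φ P * JZ ℤ n * (gS φ P)ᵀ = JZ ℤ n := hJ₂
  obtain ⟨Θ, hΘ⟩ : ∃ Θ, Θ = P.val.val * hyp (MonoidAlgebra ℤ G) (Fin n) * P.val.valᴴ -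
      hyp (MonoidAlgebra ℤ G) (Fin n) := ⟨_, rfl⟩
  have hTriv : Triv (evenP.ext G) Θ := by rw [hΘ]; exact P.property
  have h1 : Θ.map (aug ℤ G) = gA P * PZ ℤ n * (gA P)ᵀ - PZ ℤ n := by
    rw [hΘ, Matrix.map_sub _ (fun a b => map_sub (aug ℤ G) a b), Matrix.map_mul, Matrix.map_mul,
      map_hyp]
    have h2 := (augHom evenP G).conjTranspose_map P.val.val
    change (gA P)ᵀ = _ at h2
    rw [h2]
    rfl
  have h2 : Θ.map (sgn φ) = gS φ P * PZ ℤ n * (gS φ P)ᵀ - PZ ℤ n := by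
    rw [hΘ, Matrix.map_sub _ (fun a b => map_sub (sgn φ) a b), Matrix.map_mul, Matrix.map_mul,
      map_hyp]
    have h2 := (sgnHom φ).conjTranspose_map P.val.val
    change (gS φ P)ᵀ = _ at h2
    rw [h2]
    rfl
  have s1 : (Θ.map (aug ℤ G))ᵀ = Θ.map (aug ℤ G) := by
    have h3 : (Θ.map (aug ℤ G))ᵀ = -(((-1 : ℤˣ) : ℤ) • Θ.map (aug ℤ G)) :=
      ((augHom evenP G).triv hTriv).1
    rw [h3]; simp
  have s2 : (Θ.map (sgn φ))ᵀ = Θ.map (sgn φ) := by
    have h3 : (Θ.map (sgn φ))ᵀ = -(((-1 : ℤˣ) : ℤ) • Θ.map (sgn φ)) :=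
      ((sgnHom φ).triv hTriv).1
    rw [h3]; simp
  obtain ⟨T, hT⟩ := half_symm (θ := Θ.map (sgn φ) - Θ.map (aug ℤ G))
    (by rw [transpose_sub, s1, s2])
    (fun i => by
      rw [Matrix.sub_apply, Matrix.map_apply, Matrix.map_apply]
      exact sgn_four φ (hTriv.2 i))
    (fun i j => by
      rw [Matrix.sub_apply, Matrix.map_apply, Matrix.map_apply]
      exact sgn_aug φ _)
  have hHe : ∀ i j, Even ((gS φ P - gA P) i j) := fun i j => sgn_aug φ _
  choose c hc using hHe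
  have hH : gS φ P - gA P = (2 : ℤ) • (Matrix.of c) := by
    ext1 i j
    rw [Matrix.smul_apply, smul_eq_mul, Matrix.of_apply, hc]
    ring
  obtain ⟨h3, h4⟩ := QX_quot (gA_inv P) hJ' hJ₂' (θ₁ := Θ.map (aug ℤ G)) (θ₂ := Θ.map (sgn φ))
    (by rw [h1]; abel) (by rw [h2]; abel) hT hH
  exact ⟨_, h3, h4⟩

/-- The determinant modulo eight. -/
noncomputable def fP (P : UG (evenP.ext G) n) : ZMod 8 :=
  det (1 + (red8 (nM φ P) - 1) * EZ _ n)

theorem fP_eq {P : UG (evenP.ext G) n} {X : MI n} (h : nM φ P = 1 + (2 : ℤ) • X) :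
    fP φ P = DX (red8 X) := by
  unfold fP DX
  rw [h, red8_add, red8_one, red8_two, add_sub_cancel_left, Matrix.smul_mul]

theorem fP_unit (P : UG (evenP.ext G) n) : IsUnit (fP φ P) := by
  obtain ⟨X, hX, -⟩ := nM_spec φ P
  rw [fP_eq φ hX]
  exact unit_two _

theorem nM_mul (P Q : UG (evenP.ext G) n) :
    nM φ (P * Q) = (gA Q⁻¹ * nM φ P * gA Q) * nM φ Q := by
  unfold nM
  rw [gS_mul, _root_.mul_inv_rev, gA_mul]
  calc gA Q⁻¹ * gA P⁻¹ * (gS φ P * gS φ Q) =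
      gA Q⁻¹ * gA P⁻¹ * gS φ P * (1 * gS φ Q) := by rw [one_mul]; simp only [Matrix.mul_assoc]
    _ = _ := by rw [← gA_inv' Q]; simp only [Matrix.mul_assoc]

theorem fP_mul (P Q : UG (evenP.ext G) n) : fP φ (P * Q) = fP φ P * fP φ Q := by
  obtain ⟨X, hX, qX⟩ := nM_spec φ P
  obtain ⟨Y, hY, qY⟩ := nM_spec φ Q
  have h1 : nM φ (P * Q) = 1 + (2 : ℤ) • (gA Q⁻¹ * X * gA Q + Y +
      (2 : ℤ) • (gA Q⁻¹ * X * gA Q * Y)) := by
    rw [nM_mul, hX, hY]
    simp only [mul_add, add_mul, mul_one, smul_add, Matrix.smul_mul, Matrix.mul_smul]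
    rw [gA_inv]
    simp only [one_mul]
    abel
  obtain ⟨hJ, L, hL⟩ := form_even ((augHom evenP G).U n Q)
  have hJ' : gA Q * JZ ℤ n * (gA Q)ᵀ = JZ ℤ n := hJ
  have hL' : gA Q * PZ ℤ n * (gA Q)ᵀ = PZ ℤ n + (L + Lᵀ) := hL
  have j8 : red8 (gA Q) * JZ _ n * (red8 (gA Q))ᵀ = JZ _ n := by
    rw [← red8_J, ← red8_T, ← red8_mul, ← red8_mul, hJ']
  have l8 : red8 (gA Q) * PZ _ n * (red8 (gA Q))ᵀ = PZ _ n + (red8 L + (red8 L)ᵀ) := by
    rw [← red8_P, ← red8_T, ← red8_mul, ← red8_mul, hL', red8_add, red8_add, red8_T]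
  have i8 : red8 (gA Q⁻¹) * red8 (gA Q) = 1 := by rw [← red8_mul, gA_inv, red8_one]
  have i8' : red8 (gA Q) * red8 (gA Q⁻¹) = 1 := by rw [← red8_mul, gA_inv', red8_one]
  rw [fP_eq φ h1, fP_eq φ hX, fP_eq φ hY, red8_add, red8_add, red8_two,
    red8_mul (gA Q⁻¹ * X * gA Q), red8_mul (gA Q⁻¹ * X), red8_mul (gA Q⁻¹), DX_mul (QX_conj qX i8 j8) qY, DX_conj qX i8' i8 j8 l8]

end sgn

end Pool.Agent.H750.P
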