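import Pool.Agent.H750.P.Theta4

set_option autoImplicit false

/-! # The kernel for the integers is the group `H_1(G; ℤ/2)` -/

namespace Pool.Agent.H750.P

open Matrix

section stab

variable {n : ℕ}

theorem EZ_diag (K : Type*) [CommRing K] (n : ℕ) : EZ K n =
    diagonal (Sum.elim (fun _ : Fin n => (0 : K)) (fun _ : Fin n => 1)) := by
  ext1 x y
  unfold EZ
  rcases x with x | x <;> rcases y with y | y <;> simp [Matrix.one_apply, diagonal_apply]

theorem EZ_st (K : Type*) [CommRing K] (s : Fin (n + 1) ≃ Fin n ⊕ Fin 1) : EZ K (n + 1) =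
    (fromBlocks (EZ K n) 0 0 (EZ K 1)).submatrix (stEquiv s) (stEquiv s) := by
  rw [EZ_diag, EZ_diag, EZ_diag, Matrix.fromBlocks_diagonal, Matrix.submatrix_diagonal_equiv]
  congr 1
  funext x
  rcases x with x | x
  · change (0 : K) = Sum.elim (Sum.elim (fun _ => 0) fun _ => 1) (Sum.elim (fun _ => 0) fun _ => 1)
      (swapEquiv (Fin n) (Fin 1) (Sum.inl (s x)))
    generalize s x = u
    rcases u with u | u <;> rfl
  · change (1 : K) = Sum.elim (Sum.elim (fun _ => 0) fun _ => 1) (Sum.elim (fun _ => 0) fun _ => 1)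
      (swapEquiv (Fin n) (Fin 1) (Sum.inr (s x)))
    generalize s x = u
    rcases u with u | u <;> rfl

theorem det_st (s : Fin (n + 1) ≃ Fin n ⊕ Fin 1) (M : M8 n) :
    det (1 + (stM (ZMod 8) s M - 1) * EZ (ZMod 8) (n + 1)) = det (1 + (M - 1) * EZ (ZMod 8) n) := by
  have h1 : stM (ZMod 8) s M = (fromBlocks M 0 0 1).submatrix (stEquiv s) (stEquiv s) := rfl
  have h2 : (1 : Matrix (Fin (n + 1) ⊕ Fin (n + 1)) (Fin (n + 1) ⊕ Fin (n + 1)) (ZMod 8)) =
      (fromBlocks 1 0 0 1).submatrix (stEquiv s) (stEquiv s) := by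
    rw [Matrix.fromBlocks_one, Matrix.submatrix_one_equiv]
  have h3 : 1 + (stM (ZMod 8) s M - 1) * EZ (ZMod 8) (n + 1) =
      (fromBlocks (1 + (M - 1) * EZ (ZMod 8) n) 0 0 1).submatrix (stEquiv s) (stEquiv s) := by
    have h4 : (stM (ZMod 8) s M - 1) =
        (fromBlocks (M - 1) 0 0 0).submatrix (stEquiv s) (stEquiv s) := by
      rw [h1, h2]
      ext1 x y
      rw [Matrix.sub_apply, Matrix.submatrix_apply, Matrix.submatrix_apply, Matrix.submatrix_apply]
      generalize stEquiv s x = u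
      generalize stEquiv s y = v
      rcases u with u | u <;> rcases v with v | v <;> simp
    rw [h4, EZ_st _ s, Matrix.submatrix_mul_equiv, Matrix.fromBlocks_multiply, h2]
    ext1 x y
    rw [Matrix.add_apply, Matrix.submatrix_apply, Matrix.submatrix_apply, Matrix.submatrix_apply]
    generalize stEquiv s x = u
    generalize stEquiv s y = v
    rcases u with u | u <;> rcases v with v | v <;> simp
  rw [h3, det_submatrix_equiv_self, det_fromBlocks_zero₂₁, det_one, mul_one]

end stab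

section char

variable {G : Type*} [Group G] (φ : G →* ℤˣ) {n : ℕ}

theorem nM_st (s : Fin (n + 1) ≃ Fin n ⊕ Fin 1) (P : UG (evenP.ext G) n) :
    nM φ (stU (evenP.ext G) s P) = stM ℤ s (nM φ P) := by
  unfold nM
  rw [map_mul]
  have h1 : gA (stU (evenP.ext G) s P)⁻¹ = stM ℤ s (gA P⁻¹) := stM_map (aug ℤ G) s (P⁻¹).val.val
  have h2 : gS φ (stU (evenP.ext G) s P) = stM ℤ s (gS φ P) := stM_map (sgn φ) s P.val.val
  rw [h1, h2]

theorem fP_st (s : Fin (n + 1) ≃ Fin n ⊕ Fin 1) (P : UG (evenP.ext G) n) :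
    fP φ (stU (evenP.ext G) s P) = fP φ P := by
  unfold fP
  rw [nM_st]
  let _ : StarRing (ZMod 8) := starRingOfComm
  have h1 : red8 (stM ℤ s (nM φ P)) = stM (ZMod 8) s (red8 (nM φ P)) :=
    stM_map (Int.castRingHom (ZMod 8)) s (nM φ P)
  rw [h1, det_st]

/-- The sign. -/
def uf (z : ZMod 8) : ℤˣ := if z = 1 ∨ z = 7 then 1 else -1

theorem uf_mul' : ∀ x y : ZMod 8, 4 * x = 4 → 4 * y = 4 → uf (x * y) = uf x * uf y := by decide

theorem four_unit {x : ZMod 8} (hx : IsUnit x) : 4 * x = 4 := by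
  have h : ∀ x y : ZMod 8, x * y = 1 → 4 * x = 4 := by decide
  obtain ⟨u, rfl⟩ := hx
  exact h _ _ u.mul_inv

theorem uf_mul {x y : ZMod 8} (hx : IsUnit x) (hy : IsUnit y) : uf (x * y) = uf x * uf y :=
  uf_mul' x y (four_unit hx) (four_unit hy)

theorem nM_eq {P : UG (evenP.ext G) n} {Y : MI n} (h : Y * gA P = 1) : nM φ P = Y * gS φ P := by
  have h1 : gA P⁻¹ = Y := by
    calc gA P⁻¹ = (Y * gA P) * gA P⁻¹ := by rw [h, one_mul]
      _ = Y * (gA P * gA P⁻¹) := by rw [Matrix.mul_assoc]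
      _ = Y := by rw [gA_inv', mul_one]
  unfold nM
  rw [h1]

theorem uf_unit (z : ℤ) (hz : IsUnit z) : uf ((z : ℤ) : ZMod 8) = 1 := by
  rcases Int.isUnit_iff.mp hz with rfl | rfl
  · decide
  · decide

theorem uf_elem (P : UG (evenP.ext G) n) (hP : IsElem (evenP.ext G) P.val.val) :
    uf (fP φ P) = 1 := by
  rcases hP with ⟨α, β, h1, h2, h3⟩ | ⟨θ, h1, h3⟩ | h3
  · obtain ⟨a, ha⟩ : ∃ a, a = α.map (aug ℤ G) := ⟨_, rfl⟩
    obtain ⟨b, hb⟩ : ∃ b, b = β.map (aug ℤ G) := ⟨_, rfl⟩
    obtain ⟨c, hc⟩ : ∃ c, c = α.map (sgn φ) := ⟨_, rfl⟩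
    obtain ⟨d, hd⟩ : ∃ d, d = β.map (sgn φ) := ⟨_, rfl⟩
    have hab : a * b = 1 := by
      rw [ha, hb, ← Matrix.map_mul, h1, Matrix.map_one _ (map_zero _) (map_one _)]
    have hba : b * a = 1 := by
      rw [ha, hb, ← Matrix.map_mul, h2, Matrix.map_one _ (map_zero _) (map_one _)]
    have hcd : c * d = 1 := by
      rw [hc, hd, ← Matrix.map_mul, h1, Matrix.map_one _ (map_zero _) (map_one _)]
    have e1 : gA P = fromBlocks a 0 0 bᵀ := by
      unfold gA
      rw [h3, Matrix.fromBlocks_map, Matrix.map_zero _ (map_zero _), ← ha]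
      have h4 := (augHom evenP G).conjTranspose_map β
      change (β.map (aug ℤ G))ᵀ = βᴴ.map (aug ℤ G) at h4
      rw [← h4, hb]
    have e2 : gS φ P = fromBlocks c 0 0 dᵀ := by
      unfold gS
      rw [h3, Matrix.fromBlocks_map, Matrix.map_zero _ (map_zero _), ← hc]
      have h4 := (sgnHom φ).conjTranspose_map β
      change (β.map (sgn φ))ᵀ = βᴴ.map (sgn φ) at h4
      rw [← h4, hd]
    have e3 : nM φ P = fromBlocks (b * c) 0 0 (aᵀ * dᵀ) := by
      rw [nM_eq φ (Y := fromBlocks b 0 0 aᵀ), e2, Matrix.fromBlocks_multiply]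
      · simp
      · rw [e1, Matrix.fromBlocks_multiply, hba, ← transpose_mul, hba, ← Matrix.fromBlocks_one]
        simp
    have e4 : 1 + (red8 (nM φ P) - 1) * EZ _ n =
        fromBlocks 1 0 0 ((aᵀ * dᵀ).map (Int.castRingHom (ZMod 8))) := by
      unfold red8
      rw [e3, Matrix.fromBlocks_map, Matrix.map_zero _ (map_zero _)]
      unfold EZ
      rw [← Matrix.fromBlocks_one, sub_eq_add_neg, Matrix.fromBlocks_neg, Matrix.fromBlocks_add,
        Matrix.fromBlocks_multiply, Matrix.fromBlocks_add]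
      simp
    unfold fP
    rw [e4, det_fromBlocks_zero₂₁, det_one, one_mul]
    have e5 : det ((aᵀ * dᵀ).map (Int.castRingHom (ZMod 8))) = ((det (aᵀ * dᵀ) : ℤ) : ZMod 8) := by
      have h5 := (RingHom.map_det (Int.castRingHom (ZMod 8)) (aᵀ * dᵀ)).symm
      exact h5
    rw [e5]
    apply uf_unit
    rw [det_mul, det_transpose, det_transpose]
    refine IsUnit.mul ?_ ?_
    · refine IsUnit.of_mul_eq_one (det b) ?_
      rw [← det_mul, hab, det_one]
    · refine IsUnit.of_mul_eq_one (det c) ?_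
      rw [mul_comm, ← det_mul, hcd, det_one]
  · obtain ⟨a, ha⟩ : ∃ a, a = θ.map (aug ℤ G) := ⟨_, rfl⟩
    obtain ⟨c, hc⟩ : ∃ c, c = θ.map (sgn φ) := ⟨_, rfl⟩
    have e1 : gA P = fromBlocks 1 0 a 1 := by
      unfold gA
      rw [h3, Matrix.fromBlocks_map, Matrix.map_zero _ (map_zero _),
        Matrix.map_one _ (map_zero _) (map_one _), ← ha]
    have e2 : gS φ P = fromBlocks 1 0 c 1 := by
      unfold gS
      rw [h3, Matrix.fromBlocks_map, Matrix.map_zero _ (map_zero _),
        Matrix.map_one _ (map_zero _) (map_one _), ← hc]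
    have e3 : nM φ P = fromBlocks 1 0 (-a + c) 1 := by
      rw [nM_eq φ (Y := fromBlocks 1 0 (-a) 1), e2, Matrix.fromBlocks_multiply]
      · simp
      · rw [e1, Matrix.fromBlocks_multiply, ← Matrix.fromBlocks_one]
        simp
    have e4 : 1 + (red8 (nM φ P) - 1) * EZ _ n = 1 := by
      unfold red8
      rw [e3, Matrix.fromBlocks_map, Matrix.map_zero _ (map_zero _),
        Matrix.map_one _ (map_zero _) (map_one _)]
      unfold EZ
      rw [← Matrix.fromBlocks_one, sub_eq_add_neg, Matrix.fromBlocks_neg, Matrix.fromBlocks_add,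
        Matrix.fromBlocks_multiply, Matrix.fromBlocks_add]
      simp
    unfold fP
    rw [e4, det_one]
    decide
  · have e1 : gA P = fromBlocks 0 1 (((-1 : ℤˣ) : ℤ) • 1) 0 := by
      unfold gA
      rw [h3, Matrix.fromBlocks_map, Matrix.map_zero _ (map_zero _),
        Matrix.map_one _ (map_zero _) (map_one _)]
      congr 1
      ext1 i j
      rw [Matrix.map_apply, Matrix.smul_apply, Matrix.smul_apply, map_zsmul, Matrix.one_apply,
        Matrix.one_apply]
      split_ifs <;> simp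
    have e2 : gS φ P = fromBlocks 0 1 (((-1 : ℤˣ) : ℤ) • 1) 0 := by
      unfold gS
      rw [h3, Matrix.fromBlocks_map, Matrix.map_zero _ (map_zero _),
        Matrix.map_one _ (map_zero _) (map_one _)]
      congr 1
      ext1 i j
      rw [Matrix.map_apply, Matrix.smul_apply, Matrix.smul_apply, map_zsmul, Matrix.one_apply,
        Matrix.one_apply]
      split_ifs <;> simp
    have e3 : nM φ P = 1 := by
      unfold nM
      rw [e2, ← e1, gA_inv]
    unfold fP
    rw [e3, red8_one, sub_self, zero_mul, add_zero, det_one]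
    decide

/-- The character of the odd L-group. -/
noncomputable def chiL : L1 (evenP.ext G) →+ Additive ℤˣ :=
  L1.lift (fun _ P => Additive.ofMul (uf (fP φ P)))
    (fun n P Q => by rw [fP_mul, uf_mul (fP_unit φ P) (fP_unit φ Q)]; rfl)
    (fun n s P => by rw [fP_st]) (fun n P hP => by rw [uf_elem φ P hP]; rfl)

theorem chiL_mk (P : UG (evenP.ext G) n) : chiL φ (L1.mk P) = Additive.ofMul (uf (fP φ P)) :=
  L1.lift_mk _ _ _ _ P

/-- The character on the matrices of rank one. -/
theorem chiL_kH (g : G) (hg : φ g = -1) : chiL φ (kH (MonoidAlgebra.single g 1)) ≠ 0 := by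
  rw [kH_apply, chiL_mk]
  have hth : ∀ i j, aug ℤ G (th (MonoidAlgebra.single g 1 : MonoidAlgebra ℤ G) i j) = 0 :=
    fun i j => congrFun (congrFun (th_aug (MonoidAlgebra.single g 1)) i) j
  have hsg : ∀ i j, sgn φ (th (MonoidAlgebra.single g 1 : MonoidAlgebra ℤ G) i j) = -4 := by
    intro i j
    rw [th_apply, map_add, sgn_star, map_sub, aug_single, sgn_single, inc_apply, sgn_single, hg,
      map_one]
    rfl
  have e1 : gA (kU (MonoidAlgebra.single g 1)) = 1 := by
    have h1 : (th (MonoidAlgebra.single g 1 : MonoidAlgebra ℤ G)).map (aug ℤ G) = 0 := by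
      ext1 i j; exact hth i j
    change (fromBlocks 1 0 (-1) 1 * fromBlocks 1 (th (MonoidAlgebra.single g 1)) 0 1 *
      fromBlocks 1 0 1 1 : Matrix (Fin 1 ⊕ Fin 1) (Fin 1 ⊕ Fin 1) (MonoidAlgebra ℤ G)).map
        (aug ℤ G) = 1
    rw [Matrix.map_mul, Matrix.map_mul, Matrix.fromBlocks_map, Matrix.fromBlocks_map,
      Matrix.fromBlocks_map, h1, ← Matrix.fromBlocks_one]
    ext1 i j
    rcases i with i | i <;> rcases j with j | j <;>
      simp [Matrix.mul_apply, Fintype.sum_sum_type, Fin.fin_one_eq_zero]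
  have e2 : gS φ (kU (MonoidAlgebra.single g 1)) =
      fromBlocks (Matrix.of fun _ _ => -3) (Matrix.of fun _ _ => -4)
        (Matrix.of fun _ _ => 4) (Matrix.of fun _ _ => 5) := by
    have h1 : (th (MonoidAlgebra.single g 1 : MonoidAlgebra ℤ G)).map (sgn φ) =
        Matrix.of fun _ _ => -4 := by
      ext1 i j; exact hsg i j
    change (fromBlocks 1 0 (-1) 1 * fromBlocks 1 (th (MonoidAlgebra.single g 1)) 0 1 *
      fromBlocks 1 0 1 1 : Matrix (Fin 1 ⊕ Fin 1) (Fin 1 ⊕ Fin 1) (MonoidAlgebra ℤ G)).map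
        (sgn φ) = _
    rw [Matrix.map_mul, Matrix.map_mul, Matrix.fromBlocks_map, Matrix.fromBlocks_map,
      Matrix.fromBlocks_map, h1]
    ext1 i j
    rcases i with i | i <;> rcases j with j | j <;>
      simp [Matrix.mul_apply, Fintype.sum_sum_type, Fin.fin_one_eq_zero]
  have e3 : nM φ (kU (MonoidAlgebra.single g 1)) =
      fromBlocks (Matrix.of fun _ _ => -3) (Matrix.of fun _ _ => -4)
        (Matrix.of fun _ _ => 4) (Matrix.of fun _ _ => 5) := by
    rw [nM_eq φ (Y := 1) (by rw [e1, one_mul]), one_mul, e2]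
  have e4 : fP φ (kU (MonoidAlgebra.single g 1)) = 5 := by
    have h1 : 1 + (red8 (nM φ (kU (MonoidAlgebra.single g 1))) - 1) * EZ (ZMod 8) 1 =
        fromBlocks 1 (Matrix.of fun _ _ => -4) 0 (Matrix.of fun _ _ => 5) := by
      rw [e3]
      unfold red8 EZ
      rw [Matrix.fromBlocks_map]
      ext1 i j
      rcases i with i | i <;> rcases j with j | j <;>
        simp [Matrix.mul_apply, Fintype.sum_sum_type, Fin.fin_one_eq_zero]
    unfold fP
    rw [h1, det_fromBlocks_zero₂₁, det_one, one_mul]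
    simp
  rw [e4]
  decide

end char

section squares

variable {G : Type*} [Group G]

/-- The subgroup generated by the squares. -/
def sqG (G : Type*) [Group G] : Subgroup G := Subgroup.closure (Set.range fun h : G => h * h)

theorem sq_mem (h : G) : h * h ∈ sqG G := Subgroup.subset_closure ⟨h, rfl⟩

instance : (sqG G).Normal := by
  constructor
  intro x hx y
  have h1 : y * x * y⁻¹ = (y * y) * ((y⁻¹ * x) * (y⁻¹ * x)) * x⁻¹ := by group
  rw [h1]
  exact mul_mem (mul_mem (sq_mem _) (sq_mem _)) (inv_mem hx)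

theorem quot_sq (x : G ⧸ sqG G) : x * x = 1 := by
  obtain ⟨y, rfl⟩ := QuotientGroup.mk_surjective x
  rw [← QuotientGroup.mk_mul]
  exact (QuotientGroup.eq_one_iff _).mpr (sq_mem y)

noncomputable instance : CommGroup (G ⧸ sqG G) where
  mul_comm x y := by
    have h1 := quot_sq (x * y)
    have h2 : x * y = (x * y)⁻¹ := eq_inv_of_mul_eq_one_left h1
    have h3 : x⁻¹ = x := inv_eq_of_mul_eq_one_left (quot_sq x)
    have h4 : y⁻¹ = y := inv_eq_of_mul_eq_one_left (quot_sq y)
    rw [h2, _root_.mul_inv_rev, h3, h4]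

theorem zmod_sign : ∀ a b : ZMod 2, (if a + b = 0 then (1 : ℤˣ) else -1) =
    (if a = 0 then 1 else -1) * (if b = 0 then 1 else -1) := by decide

/-- An element which is not a product of squares is mapped to `-1` by a homomorphism. -/
theorem exists_char {g : G} (hg : g ∉ sqG G) : ∃ φ : G →* ℤˣ, φ g = -1 := by
  let _ : Module (ZMod 2) (Additive (G ⧸ sqG G)) := AddCommGroup.zmodModule (by
    intro x
    rw [two_nsmul]
    exact quot_sq (Additive.toMul x))
  have h1 : Additive.ofMul (QuotientGroup.mk g : G ⧸ sqG G) ≠ 0 := by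
    intro h
    apply hg
    exact (QuotientGroup.eq_one_iff g).mp (Additive.ofMul.injective h)
  have h2 := (Module.forall_dual_apply_eq_zero_iff (ZMod 2)
    (Additive.ofMul (QuotientGroup.mk g : G ⧸ sqG G))).not.mpr h1
  rw [not_forall] at h2
  obtain ⟨f, hf⟩ := h2
  refine ⟨MonoidHom.mk' (fun x => if f (Additive.ofMul (QuotientGroup.mk x : G ⧸ sqG G)) = 0
    then 1 else -1) ?_, ?_⟩
  · intro x y
    rw [← zmod_sign, ← map_add]
    rfl
  · change (if f (Additive.ofMul (QuotientGroup.mk g : G ⧸ sqG G)) = 0 then (1 : ℤˣ) else -1) = -1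
    rw [if_neg hf]

/-- The class of the matrix of rank one is zero if and only if the group element is a product of
squares. -/
theorem kH_zero_iff (g : G) : kH (MonoidAlgebra.single g 1 : MonoidAlgebra ℤ G) = 0 ↔ g ∈ sqG G := by
  constructor
  · intro h
    by_contra hg
    obtain ⟨φ, hφ⟩ := exists_char hg
    apply chiL_kH φ g hφ
    rw [h, map_zero]
  · intro h
    have h1 : sqG G ≤ (kG G).ker := by
      unfold sqG
      rw [Subgroup.closure_le]
      rintro _ ⟨x, rfl⟩
      change kG G (x * x) = 1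
      rw [map_mul, kG_sq]
    exact Multiplicative.ofAdd.injective (h1 h)

end squares

end Pool.Agent.H750.P
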