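import Pool.Agent.H750.P.Place
import Pool.Agent.H750.P.IntP
import Pool.Agent.H750.P.Arf

set_option autoImplicit false

/-! # Unitary matrices over the integers for the sign `-1` -/

namespace Pool.Agent.H750.P

open Matrix

theorem mem_evenP {a : ℤ} : a ∈ evenP.carrier ↔ Even a := Iff.rfl

theorem even_le_all : evenP.carrier ≤ allP.carrier := le_top

section form

variable {A : Type*} [Ring A] [StarRing A] {e : ℤˣ} {Λ Λ' : FormParam A e} {n : ℕ}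

/-- The conjugate of a transvection by a unitary matrix. -/
theorem conj_form {u T : (Matrix (Ci n) (Ci n) A)ˣ} (hu : u ∈ UQ Λ (psiC A n))
    (Dt : Matrix (Ci n) (Ci n) A) (hT : T.val * psiC A n * T.valᴴ - psiC A n = Dt) :
    Triv Λ ((u * T).val * psiC A n * ((u * T).val)ᴴ - psiC A n - u.val * Dt * u.valᴴ) ∧
    Triv Λ ((u * T * u⁻¹).val * psiC A n * ((u * T * u⁻¹).val)ᴴ - psiC A n -
      u.val * Dt * u.valᴴ) := by
  have h1 : Triv Λ (u.val * psiC A n * u.valᴴ - psiC A n) := hu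
  have h2 : Triv Λ ((u⁻¹).val * psiC A n * (u⁻¹).valᴴ - psiC A n) := inv_mem hu
  have h3 : T.val * psiC A n * T.valᴴ = psiC A n + Dt := by rw [← hT]; abel
  have h4 : (u * T).val * psiC A n * ((u * T).val)ᴴ - psiC A n - u.val * Dt * u.valᴴ =
      u.val * psiC A n * u.valᴴ - psiC A n := by
    have h5 : (u * T).val * psiC A n * ((u * T).val)ᴴ =
        u.val * (T.val * psiC A n * T.valᴴ) * u.valᴴ := by
      rw [Units.val_mul, conjTranspose_mul]; simp only [Matrix.mul_assoc]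
    rw [h5, h3, Matrix.mul_add, Matrix.add_mul]
    abel
  refine ⟨by rw [h4]; exact h1, ?_⟩
  have h6 : (u * T * u⁻¹).val * psiC A n * ((u * T * u⁻¹).val)ᴴ - psiC A n -
      u.val * Dt * u.valᴴ = (u.val * psiC A n * u.valᴴ - psiC A n) +
      (u * T).val * ((u⁻¹).val * psiC A n * (u⁻¹).valᴴ - psiC A n) * ((u * T).val)ᴴ := by
    have h5 : (u * T * u⁻¹).val * psiC A n * ((u * T * u⁻¹).val)ᴴ =
        (u * T).val * ((u⁻¹).val * psiC A n * (u⁻¹).valᴴ) * ((u * T).val)ᴴ := by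
      rw [Units.val_mul (u * T), conjTranspose_mul]; simp only [Matrix.mul_assoc]
    rw [h5, Matrix.mul_sub, Matrix.sub_mul, ← h4]
    abel
  rw [h6]
  exact h1.add (h2.conj _)

/-- The image of the form of the transvection under an Eichler transformation. -/
theorem Ei_D (v : Matrix (Fin 1) (Fin n ⊕ Fin n) A) (m D : Matrix (Fin 1) (Fin 1) A) :
    Ei e v m * fromBlocks 0 0 0 (fromBlocks 0 0 0 D) * (Ei e v m)ᴴ =
      fromBlocks ((-((e : ℤ) • (Jm A e n * vᴴ))) * D * (-(v * Jm A e n)))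
        (fromCols (-((e : ℤ) • (Jm A e n * vᴴ)) * D * mᴴ) (-((e : ℤ) • (Jm A e n * vᴴ)) * D))
        (fromRows (m * D * (-(v * Jm A e n))) (D * (-(v * Jm A e n))))
        (fromBlocks (m * D * mᴴ) (m * D) (D * mᴴ) D) := by
  rw [Ei_conj]
  unfold Ei
  rw [Matrix.fromBlocks_multiply, Matrix.fromBlocks_multiply]
  congr 1
  · simp only [Matrix.mul_zero, Matrix.zero_mul, zero_add, add_zero]
    rw [fromCols_mul_fromBlocks, fromCols_mul_fromRows]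
    simp [-zsmul_eq_mul]
  · simp only [Matrix.mul_zero, Matrix.zero_mul, zero_add, add_zero]
    rw [fromCols_mul_fromBlocks, fromCols_mul_fromBlocks]
    simp [-zsmul_eq_mul]
  · simp only [Matrix.mul_zero, Matrix.zero_mul, zero_add, add_zero]
    rw [Matrix.fromBlocks_multiply, fromBlocks_mul_fromRows]
    simp [-zsmul_eq_mul]
  · simp only [Matrix.mul_zero, Matrix.zero_mul, zero_add, add_zero]
    rw [Matrix.fromBlocks_multiply, Matrix.fromBlocks_multiply]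
    simp [-zsmul_eq_mul]

end form

/-! ### the integers -/

section int

variable {n : ℕ}

theorem JmZ_inl (v : Matrix (Fin 1) (Fin n ⊕ Fin n) ℤ) (k : Fin n) :
    (Jm ℤ (-1) n * vᴴ) (Sum.inl k) 0 = v 0 (Sum.inr k) := by
  rw [Jm_blocks]
  simp [Matrix.mul_apply, Fintype.sum_sum_type, Matrix.one_apply]

theorem JmZ_inr (v : Matrix (Fin 1) (Fin n ⊕ Fin n) ℤ) (k : Fin n) :
    (Jm ℤ (-1) n * vᴴ) (Sum.inr k) 0 = -v 0 (Sum.inl k) := by
  rw [Jm_blocks]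
  simp [Matrix.mul_apply, Fintype.sum_sum_type, Matrix.one_apply]

theorem JmZ_inl' (v : Matrix (Fin 1) (Fin n ⊕ Fin n) ℤ) (k : Fin n) :
    (v * Jm ℤ (-1) n) 0 (Sum.inl k) = -v 0 (Sum.inr k) := by
  rw [Jm_blocks]
  simp [Matrix.mul_apply, Fintype.sum_sum_type, Matrix.one_apply]

theorem JmZ_inr' (v : Matrix (Fin 1) (Fin n ⊕ Fin n) ℤ) (k : Fin n) :
    (v * Jm ℤ (-1) n) 0 (Sum.inr k) = v 0 (Sum.inl k) := by
  rw [Jm_blocks]
  simp [Matrix.mul_apply, Fintype.sum_sum_type, Matrix.one_apply]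

/-- The diagonal entries for the integers. -/
theorem Ei_D_diag (v : Matrix (Fin 1) (Fin n ⊕ Fin n) ℤ) (m : Matrix (Fin 1) (Fin 1) ℤ) :
    (∀ k : Fin n, (Ei (-1) v m * fromBlocks 0 0 0 (fromBlocks 0 0 0 1) * (Ei (-1) v m)ᴴ :
      Matrix (Ci n) (Ci n) ℤ) (Sum.inl (Sum.inl k)) (Sum.inl (Sum.inl k)) =
        v 0 (Sum.inr k) * v 0 (Sum.inr k)) ∧
    (∀ k : Fin n, (Ei (-1) v m * fromBlocks 0 0 0 (fromBlocks 0 0 0 1) * (Ei (-1) v m)ᴴ :
      Matrix (Ci n) (Ci n) ℤ) (Sum.inl (Sum.inr k)) (Sum.inl (Sum.inr k)) =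
        v 0 (Sum.inl k) * v 0 (Sum.inl k)) ∧
    (∀ k : Fin 1, (Ei (-1) v m * fromBlocks 0 0 0 (fromBlocks 0 0 0 1) * (Ei (-1) v m)ᴴ :
      Matrix (Ci n) (Ci n) ℤ) (Sum.inr (Sum.inl k)) (Sum.inr (Sum.inl k)) = m 0 0 * m 0 0) ∧
    (∀ k : Fin 1, (Ei (-1) v m * fromBlocks 0 0 0 (fromBlocks 0 0 0 1) * (Ei (-1) v m)ᴴ :
      Matrix (Ci n) (Ci n) ℤ) (Sum.inr (Sum.inr k)) (Sum.inr (Sum.inr k)) = 1) := by
  rw [Ei_D]
  have hX : ∀ k, (-(((-1 : ℤˣ) : ℤ) • (Jm ℤ (-1) n * vᴴ))) k 0 = (Jm ℤ (-1) n * vᴴ) k 0 := by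
    intro k
    simp
  refine ⟨fun k => ?_, fun k => ?_, fun k => ?_, fun k => ?_⟩
  · rw [fromBlocks_apply₁₁, Matrix.mul_one, Matrix.mul_apply, Fin.sum_univ_one, hX, JmZ_inl,
      Matrix.neg_apply, JmZ_inl', neg_neg]
  · rw [fromBlocks_apply₁₁, Matrix.mul_one, Matrix.mul_apply, Fin.sum_univ_one, hX, JmZ_inr,
      Matrix.neg_apply, JmZ_inr', neg_mul_neg]
  · rw [fromBlocks_apply₂₂, fromBlocks_apply₁₁, Matrix.mul_one, Matrix.mul_apply,
      Fin.sum_univ_one, Fin.fin_one_eq_zero k]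
    rfl
  · rw [fromBlocks_apply₂₂, fromBlocks_apply₂₂, Fin.fin_one_eq_zero k]
    rfl

theorem TU1_mem : TU ℤ n 1 ∈ UQ allP (psiC ℤ n) :=
  TU_mem ⟨by simp, fun _ => AddSubgroup.mem_top _⟩

/-- Every unitary matrix over the integers agrees, up to stabilisation and matrices which are unitary
for the even integers, with the conjugate of a transvection. -/
theorem match_int (g : UG allP n) : ∃ v : Matrix (Fin 1) (Fin n ⊕ Fin n) ℤ,
    (eiv (-1) v * TU ℤ n 1 * (eiv (-1) v)⁻¹)⁻¹ * (hat ℤ n g.val * TU ℤ n 1) ∈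
      UQ evenP (psiC ℤ n) := by
  obtain ⟨θ, hθ⟩ : ∃ θ, θ = g.val.val * hyp ℤ (Fin n) * g.val.valᴴ - hyp ℤ (Fin n) := ⟨_, rfl⟩
  have hg : Triv allP θ := by rw [hθ]; exact g.property
  have hθs : θᵀ = θ := by
    have h1 := hg.1
    have h2 : θᴴ = θᵀ := by ext1 i j; simp [conjTranspose_apply]
    rw [h2] at h1
    rw [h1]
    simp
  have hev := arf_matrix g.val.val (g.val⁻¹).val g.val.mul_inv g.val.inv_mul θ hθs (by
    have h2 : g.val.valᴴ = g.val.valᵀ := by ext1 i j; simp [conjTranspose_apply]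
    rw [hθ, h2]
    change _ = hyp ℤ (Fin n) + _
    rw [add_sub_cancel]
    rfl)
  refine ⟨Matrix.of fun _ => Sum.elim (fun k => θ (Sum.inr k) (Sum.inr k))
    (fun k => θ (Sum.inl k) (Sum.inl k)), ?_⟩
  set v : Matrix (Fin 1) (Fin n ⊕ Fin n) ℤ := Matrix.of fun _ =>
    Sum.elim (fun k => θ (Sum.inr k) (Sum.inr k)) (fun k => θ (Sum.inl k) (Sum.inl k)) with hv
  have hu : eiv (-1) v ∈ UQ evenP (psiC ℤ n) := eiv_mem evenP v
  have hu' : eiv (-1) v ∈ UQ allP (psiC ℤ n) := eiv_mem allP v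
  have hQ : eiv (-1) v * TU ℤ n 1 * (eiv (-1) v)⁻¹ ∈ UQ allP (psiC ℤ n) :=
    mul_mem (mul_mem hu' TU1_mem) (inv_mem hu')
  have hP : hat ℤ n g.val * TU ℤ n 1 ∈ UQ allP (psiC ℤ n) := mul_mem (hat_mem g.property) TU1_mem
  refine inv_mul_mem hP hQ ?_
  have h1 := (conj_form hu _ (TU_form (A := ℤ) (n := n) 1)).2
  have h2 : (hat ℤ n g.val * TU ℤ n 1).val * psiC ℤ n * ((hat ℤ n g.val * TU ℤ n 1).val)ᴴ =
      psiC ℤ n + fromBlocks θ 0 0 (fromBlocks 0 0 0 1) := by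
    have h3 := TU_form (A := ℤ) (n := n) 1
    have h4 : (TU ℤ n 1).val * psiC ℤ n * (TU ℤ n 1).valᴴ =
        psiC ℤ n + fromBlocks 0 0 0 (fromBlocks 0 0 0 1) := by rw [← h3]; abel
    have h5 : (hat ℤ n g.val * TU ℤ n 1).val * psiC ℤ n * ((hat ℤ n g.val * TU ℤ n 1).val)ᴴ =
        (hat ℤ n g.val).val * ((TU ℤ n 1).val * psiC ℤ n * (TU ℤ n 1).valᴴ) *
          (hat ℤ n g.val).valᴴ := by
      rw [Units.val_mul, conjTranspose_mul]; simp only [Matrix.mul_assoc]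
    rw [h5, h4, hat_val]
    unfold psiC
    rw [fromBlocks_add, fromBlocks_add, fromBlocks_conjTranspose, Matrix.fromBlocks_multiply,
      Matrix.fromBlocks_multiply]
    congr 1
    · simp [hθ]
    · simp
    · simp
    · simp
  obtain ⟨d1, d2, d3, d4⟩ := Ei_D_diag v (-(v * hyp ℤ (Fin n) * vᴴ)ᴴ)
  have hm : Even ((-(v * hyp ℤ (Fin n) * vᴴ)ᴴ : Matrix (Fin 1) (Fin 1) ℤ) 0 0) := by
    have h6 : (-(v * hyp ℤ (Fin n) * vᴴ)ᴴ : Matrix (Fin 1) (Fin 1) ℤ) 0 0 =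
        -(∑ k, θ (Sum.inl k) (Sum.inl k) * θ (Sum.inr k) (Sum.inr k)) := by
      rw [hv]
      unfold hyp
      simp [Matrix.mul_apply, Fintype.sum_sum_type, Matrix.one_apply]
    rw [h6]
    exact hev.neg
  intro i
  have h7 := h1.2 i
  rw [mem_evenP] at h7 ⊢
  rw [h2]
  have h8 : (psiC ℤ n + fromBlocks θ 0 0 (fromBlocks 0 0 0 1) -
      (eiv (-1) v * TU ℤ n 1 * (eiv (-1) v)⁻¹).val * psiC ℤ n *
        ((eiv (-1) v * TU ℤ n 1 * (eiv (-1) v)⁻¹).val)ᴴ : Matrix (Ci n) (Ci n) ℤ) i i =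
      (fromBlocks θ 0 0 (fromBlocks 0 0 0 1) : Matrix (Ci n) (Ci n) ℤ) i i -
        ((eiv (-1) v).val * fromBlocks 0 0 0 (fromBlocks 0 0 0 1) * ((eiv (-1) v).val)ᴴ :
          Matrix (Ci n) (Ci n) ℤ) i i -
      ((eiv (-1) v * TU ℤ n 1 * (eiv (-1) v)⁻¹).val * psiC ℤ n *
        ((eiv (-1) v * TU ℤ n 1 * (eiv (-1) v)⁻¹).val)ᴴ - psiC ℤ n -
        (eiv (-1) v).val * fromBlocks 0 0 0 (fromBlocks 0 0 0 1) * ((eiv (-1) v).val)ᴴ :
          Matrix (Ci n) (Ci n) ℤ) i i := by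
    simp only [Matrix.sub_apply, Matrix.add_apply]
    ring
  rw [h8]
  refine Even.sub ?_ h7
  change Even (_ - (Ei (-1) v (-(v * hyp ℤ (Fin n) * vᴴ)ᴴ) * fromBlocks 0 0 0 (fromBlocks 0 0 0 1) *
    (Ei (-1) v (-(v * hyp ℤ (Fin n) * vᴴ)ᴴ))ᴴ : Matrix (Ci n) (Ci n) ℤ) i i)
  have hsq : ∀ a : ℤ, Even (a - a * a) := by
    intro a
    rcases Int.even_or_odd a with h | h
    · exact h.sub (h.mul_right _)
    · exact h.sub_odd (h.mul h)
  rcases i with (k | k) | (k | k)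
  · rw [d1 k]; exact hsq _
  · rw [d2 k]; exact hsq _
  · rw [d3 k]
    have h9 : (fromBlocks θ 0 0 (fromBlocks 0 0 0 1) : Matrix (Ci n) (Ci n) ℤ)
        (Sum.inr (Sum.inl k)) (Sum.inr (Sum.inl k)) = 0 := rfl
    rw [h9, zero_sub]
    exact (hm.mul_right _).neg
  · rw [d4 k]
    have h9 : (fromBlocks θ 0 0 (fromBlocks 0 0 0 1) : Matrix (Ci n) (Ci n) ℤ)
        (Sum.inr (Sum.inr k)) (Sum.inr (Sum.inr k)) = 1 := by
      rw [fromBlocks_apply₂₂, fromBlocks_apply₂₂, Matrix.one_apply_eq]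
    rw [h9, sub_self]
    exact Even.zero

end int

end Pool.Agent.H750.P
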